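import Mathlib

/-!
# Project GH (MP_35eb49), row GH-23: joins from least common multiples of atoms
-/

set_option autoImplicit false

namespace Pool.Agent.H88.GH

section lcm

variable {H : Type} [Group H]

/-- join of two elements of a group, with respect to left divisibility by `P` -/
def gh23_J (P : Submonoid H) (x y j : H) : Prop :=
  x⁻¹ * j ∈ P ∧ y⁻¹ * j ∈ P ∧ ∀ u, x⁻¹ * u ∈ P → y⁻¹ * u ∈ P → j⁻¹ * u ∈ P

theorem gh23_shift {P : Submonoid H} {x y j : H} (z : H) (h : gh23_J P x y j) :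
    gh23_J P (z * x) (z * y) (z * j) := by
  obtain ⟨h1, h2, h3⟩ := h
  refine ⟨?_, ?_, fun u hx hy => ?_⟩
  · rw [mul_inv_rev, mul_assoc, inv_mul_cancel_left]; exact h1
  · rw [mul_inv_rev, mul_assoc, inv_mul_cancel_left]; exact h2
  · rw [mul_inv_rev, mul_assoc] at hx hy ⊢
    exact h3 _ hx hy

theorem gh23_trans {P : Submonoid H} {x y z : H} (h : x⁻¹ * y ∈ P) (h' : y⁻¹ * z ∈ P) :
    x⁻¹ * z ∈ P := by
  have := mul_mem h h'
  rwa [mul_assoc, mul_inv_cancel_left] at this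

theorem gh23_main (P : Submonoid H) (len : H → ℤ)
    (len_mul : ∀ x y, len (x * y) = len x + len y) (len_nonneg : ∀ x ∈ P, 0 ≤ len x)
    (S : Set H) (hS : ∀ a ∈ S, a ∈ P ∧ 0 < len a)
    (hgen : ∀ x ∈ P, x ≠ 1 → ∃ a ∈ S, ∃ y ∈ P, x = a * y)
    (hlcm : ∀ a ∈ S, ∀ b ∈ S, ∃ m, a⁻¹ * m ∈ P ∧ b⁻¹ * m ∈ P ∧
      ∀ w ∈ P, a⁻¹ * w ∈ P → b⁻¹ * w ∈ P → m⁻¹ * w ∈ P) :
    ∀ (n : ℕ) (x y u : H), x ∈ P → y ∈ P → x⁻¹ * u ∈ P → y⁻¹ * u ∈ P → len u ≤ n →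
      ∃ j, gh23_J P x y j := by
  have hone : len 1 = 0 := by
    have := len_mul 1 1
    rw [mul_one] at this
    omega
  have hinv : ∀ x, len x⁻¹ = -len x := by
    intro x
    have := len_mul x⁻¹ x
    rw [inv_mul_cancel, hone] at this
    omega
  intro n
  induction n with
  | zero =>
    intro x y u hx hy hxu hyu hn
    have hx1 : x = 1 := by
      by_contra hc
      obtain ⟨a, ha, z, hz, rfl⟩ := hgen x hx hc
      have h1 := len_nonneg _ hxu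
      have h2 := len_nonneg _ hz
      have h3 := (hS a ha).2
      rw [len_mul, hinv, len_mul] at h1
      push_cast at hn
      omega
    subst hx1
    exact ⟨y, by rwa [inv_one, one_mul], by rw [inv_mul_cancel]; exact one_mem P,
      fun u _ h => h⟩
  | succ n ih =>
    intro x y u hx hy hxu hyu hn
    by_cases hx1 : x = 1
    · subst hx1
      exact ⟨y, by rwa [inv_one, one_mul], by rw [inv_mul_cancel]; exact one_mem P,
        fun u _ h => h⟩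
    by_cases hy1 : y = 1
    · subst hy1
      exact ⟨x, by rw [inv_mul_cancel]; exact one_mem P, by rwa [inv_one, one_mul],
        fun u h _ => h⟩
    obtain ⟨a, ha, x', hx', rfl⟩ := hgen x hx hx1
    obtain ⟨b, hb, y', hy', rfl⟩ := hgen y hy hy1
    obtain ⟨haP, halen⟩ := hS a ha
    obtain ⟨hbP, hblen⟩ := hS b hb
    obtain ⟨m, ham, hbm, hm⟩ := hlcm a ha b hb
    have hup : ∀ w, (a * x')⁻¹ * w ∈ P → a⁻¹ * w ∈ P := by
      intro w hw
      have h1 := mul_mem hx' hw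
      rwa [mul_inv_rev, mul_assoc, mul_inv_cancel_left] at h1
    have hup' : ∀ w, (b * y')⁻¹ * w ∈ P → b⁻¹ * w ∈ P := by
      intro w hw
      have h1 := mul_mem hy' hw
      rwa [mul_inv_rev, mul_assoc, mul_inv_cancel_left] at h1
    have hup2 : ∀ w, (a * x')⁻¹ * w ∈ P → w ∈ P := by
      intro w hw
      have h1 := mul_mem haP (hup w hw)
      rwa [mul_inv_cancel_left] at h1
    have hmu : m⁻¹ * u ∈ P := hm u (hup2 u hxu) (hup u hxu) (hup' u hyu)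
    have hau : len (a⁻¹ * u) ≤ n := by
      rw [len_mul, hinv]; push_cast at hn; omega
    have hbu : len (b⁻¹ * u) ≤ n := by
      rw [len_mul, hinv]; push_cast at hn; omega
    have hmlen : 0 < len m := by
      have h1 := len_nonneg _ ham
      rw [len_mul, hinv] at h1
      omega
    have hmu' : len (m⁻¹ * u) ≤ n := by
      rw [len_mul, hinv]; push_cast at hn; omega
    -- the two partial joins
    obtain ⟨p, hp⟩ := ih x' (a⁻¹ * m) (a⁻¹ * u) hx' ham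
      (by rw [mul_inv_rev, mul_assoc] at hxu; exact hxu)
      (by rw [mul_inv_rev, inv_inv, mul_assoc, mul_inv_cancel_left]; exact hmu) hau
    obtain ⟨q, hq⟩ := ih y' (b⁻¹ * m) (b⁻¹ * u) hy' hbm
      (by rw [mul_inv_rev, mul_assoc] at hyu; exact hyu)
      (by rw [mul_inv_rev, inv_inv, mul_assoc, mul_inv_cancel_left]; exact hmu) hbu
    have hp' := gh23_shift a hp
    have hq' := gh23_shift b hq
    rw [mul_inv_cancel_left] at hp' hq'
    have hpu : (a * p)⁻¹ * u ∈ P := hp'.2.2 u hxu hmu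
    have hqu : (b * q)⁻¹ * u ∈ P := hq'.2.2 u hyu hmu
    obtain ⟨r, hr⟩ := ih (m⁻¹ * (a * p)) (m⁻¹ * (b * q)) (m⁻¹ * u) hp'.2.1 hq'.2.1
      (by rw [mul_inv_rev, inv_inv, mul_assoc, mul_inv_cancel_left]; exact hpu)
      (by rw [mul_inv_rev, inv_inv, mul_assoc, mul_inv_cancel_left]; exact hqu) hmu'
    have hr' := gh23_shift m hr
    rw [mul_inv_cancel_left, mul_inv_cancel_left] at hr'
    refine ⟨m * r, gh23_trans hp'.1 hr'.1, gh23_trans hq'.1 hr'.2.1, fun w h1 h2 => ?_⟩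
    have hmw : m⁻¹ * w ∈ P := hm w (hup2 w h1) (hup w h1) (hup' w h2)
    exact hr'.2.2 w (hp'.2.2 w h1 hmw) (hq'.2.2 w h2 hmw)

theorem exists_sup {H : Type} [Group H] (P : Submonoid H) (len : H → ℤ)
    (len_mul : ∀ x y, len (x * y) = len x + len y) (len_nonneg : ∀ x ∈ P, 0 ≤ len x)
    (S : Set H) (hS : ∀ a ∈ S, a ∈ P ∧ 0 < len a)
    (hgen : ∀ x ∈ P, x ≠ 1 → ∃ a ∈ S, ∃ y ∈ P, x = a * y)
    (hlcm : ∀ a ∈ S, ∀ b ∈ S, ∃ m, a⁻¹ * m ∈ P ∧ b⁻¹ * m ∈ P ∧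
      ∀ w ∈ P, a⁻¹ * w ∈ P → b⁻¹ * w ∈ P → m⁻¹ * w ∈ P)
    (hlow : ∀ x y : H, ∃ z, z⁻¹ * x ∈ P ∧ z⁻¹ * y ∈ P)
    (hup : ∀ x y : H, ∃ z, x⁻¹ * z ∈ P ∧ y⁻¹ * z ∈ P) (x y : H) :
    ∃ j, x⁻¹ * j ∈ P ∧ y⁻¹ * j ∈ P ∧ ∀ u, x⁻¹ * u ∈ P → y⁻¹ * u ∈ P → j⁻¹ * u ∈ P := by
  obtain ⟨z, hzx, hzy⟩ := hlow x y
  obtain ⟨u, hxu, hyu⟩ := hup x y
  obtain ⟨j, hj⟩ := gh23_main P len len_mul len_nonneg S hS hgen hlcm (len (z⁻¹ * u)).toNat
    (z⁻¹ * x) (z⁻¹ * y) (z⁻¹ * u) hzx hzy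
    (by rw [mul_inv_rev, inv_inv, mul_assoc, mul_inv_cancel_left]; exact hxu)
    (by rw [mul_inv_rev, inv_inv, mul_assoc, mul_inv_cancel_left]; exact hyu)
    (Int.self_le_toNat _)
  have h := gh23_shift z hj
  rw [mul_inv_cancel_left, mul_inv_cancel_left] at h
  exact ⟨z * j, h⟩

end lcm

end Pool.Agent.H88.GH
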