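import Pool.Agent.H88.GH.Defs

/-!
# Project GH (MP_35eb49): the distance of a Garside structure
-/

set_option autoImplicit false

namespace Pool.Agent.H88.GH

namespace Gar

variable {G : Type} [Group G] [Gar G]

theorem len_pow (x : G) (n : ℕ) : len (x ^ n) = n * len x := by
  induction n with
  | zero => simp [len_one]
  | succ n ih =>
    rw [pow_succ, len_mul, ih]
    push_cast
    ring

theorem len_zpow (x : G) (k : ℤ) : len (x ^ k) = k * len x := by
  obtain ⟨n, rfl | rfl⟩ := k.eq_nat_or_neg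
  · rw [zpow_natCast, len_pow]
  · rw [zpow_neg, zpow_natCast, len_inv, len_pow]
    ring

/-- The least `k` with `y ≤ x δ^k`. -/
noncomputable def d (x y : G) : ℤ := sInf {k : ℤ | y ≤ x * δ ^ k}

theorem d_set_nonempty (x y : G) : {k : ℤ | y ≤ x * δ ^ k}.Nonempty := by
  obtain ⟨k, hk⟩ := exists_le_zpow y x
  refine ⟨(k : ℤ), ?_⟩
  change y ≤ x * δ ^ (k : ℤ)
  rw [zpow_natCast]
  exact hk

theorem d_set_bdd (x y : G) : BddBelow {k : ℤ | y ≤ x * δ ^ k} := by
  refine ⟨(len y - len x) / 3, fun k hk => ?_⟩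
  have hk' : y ≤ x * δ ^ k := hk
  have h := len_le hk'
  rw [len_mul, len_zpow, len_δ] at h
  omega

theorem le_mul_d (x y : G) : y ≤ x * δ ^ d x y :=
  Int.csInf_mem (d_set_nonempty x y) (d_set_bdd x y)

theorem d_le_iff {x y : G} {k : ℤ} : d x y ≤ k ↔ y ≤ x * δ ^ k := by
  constructor
  · intro h
    exact (le_mul_d x y).trans (mul_zpow_mono x h)
  · intro h
    exact csInf_le (d_set_bdd x y) h

theorem d_mul_left (z x y : G) : d (z * x) (z * y) = d x y := by
  apply le_antisymm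
  · rw [d_le_iff, mul_assoc, mul_le_mul_iff, ← d_le_iff]
  · rw [d_le_iff, ← mul_le_mul_iff z, ← mul_assoc, ← d_le_iff]

theorem d_triangle (x y z : G) : d x z ≤ d x y + d y z := by
  rw [d_le_iff]
  refine (le_mul_d y z).trans ?_
  rw [zpow_add, ← mul_assoc, mul_zpow_le_iff]
  exact le_mul_d x y

theorem d_mul_zpow (x y : G) (k : ℤ) : d x (y * δ ^ k) = d x y + k := by
  apply le_antisymm
  · rw [d_le_iff, zpow_add, ← mul_assoc, mul_zpow_le_iff]
    exact le_mul_d x y
  · have h : d x y ≤ d x (y * δ ^ k) - k := by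
      rw [d_le_iff, sub_eq_add_neg, zpow_add, ← mul_assoc, le_mul_zpow_iff, neg_neg]
      exact le_mul_d _ _
    omega

theorem d_zpow_mul (x y : G) (k : ℤ) : d (x * δ ^ k) y = d x y - k := by
  apply le_antisymm
  · rw [d_le_iff, mul_assoc, ← zpow_add, add_sub_cancel]
    exact le_mul_d x y
  · have h : d x y ≤ d (x * δ ^ k) y + k := by
      rw [d_le_iff, add_comm, zpow_add, ← mul_assoc]
      exact le_mul_d _ _
    omega

theorem d_self (x : G) : d x x = 0 := by
  apply le_antisymm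
  · rw [d_le_iff, zpow_zero, mul_one]
  · have h := len_le (le_mul_d x x)
    rw [len_mul, len_zpow, len_δ] at h
    omega

theorem d_sup (x y z : G) : d x (y ⊔ z) = max (d x y) (d x z) := by
  apply le_antisymm
  · rw [d_le_iff]
    apply sup_le
    · rw [← d_le_iff]
      exact le_max_left _ _
    · rw [← d_le_iff]
      exact le_max_right _ _
  · apply max_le
    · rw [d_le_iff]
      exact le_sup_left.trans (le_mul_d _ _)
    · rw [d_le_iff]
      exact le_sup_right.trans (le_mul_d _ _)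

theorem d_mono (x : G) {y z : G} (h : y ≤ z) : d x y ≤ d x z := by
  rw [d_le_iff]
  exact h.trans (le_mul_d _ _)

theorem d_anti {x x' : G} (h : x ≤ x') (y : G) : d x' y ≤ d x y := by
  rw [d_le_iff]
  exact (le_mul_d x y).trans ((mul_zpow_le_iff _).mpr h)

theorem len_le_d (x y : G) : len y - len x ≤ 3 * d x y := by
  have h := len_le (le_mul_d x y)
  rw [len_mul, len_zpow, len_δ] at h
  omega

theorem d_one_zpow (k : ℤ) : d (1 : G) (δ ^ k) = k := by
  have h := d_mul_zpow (1 : G) 1 k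
  rw [one_mul, d_self, zero_add] at h
  exact h

theorem d_add_nonneg (x y : G) : 0 ≤ d x y + d y x := by
  have h := d_triangle x y x
  rwa [d_self] at h

theorem d_one_mul_le (x y : G) : d 1 (x * y) ≤ d 1 x + d 1 y := by
  have h := d_triangle 1 x (x * y)
  have h2 := d_mul_left x 1 y
  rw [mul_one] at h2
  rwa [h2] at h

theorem d_inv_one (x : G) : d x 1 = d 1 x⁻¹ := by
  have h := d_mul_left x⁻¹ x 1
  rw [inv_mul_cancel, mul_one] at h
  exact h.symm

theorem central_zpow (k : ℤ) (x : G) : δ ^ (5 * k) * x = x * δ ^ (5 * k) := by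
  have h : Commute (δ ^ 5 : G) x := central x
  have h2 := h.zpow_left k
  have h3 : (δ ^ 5 : G) ^ k = δ ^ (5 * k) := by
    rw [← zpow_natCast, ← zpow_mul]
    rfl
  rw [h3] at h2
  exact h2

theorem finite_Icc_pow (n : ℕ) : (Set.Icc (1 : G) (δ ^ n)).Finite := by
  induction n with
  | zero =>
    refine Set.Finite.subset (Set.finite_singleton (1 : G)) ?_
    rintro x ⟨h1, h2⟩
    rw [pow_zero] at h2
    exact le_antisymm h2 h1
  | succ n ih =>
    have hfin : (Set.Icc (1 : G) δ).Finite := by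
      refine Set.Finite.subset (fin (G := G)) ?_
      rintro x ⟨h1, h2⟩
      exact ⟨one_le_iff.mp h1, h2⟩
    refine Set.Finite.subset ((hfin.prod ih).image (fun p : G × G => p.1 * p.2)) ?_
    rintro x ⟨h1, h2⟩
    refine ⟨(x ⊓ δ, (x ⊓ δ)⁻¹ * x), ⟨⟨le_inf h1 one_le_δ, inf_le_right⟩, ?_, ?_⟩, ?_⟩
    · rw [← mul_le_mul_iff (x ⊓ δ), mul_one, mul_inv_cancel_left]
      exact inf_le_left
    · rw [← mul_le_mul_iff (x ⊓ δ), mul_inv_cancel_left]
      have h3 : (x ⊓ δ) * δ ^ n = x * δ ^ n ⊓ δ * δ ^ n := by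
        rw [← zpow_natCast, inf_zpow]
      rw [h3, ← pow_succ']
      exact le_inf (le_mul_pow x n) h2
    · exact mul_inv_cancel_left _ _

theorem finite_Icc (x y : G) : (Set.Icc x y).Finite := by
  obtain ⟨k, hk⟩ := cof (x⁻¹ * y)
  refine Set.Finite.subset ((finite_Icc_pow (G := G) k).image (fun z => x * z)) ?_
  rintro z ⟨h1, h2⟩
  refine ⟨x⁻¹ * z, ⟨?_, ?_⟩, mul_inv_cancel_left _ _⟩
  · rw [← mul_le_mul_iff x, mul_one, mul_inv_cancel_left]
    exact h1
  · have h3 : x⁻¹ * z ≤ x⁻¹ * y := (mul_le_mul_iff x⁻¹).mpr h2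
    exact h3.trans hk

/-- Nonempty sets that are bounded above have a least upper bound, which is a finite join. -/
theorem exists_lub (S : Set G) (hne : S.Nonempty) (u : G) (hu : ∀ x ∈ S, x ≤ u) :
    ∃ m, (∀ x ∈ S, x ≤ m) ∧ (∀ v, (∀ x ∈ S, x ≤ v) → m ≤ v) ∧
      ∀ I : Set G, (∀ x ∈ I, ∀ y ∈ I, x ⊔ y ∈ I) → S ⊆ I → m ∈ I := by
  obtain ⟨m, hm, hmax⟩ := exists_greatest
    {z : G | ∀ I : Set G, (∀ x ∈ I, ∀ y ∈ I, x ⊔ y ∈ I) → S ⊆ I → z ∈ I}
    (hne.imp fun x hx I _ hI => hI hx)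
    (fun x hx y hy => ⟨x ⊔ y, fun I h1 h2 => h1 x (hx I h1 h2) y (hy I h1 h2), le_sup_left,
      le_sup_right⟩) u
    (fun x hx => hx (Set.Iic u) (fun a ha b hb => Set.mem_Iic.mpr
      (sup_le (Set.mem_Iic.mp ha) (Set.mem_Iic.mp hb))) hu)
  exact ⟨m, fun x hx => hmax x (fun I _ hI => hI hx),
    fun v hv => hm (Set.Iic v) (fun a ha b hb => Set.mem_Iic.mpr
      (sup_le (Set.mem_Iic.mp ha) (Set.mem_Iic.mp hb))) hv, hm⟩

end Gar

end Pool.Agent.H88.GH
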