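import Pool.Agent.H88.GH.Defs2

/-!
# Project GH (MP_35eb49), row GH-9: horofunctions of cones
-/

set_option autoImplicit false

namespace Pool.Agent.H88.GH

namespace Gar

variable {G : Type} [Group G] [Gar G]

omit [Gar G] in
theorem gh9_kap_add {a b : G} (hab : Commute a b) (x y : ℤ × ℤ) :
    kap a b (x + y) = kap a b x * kap a b y := by
  unfold kap
  have h : Commute (b ^ x.2) (a ^ y.1) := (hab.symm.zpow_left _).zpow_right _
  rw [Prod.fst_add, Prod.snd_add, zpow_add, zpow_add]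
  calc a ^ x.1 * a ^ y.1 * (b ^ x.2 * b ^ y.2) = a ^ x.1 * (a ^ y.1 * b ^ x.2) * b ^ y.2 := by
        simp only [mul_assoc]
    _ = a ^ x.1 * (b ^ x.2 * a ^ y.1) * b ^ y.2 := by rw [h.eq]
    _ = a ^ x.1 * b ^ x.2 * (a ^ y.1 * b ^ y.2) := by simp only [mul_assoc]

omit [Gar G] in
theorem gh9_kap_zero (a b : G) : kap a b 0 = 1 := by
  unfold kap
  simp

omit [Gar G] in
theorem gh9_kap_nsmul {a b : G} (hab : Commute a b) (n : ℕ) (x : ℤ × ℤ) :
    kap a b (n • x) = kap a b x ^ n := by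
  induction n with
  | zero => rw [zero_smul, gh9_kap_zero, pow_zero]
  | succ n ih => rw [add_smul, one_smul, gh9_kap_add hab, ih, pow_succ]

theorem exists_bus {a b : G} (hab : Commute a b) (τ : ℤ × ℤ → ℤ)
    (hτ : ∀ x, IsT (kap a b x) (τ x)) (φ : ℤ × ℤ →+ ℤ) (h : IsCone τ φ) :
    ∃ I : Set G, Bus a b φ I := by
  obtain ⟨-, v, w, hgen, hcone⟩ := h
  have hv : τ v = φ v := by simpa using hcone 1 0
  have hw : τ w = φ w := by simpa using hcone 0 1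
  -- the cone
  set K : Set (ℤ × ℤ) := {x | ∃ m n : ℕ, x = m • v + n • w} with hK
  have hK0 : (0 : ℤ × ℤ) ∈ K := ⟨0, 0, by simp⟩
  have hKadd : ∀ x ∈ K, ∀ y ∈ K, x + y ∈ K := by
    rintro x ⟨m, n, rfl⟩ y ⟨m', n', rfl⟩
    exact ⟨m + m', n + n', by rw [add_smul, add_smul]; abel⟩
  have hKφ : ∀ x ∈ K, τ x = φ x := by
    rintro x ⟨m, n, rfl⟩
    exact hcone m n
  have hKdiff : ∀ y : ℤ × ℤ, ∃ x ∈ K, ∃ z ∈ K, y + x = z := by
    intro y
    obtain ⟨m, n, rfl⟩ := hgen y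
    refine ⟨m.natAbs • v + n.natAbs • w, ⟨_, _, rfl⟩, (m + m.natAbs).toNat • v +
      (n + n.natAbs).toNat • w, ⟨_, _, rfl⟩, ?_⟩
    rw [← natCast_zsmul, ← natCast_zsmul, ← natCast_zsmul, ← natCast_zsmul,
      Int.toNat_of_nonneg (by omega), Int.toNat_of_nonneg (by omega), add_smul, add_smul]
    abel
  -- upper bound on the cone
  obtain ⟨C1, hC1⟩ := hτ v
  obtain ⟨C2, hC2⟩ := hτ w
  have hup : ∀ x ∈ K, d 1 (kap a b x) ≤ φ x + (C1 + C2) := by
    rintro x ⟨m, n, rfl⟩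
    rw [gh9_kap_add hab, gh9_kap_nsmul hab, gh9_kap_nsmul hab, map_add, map_nsmul, map_nsmul]
    have h1 := d_one_mul_le (kap a b v ^ m) (kap a b w ^ n)
    have h2 := (hC1 m).2
    have h3 := (hC2 n).2
    rw [hv] at h2
    rw [hw] at h3
    simp only [nsmul_eq_mul]
    linarith
  -- the ideal
  set I0 : Set G := {z | ∃ q ∈ K, ∀ x ∈ K, kap a b (x + q) * z ≤ δ ^ (φ (x + q))} with hI0
  have hdown : ∀ x ∈ I0, ∀ y ≤ x, y ∈ I0 := by
    rintro x ⟨q, hq, hx⟩ y hyx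
    exact ⟨q, hq, fun z hz => ((mul_le_mul_iff _).mpr hyx).trans (hx z hz)⟩
  have hmove : ∀ z : G, ∀ q ∈ K, (∀ x ∈ K, kap a b (x + q) * z ≤ δ ^ (φ (x + q))) →
      ∀ r ∈ K, ∀ x ∈ K, kap a b (x + (q + r)) * z ≤ δ ^ (φ (x + (q + r))) := by
    intro z q hq hz r hr x hx
    have h1 := hz (x + r) (hKadd x hx r hr)
    have h2 : x + r + q = x + (q + r) := by abel
    rwa [h2] at h1
  have hsup : ∀ x ∈ I0, ∀ y ∈ I0, x ⊔ y ∈ I0 := by
    rintro x ⟨q, hq, hx⟩ y ⟨r, hr, hy⟩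
    refine ⟨q + r, hKadd q hq r hr, fun z hz => ?_⟩
    rw [mul_sup']
    refine sup_le (hmove x q hq hx r hr z hz) ?_
    rw [add_comm q r]
    exact hmove y r hr hy q hq z hz
  have hshiftK : ∀ y ∈ K, ∀ z, kap a b y * z * δ ^ (-φ y) ∈ I0 ↔ z ∈ I0 := by
    intro y hy z
    have key : ∀ x, kap a b x * (kap a b y * z * δ ^ (-φ y)) ≤ δ ^ (φ x) ↔
        kap a b (x + y) * z ≤ δ ^ (φ (x + y)) := by
      intro x
      have h1 : kap a b x * (kap a b y * z * δ ^ (-φ y)) = kap a b (x + y) * z * δ ^ (-φ y) := by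
        rw [gh9_kap_add hab]
        simp only [mul_assoc]
      rw [h1, ← le_mul_zpow_iff (φ y), ← zpow_add, map_add]
    constructor
    · rintro ⟨q, hq, hz⟩
      refine ⟨q + y, hKadd q hq y hy, fun x hx => ?_⟩
      have h1 := (key (x + q)).mp (hz x hx)
      rwa [add_assoc] at h1
    · rintro ⟨q, hq, hz⟩
      refine ⟨q, hq, fun x hx => ?_⟩
      rw [key]
      have h1 := hz (x + y) (hKadd x hx y hy)
      have h2 : x + y + q = x + q + y := by abel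
      rwa [h2] at h1
  have hshift : ∀ y z, kap a b y * z * δ ^ (-φ y) ∈ I0 ↔ z ∈ I0 := by
    intro y z
    obtain ⟨x, hx, x', hx', hxx⟩ := hKdiff y
    rw [← hshiftK x hx (kap a b y * z * δ ^ (-φ y)), ← hshiftK x' hx' z]
    have h1 : kap a b x * (kap a b y * z * δ ^ (-φ y)) * δ ^ (-φ x) =
        kap a b x' * z * δ ^ (-φ x') := by
      rw [← hxx, add_comm y x, gh9_kap_add hab, map_add, neg_add_rev, zpow_add]
      simp only [mul_assoc]
    rw [h1]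
  have hdelta : ∀ c : ℤ, δ ^ c ∈ I0 → c ≤ 0 := by
    rintro c ⟨q, hq, hz⟩
    have h1 := hz 0 hK0
    rw [zero_add] at h1
    have h2 : d 1 (kap a b q * δ ^ c) ≤ φ q := by
      rw [d_le_iff, one_mul]
      exact h1
    rw [d_mul_zpow] at h2
    obtain ⟨C, hC⟩ := hτ q
    have h3 := (hC 1).1
    rw [pow_one, hKφ q hq] at h3
    push_cast at h3
    linarith
  have hdelta' : δ ^ (-(C1 + C2)) ∈ I0 := by
    refine ⟨0, hK0, fun x hx => ?_⟩
    rw [add_zero]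
    have h1 : d 1 (kap a b x * δ ^ (-(C1 + C2))) ≤ φ x := by
      rw [d_mul_zpow]
      have := hup x hx
      linarith
    rwa [d_le_iff, one_mul] at h1
  obtain ⟨c0, hc0, hmax⟩ : ∃ c0 : ℤ, δ ^ c0 ∈ I0 ∧ ∀ c : ℤ, δ ^ c ∈ I0 → c ≤ c0 :=
    Int.exists_greatest_of_bdd (P := fun c : ℤ => (δ : G) ^ c ∈ I0) ⟨0, hdelta⟩ ⟨_, hdelta'⟩
  refine ⟨{z | z * δ ^ c0 ∈ I0}, ?_, ?_, ?_, ?_⟩
  · intro x hx y hyx
    exact hdown _ hx _ ((mul_zpow_le_iff c0).mpr hyx)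
  · intro x hx y hy
    change (x ⊔ y) * δ ^ c0 ∈ I0
    rw [sup_zpow]
    exact hsup _ hx _ hy
  · intro x z
    change kap a b x * z * δ ^ (-φ x) * δ ^ c0 ∈ I0 ↔ z * δ ^ c0 ∈ I0
    rw [← hshift x (z * δ ^ c0)]
    have h1 : kap a b x * z * δ ^ (-φ x) * δ ^ c0 = kap a b x * (z * δ ^ c0) * δ ^ (-φ x) := by
      rw [mul_assoc, ← zpow_add, ← mul_assoc, mul_assoc _ (δ ^ c0), ← zpow_add, add_comm]
    rw [h1]
  · intro c
    change δ ^ c * δ ^ c0 ∈ I0 ↔ c ≤ 0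
    rw [← zpow_add]
    constructor
    · intro h
      have := hmax _ h
      linarith
    · intro h
      refine hdown _ hc0 _ ?_
      have := mul_zpow_mono (1 : G) (show c + c0 ≤ c0 by linarith)
      rwa [one_mul, one_mul] at this

end Gar

end Pool.Agent.H88.GH
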