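import Pool.Agent.H88.GH.TabF

set_option autoImplicit false
set_option maxRecDepth 100000

namespace Pool.Agent.H88.GH

theorem chk0 : chkA 0 = true := by decide +kernel

theorem chk1 : chkA 1 = true := by decide +kernel

theorem chk2 : chkA 2 = true := by decide +kernel

end Pool.Agent.H88.GH
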