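import Pool.Agent.H88.GH.TabF

set_option autoImplicit false
set_option maxRecDepth 100000

namespace Pool.Agent.H88.GH

theorem chk6 : chkA 6 = true := by decide +kernel

theorem chk7 : chkA 7 = true := by decide +kernel

theorem chk8 : chkA 8 = true := by decide +kernel

end Pool.Agent.H88.GH
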