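import Pool.Agent.H88.GH.TabF

set_option autoImplicit false
set_option maxRecDepth 100000

namespace Pool.Agent.H88.GH

theorem chk12 : chkA 12 = true := by decide +kernel

theorem chk13 : chkA 13 = true := by decide +kernel

theorem chk14 : chkA 14 = true := by decide +kernel

end Pool.Agent.H88.GH
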