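import Pool.Agent.H88.GH.Facts

/-!
# Project GH (MP_35eb49), row GH-16: classification of periodic flats
-/

set_option autoImplicit false

namespace Pool.Agent.H88.GH

open Gar

variable {T : (Fin 3 → ℤ) → Fin 3 → ℕ} {D : ℤ}

theorem gh16_other : ∀ s : Fin 3, ∃ j, s ≠ j := by decide

theorem gh16_pow (hT : TFlat T D) (v : Fin 3 → ℤ) (j : Fin 3) (n : ℕ) :
    T (v + ((n : ℤ) * D) • e j) = T v := by
  induction n with
  | zero => simp
  | succ n ih =>
    have h : v + (((n + 1 : ℕ) : ℤ) * D) • e j = v + ((n : ℤ) * D) • e j + D • e j := by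
      push_cast
      rw [add_mul, one_mul, add_smul, add_assoc]
    rw [h, hT.per, ih]

/-- statements along a half line extend to the whole line -/
theorem gh16_line (hT : TFlat T D) {R : (Fin 3 → ℕ) → Prop} (v : Fin 3 → ℤ) (j : Fin 3)
    (h : ∀ n : ℕ, R (T (v + (n : ℤ) • e j))) (n : ℤ) : R (T (v + n • e j)) := by
  have h1 := gh16_pow hT (v + n • e j) j n.natAbs
  have hD := hT.pos
  have h2 : 0 ≤ n + (n.natAbs : ℤ) * D := by
    have : (0 : ℤ) ≤ n.natAbs := by positivity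
    have h3 : -(n.natAbs : ℤ) ≤ n := by omega
    nlinarith
  have h3 : v + n • e j + ((n.natAbs : ℤ) * D) • e j =
      v + (((n + (n.natAbs : ℤ) * D).toNat : ℕ) : ℤ) • e j := by
    rw [Int.toNat_of_nonneg h2, add_smul, add_assoc]
  rw [← h1, h3]
  exact h _

theorem gh16_rot (hT : TFlat T D) (v : Fin 3 → ℤ) {i j k : Fin 3} (hij : i ≠ j) (hik : i ≠ k)
    (hjk : j ≠ k) (X : Fin 3 × Bool) : Ty3 T v i j X ↔ Ty3 T (v + e i) j k X := by
  unfold Ty3
  have h : v + e i + e j + e k = v + 1 := by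
    rw [gh15_one_eq hij hik hjk]
    abel
  rw [h, ty_diag hT]
  tauto

/-- the claim for a column of constant type -/
def gh16_Q (T : (Fin 3 → ℤ) → Fin 3 → ℕ) (s : Fin 3) (b : Bool) (v : Fin 3 → ℤ) : Prop :=
  ∀ n : ℤ, Ty (T (v + n • e s)) (s, b)

theorem gh16_snk (hT : TFlat T D) {s j : Fin 3} (hj : j ≠ s) {v : Fin 3 → ℤ}
    (h : gh16_Q T s false v) : gh16_Q T s false (v + e j) := by
  have h' : ∀ n : ℤ, Snk (T (v + n • e s)) s := fun n => h n
  have h1 : ∀ n : ℤ, T (v + e j + n • e s) s = T (v + n • e s) s := by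
    intro n
    rw [add_right_comm, hT.rule _ j s hj]
    exact h' n j hj
  intro n
  change Snk (T (v + e j + n • e s)) s
  have h2 : v + e j + n • e s = v + e j + (n - 1) • e s + e s := by
    rw [sub_smul, one_smul]
    abel
  rw [h2, snk_iff hT, ← h2, h1, h1]
  have h3 : v + n • e s = v + (n - 1) • e s + e s := by
    rw [sub_smul, one_smul]
    abel
  have h4 := (snk_iff hT (v + (n - 1) • e s) s).mp (by rw [← h3]; exact h' n)
  rw [← h3] at h4
  exact h4

theorem gh16_top : (allB 15 fun a => allB 15 fun b => allB 15 fun c => !(tile a b c) ||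
    allB 15 fun a' => !(tile a' b c) || Nat.beq (F (F b c) (F b a)) (F (F b c) (F b a'))) = true := by
  decide +kernel

theorem gh16_src (hT : TFlat T D) {s j : Fin 3} (hj : j ≠ s) {v : Fin 3 → ℤ}
    (h : gh16_Q T s true v) : gh16_Q T s true (v + e j) := by
  obtain ⟨k, hsk, hjk⟩ := gh15_third s j hj.symm
  have h' : ∀ n : ℤ, Src (T (v + n • e s)) s := fun n => h n
  have hstep : ∀ n : ℤ, v + (n + 1) • e s = v + n • e s + e s := by
    intro n
    rw [add_smul, one_smul]
    abel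
  -- the other atoms are constant
  have hc : ∀ (l : Fin 3), l ≠ s → ∀ n : ℤ, T (v + (n + 1) • e s) l = T (v + n • e s) l := by
    intro l hl n
    rw [hstep, hT.rule _ s l hl.symm]
    exact h' n l hl
  have htau : ∀ n : ℤ, tau (T (v + n • e s) s) =
      F (F (T (v + (n + 1) • e s) j) (T (v + (n + 1) • e s) k))
      (F (T (v + (n + 1) • e s) j) (T (v + (n + 1) • e s) s)) := by
    intro n
    rw [← hT.diag, gh15_one_eq hj.symm hsk hjk, ← add_assoc, ← add_assoc, ← hstep,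
      hT.rule _ k s hsk.symm, hT.rule _ j k hjk, hT.rule _ j s hj]
  have ha : ∀ n : ℤ, T (v + (n + 1) • e s) s = T (v + n • e s) s := by
    intro n
    have h1 := htau n
    have h2 := htau (n + 1)
    have h3 := gh15_or (allB_spec (allB_spec (allB_spec gh16_top
      (hT.lt (v + (n + 1) • e s) s)) (hT.lt (v + (n + 1) • e s) j))
      (hT.lt (v + (n + 1) • e s) k)) (hT.tile _ s j k hj.symm hjk hsk)
    have h4 := hT.tile (v + (n + 1 + 1) • e s) s j k hj.symm hjk hsk
    rw [hc j hj (n + 1), hc k hsk.symm (n + 1)] at h4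
    have h5 := Nat.eq_of_beq_eq_true (gh15_or (allB_spec h3 (hT.lt (v + (n + 1 + 1) • e s) s)) h4)
    rw [hc j hj (n + 1), hc k hsk.symm (n + 1)] at h2
    rw [← h1, ← h2] at h5
    exact (gh15_tau (hT.lt _ _) (hT.lt _ _) h5).symm
  -- the next column
  have hu : ∀ n : ℤ, v + e j + n • e s = v + n • e s + e j := fun n => add_right_comm _ _ _
  have hs' : ∀ n : ℤ, T (v + e j + (n + 1) • e s) s = T (v + e j + n • e s) s := by
    intro n
    rw [hu, hu, hT.rule _ j s hj, hT.rule _ j s hj, ha, hc j hj]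
  have hk' : ∀ n : ℤ, T (v + e j + (n + 1) • e s) k = T (v + e j + n • e s) k := by
    intro n
    rw [hu, hu, hT.rule _ j k hjk, hT.rule _ j k hjk, hc k hsk.symm, hc j hj]
  have hst : ∀ n : ℤ, ∀ l : Fin 3, l ≠ s → T (v + e j + (n + 1) • e s) l =
      F (T (v + e j + n • e s) s) (T (v + e j + n • e s) l) := by
    intro n l hl
    have : v + e j + (n + 1) • e s = v + e j + n • e s + e s := by
      rw [add_smul, one_smul]
      abel
    rw [this, hT.rule _ s l hl.symm]
  intro n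
  change Src (T (v + e j + n • e s)) s
  intro l hl
  rcases gh15_all3 hj.symm hsk hjk l with h0 | h0 | h0
  · exact absurd h0 hl
  · subst h0
    have h1 := hst (n - 1) l hl
    have h2 := hs' (n - 1)
    rw [sub_add_cancel] at h1 h2
    rw [h2, h1]
    exact F_idem (hT.lt _ _) (hT.lt _ _) (gh15_J hT _ hl.symm)
  · subst h0
    rw [← hst n l hl, hk']

theorem gh16_step (hT : TFlat T D) {s j : Fin 3} {b : Bool} (hj : j ≠ s) {v : Fin 3 → ℤ}
    (h : gh16_Q T s b v) : gh16_Q T s b (v + e j) := by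
  cases b
  · exact gh16_snk hT hj h
  · exact gh16_src hT hj h

theorem gh16_stepZ (hT : TFlat T D) {s j : Fin 3} {b : Bool} (hj : j ≠ s) {v : Fin 3 → ℤ}
    (h : gh16_Q T s b v) (m : ℤ) : gh16_Q T s b (v + m • e j) := by
  have h1 : ∀ m : ℕ, gh16_Q T s b (v + (m : ℤ) • e j) := by
    intro m
    induction m with
    | zero => simpa using h
    | succ m ih =>
      have h2 : v + ((m + 1 : ℕ) : ℤ) • e j = v + (m : ℤ) • e j + e j := by
        push_cast
        rw [add_smul, one_smul]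
        abel
      rw [h2]
      exact gh16_step hT hj ih
  intro n
  rw [add_right_comm]
  refine gh16_line hT (R := fun t => Ty t (s, b)) (v + n • e s) j (fun m => ?_) m
  rw [add_right_comm]
  exact h1 m n

theorem gh16_decomp (s j k : Fin 3) (hsj : s ≠ j) (hsk : s ≠ k) (hjk : j ≠ k)
    (v w : Fin 3 → ℤ) :
    w = v + (w j - v j) • e j + (w k - v k) • e k + (w s - v s) • e s := by
  funext l
  unfold e
  rcases gh15_all3 hsj hsk hjk l with h | h | h
  · subst h
    simp [hsj, hsk]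
  · subst h
    simp [hsj.symm, hjk]
  · subst h
    simp [hsk.symm, hjk.symm]

theorem gh16_all (hT : TFlat T D) {s : Fin 3} {b : Bool} {v : Fin 3 → ℤ}
    (h : gh16_Q T s b v) (w : Fin 3 → ℤ) : Ty (T w) (s, b) := by
  obtain ⟨j, hsj⟩ := gh16_other s
  obtain ⟨k, hsk, hjk⟩ := gh15_third s j hsj
  rw [gh16_decomp s j k hsj hsk hjk v w]
  exact gh16_stepZ hT hsk.symm (gh16_stepZ hT hsj.symm h _) _ _

/-- Case A: a triangle with a single type. -/
theorem gh16_caseA (hT : TFlat T D) {v : Fin 3 → ℤ} {s q : Fin 3} {b : Bool} (hsq : s ≠ q)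
    (h : ∀ X, Ty3 T v s q X → X = (s, b)) (w : Fin 3 → ℤ) : Ty (T w) (s, b) := by
  have h1 : ∀ n : ℕ, ∀ X, Ty4 T (v + (n : ℤ) • e s) s q X → X = (s, b) := by
    intro n
    induction n with
    | zero =>
      intro X hX
      simp only [Nat.cast_zero, zero_smul, add_zero] at hX
      exact h X ⟨hX.1, hX.2.1, hX.2.2.2⟩
    | succ n ih =>
      have h2 : v + ((n + 1 : ℕ) : ℤ) • e s = v + (n : ℤ) • e s + e s := by
        push_cast
        rw [add_smul, one_smul]
        abel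
      rw [h2]
      exact fact2 hT _ hsq b ih
  refine gh16_all hT (v := v) (gh16_line hT (R := fun t => Ty t (s, b)) v s fun n => ?_) w
  obtain ⟨X, hX⟩ := fact1 hT (v + (n : ℤ) • e s) hsq
  have h3 := h1 n X hX
  rw [h3] at hX
  exact hX.1

/-- Case A for an arbitrary triangle. -/
theorem gh16_caseA' (hT : TFlat T D) {v : Fin 3 → ℤ} {i j : Fin 3} {Y : Fin 3 × Bool}
    (hij : i ≠ j) (h : ∀ X, Ty3 T v i j X → X = Y) (w : Fin 3 → ℤ) : Ty (T w) Y := by
  obtain ⟨k, hik, hjk⟩ := gh15_third i j hij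
  obtain ⟨s, b⟩ := Y
  rcases gh15_all3 hij hik hjk s with h0 | h0 | h0
  · subst h0
    exact gh16_caseA hT hij h w
  · subst h0
    exact gh16_caseA hT hjk (fun X hX => h X ((gh16_rot hT v hij hik hjk X).mpr hX)) w
  · subst h0
    exact gh16_caseA hT hik.symm (fun X hX => h X ((gh16_rot hT v hij hik hjk X).mpr
      ((gh16_rot hT (v + e i) hjk hij.symm hik.symm X).mpr hX))) w

/-- Case B: all triangles have two types. -/
theorem gh16_caseB (hT : TFlat T D) (h : ∀ (v : Fin 3 → ℤ) (i j : Fin 3), i ≠ j →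
    ∃ X X', X ≠ X' ∧ Ty3 T v i j X ∧ Ty3 T v i j X') : ∃ s, ∀ w, Ty (T w) (s, true) := by
  obtain ⟨X, X', hX, hX1, hX2⟩ := h 0 0 1 (by decide)
  obtain ⟨s, hs⟩ := fact3 hT 0 (by decide) hX hX1 hX2
  refine ⟨s, ?_⟩
  have hswap : ∀ (v : Fin 3 → ℤ) (i j : Fin 3), i ≠ j → Ty3 T v i j (s, true) →
      Ty3 T v j i (s, true) := by
    intro v i j hij h1
    obtain ⟨X, X', a1, a2, a3⟩ := h v i j hij
    obtain ⟨Z, Z', b1, b2, b3⟩ := h v j i hij.symm
    exact fact4 hT v hij a1 a2 a3 b1 b2 b3 s h1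
  have hturn : ∀ (v : Fin 3 → ℤ) (i j k : Fin 3), i ≠ j → i ≠ k → j ≠ k →
      Ty3 T v i j (s, true) → Ty3 T v i k (s, true) := by
    intro v i j k hij hik hjk h1
    have h2 := (gh16_rot hT v hij hik hjk _).mp h1
    have h3 := hswap _ j k hjk h2
    exact (gh16_rot hT v hik hij hjk.symm _).mpr h3
  have hone : ∀ (v : Fin 3 → ℤ) (i j : Fin 3), i ≠ j → Ty3 T v i j (s, true) →
      ∀ i' j' : Fin 3, i' ≠ j' → Ty3 T v i' j' (s, true) := by
    intro v i j hij h1
    obtain ⟨k, hik, hjk⟩ := gh15_third i j hij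
    have h2 := hturn v i j k hij hik hjk h1
    have h3 := hswap v i j hij h1
    have h4 := hswap v i k hik h2
    have h5 := hturn v j i k hij.symm hjk hik h3
    have h6 := hswap v j k hjk h5
    intro i' j' hij'
    rcases gh15_all3 hij hik hjk i' with a | a | a <;>
      rcases gh15_all3 hij hik hjk j' with b | b | b <;> subst a <;> subst b
    · exact absurd rfl hij'
    · exact h1
    · exact h2
    · exact h3
    · exact absurd rfl hij'
    · exact h5
    · exact h4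
    · exact h6
    · exact absurd rfl hij'
  have hmove : ∀ (v : Fin 3 → ℤ) (l : Fin 3),
      (∀ i' j' : Fin 3, i' ≠ j' → Ty3 T v i' j' (s, true)) →
      ∀ i' j' : Fin 3, i' ≠ j' → Ty3 T (v + e l) i' j' (s, true) := by
    intro v l h1
    obtain ⟨j, hlj⟩ := gh16_other l
    obtain ⟨k, hlk, hjk⟩ := gh15_third l j hlj
    exact hone _ j k hjk ((gh16_rot hT v hlj hlk hjk _).mp (h1 l j hlj))
  have hall : ∀ (m : ℕ) (v : Fin 3 → ℤ) (l : Fin 3),
      (∀ i' j' : Fin 3, i' ≠ j' → Ty3 T v i' j' (s, true)) →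
      ∀ i' j' : Fin 3, i' ≠ j' → Ty3 T (v + (m : ℤ) • e l) i' j' (s, true) := by
    intro m v l h1
    induction m with
    | zero => simpa using h1
    | succ m ih =>
      have h2 : v + ((m + 1 : ℕ) : ℤ) • e l = v + (m : ℤ) • e l + e l := by
        push_cast
        rw [add_smul, one_smul]
        abel
      rw [h2]
      exact hmove _ l ih
  have hmoveB : ∀ (v : Fin 3 → ℤ) (l : Fin 3),
      (∀ i' j' : Fin 3, i' ≠ j' → Ty3 T (v + e l) i' j' (s, true)) →
      ∀ i' j' : Fin 3, i' ≠ j' → Ty3 T v i' j' (s, true) := by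
    intro v l h1
    obtain ⟨j, hlj⟩ := gh16_other l
    obtain ⟨k, hlk, hjk⟩ := gh15_third l j hlj
    exact hone _ l j hlj ((gh16_rot hT v hlj hlk hjk _).mpr (h1 j k hjk))
  have hallB : ∀ (m : ℕ) (v : Fin 3 → ℤ) (l : Fin 3),
      (∀ i' j' : Fin 3, i' ≠ j' → Ty3 T v i' j' (s, true)) →
      ∀ i' j' : Fin 3, i' ≠ j' → Ty3 T (v - (m : ℤ) • e l) i' j' (s, true) := by
    intro m v l h1
    induction m with
    | zero => simpa using h1
    | succ m ih =>
      have h2 : v - (m : ℤ) • e l = v - ((m + 1 : ℕ) : ℤ) • e l + e l := by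
        push_cast
        rw [add_smul, one_smul]
        abel
      rw [h2] at ih
      exact hmoveB _ l ih
  have hallZ : ∀ (m : ℤ) (v : Fin 3 → ℤ) (l : Fin 3),
      (∀ i' j' : Fin 3, i' ≠ j' → Ty3 T v i' j' (s, true)) →
      ∀ i' j' : Fin 3, i' ≠ j' → Ty3 T (v + m • e l) i' j' (s, true) := by
    intro m v l h1
    obtain ⟨n, rfl | rfl⟩ := m.eq_nat_or_neg
    · exact hall n v l h1
    · rw [neg_smul, ← sub_eq_add_neg]
      exact hallB n v l h1
  intro w
  have h0 := hone 0 0 1 (by decide) hs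
  have h1 := hallZ (w 2 - (0 : Fin 3 → ℤ) 2) _ 2 (hallZ (w 1 - (0 : Fin 3 → ℤ) 1) _ 1
    (hallZ (w 0 - (0 : Fin 3 → ℤ) 0) _ 0 h0))
  have h2 := gh16_decomp 2 0 1 (by decide) (by decide) (by decide) 0 w
  rw [← h2] at h1
  exact (h1 0 1 (by decide)).1

theorem classify (hT : TFlat T D) :
    ∃ i, (∀ v, Src (T v) i) ∨ ∀ v, Snk (T v) i := by
  by_cases h : ∀ (v : Fin 3 → ℤ) (i j : Fin 3), i ≠ j →
    ∃ X X', X ≠ X' ∧ Ty3 T v i j X ∧ Ty3 T v i j X'
  · obtain ⟨s, hs⟩ := gh16_caseB hT h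
    exact ⟨s, Or.inl fun v => hs v⟩
  · push Not at h
    obtain ⟨v, i, j, hij, h1⟩ := h
    obtain ⟨⟨s, b⟩, hY⟩ := fact1 hT v hij
    have hY3 : Ty3 T v i j (s, b) := ⟨hY.1, hY.2.1, hY.2.2.2⟩
    have h2 : ∀ X, Ty3 T v i j X → X = (s, b) := by
      intro X hX
      by_contra hc
      exact h1 X (s, b) hc hX hY3
    have h3 := gh16_caseA' hT hij h2
    refine ⟨s, ?_⟩
    cases b
    · exact Or.inr fun v => h3 v
    · exact Or.inl fun v => h3 v

end Pool.Agent.H88.GH
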