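import Pool.Agent.H88.GH.Defs2

/-!
# Project GH (MP_35eb49), row GH-8: cones of linearity of subadditive functions on `ℤ²`
-/

set_option autoImplicit false

namespace Pool.Agent.H88.GH

namespace Gar

/-- nonincreasing sequences of integers that are bounded below are eventually constant -/
theorem gh8_stab (f : ℕ → ℤ) (hf : ∀ n, f (n + 1) ≤ f n) (b : ℤ) (hb : ∀ n, b ≤ f n) :
    ∃ N, ∀ n, N ≤ n → f n = f N := by
  have hanti : Antitone f := antitone_nat_of_succ_le hf
  obtain ⟨N, hN⟩ : ∃ N, ∀ n, (f N - b).toNat ≤ (f n - b).toNat := by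
    have := WellFounded.has_min (measure (fun n : ℕ => (f n - b).toNat)).wf Set.univ
      ⟨0, Set.mem_univ 0⟩
    obtain ⟨N, -, hN⟩ := this
    exact ⟨N, fun n => not_lt.mp (hN n (Set.mem_univ n))⟩
  refine ⟨N, fun n hn => le_antisymm (hanti hn) ?_⟩
  have h1 := hN n
  have h2 := hb n
  have h3 := hb N
  omega

/-- linear forms on `ℤ²` -/
def gh8_form (r s : ℤ) : ℤ × ℤ →+ ℤ where
  toFun y := r * y.1 + s * y.2
  map_zero' := by simp
  map_add' x y := by
    simp only [Prod.fst_add, Prod.snd_add]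
    ring

theorem gh8_form_apply (r s : ℤ) (y : ℤ × ℤ) : gh8_form r s y = r * y.1 + s * y.2 := rfl

/-- every nonzero vector is a positive multiple of a member of a basis -/
theorem gh8_basis (x : ℤ × ℤ) (hx : x ≠ 0) : ∃ (k : ℕ) (v w : ℤ × ℤ) (A B : ℤ × ℤ →+ ℤ),
    0 < k ∧ x = k • v ∧ (∀ y, y = A y • v + B y • w) ∧ A v = 1 ∧ A w = 0 ∧ B v = 0 ∧ B w = 1 := by
  obtain ⟨p, q⟩ := x
  have hg : 0 < Int.gcd p q := by
    rw [Int.gcd_pos_iff]
    by_contra hc
    push Not at hc
    exact hx (by rw [hc.1, hc.2]; rfl)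
  obtain ⟨p', hp⟩ : ((Int.gcd p q : ℕ) : ℤ) ∣ p := Int.gcd_dvd_left ..
  obtain ⟨q', hq⟩ : ((Int.gcd p q : ℕ) : ℤ) ∣ q := Int.gcd_dvd_right ..
  have hbez := Int.gcd_eq_gcd_ab p q
  set g := Int.gcd p q with hgdef
  set r := Int.gcdA p q
  set s := Int.gcdB p q
  have hg' : (0 : ℤ) < g := by exact_mod_cast hg
  have h1 : p' * r + q' * s = 1 := by
    have : (g : ℤ) * (p' * r + q' * s) = g * 1 := by
      rw [mul_one]
      calc (g : ℤ) * (p' * r + q' * s) = (g * p') * r + (g * q') * s := by ring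
        _ = p * r + q * s := by rw [← hp, ← hq]
        _ = g := hbez.symm
    exact mul_left_cancel₀ hg'.ne' this
  refine ⟨g, (p', q'), (-s, r), gh8_form r s, gh8_form (-q') p', hg, ?_, fun y => ?_, ?_, ?_, ?_,
    ?_⟩
  · ext
    · simp only [Prod.smul_mk, nsmul_eq_mul]; exact hp
    · simp only [Prod.smul_mk, nsmul_eq_mul]; exact hq
  · simp only [gh8_form_apply]
    ext
    · simp only [Prod.smul_mk, Prod.mk_add_mk, smul_eq_mul]
      linear_combination (-y.1) * h1
    · simp only [Prod.smul_mk, Prod.mk_add_mk, smul_eq_mul]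
      linear_combination (-y.2) * h1
  · simp only [gh8_form_apply]
    linear_combination h1
  · simp only [gh8_form_apply]
    ring
  · simp only [gh8_form_apply]
    ring
  · simp only [gh8_form_apply]
    linear_combination h1

theorem exists_cone (τ : ℤ × ℤ → ℤ) (hom : ∀ (n : ℕ) (x : ℤ × ℤ), τ (n • x) = n * τ x)
    (sub : ∀ x y, τ (x + y) ≤ τ x + τ y) (x : ℤ × ℤ) (hx : x ≠ 0) :
    ∃ φ : ℤ × ℤ →+ ℤ, IsCone τ φ ∧ φ x = τ x := by
  obtain ⟨k, v, w, A, B, hk, hxv, hAB, hA1, hA2, hB1, hB2⟩ := gh8_basis x hx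
  -- stabilisation
  obtain ⟨N, hN⟩ := gh8_stab (fun n => τ (n • v + w) - n * τ v) (by
    intro n
    have h1 := sub (n • v + w) v
    have h2 : (n + 1) • v + w = n • v + w + v := by
      rw [add_smul, one_smul]
      abel
    have h3 : ((n + 1 : ℕ) : ℤ) * τ v = n * τ v + τ v := by push_cast; ring
    change τ ((n + 1) • v + w) - ((n + 1 : ℕ) : ℤ) * τ v ≤ τ (n • v + w) - n * τ v
    rw [h2, h3]
    linarith) (-τ (-w)) (by
    intro n
    have h1 := sub (n • v + w) (-w)
    rw [add_neg_cancel_right, hom] at h1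
    change -τ (-w) ≤ τ (n • v + w) - n * τ v
    linarith)
  set u := N • v + w with hu
  have hN' : ∀ n : ℕ, τ (n • v + u) = n * τ v + τ u := by
    intro n
    have h1 : τ ((N + n) • v + w) - ((N + n : ℕ) : ℤ) * τ v = τ (N • v + w) - N * τ v :=
      hN (N + n) (Nat.le_add_right N n)
    have h2 : (N + n) • v + w = n • v + u := by
      rw [hu, add_smul]
      abel
    rw [h2, ← hu] at h1
    push_cast at h1
    linarith
  have hlin : ∀ m n : ℕ, τ (m • v + n • u) = m * τ v + n * τ u := by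
    intro m n
    apply le_antisymm
    · have h1 := sub (m • v) (n • u)
      rw [hom, hom] at h1
      exact h1
    · rcases Nat.eq_zero_or_pos n with h0 | h0
      · subst h0
        simp only [zero_smul, add_zero, Nat.cast_zero, zero_mul]
        rw [hom]
      · have h1 := hN' m
        have h2 := hom n (m • v + u)
        rw [h1] at h2
        have h3 : n • (m • v + u) = (n * m - m) • v + (m • v + n • u) := by
          have h4 : n * m = n * m - m + m := (Nat.sub_add_cancel (Nat.le_mul_of_pos_left m h0)).symm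
          rw [smul_add, ← mul_smul, ← add_assoc, ← add_smul, ← h4]
        have h5 := sub ((n * m - m) • v) (m • v + n • u)
        rw [← h3, h2, hom] at h5
        have h6 : ((n * m - m : ℕ) : ℤ) = n * m - m := by
          rw [Nat.cast_sub (Nat.le_mul_of_pos_left m h0)]
          push_cast
          ring
        rw [h6] at h5
        linarith
  let φ : ℤ × ℤ →+ ℤ := (τ v) • (A - (N : ℤ) • B) + (τ u) • B
  have hφ : ∀ y, φ y = τ v * (A y - N * B y) + τ u * B y := by
    intro y
    simp [φ]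
  have hφv : φ v = τ v := by
    rw [hφ, hA1, hB1]; ring
  have hAu : A u = N := by
    rw [hu, map_add, map_nsmul, hA1, hA2]
    simp
  have hBu : B u = 1 := by
    rw [hu, map_add, map_nsmul, hB1, hB2]
    simp
  have hφw : φ u = τ u := by
    rw [hφ, hAu, hBu]
    ring
  have hgen : ∀ y, ∃ m n : ℤ, y = m • v + n • u := by
    intro y
    refine ⟨A y - N * B y, B y, ?_⟩
    conv_lhs => rw [hAB y]
    rw [hu, ← natCast_zsmul v N]
    module
  have hcone : ∀ m n : ℕ, τ (m • v + n • u) = φ (m • v + n • u) := by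
    intro m n
    rw [hlin, map_add, map_nsmul, map_nsmul, hφv, hφw]
    simp
  refine ⟨φ, ⟨fun y => ?_, v, u, hgen, hcone⟩, ?_⟩
  · obtain ⟨m, n, hy⟩ := hgen y
    have h1 : (m.natAbs + n.natAbs : ℕ) • v + (m.natAbs + n.natAbs : ℕ) • u + y =
        ((m.natAbs + n.natAbs : ℤ) + m).toNat • v + ((m.natAbs + n.natAbs : ℤ) + n).toNat • u := by
      rw [hy, ← natCast_zsmul, ← natCast_zsmul, ← natCast_zsmul, ← natCast_zsmul,
        Int.toNat_of_nonneg (by omega), Int.toNat_of_nonneg (by omega)]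
      push_cast
      simp only [add_smul]
      abel
    have h2 := sub ((m.natAbs + n.natAbs : ℕ) • v + (m.natAbs + n.natAbs : ℕ) • u) y
    rw [h1, hcone, ← h1, hcone, map_add φ _ y] at h2
    linarith
  · rw [hxv, map_nsmul, hom, hφv]
    simp

/-- Two different cone functionals differ in the interior of the cones. -/
theorem IsCone.lt {τ : ℤ × ℤ → ℤ} {φ : ℤ × ℤ →+ ℤ} (h : IsCone τ φ) :
    ∃ p : ℤ × ℤ, φ p = τ p ∧ ∀ ψ : ℤ × ℤ →+ ℤ, (∀ y, ψ y ≤ τ y) → ψ ≠ φ → ψ p < φ p := by
  obtain ⟨-, v, w, hgen, hcone⟩ := h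
  have hv : τ v = φ v := by simpa using hcone 1 0
  have hw : τ w = φ w := by simpa using hcone 0 1
  have hp : τ (v + w) = φ (v + w) := by simpa using hcone 1 1
  refine ⟨v + w, hp.symm, fun ψ hψ hne => ?_⟩
  have h1 := hψ v
  have h2 := hψ w
  rw [hv] at h1
  rw [hw] at h2
  by_contra hc
  push Not at hc
  rw [map_add, map_add] at hc
  have h3 : ψ v = φ v := by linarith
  have h4 : ψ w = φ w := by linarith
  apply hne
  refine AddMonoidHom.ext fun y => ?_
  obtain ⟨m, n, hy⟩ := hgen y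
  rw [hy, map_add, map_add, map_zsmul, map_zsmul, map_zsmul, map_zsmul, h3, h4]

end Gar

end Pool.Agent.H88.GH
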