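import Mathlib

/-!
# Project GH (MP_35eb49): dual Garside structures of rank three

Definitions for the proof that in the Artin group of type `H₃` the group generated by an algebraic
pseudo-Anosov element and the center has finite index in the centralizer.
-/

set_option autoImplicit false

namespace Pool.Agent.H88.GH

/-- A Garside structure of rank three on the group `G`: positive monoid `P`, Garside element `δ`. -/
class Gar (G : Type) [Group G] where
  P : Submonoid G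
  δ : G
  len : G → ℤ
  len_mul : ∀ x y, len (x * y) = len x + len y
  len_nonneg : ∀ x ∈ P, 0 ≤ len x
  eq_one : ∀ x ∈ P, len x = 0 → x = 1
  len_δ : len δ = 3
  δ_mem : δ ∈ P
  conj : ∀ x, δ⁻¹ * x * δ ∈ P ↔ x ∈ P
  central : ∀ x, δ ^ 5 * x = x * δ ^ 5
  cof : ∀ x, ∃ k : ℕ, x⁻¹ * δ ^ k ∈ P
  fin : {x | x ∈ P ∧ x⁻¹ * δ ∈ P}.Finite
  sup : ∀ x y, ∃ j, x⁻¹ * j ∈ P ∧ y⁻¹ * j ∈ P ∧
    ∀ u, x⁻¹ * u ∈ P → y⁻¹ * u ∈ P → j⁻¹ * u ∈ P

namespace Gar

variable {G : Type} [Group G] [Gar G]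

theorem len_one : len (1 : G) = 0 := by
  have h := len_mul (1 : G) 1
  rw [mul_one] at h
  omega

theorem len_inv (x : G) : len x⁻¹ = -len x := by
  have h := len_mul x⁻¹ x
  rw [inv_mul_cancel, len_one] at h
  omega

/-- Left divisibility. -/
instance instPartialOrder : PartialOrder G where
  le x y := x⁻¹ * y ∈ (P : Submonoid G)
  le_refl x := by
    rw [inv_mul_cancel]
    exact one_mem _
  le_trans x y z hxy hyz := by
    have h := mul_mem hxy hyz
    rwa [mul_assoc, mul_inv_cancel_left] at h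
  le_antisymm x y hxy hyx := by
    change x⁻¹ * y ∈ (P : Submonoid G) at hxy
    change y⁻¹ * x ∈ (P : Submonoid G) at hyx
    have h1 := len_nonneg _ hxy
    have h2 := len_nonneg _ hyx
    rw [len_mul, len_inv] at h1 h2
    have h3 := eq_one _ hxy (by rw [len_mul, len_inv]; omega)
    exact inv_mul_eq_one.mp h3

theorem le_def {x y : G} : x ≤ y ↔ x⁻¹ * y ∈ (P : Submonoid G) := Iff.rfl

theorem len_le {x y : G} (h : x ≤ y) : len x ≤ len y := by
  have h1 := len_nonneg _ (le_def.mp h)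
  rw [len_mul, len_inv] at h1
  omega

theorem eq_of_le {x y : G} (h : x ≤ y) (hl : len y ≤ len x) : x = y := by
  have h1 := len_le h
  have h3 := eq_one _ (le_def.mp h) (by rw [len_mul, len_inv]; omega)
  exact inv_mul_eq_one.mp h3

theorem len_lt {x y : G} (h : x < y) : len x < len y := by
  by_contra hc
  exact h.ne (eq_of_le h.le (not_lt.mp hc))

theorem mul_le_mul_iff (z : G) {x y : G} : z * x ≤ z * y ↔ x ≤ y := by
  rw [le_def, le_def, mul_inv_rev, mul_assoc, inv_mul_cancel_left]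

theorem one_le_iff {x : G} : 1 ≤ x ↔ x ∈ (P : Submonoid G) := by
  rw [le_def, inv_one, one_mul]

theorem mul_δ_le_iff {x y : G} : x * δ ≤ y * δ ↔ x ≤ y := by
  rw [le_def, le_def, ← conj (x⁻¹ * y)]
  have h : (x * δ)⁻¹ * (y * δ) = δ⁻¹ * (x⁻¹ * y) * δ := by group
  rw [h]

theorem mul_pow_le_iff (k : ℕ) {x y : G} : x * δ ^ k ≤ y * δ ^ k ↔ x ≤ y := by
  induction k with
  | zero => simp
  | succ k ih => rw [pow_succ, ← mul_assoc, ← mul_assoc, mul_δ_le_iff, ih]

theorem mul_zpow_le_iff (k : ℤ) {x y : G} : x * δ ^ k ≤ y * δ ^ k ↔ x ≤ y := by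
  obtain ⟨n, rfl | rfl⟩ := k.eq_nat_or_neg
  · rw [zpow_natCast, mul_pow_le_iff]
  · rw [← mul_pow_le_iff n (x := x * δ ^ (-(n : ℤ)))]
    simp

theorem le_mul_zpow_iff (k : ℤ) {x y : G} : x ≤ y * δ ^ k ↔ x * δ ^ (-k) ≤ y := by
  rw [← mul_zpow_le_iff (-k) (x := x)]
  simp

theorem one_le_δ : (1 : G) ≤ δ := one_le_iff.mpr δ_mem

theorem le_mul_δ (x : G) : x ≤ x * δ := by
  have h := (mul_le_mul_iff x).mpr (one_le_δ (G := G))
  rwa [mul_one] at h

theorem le_mul_pow (x : G) (k : ℕ) : x ≤ x * δ ^ k := by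
  induction k with
  | zero => simp
  | succ k ih =>
    refine ih.trans ?_
    rw [pow_succ, ← mul_assoc]
    exact le_mul_δ _

theorem mul_zpow_mono (x : G) {k l : ℤ} (h : k ≤ l) : x * δ ^ k ≤ x * δ ^ l := by
  obtain ⟨n, rfl⟩ := Int.le.dest h
  rw [zpow_add, ← mul_assoc, zpow_natCast δ n]
  exact le_mul_pow _ n

theorem exists_le_zpow (x y : G) : ∃ k : ℕ, x ≤ y * δ ^ k := by
  obtain ⟨k, hk⟩ := cof (y⁻¹ * x)
  refine ⟨k, ?_⟩
  rw [← mul_le_mul_iff y⁻¹, inv_mul_cancel_left]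
  exact hk

theorem exists_zpow_le (x y : G) : ∃ k : ℕ, x * δ ^ (-(k : ℤ)) ≤ y := by
  obtain ⟨k, hk⟩ := exists_le_zpow x y
  refine ⟨k, ?_⟩
  rw [← le_mul_zpow_iff, zpow_natCast]
  exact hk

/-- A nonempty set that is closed under joins and bounded above has a greatest element. -/
theorem exists_greatest (S : Set G) (hne : S.Nonempty)
    (hsup : ∀ x ∈ S, ∀ y ∈ S, ∃ j ∈ S, x ≤ j ∧ y ≤ j) (u : G) (hu : ∀ x ∈ S, x ≤ u) :
    ∃ m ∈ S, ∀ x ∈ S, x ≤ m := by
  obtain ⟨x0, hx0⟩ := hne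
  have key : ∀ n : ℕ, ∀ x ∈ S, len u - len x ≤ n → ∃ m ∈ S, ∀ x ∈ S, x ≤ m := by
    intro n
    induction n with
    | zero =>
      intro x hx hn
      refine ⟨x, hx, fun y hy => ?_⟩
      obtain ⟨j, hj, hxj, hyj⟩ := hsup x hx y hy
      have h1 := len_le (hu j hj)
      have h2 : x = j := eq_of_le hxj (by push_cast at hn; omega)
      rw [h2]
      exact hyj
    | succ n ih =>
      intro x hx hn
      by_cases hm : ∀ y ∈ S, y ≤ x
      · exact ⟨x, hx, hm⟩
      · push Not at hm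
        obtain ⟨y, hy, hyx⟩ := hm
        obtain ⟨j, hj, hxj, hyj⟩ := hsup x hx y hy
        have hlt : x < j := lt_of_le_of_ne hxj (fun h => hyx (by rw [h]; exact hyj))
        have h1 := len_lt hlt
        exact ih j hj (by push_cast at hn; omega)
  exact key (len u - len x0).toNat x0 hx0 (Int.self_le_toNat _)

theorem exists_inf (x y : G) : ∃ m, m ≤ x ∧ m ≤ y ∧ ∀ z, z ≤ x → z ≤ y → z ≤ m := by
  obtain ⟨k, hk⟩ := exists_zpow_le x y
  obtain ⟨m, hm, hmax⟩ := exists_greatest {z : G | z ≤ x ∧ z ≤ y}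
    ⟨x * δ ^ (-(k : ℤ)), by
      have h := mul_zpow_mono x (show (-(k : ℤ)) ≤ 0 by omega)
      rwa [zpow_zero, mul_one] at h, hk⟩
    (by
      rintro a ⟨ha1, ha2⟩ b ⟨hb1, hb2⟩
      obtain ⟨j, hj1, hj2, hj⟩ := sup a b
      exact ⟨j, ⟨hj x ha1 hb1, hj y ha2 hb2⟩, hj1, hj2⟩) x (fun z hz => hz.1)
  exact ⟨m, hm.1, hm.2, fun z h1 h2 => hmax z ⟨h1, h2⟩⟩

/-- `G` is a lattice. -/
noncomputable instance instLattice : Lattice G where
  sup x y := (sup x y).choose
  le_sup_left x y := (sup x y).choose_spec.1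
  le_sup_right x y := (sup x y).choose_spec.2.1
  sup_le x y z hx hy := (sup x y).choose_spec.2.2 z hx hy
  inf x y := (exists_inf x y).choose
  inf_le_left x y := (exists_inf x y).choose_spec.1
  inf_le_right x y := (exists_inf x y).choose_spec.2.1
  le_inf x y z hx hy := (exists_inf y z).choose_spec.2.2 x hx hy

theorem mul_sup' (z x y : G) : z * (x ⊔ y) = z * x ⊔ z * y := by
  apply le_antisymm
  · rw [← mul_le_mul_iff z⁻¹, inv_mul_cancel_left]
    apply sup_le
    · rw [← mul_le_mul_iff z, mul_inv_cancel_left]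
      exact le_sup_left
    · rw [← mul_le_mul_iff z, mul_inv_cancel_left]
      exact le_sup_right
  · exact sup_le ((mul_le_mul_iff z).mpr le_sup_left) ((mul_le_mul_iff z).mpr le_sup_right)

theorem mul_inf' (z x y : G) : z * (x ⊓ y) = z * x ⊓ z * y := by
  apply le_antisymm
  · exact le_inf ((mul_le_mul_iff z).mpr inf_le_left) ((mul_le_mul_iff z).mpr inf_le_right)
  · rw [← mul_le_mul_iff z⁻¹, inv_mul_cancel_left]
    apply le_inf
    · rw [← mul_le_mul_iff z, mul_inv_cancel_left]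
      exact inf_le_left
    · rw [← mul_le_mul_iff z, mul_inv_cancel_left]
      exact inf_le_right

theorem sup_zpow (k : ℤ) (x y : G) : (x ⊔ y) * δ ^ k = x * δ ^ k ⊔ y * δ ^ k := by
  apply le_antisymm
  · have h : x ⊔ y ≤ (x * δ ^ k ⊔ y * δ ^ k) * δ ^ (-k) := by
      apply sup_le
      · rw [le_mul_zpow_iff, neg_neg]
        exact le_sup_left
      · rw [le_mul_zpow_iff, neg_neg]
        exact le_sup_right
    rwa [le_mul_zpow_iff, neg_neg] at h
  · exact sup_le ((mul_zpow_le_iff k).mpr le_sup_left) ((mul_zpow_le_iff k).mpr le_sup_right)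

theorem inf_zpow (k : ℤ) (x y : G) : (x ⊓ y) * δ ^ k = x * δ ^ k ⊓ y * δ ^ k := by
  apply le_antisymm
  · exact le_inf ((mul_zpow_le_iff k).mpr inf_le_left) ((mul_zpow_le_iff k).mpr inf_le_right)
  · have h : (x * δ ^ k ⊓ y * δ ^ k) * δ ^ (-k) ≤ x ⊓ y := by
      apply le_inf
      · rw [← le_mul_zpow_iff]
        exact inf_le_left
      · rw [← le_mul_zpow_iff]
        exact inf_le_right
    rwa [← le_mul_zpow_iff] at h

end Gar

end Pool.Agent.H88.GH
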