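import Pool.Agent.H88.GH.Basic

/-!
# Project GH (MP_35eb49): translation numbers, greedy words, horofunctions, flats
-/

set_option autoImplicit false

namespace Pool.Agent.H88.GH

namespace Gar

variable {G : Type} [Group G] [Gar G]

/-- `t` is the translation number of `h`, with bounded error. -/
def IsT (h : G) (t : ℤ) : Prop :=
  ∃ C : ℤ, ∀ n : ℕ, n * t ≤ d 1 (h ^ n) ∧ d 1 (h ^ n) ≤ n * t + C

/-- The symmetric distance; it is invariant under right multiplication by powers of `δ`. -/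
noncomputable def dd (x y : G) : ℤ := d x y + d y x

/-- The points that `g` moves no more than it moves `1`. -/
def MM (g : G) : Set G := {y | d y (g * y) ≤ d 1 g ∧ d y (g⁻¹ * y) ≤ d 1 g⁻¹}

/-- `Gr s w s' n`: `w` is the product of `n` proper letters, the first one may follow the letter
`s` and the last one is `s'` (or `s' = s` if `n = 0`). -/
inductive Gr : G → G → G → ℕ → Prop
  | nil (s : G) : Gr s 1 s 0
  | cons {s u w s' : G} {n : ℕ} (h1 : 1 < u) (h2 : u < δ) (h3 : (s * u) ⊓ δ = s)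
      (h4 : Gr u w s' n) : Gr s (u * w) s' (n + 1)

/-- The letter from `y i` to `y (i + 1)`. -/
def st (y : ℕ → G) (i : ℕ) : G := (y i)⁻¹ * y (i + 1)

/-- A greedy ray of points of `MM g` that goes away from the powers of `g`. -/
structure Ray (g : G) (y : ℕ → G) : Prop where
  zero : y 0 = 1
  pre : ∀ i j, i ≤ j → y j ⊓ δ ^ i = y i
  mem : ∀ i, y i ∈ MM g
  far : ∀ (i : ℕ) (k : ℤ), (i : ℤ) ≤ dd 1 (g ^ k * y i)

/-- The homomorphism given by two commuting elements. -/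
def kap (a b : G) (x : ℤ × ℤ) : G := a ^ x.1 * b ^ x.2

/-- `I` is the horoball of a horofunction that grows like `φ` along the flat of `a`, `b`. -/
structure Bus (a b : G) (φ : ℤ × ℤ →+ ℤ) (I : Set G) : Prop where
  down : ∀ x ∈ I, ∀ y ≤ x, y ∈ I
  sup : ∀ x ∈ I, ∀ y ∈ I, x ⊔ y ∈ I
  shift : ∀ (x : ℤ × ℤ) (z : G), kap a b x * z * δ ^ (-φ x) ∈ I ↔ z ∈ I
  delta : ∀ c : ℤ, δ ^ c ∈ I ↔ c ≤ 0

/-- `φ` agrees with `τ` on a cone spanned by a basis, and is a minorant of `τ`. -/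
def IsCone (τ : ℤ × ℤ → ℤ) (φ : ℤ × ℤ →+ ℤ) : Prop :=
  (∀ y, φ y ≤ τ y) ∧ ∃ v w : ℤ × ℤ, (∀ y, ∃ m n : ℤ, y = m • v + n • w) ∧
    ∀ m n : ℕ, τ (m • v + n • w) = φ (m • v + n • w)

/-- Unit vectors of `ℤ³`. -/
def e (i : Fin 3) : Fin 3 → ℤ := Pi.single i 1

/-- A periodic flat of unit cells. -/
structure IsFlat (Y : (Fin 3 → ℤ) → G) (D : ℤ) : Prop where
  pos : 0 < D
  lt : ∀ v i, Y v < Y (v + e i)
  len : ∀ v i, len (Y (v + e i)) = len (Y v) + 1
  ne : ∀ v i j, i ≠ j → Y (v + e i) ≠ Y (v + e j)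
  diag : ∀ v, Y (v + 1) = Y v * δ
  per : ∀ j, ∃ Z : G, ∀ v, Y (v + D • e j) = Z * Y v

end Gar

end Pool.Agent.H88.GH
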