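import Pool.Agent.H88.GH.Defs2
import Pool.Agent.H88.GH.TabF

/-!
# Project GH (MP_35eb49): flats in terms of the tables
-/

set_option autoImplicit false

namespace Pool.Agent.H88.GH

open Gar

/-- The atom `t i` is a source of the tile `t`: `t i * t j` is simple for all `j ≠ i`. -/
def Src (t : Fin 3 → ℕ) (i : Fin 3) : Prop := ∀ j, j ≠ i → F (t i) (t j) = t j

/-- The atom `t i` is a sink of the tile `t`: `t j * t i` is simple for all `j ≠ i`. -/
def Snk (t : Fin 3 → ℕ) (i : Fin 3) : Prop := ∀ j, j ≠ i → F (t j) (t i) = t i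

/-- The types of a tile: `(i, true)` for a source `i`, `(i, false)` for a sink `i`. -/
def Ty (t : Fin 3 → ℕ) (X : Fin 3 × Bool) : Prop := if X.2 = true then Src t X.1 else Snk t X.1

/-- A periodic flat of tiles (indices of atoms). -/
structure TFlat (T : (Fin 3 → ℤ) → Fin 3 → ℕ) (D : ℤ) : Prop where
  pos : 0 < D
  lt : ∀ v i, T v i < 15
  tile : ∀ v i j k, i ≠ j → j ≠ k → i ≠ k → tile (T v i) (T v j) (T v k) = true
  rule : ∀ v i j, i ≠ j → T (v + e i) j = F (T v i) (T v j)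
  diag : ∀ v i, T (v + 1) i = tau (T v i)
  per : ∀ v j, T (v + D • e j) = T v

/-- Types common to the three vertices of a triangle. -/
def Ty3 (T : (Fin 3 → ℤ) → Fin 3 → ℕ) (v : Fin 3 → ℤ) (i j : Fin 3) (X : Fin 3 × Bool) : Prop :=
  Ty (T v) X ∧ Ty (T (v + e i)) X ∧ Ty (T (v + e i + e j)) X

/-- Types common to the four vertices of a rhombus. -/
def Ty4 (T : (Fin 3 → ℤ) → Fin 3 → ℕ) (v : Fin 3 → ℤ) (i j : Fin 3) (X : Fin 3 × Bool) : Prop :=
  Ty (T v) X ∧ Ty (T (v + e i)) X ∧ Ty (T (v + e j)) X ∧ Ty (T (v + e i + e j)) X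

/-- The atoms of a Garside structure are described by the tables of type `H₃`. -/
structure HTab {G : Type} [Group G] [Gar G] (atm : ℕ → G) : Prop where
  mem : ∀ i < 15, atm i ∈ (P : Submonoid G)
  len : ∀ i < 15, len (atm i) = 1
  inj : ∀ i < 15, ∀ j < 15, atm i = atm j → i = j
  all : ∀ x ∈ (P : Submonoid G), Gar.len x = 1 → ∃ i < 15, x = atm i
  join : ∀ i < 15, ∀ j < 15, i ≠ j → Gar.len (atm i ⊔ atm j) = 2 →
    J i j ≠ 15 ∧ atm i ⊔ atm j = atm i * atm (F i j)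
  joinJ : ∀ i < 15, ∀ j < 15, ∀ k < 15, ∀ l < 15, J i j ≠ 15 → J i j = J k l →
    atm i ⊔ atm j = atm k ⊔ atm l
  tau : ∀ i < 15, δ⁻¹ * atm i * δ = atm (tau i)

end Pool.Agent.H88.GH
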