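import Mathlib

/-!
# Project GH (MP_35eb49): the Artin group of type `H₃` and its dual generators
-/

set_option autoImplicit false

namespace Pool.Agent.H88.GH.H3

/-- The relations of the Artin group of type `H₃`. -/
def RH : Set (FreeGroup (Fin 3)) :=
  Set.range (fun p : Fin 3 × Fin 3 =>
    ((CoxeterSystem.alternatingWord p.1 p.2 (CoxeterMatrix.H₃ p.1 p.2)).map FreeGroup.of).prod *
      (((CoxeterSystem.alternatingWord p.2 p.1 (CoxeterMatrix.H₃ p.1 p.2)).map
        FreeGroup.of).prod)⁻¹)

/-- The Artin group of type `H₃`. -/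
abbrev A : Type := PresentedGroup RH

/-- The standard generators. -/
def s (i : Fin 3) : A := PresentedGroup.of i

/-- The dual Garside element. -/
def dl : A := s 0 * s 2 * s 1

/-- Representatives of the atoms. -/
def bs1 : ℕ → A
  | 0 => s 0
  | 1 => s 1
  | _ => s 2

/-- Representatives of the elements of rank two. -/
def bs2 : ℕ → A
  | 0 => s 0 * s 2
  | 1 => s 0 * s 1
  | _ => s 2 * s 1

/-- Conjugation by `dl ^ m`. -/
def rot (m : ℤ) (x : A) : A := dl ^ (-m) * x * dl ^ m

/-- The atoms, for `n < 15`. -/
def atm (n : ℕ) : A := rot (n % 5 : ℕ) (bs1 (n / 5))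

/-- The elements of rank two, for `n < 15`. -/
def rk (n : ℕ) : A := rot (n % 5 : ℕ) (bs2 (n / 5))

/-- The simple elements, for `n < 32`. -/
def val (n : ℕ) : A :=
  if n = 0 then 1 else if n < 16 then atm (n - 1) else if n < 31 then rk (n - 16) else dl

/-- The dual braid monoid. -/
def Pos : Submonoid A := Submonoid.closure {x | ∃ n < 15, x = atm n}

end Pool.Agent.H88.GH.H3
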