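import Pool.Agent.H88.GH.Defs3
import Pool.Agent.H88.GH.Ck0
import Pool.Agent.H88.GH.Ck1
import Pool.Agent.H88.GH.Ck2
import Pool.Agent.H88.GH.Ck3
import Pool.Agent.H88.GH.Ck4

/-!
# Project GH (MP_35eb49), row GH-15: facts about flats of tiles from the kernel checks
-/

set_option autoImplicit false

namespace Pool.Agent.H88.GH

open Gar

theorem gh15_chkA {a : ℕ} (ha : a < 15) : chkA a = true := by
  interval_cases a
  exacts [chk0, chk1, chk2, chk3, chk4, chk5, chk6, chk7, chk8, chk9, chk10, chk11, chk12, chk13,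
    chk14]

theorem gh15_or {p q : Bool} (h : (!p || q) = true) (hp : p = true) : q = true := by
  rw [hp] at h
  simpa using h

theorem gh15_neB {x y : ℕ} (h : neB x y = true) : x ≠ y := by
  intro hxy
  unfold neB at h
  rw [hxy, Nat.beq_refl] at h
  exact absurd h (by decide)

theorem gh15_lex {x0 y0 x1 y1 x2 y2 : ℕ} {r : Bool} (h : lexB x0 y0 x1 y1 x2 y2 r = true) :
    y0 < x0 ∨ (x0 = y0 ∧ (y1 < x1 ∨ (x1 = y1 ∧ (y2 < x2 ∨ (x2 = y2 ∧ r = true))))) := by
  unfold lexB at h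
  simpa only [Bool.or_eq_true, Bool.and_eq_true, Nat.blt_eq, Nat.beq_eq] using h

/-- periodic and nonincreasing functions are constant along lines -/
theorem gh15_per {f : (Fin 3 → ℤ) → ℕ} {D : ℤ} (hD : 0 < D) {i : Fin 3}
    (hp : ∀ v, f (v + D • e i) = f v) (hm : ∀ v, f (v + e i) ≤ f v) (v : Fin 3 → ℤ) :
    f (v + e i) = f v := by
  apply le_antisymm (hm v)
  have key : ∀ n : ℕ, f (v + e i + (n : ℤ) • e i) ≤ f (v + e i) := by
    intro n
    induction n with
    | zero => simp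
    | succ n ih =>
      refine le_trans ?_ ih
      have h1 : v + e i + ((n + 1 : ℕ) : ℤ) • e i = v + e i + (n : ℤ) • e i + e i := by
        push_cast
        rw [add_smul, one_smul]
        abel
      rw [h1]
      exact hm _
  have h2 := key (D - 1).toNat
  have h3 : (((D - 1).toNat : ℕ) : ℤ) = D - 1 := Int.toNat_of_nonneg (by omega)
  rw [h3] at h2
  have h4 : v + e i + (D - 1) • e i = v + D • e i := by
    rw [sub_smul, one_smul]
    abel
  rw [h4, hp] at h2
  exact h2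

/-- the index of a bit of a mask -/
def gh15_mb (i j k : Fin 3) (n : Fin 6) : Fin 3 × Bool :=
  match n with
  | 0 => (i, true)
  | 1 => (j, true)
  | 2 => (k, true)
  | 3 => (i, false)
  | 4 => (j, false)
  | 5 => (k, false)

theorem gh15_third : ∀ i j : Fin 3, i ≠ j → ∃ k, i ≠ k ∧ j ≠ k := by decide

theorem gh15_surj0 : ∀ i j k : Fin 3, i ≠ j → i ≠ k → j ≠ k → ∀ (x : Fin 3) (b : Bool),
    ∃ n : Fin 6, gh15_mb i j k n = (x, b) := by decide

theorem gh15_surj {i j k : Fin 3} (hij : i ≠ j) (hik : i ≠ k) (hjk : j ≠ k) (X : Fin 3 × Bool) :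
    ∃ n : Fin 6, gh15_mb i j k n = X := gh15_surj0 i j k hij hik hjk X.1 X.2

theorem gh15_beq {x y : ℕ} (h : Nat.beq x y = false) : x ≠ y := by
  intro hxy
  rw [hxy, Nat.beq_refl] at h
  exact absurd h (by decide)

theorem gh15_inj : ∀ i j k : Fin 3, i ≠ j → i ≠ k → j ≠ k → ∀ m n : Fin 6,
    gh15_mb i j k m = gh15_mb i j k n → m = n := by decide

theorem gh15_all3 {i j k : Fin 3} (hij : i ≠ j) (hik : i ≠ k) (hjk : j ≠ k) (l : Fin 3) :
    l = i ∨ l = j ∨ l = k := by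
  revert i j k l
  decide

theorem gh15_bits (b0 b1 b2 b3 b4 b5 : Bool) (n : Fin 6) :
    (cond b0 1 0 + (cond b1 2 0 + (cond b2 4 0 + (cond b3 8 0 + (cond b4 16 0 +
      cond b5 32 0))))).testBit n = ![b0, b1, b2, b3, b4, b5] n := by
  revert b0 b1 b2 b3 b4 b5 n
  decide

theorem gh15_src {t : Fin 3 → ℕ} {i j k : Fin 3} (hij : i ≠ j) (hik : i ≠ k) (hjk : j ≠ k) :
    srcB (t i) (t j) (t k) = true ↔ Src t i := by
  unfold srcB arr Src
  rw [Bool.and_eq_true, Nat.beq_eq, Nat.beq_eq]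
  constructor
  · rintro ⟨h1, h2⟩ l hl
    rcases gh15_all3 hij hik hjk l with h | h | h
    · exact absurd h hl
    · rw [h]; exact h1
    · rw [h]; exact h2
  · intro h
    exact ⟨h j hij.symm, h k hik.symm⟩

theorem gh15_snk {t : Fin 3 → ℕ} {i j k : Fin 3} (hij : i ≠ j) (hik : i ≠ k) (hjk : j ≠ k) :
    snkB (t i) (t j) (t k) = true ↔ Snk t i := by
  unfold snkB arr Snk
  rw [Bool.and_eq_true, Nat.beq_eq, Nat.beq_eq]
  constructor
  · rintro ⟨h1, h2⟩ l hl
    rcases gh15_all3 hij hik hjk l with h | h | h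
    · exact absurd h hl
    · rw [h]; exact h1
    · rw [h]; exact h2
  · intro h
    exact ⟨h j hij.symm, h k hik.symm⟩

theorem gh15_src_perm {t : Fin 3 → ℕ} {i j k : Fin 3} (hij : i ≠ j) (hik : i ≠ k)
    (hjk : j ≠ k) (n : Fin 6) :
    (mask (t i) (t j) (t k)).testBit n = true ↔ Ty t (gh15_mb i j k n) := by
  unfold mask
  rw [gh15_bits]
  fin_cases n
  · exact gh15_src hij hik hjk
  · exact gh15_src hij.symm hjk hik
  · exact gh15_src hik.symm hjk.symm hij
  · exact gh15_snk hij hik hjk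
  · exact gh15_snk hij.symm hjk hik
  · exact gh15_snk hik.symm hjk.symm hij

theorem gh15_mask_lt (a b c : ℕ) : mask a b c < 64 := by
  unfold mask
  cases srcB a b c <;> cases srcB b a c <;> cases srcB c a b <;> cases snkB a b c <;>
    cases snkB b a c <;> cases snkB c a b <;> decide

theorem gh15_ne_zero : ∀ m < 64, m ≠ 0 → ∃ n : Fin 6, m.testBit n = true := by decide

theorem gh15_ne_zero7 : ∀ m < 64, Nat.land m 7 ≠ 0 →
    ∃ n : Fin 6, n.val < 3 ∧ m.testBit n = true := by decide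

theorem gh15_few : ∀ m < 64, few m = true → ∀ n n' : Fin 6, m.testBit n = true →
    m.testBit n' = true → n = n' := by decide

theorem gh15_one : ∀ m < 64, m ≠ 0 → (∀ n : Fin 6, m.testBit n = true → n = 0) → m = 1 := by
  decide

theorem gh15_eight : ∀ m < 64, m ≠ 0 → (∀ n : Fin 6, m.testBit n = true → n = 3) → m = 8 := by
  decide

theorem gh15_bit1 : ∀ n : Fin 6, (1 : ℕ).testBit n = true → n = 0 := by decide

theorem gh15_bit8 : ∀ n : Fin 6, (8 : ℕ).testBit n = true → n = 3 := by decide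

theorem gh15_seven : ∀ n : Fin 6, n.val < 3 → (7 : ℕ).testBit n = true := by decide

section

variable {T : (Fin 3 → ℤ) → Fin 3 → ℕ} {D : ℤ}

/-- the mask of the tile at `v` -/
def gh15_mk (T : (Fin 3 → ℤ) → Fin 3 → ℕ) (i j k : Fin 3) (v : Fin 3 → ℤ) : ℕ :=
  mask (T v i) (T v j) (T v k)

theorem gh15_F {a b : ℕ} (ha : a < 15) (hb : b < 15) (h : J a b ≠ 15) :
    F a (F a b) = F a b ∧ F a b < 15 ∧ J (tau a) (tau b) ≠ 15 ∧
      F (tau a) (tau b) = tau (F a b) := by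
  have key : (allB 15 fun a => allB 15 fun b => Nat.beq (J a b) 15 || (Nat.beq (F a (F a b)) (F a b)
      && (Nat.blt (F a b) 15 && (!(Nat.beq (J (tau a) (tau b)) 15) &&
        Nat.beq (F (tau a) (tau b)) (tau (F a b)))))) = true := by decide +kernel
  have h1 := allB_spec (allB_spec key ha) hb
  simp only [Bool.or_eq_true, Bool.and_eq_true, Nat.beq_eq, Nat.blt_eq, Bool.not_eq_true'] at h1
  rcases h1 with h1 | h1
  · exact absurd h1 h
  · exact ⟨h1.1, h1.2.1, gh15_beq h1.2.2.1, h1.2.2.2⟩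

theorem F_idem {a b : ℕ} (ha : a < 15) (hb : b < 15) (h : J a b ≠ 15) :
    F a (F a b) = F a b := (gh15_F ha hb h).1

theorem gh15_tile {a b c : ℕ} (h : tile a b c = true) :
    J a b ≠ 15 ∧ J b c ≠ 15 ∧ J a c ≠ 15 := by
  unfold tile at h
  simp only [Bool.and_eq_true] at h
  exact ⟨gh15_neB h.1.1.1.1.1, gh15_neB h.1.1.1.1.2, gh15_neB h.1.1.1.2⟩

theorem gh15_tau {a b : ℕ} (ha : a < 15) (hb : b < 15) (h : tau a = tau b) : a = b := by
  unfold tau at h
  omega

theorem gh15_J (hT : TFlat T D) (v : Fin 3 → ℤ) {i j : Fin 3} (hij : i ≠ j) :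
    J (T v i) (T v j) ≠ 15 := by
  obtain ⟨k, hik, hjk⟩ := gh15_third i j hij
  exact (gh15_tile (hT.tile v i j k hij hjk hik)).1

theorem gh15_Ftau (hT : TFlat T D) (v : Fin 3 → ℤ) {i j : Fin 3} (hij : i ≠ j) :
    F (tau (T v i)) (tau (T v j)) = tau (F (T v i) (T v j)) :=
  (gh15_F (hT.lt v i) (hT.lt v j) (gh15_J hT v hij)).2.2.2

theorem gh15_Flt (hT : TFlat T D) (v : Fin 3 → ℤ) {i j : Fin 3} (hij : i ≠ j) :
    F (T v i) (T v j) < 15 :=
  (gh15_F (hT.lt v i) (hT.lt v j) (gh15_J hT v hij)).2.1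

theorem ty_diag (hT : TFlat T D) (v : Fin 3 → ℤ) (X : Fin 3 × Bool) :
    Ty (T (v + 1)) X ↔ Ty (T v) X := by
  unfold Ty
  split_ifs
  · unfold Src
    refine forall_congr' fun j => forall_congr' fun hj => ?_
    rw [hT.diag, hT.diag, gh15_Ftau hT v (Ne.symm hj)]
    exact ⟨fun h => gh15_tau (gh15_Flt hT v (Ne.symm hj)) (hT.lt v j) h, fun h => by rw [h]⟩
  · unfold Snk
    refine forall_congr' fun j => forall_congr' fun hj => ?_
    rw [hT.diag, hT.diag, gh15_Ftau hT v hj]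
    exact ⟨fun h => gh15_tau (gh15_Flt hT v hj) (hT.lt v X.1) h, fun h => by rw [h]⟩

theorem gh15_snkB : (allB 15 fun a => allB 15 fun b => allB 15 fun c => !(tile a b c) ||
    (cond (snkB a b c) (Nat.beq (F (F b c) (F b a)) a)
      (!(Nat.beq (F (F b c) (F b a)) a)))) = true := by decide +kernel

theorem gh15_one_eq {i j k : Fin 3} (hij : i ≠ j) (hik : i ≠ k) (hjk : j ≠ k) :
    (1 : Fin 3 → ℤ) = e i + e j + e k := by
  revert i j k
  decide

/-- Sinks in the interior of a column. -/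
theorem snk_iff (hT : TFlat T D) (v : Fin 3 → ℤ) (i : Fin 3) :
    Snk (T (v + e i)) i ↔ T (v + e i) i = tau (T v i) := by
  obtain ⟨j, hij⟩ : ∃ j, i ≠ j := by revert i; decide
  obtain ⟨k, hik, hjk⟩ := gh15_third i j hij
  have h1 : tau (T v i) = F (F (T (v + e i) j) (T (v + e i) k))
      (F (T (v + e i) j) (T (v + e i) i)) := by
    rw [← hT.diag, gh15_one_eq hij hik hjk, ← add_assoc, ← add_assoc, hT.rule _ k i hik.symm,
      hT.rule _ j k hjk, hT.rule _ j i hij.symm]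
  rw [h1, ← gh15_snk hij hik hjk]
  have h2 := gh15_or (allB_spec (allB_spec (allB_spec gh15_snkB (hT.lt (v + e i) i))
    (hT.lt (v + e i) j)) (hT.lt (v + e i) k)) (hT.tile (v + e i) i j k hij hjk hik)
  constructor
  · intro h
    rw [h] at h2
    exact (Nat.eq_of_beq_eq_true h2).symm
  · intro h
    by_contra hc
    rw [Bool.not_eq_true] at hc
    rw [hc] at h2
    simp only [cond_false, Bool.not_eq_true'] at h2
    exact gh15_beq h2 h.symm

/-- the check at a rhombus -/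
theorem gh15_chk (hT : TFlat T D) (v : Fin 3 → ℤ) {i j k : Fin 3} (hij : i ≠ j) (hik : i ≠ k)
    (hjk : j ≠ k) :
    chk (T v i) (T v j) (T v k) (T (v + e i) i) (T (v + e j) j) = true := by
  have h := gh15_chkA (hT.lt v i)
  unfold chkA at h
  have h1 := gh15_or (allB_spec (allB_spec h (hT.lt v j)) (hT.lt v k)) (hT.tile v i j k hij hjk hik)
  have h2 := hT.tile (v + e i) i j k hij hjk hik
  rw [hT.rule v i j hij, hT.rule v i k hik] at h2
  have h3 := gh15_or (allB_spec h1 (hT.lt (v + e i) i)) h2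
  have h4 := hT.tile (v + e j) i j k hij hjk hik
  rw [hT.rule v j i hij.symm, hT.rule v j k hjk] at h4
  exact gh15_or (allB_spec h3 (hT.lt (v + e j) j)) h4

theorem gh15_e12 (hT : TFlat T D) (v : Fin 3 → ℤ) {i j k : Fin 3} (hij : i ≠ j) (hik : i ≠ k)
    (hjk : j ≠ k) :
    T (v + e i + e j) i = F (F (T v i) (T v j)) (T (v + e i) i) ∧
    T (v + e i + e j) j = F (F (T v j) (T v i)) (T (v + e j) j) ∧
    T (v + e i + e j) k = F (F (T v i) (T v j)) (F (T v i) (T v k)) := by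
  refine ⟨?_, ?_, ?_⟩
  · rw [hT.rule _ j i hij.symm, hT.rule v i j hij]
  · rw [add_right_comm, hT.rule _ i j hij, hT.rule v j i hij.symm]
  · rw [hT.rule _ j k hjk, hT.rule v i j hij, hT.rule v i k hik]

/-- the check, in terms of the flat -/
theorem gh15_chk' (hT : TFlat T D) (v : Fin 3 → ℤ) {i j k : Fin 3} (hij : i ≠ j) (hik : i ≠ k)
    (hjk : j ≠ k) :
    lexB (p0 (T v i) (T v j) (T v k) (T (v + e j) j))
      (p0 (T (v + e i) i) (T (v + e i) j) (T (v + e i) k) (T (v + e i + e j) j))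
      (p1 (T v i) (T v j) (T v k) (T (v + e i) i))
      (p1 (T (v + e j) i) (T (v + e j) j) (T (v + e j) k) (T (v + e j + e i) i))
      (p2 (T v i) (T v j) (T v k) (T (v + e j) j))
      (p2 (T (v + e i) i) (T (v + e i) j) (T (v + e i) k) (T (v + e i + e j) j))
      (neB (l4 (gh15_mk T i j k v) (gh15_mk T i j k (v + e i)) (gh15_mk T i j k (v + e j))
        (gh15_mk T i j k (v + e i + e j))) 0) = true ∧
    triB (gh15_mk T i j k v) (gh15_mk T i j k (v + e i)) (gh15_mk T i j k (v + e j))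
        (gh15_mk T i j k (v + e i + e j)) = true ∧
    nextB (l4 (gh15_mk T i j k v) (gh15_mk T i j k (v + e i)) (gh15_mk T i j k (v + e j))
        (gh15_mk T i j k (v + e i + e j)))
      (gh15_mk T i j k (v + e i)) (gh15_mk T i j k (v + e i + e j))
      (T (v + e i) i) (T (v + e i) j) (T (v + e i) k) (T (v + e i + e j) i)
      (T (v + e i + e j) j) = true := by
  have h := gh15_chk hT v hij hik hjk
  obtain ⟨h1, h2, h3⟩ := gh15_e12 hT v hij hik hjk
  have h4 := hT.tile (v + e i + e j) i j k hij hjk hik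
  unfold chk at h
  rw [← h1, ← h2, ← h3, ← hT.rule v i j hij, ← hT.rule v i k hik, ← hT.rule v j i hij.symm,
    ← hT.rule v j k hjk] at h
  have h5 := gh15_or h h4
  rw [Bool.and_eq_true, Bool.and_eq_true] at h5
  rw [add_right_comm v (e j) (e i)]
  exact h5

theorem gh15_mono0 (hT : TFlat T D) {i j k : Fin 3} (hij : i ≠ j) (hik : i ≠ k)
    (hjk : j ≠ k) (v : Fin 3 → ℤ) :
    p0 (T (v + e i) i) (T (v + e i) j) (T (v + e i) k) (T (v + e i + e j) j) =
      p0 (T v i) (T v j) (T v k) (T (v + e j) j) := by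
  refine gh15_per (f := fun v => p0 (T v i) (T v j) (T v k) (T (v + e j) j)) hT.pos (i := i)
    (fun v => ?_) (fun v => ?_) v
  · have h : T (v + D • e i + e j) = T (v + e j) := by rw [add_right_comm, hT.per]
    simp only [hT.per, h]
  · rcases gh15_lex (gh15_chk' hT v hij hik hjk).1 with h | h
    · exact h.le
    · exact h.1.ge

theorem gh15_mono1 (hT : TFlat T D) {i j k : Fin 3} (hij : i ≠ j) (hik : i ≠ k)
    (hjk : j ≠ k) (v : Fin 3 → ℤ) :
    p1 (T (v + e j) i) (T (v + e j) j) (T (v + e j) k) (T (v + e j + e i) i) =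
      p1 (T v i) (T v j) (T v k) (T (v + e i) i) := by
  refine gh15_per (f := fun v => p1 (T v i) (T v j) (T v k) (T (v + e i) i)) hT.pos (i := j)
    (fun v => ?_) (fun v => ?_) v
  · have h : T (v + D • e j + e i) = T (v + e i) := by rw [add_right_comm, hT.per]
    simp only [hT.per, h]
  · rcases gh15_lex (gh15_chk' hT v hij hik hjk).1 with h | ⟨h, h | h⟩
    · exact absurd (gh15_mono0 hT hij hik hjk v) h.ne
    · exact h.le
    · exact h.1.ge

theorem gh15_mono2 (hT : TFlat T D) {i j k : Fin 3} (hij : i ≠ j) (hik : i ≠ k)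
    (hjk : j ≠ k) (v : Fin 3 → ℤ) :
    p2 (T (v + e i) i) (T (v + e i) j) (T (v + e i) k) (T (v + e i + e j) j) =
      p2 (T v i) (T v j) (T v k) (T (v + e j) j) := by
  refine gh15_per (f := fun v => p2 (T v i) (T v j) (T v k) (T (v + e j) j)) hT.pos (i := i)
    (fun v => ?_) (fun v => ?_) v
  · have h : T (v + D • e i + e j) = T (v + e j) := by rw [add_right_comm, hT.per]
    simp only [hT.per, h]
  · rcases gh15_lex (gh15_chk' hT v hij hik hjk).1 with h | ⟨h, h | ⟨h', h | h⟩⟩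
    · exact absurd (gh15_mono0 hT hij hik hjk v) h.ne
    · exact absurd (gh15_mono1 hT hij hik hjk v) h.ne
    · exact h.le
    · exact h.1.ge

theorem gh15_rh (hT : TFlat T D) {i j k : Fin 3} (hij : i ≠ j) (hik : i ≠ k)
    (hjk : j ≠ k) (v : Fin 3 → ℤ) :
    l4 (gh15_mk T i j k v) (gh15_mk T i j k (v + e i)) (gh15_mk T i j k (v + e j))
        (gh15_mk T i j k (v + e i + e j)) ≠ 0 := by
  rcases gh15_lex (gh15_chk' hT v hij hik hjk).1 with h | ⟨h, h | ⟨h', h | h⟩⟩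
  · exact absurd (gh15_mono0 hT hij hik hjk v) h.ne
  · exact absurd (gh15_mono1 hT hij hik hjk v) h.ne
  · exact absurd (gh15_mono2 hT hij hik hjk v) h.ne
  · exact gh15_neB h.2

theorem gh15_land_lt {m n : ℕ} (h : m < 64) : Nat.land m n < 64 :=
  lt_of_le_of_lt Nat.and_le_left h

theorem gh15_tb4 {m n p q : ℕ} {b : ℕ} : (l4 m n p q).testBit b = true ↔
    m.testBit b = true ∧ n.testBit b = true ∧ p.testBit b = true ∧ q.testBit b = true := by
  have h : l4 m n p q = (m &&& n) &&& (p &&& q) := rfl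
  rw [h, Nat.testBit_and, Nat.testBit_and, Nat.testBit_and]
  simp only [Bool.and_eq_true]
  tauto

theorem gh15_tb3 {m n p : ℕ} {b : ℕ} : (l3 m n p).testBit b = true ↔
    m.testBit b = true ∧ n.testBit b = true ∧ p.testBit b = true := by
  have h : l3 m n p = m &&& (n &&& p) := rfl
  rw [h, Nat.testBit_and, Nat.testBit_and]
  simp only [Bool.and_eq_true]

theorem gh15_mk_ty {v : Fin 3 → ℤ} {i j k : Fin 3} (hij : i ≠ j) (hik : i ≠ k)
    (hjk : j ≠ k) (n : Fin 6) :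
    (gh15_mk T i j k v).testBit n = true ↔ Ty (T v) (gh15_mb i j k n) :=
  gh15_src_perm hij hik hjk n

theorem gh15_l4_ty {v : Fin 3 → ℤ} {i j k : Fin 3} (hij : i ≠ j) (hik : i ≠ k)
    (hjk : j ≠ k) (n : Fin 6) :
    (l4 (gh15_mk T i j k v) (gh15_mk T i j k (v + e i)) (gh15_mk T i j k (v + e j))
        (gh15_mk T i j k (v + e i + e j))).testBit n = true ↔
      Ty4 T v i j (gh15_mb i j k n) := by
  rw [gh15_tb4, gh15_mk_ty hij hik hjk, gh15_mk_ty hij hik hjk, gh15_mk_ty hij hik hjk,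
    gh15_mk_ty hij hik hjk]
  rfl

theorem gh15_l3_ty {v : Fin 3 → ℤ} {i j k : Fin 3} (hij : i ≠ j) (hik : i ≠ k)
    (hjk : j ≠ k) (n : Fin 6) :
    (l3 (gh15_mk T i j k v) (gh15_mk T i j k (v + e i))
        (gh15_mk T i j k (v + e i + e j))).testBit n = true ↔
      Ty3 T v i j (gh15_mb i j k n) := by
  rw [gh15_tb3, gh15_mk_ty hij hik hjk, gh15_mk_ty hij hik hjk, gh15_mk_ty hij hik hjk]
  rfl

theorem gh15_l3_ty' {v : Fin 3 → ℤ} {i j k : Fin 3} (hij : i ≠ j) (hik : i ≠ k)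
    (hjk : j ≠ k) (n : Fin 6) :
    (l3 (gh15_mk T i j k v) (gh15_mk T i j k (v + e j))
        (gh15_mk T i j k (v + e i + e j))).testBit n = true ↔
      Ty3 T v j i (gh15_mb i j k n) := by
  rw [gh15_tb3, gh15_mk_ty hij hik hjk, gh15_mk_ty hij hik hjk, gh15_mk_ty hij hik hjk,
    add_right_comm]
  rfl

theorem fact1 (hT : TFlat T D) (v : Fin 3 → ℤ) {i j : Fin 3} (hij : i ≠ j) :
    ∃ X, Ty4 T v i j X := by
  obtain ⟨k, hik, hjk⟩ := gh15_third i j hij
  obtain ⟨n, hn⟩ := gh15_ne_zero _ (gh15_land_lt (gh15_land_lt (gh15_mask_lt _ _ _)))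
    (gh15_rh hT hij hik hjk v)
  exact ⟨_, (gh15_l4_ty hij hik hjk n).mp hn⟩

theorem gh15_next {k0 m1 m12 a1 b1 c1 i12 j12 a2 : ℕ} (h : nextB k0 m1 m12 a1 b1 c1 i12 j12 = true)
    (hk : k0 = 1 ∨ k0 = 8) (ha : a2 < 15) (h1 : tile a2 (F a1 b1) (F a1 c1) = true)
    (h2 : tile (F (F a1 b1) a2) (F i12 j12) (F (F a1 b1) (F a1 c1)) = true) :
    l4 m1 (mask a2 (F a1 b1) (F a1 c1)) m12
            (mask (F (F a1 b1) a2) (F i12 j12) (F (F a1 b1) (F a1 c1))) = 0 ∨
    l4 m1 (mask a2 (F a1 b1) (F a1 c1)) m12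
            (mask (F (F a1 b1) a2) (F i12 j12) (F (F a1 b1) (F a1 c1))) = k0 := by
  unfold nextB at h
  have h3 : (Nat.beq k0 1 || Nat.beq k0 8) = true := by
    rw [Bool.or_eq_true, Nat.beq_eq, Nat.beq_eq]
    exact hk
  have h4 := allB_spec (gh15_or h h3) ha
  rw [h1, h2, Bool.not_true, Bool.or_self, Bool.false_or, Bool.or_eq_true, Nat.beq_eq,
    Nat.beq_eq] at h4
  exact h4

theorem fact2 (hT : TFlat T D) (v : Fin 3 → ℤ) {i j : Fin 3} (hij : i ≠ j) (b : Bool)
    (h : ∀ X, Ty4 T v i j X → X = (i, b)) : ∀ X, Ty4 T (v + e i) i j X → X = (i, b) := by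
  obtain ⟨k, hik, hjk⟩ := gh15_third i j hij
  have hlt := gh15_land_lt (n := Nat.land (gh15_mk T i j k (v + e j))
    (gh15_mk T i j k (v + e i + e j))) (gh15_land_lt (n := gh15_mk T i j k (v + e i))
    (gh15_mask_lt (T v i) (T v j) (T v k)))
  have hk : ∀ n : Fin 6, (l4 (gh15_mk T i j k v) (gh15_mk T i j k (v + e i))
      (gh15_mk T i j k (v + e j)) (gh15_mk T i j k (v + e i + e j))).testBit n = true →
      gh15_mb i j k n = (i, b) := fun n hn => h _ ((gh15_l4_ty hij hik hjk n).mp hn)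
  have hk0 : l4 (gh15_mk T i j k v) (gh15_mk T i j k (v + e i))
      (gh15_mk T i j k (v + e j)) (gh15_mk T i j k (v + e i + e j)) = cond b 1 8 := by
    cases b
    · exact gh15_eight _ hlt (gh15_rh hT hij hik hjk v)
        (fun n hn => gh15_inj i j k hij hik hjk n 3 (hk n hn))
    · exact gh15_one _ hlt (gh15_rh hT hij hik hjk v)
        (fun n hn => gh15_inj i j k hij hik hjk n 0 (hk n hn))
  have h1 := (gh15_chk' hT v hij hik hjk).2.2
  have hw1 : T (v + e i + e i) j = F (T (v + e i) i) (T (v + e i) j) := hT.rule _ _ _ hij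
  have hw2 : T (v + e i + e i) k = F (T (v + e i) i) (T (v + e i) k) := hT.rule _ _ _ hik
  obtain ⟨g1, g2, g3⟩ := gh15_e12 hT (v + e i) hij hik hjk
  have g2' : T (v + e i + e i + e j) j = F (T (v + e i + e j) i) (T (v + e i + e j) j) := by
    rw [add_right_comm (v + e i), hT.rule _ i j hij]
  have hw1' := hw1
  have h2 := gh15_next (a2 := T (v + e i + e i) i) h1 (by rw [hk0]; cases b <;> simp)
    (hT.lt _ _) (by
      rw [← hw1, ← hw2]
      exact hT.tile _ i j k hij hjk hik) (by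
      rw [← g1, ← g2', ← g3]
      exact hT.tile _ i j k hij hjk hik)
  rw [← g1, ← g2', ← g3, ← hw1, ← hw2] at h2
  have h3 : l4 (gh15_mk T i j k (v + e i)) (gh15_mk T i j k (v + e i + e i))
      (gh15_mk T i j k (v + e i + e j)) (gh15_mk T i j k (v + e i + e i + e j)) = cond b 1 8 := by
    rcases h2 with h2 | h2
    · exact absurd h2 (gh15_rh hT hij hik hjk (v + e i))
    · exact h2.trans hk0
  intro X hX
  obtain ⟨n, rfl⟩ := gh15_surj hij hik hjk X
  have h4 := (gh15_l4_ty hij hik hjk n).mpr hX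
  rw [h3] at h4
  cases b
  · rw [gh15_bit8 n h4]
    rfl
  · rw [gh15_bit1 n h4]
    rfl

theorem gh15_tri {m m1 m2 m12 : ℕ} (h : triB m m1 m2 m12 = true) :
    few (l3 m m1 m12) = true ∨ (Nat.land (l3 m m1 m12) 7 ≠ 0 ∧ (few (l3 m m2 m12) = true ∨
      Nat.land (l3 m m1 m12) 7 = Nat.land (l3 m m2 m12) 7)) := by
  unfold triB at h
  simp only [Bool.or_eq_true, Bool.and_eq_true, Nat.beq_eq] at h
  rcases h with h | ⟨h, h'⟩
  · exact Or.inl h
  · exact Or.inr ⟨gh15_neB h, h'⟩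

theorem gh15_not_few {v : Fin 3 → ℤ} {i j k : Fin 3} (hij : i ≠ j) (hik : i ≠ k)
    (hjk : j ≠ k) {X X' : Fin 3 × Bool} (h : X ≠ X') (hX : Ty3 T v i j X)
    (hX' : Ty3 T v i j X') : ¬ few (l3 (gh15_mk T i j k v) (gh15_mk T i j k (v + e i))
        (gh15_mk T i j k (v + e i + e j))) = true := by
  intro hf
  obtain ⟨n, rfl⟩ := gh15_surj hij hik hjk X
  obtain ⟨n', rfl⟩ := gh15_surj hij hik hjk X'
  exact h (by rw [gh15_few _ (gh15_land_lt (gh15_mask_lt _ _ _)) hf n n'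
    ((gh15_l3_ty hij hik hjk n).mpr hX) ((gh15_l3_ty hij hik hjk n').mpr hX')])

theorem gh15_not_few' {v : Fin 3 → ℤ} {i j k : Fin 3} (hij : i ≠ j) (hik : i ≠ k)
    (hjk : j ≠ k) {X X' : Fin 3 × Bool} (h : X ≠ X') (hX : Ty3 T v j i X)
    (hX' : Ty3 T v j i X') : ¬ few (l3 (gh15_mk T i j k v) (gh15_mk T i j k (v + e j))
        (gh15_mk T i j k (v + e i + e j))) = true := by
  intro hf
  obtain ⟨n, rfl⟩ := gh15_surj hij hik hjk X
  obtain ⟨n', rfl⟩ := gh15_surj hij hik hjk X'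
  exact h (by rw [gh15_few _ (gh15_land_lt (gh15_mask_lt _ _ _)) hf n n'
    ((gh15_l3_ty' hij hik hjk n).mpr hX) ((gh15_l3_ty' hij hik hjk n').mpr hX')])

theorem gh15_small : ∀ i j k : Fin 3, ∀ n : Fin 6, n.val < 3 →
    ∃ s : Fin 3, gh15_mb i j k n = (s, true) := by decide

theorem gh15_small' : ∀ i j k : Fin 3, i ≠ j → i ≠ k → j ≠ k → ∀ s : Fin 3,
    ∃ n : Fin 6, n.val < 3 ∧ gh15_mb i j k n = (s, true) := by decide

theorem fact3 (hT : TFlat T D) (v : Fin 3 → ℤ) {i j : Fin 3} (hij : i ≠ j)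
    {X X' : Fin 3 × Bool} (h : X ≠ X') (hX : Ty3 T v i j X) (hX' : Ty3 T v i j X') :
    ∃ s, Ty3 T v i j (s, true) := by
  obtain ⟨k, hik, hjk⟩ := gh15_third i j hij
  rcases gh15_tri (gh15_chk' hT v hij hik hjk).2.1 with h1 | ⟨h1, -⟩
  · exact absurd h1 (gh15_not_few hij hik hjk h hX hX')
  · obtain ⟨n, hn, hn'⟩ := gh15_ne_zero7 _ (gh15_land_lt (gh15_mask_lt _ _ _)) h1
    obtain ⟨s, hs⟩ := gh15_small i j k n hn
    exact ⟨s, hs ▸ (gh15_l3_ty hij hik hjk n).mp hn'⟩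

theorem fact4 (hT : TFlat T D) (v : Fin 3 → ℤ) {i j : Fin 3} (hij : i ≠ j)
    {X X' : Fin 3 × Bool} (h : X ≠ X') (hX : Ty3 T v i j X) (hX' : Ty3 T v i j X')
    {Z Z' : Fin 3 × Bool} (h' : Z ≠ Z') (hZ : Ty3 T v j i Z) (hZ' : Ty3 T v j i Z')
    (s : Fin 3) : Ty3 T v i j (s, true) → Ty3 T v j i (s, true) := by
  obtain ⟨k, hik, hjk⟩ := gh15_third i j hij
  intro hs
  rcases gh15_tri (gh15_chk' hT v hij hik hjk).2.1 with h1 | ⟨-, h1 | h1⟩
  · exact absurd h1 (gh15_not_few hij hik hjk h hX hX')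
  · exact absurd h1 (gh15_not_few' hij hik hjk h' hZ hZ')
  · obtain ⟨n, hn, hn'⟩ := gh15_small' i j k hij hik hjk s
    rw [← hn'] at hs ⊢
    rw [← gh15_l3_ty hij hik hjk] at hs
    rw [← gh15_l3_ty' hij hik hjk]
    have h2 : (Nat.land (l3 (gh15_mk T i j k v) (gh15_mk T i j k (v + e i))
        (gh15_mk T i j k (v + e i + e j))) 7).testBit n = true := by
      change ((l3 (gh15_mk T i j k v) (gh15_mk T i j k (v + e i))
        (gh15_mk T i j k (v + e i + e j))) &&& 7).testBit n = true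
      rw [Nat.testBit_and, hs, gh15_seven n hn]
      rfl
    rw [h1] at h2
    change ((l3 (gh15_mk T i j k v) (gh15_mk T i j k (v + e j))
        (gh15_mk T i j k (v + e i + e j))) &&& 7).testBit n = true at h2
    rw [Nat.testBit_and, Bool.and_eq_true] at h2
    exact h2.1

end

end Pool.Agent.H88.GH
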