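import Pool.Agent.H88.GH.Defs2

/-!
# Project GH (MP_35eb49), row GH-3: points of the centralizer far from the powers of `g`
-/

set_option autoImplicit false

namespace Pool.Agent.H88.GH

namespace Gar

variable {G : Type} [Group G] [Gar G]

theorem dd_nonneg (x y : G) : 0 ≤ dd x y := d_add_nonneg x y

theorem dd_triangle (x y z : G) : dd x z ≤ dd x y + dd y z := by
  have h1 := d_triangle x y z
  have h2 := d_triangle z y x
  unfold dd
  linarith

theorem dd_mul_left (z x y : G) : dd (z * x) (z * y) = dd x y := by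
  unfold dd
  rw [d_mul_left, d_mul_left]

theorem dd_zpow (x y : G) (k : ℤ) : dd x (y * δ ^ k) = dd x y := by
  unfold dd
  rw [d_mul_zpow, d_zpow_mul]
  ring

/-- If `⟨g⟩ Z(G)` has infinite index in the centralizer, the centralizer contains points far from
the powers of `g`. -/
theorem exists_far (g : G) (hi : (Subgroup.zpowers g ⊔ Subgroup.center G).relIndex
    (Subgroup.centralizer {g}) = 0) (N : ℤ) :
    ∃ z : G, Commute g z ∧ ∀ k : ℤ, N ≤ dd 1 (g ^ k * z) := by
  by_contra hcon
  push Not at hcon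
  set H := Subgroup.zpowers g ⊔ Subgroup.center G with hH
  set K := Subgroup.centralizer {g} with hK
  have hδ : ∀ k : ℤ, (δ : G) ^ (5 * k) ∈ Subgroup.center G := by
    intro k
    rw [Subgroup.mem_center_iff]
    intro x
    exact (central_zpow k x).symm
  -- representatives in a finite set
  have hfin : (Set.Icc (δ ^ (-N) : G) (δ ^ (5 : ℤ))).Finite := finite_Icc _ _
  have hrep : ∀ z : G, z ∈ K → ∃ h ∈ H, z * h ∈ Set.Icc (δ ^ (-N) : G) (δ ^ (5 : ℤ)) := by
    intro z hz
    have hz' : Commute g z := by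
      rw [hK, Subgroup.mem_centralizer_singleton_iff] at hz
      exact hz.symm
    obtain ⟨k, hk⟩ := hcon z hz'
    -- move `g ^ k * z` by a power of `δ ^ 5`
    set m := d 1 (g ^ k * z) / 5 with hm
    refine ⟨g ^ k * δ ^ (5 * (-m)), ?_, ?_⟩
    · exact Subgroup.mul_mem _ (Subgroup.mem_sup_left (Subgroup.zpow_mem_zpowers g k))
        (Subgroup.mem_sup_right (hδ _))
    · have h1 : z * (g ^ k * δ ^ (5 * (-m))) = g ^ k * z * δ ^ (5 * (-m)) := by
        rw [← mul_assoc, (hz'.zpow_left k).eq]
      rw [h1]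
      have h2 : d 1 (g ^ k * z * δ ^ (5 * (-m))) = d 1 (g ^ k * z) - 5 * m := by
        rw [d_mul_zpow]; ring
      have h3 : d 1 (g ^ k * z * δ ^ (5 * (-m))) ≤ 5 := by rw [h2, hm]; omega
      have h4 : 0 ≤ d 1 (g ^ k * z * δ ^ (5 * (-m))) := by rw [h2, hm]; omega
      constructor
      · have h5 : dd 1 (g ^ k * z * δ ^ (5 * (-m))) < N := by rw [dd_zpow]; exact hk
        have h6 : d (g ^ k * z * δ ^ (5 * (-m))) 1 ≤ N := by
          unfold dd at h5
          linarith
        rw [d_le_iff] at h6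
        have h7 := (mul_zpow_le_iff (-N)).mpr h6
        rwa [one_mul, mul_assoc, ← zpow_add, add_neg_cancel, zpow_zero, mul_one] at h7
      · rw [d_le_iff, one_mul] at h3
        exact h3
  -- finitely many cosets
  have hfi : Finite (K ⧸ H.subgroupOf K) := by
    let f : K → G := fun z => z.1 * (hrep z.1 z.2).choose
    have hf : ∀ z : K, f z ∈ Set.Icc (δ ^ (-N) : G) (δ ^ (5 : ℤ)) :=
      fun z => (hrep z.1 z.2).choose_spec.2
    have hf' : ∀ z w : K, f z = f w → z⁻¹ * w ∈ H.subgroupOf K := by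
      intro z w hzw
      rw [Subgroup.mem_subgroupOf]
      have h1 := (hrep z.1 z.2).choose_spec.1
      have h2 := (hrep w.1 w.2).choose_spec.1
      have h3 : ((z⁻¹ * w : K) : G) = (hrep z.1 z.2).choose * (hrep w.1 w.2).choose⁻¹ := by
        have h4 : z.1 * (hrep z.1 z.2).choose = w.1 * (hrep w.1 w.2).choose := hzw
        rw [Subgroup.coe_mul, Subgroup.coe_inv, inv_mul_eq_iff_eq_mul, ← mul_assoc, h4,
          mul_inv_cancel_right]
      rw [h3]
      exact H.mul_mem h1 (H.inv_mem h2)
    have hfin' : Finite (Set.Icc (δ ^ (-N) : G) (δ ^ (5 : ℤ))) := hfin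
    refine Finite.of_injective (β := Set.Icc (δ ^ (-N) : G) (δ ^ (5 : ℤ)))
      (fun q => ⟨f q.out, hf q.out⟩) ?_
    intro q r hqr
    have h5 := hf' q.out r.out (congrArg Subtype.val hqr)
    have h6 : (QuotientGroup.mk q.out : K ⧸ H.subgroupOf K) = QuotientGroup.mk r.out :=
      QuotientGroup.eq.mpr h5
    rw [QuotientGroup.out_eq', QuotientGroup.out_eq'] at h6
    exact h6
  have h7 : (H.subgroupOf K).FiniteIndex := Subgroup.finiteIndex_of_finite_quotient
  exact h7.index_ne_zero hi

end Gar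

end Pool.Agent.H88.GH
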