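import Pool.Agent.H88.GH.Defs2

/-!
# Project GH (MP_35eb49), row GH-13: construction of a periodic flat of unit cells
-/

set_option autoImplicit false

namespace Pool.Agent.H88.GH

namespace Gar

variable {G : Type} [Group G] [Gar G]

/-- the product of powers -/
def gh13_P (Z : Fin 3 → G) (n : Fin 3 → ℤ) : G := Z 0 ^ n 0 * Z 1 ^ n 1 * Z 2 ^ n 2

omit [Gar G] in
theorem gh13_P_add {Z : Fin 3 → G} (hZ : ∀ i j, Commute (Z i) (Z j)) (m n : Fin 3 → ℤ) :
    gh13_P Z (m + n) = gh13_P Z m * gh13_P Z n := by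
  unfold gh13_P
  have h1 : Commute (Z 1 ^ m 1) (Z 0 ^ n 0) := ((hZ 1 0).zpow_left _).zpow_right _
  have h2 : Commute (Z 2 ^ m 2) (Z 0 ^ n 0) := ((hZ 2 0).zpow_left _).zpow_right _
  have h3 : Commute (Z 2 ^ m 2) (Z 1 ^ n 1) := ((hZ 2 1).zpow_left _).zpow_right _
  simp only [Pi.add_apply, zpow_add]
  calc Z 0 ^ m 0 * Z 0 ^ n 0 * (Z 1 ^ m 1 * Z 1 ^ n 1) * (Z 2 ^ m 2 * Z 2 ^ n 2)
      = Z 0 ^ m 0 * (Z 0 ^ n 0 * Z 1 ^ m 1) * (Z 1 ^ n 1 * Z 2 ^ m 2) * Z 2 ^ n 2 := by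
        simp only [mul_assoc]
    _ = Z 0 ^ m 0 * (Z 1 ^ m 1 * Z 0 ^ n 0) * (Z 2 ^ m 2 * Z 1 ^ n 1) * Z 2 ^ n 2 := by
        rw [h1.eq, h3.eq]
    _ = Z 0 ^ m 0 * Z 1 ^ m 1 * (Z 0 ^ n 0 * Z 2 ^ m 2) * Z 1 ^ n 1 * Z 2 ^ n 2 := by
        simp only [mul_assoc]
    _ = Z 0 ^ m 0 * Z 1 ^ m 1 * (Z 2 ^ m 2 * Z 0 ^ n 0) * Z 1 ^ n 1 * Z 2 ^ n 2 := by
        rw [h2.eq]
    _ = _ := by simp only [mul_assoc]

omit [Gar G] in
theorem gh13_P_single (Z : Fin 3 → G) (i : Fin 3) (k : ℤ) :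
    gh13_P Z (Pi.single i k) = Z i ^ k := by
  unfold gh13_P
  fin_cases i <;> simp

theorem gh13_P_const {Z : Fin 3 → G} (hZ : ∀ i j, Commute (Z i) (Z j)) {D : ℤ}
    (hprod : Z 0 * Z 1 * Z 2 = δ ^ D) (m : ℤ) : gh13_P Z (fun _ => m) = δ ^ (D * m) := by
  unfold gh13_P
  rw [zpow_mul, ← hprod, (((hZ 0 2).mul_left (hZ 1 2))).mul_zpow, (hZ 0 1).mul_zpow]

/-- the points of the orbit below `v` -/
def gh13_S (Z : Fin 3 → G) (D : ℤ) (v : Fin 3 → ℤ) : Set G :=
  {x | ∃ (n : Fin 3 → ℤ) (c : ℤ), (∀ j, D * n j + c ≤ v j) ∧ x = gh13_P Z n * δ ^ c}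

theorem gh13_pair {D : ℤ} (Z : Fin 3 → G) (hZ : ∀ i j, Commute (Z i) (Z j))
    (grow : ∀ i, ∃ C : ℤ, ∀ n : ℕ, d 1 (Z i ^ n) ≤ D * n + C)
    (grow' : ∀ i j, i ≠ j → ∃ C : ℤ, ∀ n : ℕ, d 1 ((Z i * Z j) ^ n) ≤ D * n + C) :
    ∃ C : ℤ, ∀ i j, i ≠ j → ∀ p q M : ℤ, 0 ≤ p → 0 ≤ q → D * p ≤ M → D * q ≤ M →
      d 1 (Z i ^ p * Z j ^ q) ≤ M + C := by
  choose A hA using grow
  choose B hB using grow'
  -- a common constant
  obtain ⟨A', hA'⟩ : ∃ A' : ℤ, ∀ i, A i ≤ A' :=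
    ⟨∑ i, |A i|, fun i => (le_abs_self _).trans
      (Finset.single_le_sum (f := fun i => |A i|) (fun _ _ => abs_nonneg _) (Finset.mem_univ i))⟩
  obtain ⟨B', hB'⟩ : ∃ B' : ℤ, ∀ i j (h : i ≠ j), B i j h ≤ B' := by
    refine ⟨∑ i, ∑ j, |if h : i ≠ j then B i j h else 0|, fun i j h => ?_⟩
    have h1 : B i j h ≤ |if h : i ≠ j then B i j h else 0| := by
      rw [dif_pos h]
      exact le_abs_self _
    have h2 : |if h : i ≠ j then B i j h else 0| ≤ ∑ j, |if h : i ≠ j then B i j h else 0| :=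
      Finset.single_le_sum (f := fun j => |if h : i ≠ j then B i j h else 0|)
        (fun _ _ => abs_nonneg _) (Finset.mem_univ j)
    have h3 : ∑ j, |if h : i ≠ j then B i j h else 0| ≤
        ∑ i, ∑ j, |if h : i ≠ j then B i j h else 0| :=
      Finset.single_le_sum (f := fun i => ∑ j, |if h : i ≠ j then B i j h else 0|)
        (fun _ _ => Finset.sum_nonneg fun _ _ => abs_nonneg _) (Finset.mem_univ i)
    linarith
  have key : ∀ i j, i ≠ j → ∀ p q : ℕ, q ≤ p → d 1 (Z i ^ p * Z j ^ q) ≤ D * p + (A' + B') := by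
    intro i j hij p q hqp
    have h1 : Z i ^ p * Z j ^ q = (Z i * Z j) ^ q * Z i ^ (p - q) := by
      have h3 : p = q + (p - q) := by omega
      conv_lhs => rw [h3]
      have h2 : Commute (Z i ^ (p - q)) (Z j ^ q) := ((hZ i j).pow_left _).pow_right _
      rw [(hZ i j).mul_pow, pow_add, mul_assoc, h2.eq, ← mul_assoc]
    rw [h1]
    have h4 := d_one_mul_le ((Z i * Z j) ^ q) (Z i ^ (p - q))
    have h5 := hB i j hij q
    have h6 := hA i (p - q)
    have h7 := hA' i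
    have h8 := hB' i j hij
    have h9 : ((p - q : ℕ) : ℤ) = p - q := Nat.cast_sub hqp
    rw [h9] at h6
    linarith
  refine ⟨A' + B', fun i j hij p q M hp hq hpM hqM => ?_⟩
  obtain ⟨p', rfl⟩ := Int.eq_ofNat_of_zero_le hp
  obtain ⟨q', rfl⟩ := Int.eq_ofNat_of_zero_le hq
  rw [zpow_natCast, zpow_natCast]
  rcases le_total q' p' with h | h
  · have := key i j hij p' q' h
    linarith
  · have h1 : Commute (Z i ^ p') (Z j ^ q') := ((hZ i j).pow_left _).pow_right _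
    rw [h1.eq]
    have := key j i hij.symm q' p' h
    linarith

theorem gh13_min : ∀ n : Fin 3 → ℤ, ∃ k i j : Fin 3, i ≠ j ∧ i ≠ k ∧ j ≠ k ∧
    n k ≤ n i ∧ n k ≤ n j := by
  intro n
  rcases le_total (n 0) (n 1) with h1 | h1
  · rcases le_total (n 0) (n 2) with h2 | h2
    · exact ⟨0, 1, 2, by decide, by decide, by decide, h1, h2⟩
    · exact ⟨2, 0, 1, by decide, by decide, by decide, h2, h2.trans h1⟩
  · rcases le_total (n 1) (n 2) with h2 | h2
    · exact ⟨1, 0, 2, by decide, by decide, by decide, h1, h2⟩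
    · exact ⟨2, 0, 1, by decide, by decide, by decide, h2.trans h1, h2⟩

theorem gh13_fin3 : ∀ i j k l : Fin 3, i ≠ j → i ≠ k → j ≠ k → l = i ∨ l = j ∨ l = k := by
  decide

theorem gh13_bound {D : ℤ} (Z : Fin 3 → G) (hZ : ∀ i j, Commute (Z i) (Z j))
    (hprod : Z 0 * Z 1 * Z 2 = δ ^ D)
    (grow : ∀ i, ∃ C : ℤ, ∀ n : ℕ, d 1 (Z i ^ n) ≤ D * n + C)
    (grow' : ∀ i j, i ≠ j → ∃ C : ℤ, ∀ n : ℕ, d 1 ((Z i * Z j) ^ n) ≤ D * n + C) :
    ∃ C : ℤ, ∀ (n : Fin 3 → ℤ) (M : ℤ), (∀ j, D * n j ≤ M) → d 1 (gh13_P Z n) ≤ M + C := by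
  obtain ⟨C, hC⟩ := gh13_pair Z hZ grow grow'
  refine ⟨C, fun n M hM => ?_⟩
  obtain ⟨k, i, j, hij, hik, hjk, h1, h2⟩ := gh13_min n
  have h3 : n = (Pi.single i (n i - n k) + Pi.single j (n j - n k)) + (fun _ => n k) := by
    funext l
    rcases gh13_fin3 i j k l hij hik hjk with h | h | h
    · subst h; simp [hij]
    · subst h; simp [hij.symm]
    · subst h; simp [hik.symm, hjk.symm]
  have h4 : gh13_P Z n = Z i ^ (n i - n k) * Z j ^ (n j - n k) * δ ^ (D * n k) := by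
    conv_lhs => rw [h3]
    rw [gh13_P_add hZ, gh13_P_add hZ, gh13_P_single, gh13_P_single, gh13_P_const hZ hprod]
  rw [h4, d_mul_zpow]
  have h5 := hC i j hij (n i - n k) (n j - n k) (M - D * n k) (by linarith) (by linarith)
    (by rw [mul_sub]; linarith [hM i]) (by rw [mul_sub]; linarith [hM j])
  linarith

theorem gh13_shift {D : ℤ} {Z : Fin 3 → G} {I : Fin 3 → Set G}
    (shift : ∀ i z, Z i * z * δ ^ (-D) ∈ I i ↔ z ∈ I i) (i : Fin 3) (k : ℤ) :
    ∀ z, Z i ^ k * z ∈ I i ↔ z * δ ^ (D * k) ∈ I i := by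
  induction k using Int.induction_on with
  | zero => intro z; simp
  | succ k ih =>
    intro z
    rw [zpow_add_one, mul_assoc, ih, ← shift i (z * δ ^ (D * (k + 1)))]
    have h : Z i * (z * δ ^ (D * ((k : ℤ) + 1))) * δ ^ (-D) = Z i * z * δ ^ (D * (k : ℤ)) := by
      rw [← mul_assoc, mul_assoc, ← zpow_add]
      congr 2
      ring
    rw [h]
  | pred k ih =>
    intro z
    have h1 : Z i ^ (-(k : ℤ) - 1) * z = Z i ^ (-(k : ℤ)) * ((Z i)⁻¹ * z) := by
      rw [zpow_sub_one, mul_assoc]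
    rw [h1, ih, ← shift i ((Z i)⁻¹ * z * δ ^ (D * -(k : ℤ)))]
    have h : Z i * ((Z i)⁻¹ * z * δ ^ (D * -(k : ℤ))) * δ ^ (-D) =
        z * δ ^ (D * (-(k : ℤ) - 1)) := by
      rw [mul_assoc (Z i)⁻¹, mul_inv_cancel_left, mul_assoc, ← zpow_add]
      congr 2
      ring
    rw [h]

omit [Gar G] in
theorem gh13_shift' {Z : Fin 3 → G} {I : Fin 3 → Set G}
    (shift' : ∀ i j, i ≠ j → ∀ z, Z j * z ∈ I i ↔ z ∈ I i) (i j : Fin 3) (hij : i ≠ j) (k : ℤ) :
    ∀ z, Z j ^ k * z ∈ I i ↔ z ∈ I i := by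
  induction k using Int.induction_on with
  | zero => intro z; simp
  | succ k ih =>
    intro z
    rw [zpow_add_one, mul_assoc, ih, shift' i j hij]
  | pred k ih =>
    intro z
    rw [zpow_sub_one, mul_assoc, ih, ← shift' i j hij ((Z j)⁻¹ * z), mul_inv_cancel_left]

theorem flat_of_frame {D : ℤ} (hD : 0 < D) (Z : Fin 3 → G) (hZ : ∀ i j, Commute (Z i) (Z j))
    (hprod : Z 0 * Z 1 * Z 2 = δ ^ D) (I : Fin 3 → Set G)
    (down : ∀ i, ∀ x ∈ I i, ∀ y ≤ x, y ∈ I i) (hsup : ∀ i, ∀ x ∈ I i, ∀ y ∈ I i, x ⊔ y ∈ I i)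
    (delta : ∀ i (c : ℤ), δ ^ c ∈ I i ↔ c ≤ 0)
    (shift : ∀ i z, Z i * z * δ ^ (-D) ∈ I i ↔ z ∈ I i)
    (shift' : ∀ i j, i ≠ j → ∀ z, Z j * z ∈ I i ↔ z ∈ I i)
    (grow : ∀ i, ∃ C : ℤ, ∀ n : ℕ, d 1 (Z i ^ n) ≤ D * n + C)
    (grow' : ∀ i j, i ≠ j → ∃ C : ℤ, ∀ n : ℕ, d 1 ((Z i * Z j) ^ n) ≤ D * n + C) :
    ∃ Y : (Fin 3 → ℤ) → G, IsFlat Y D ∧ ∀ j v, Y (v + D • e j) = Z j * Y v := by
  -- membership
  have hmem : ∀ (i : Fin 3) (n : Fin 3 → ℤ) (c : ℤ), gh13_P Z n * δ ^ c ∈ I i ↔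
      D * n i + c ≤ 0 := by
    intro i n c
    unfold gh13_P
    rw [mul_assoc, mul_assoc]
    fin_cases i
    · change Z 0 ^ n 0 * (Z 1 ^ n 1 * (Z 2 ^ n 2 * δ ^ c)) ∈ I 0 ↔ D * n 0 + c ≤ 0
      rw [gh13_shift shift, mul_assoc, mul_assoc, gh13_shift' shift' 0 1 (by decide),
        gh13_shift' shift' 0 2 (by decide), ← zpow_add, delta, add_comm]
    · change Z 0 ^ n 0 * (Z 1 ^ n 1 * (Z 2 ^ n 2 * δ ^ c)) ∈ I 1 ↔ D * n 1 + c ≤ 0
      rw [gh13_shift' shift' 1 0 (by decide), gh13_shift shift, mul_assoc,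
        gh13_shift' shift' 1 2 (by decide), ← zpow_add, delta, add_comm]
    · change Z 0 ^ n 0 * (Z 1 ^ n 1 * (Z 2 ^ n 2 * δ ^ c)) ∈ I 2 ↔ D * n 2 + c ≤ 0
      rw [gh13_shift' shift' 2 0 (by decide), gh13_shift' shift' 2 1 (by decide),
        gh13_shift shift, ← zpow_add, delta, add_comm]
  -- bounded above
  obtain ⟨C, hC⟩ := gh13_bound Z hZ hprod grow grow'
  have hbdd : ∀ v : Fin 3 → ℤ, ∀ x ∈ gh13_S Z D v,
      x ≤ δ ^ (|v 0| + |v 1| + |v 2| + C) := by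
    rintro v x ⟨n, c, hn, rfl⟩
    have h1 : ∀ j, v j ≤ |v 0| + |v 1| + |v 2| := by
      intro j
      have h0 := abs_nonneg (v 0)
      have h1 := abs_nonneg (v 1)
      have h2 := abs_nonneg (v 2)
      fin_cases j
      · exact (le_abs_self (v 0)).trans (by linarith)
      · exact (le_abs_self (v 1)).trans (by linarith)
      · exact (le_abs_self (v 2)).trans (by linarith)
    have h2 := hC n (|v 0| + |v 1| + |v 2| - c) (fun j => by linarith [hn j, h1 j])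
    have h3 : d 1 (gh13_P Z n * δ ^ c) ≤ |v 0| + |v 1| + |v 2| + C := by
      rw [d_mul_zpow]
      linarith
    rwa [d_le_iff, one_mul] at h3
  -- a point on the wall
  have hwall : ∀ (v : Fin 3 → ℤ) (i : Fin 3), ∃ n : Fin 3 → ℤ, n i = 0 ∧
      ∀ j, D * n j + v i ≤ v j := by
    intro v i
    refine ⟨fun j => if j = i then 0 else -(|v i| + |v j|), by simp, fun j => ?_⟩
    by_cases hji : j = i
    · simp [hji]
    · simp only [hji, if_false]
      have h1 := le_abs_self (v i)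
      have h2 := neg_abs_le (v j)
      have h3 : 0 ≤ |v i| + |v j| := by positivity
      nlinarith
  have hne : ∀ v : Fin 3 → ℤ, (gh13_S Z D v).Nonempty := by
    intro v
    obtain ⟨n, -, hn⟩ := hwall v 0
    exact ⟨_, n, v 0, hn, rfl⟩
  choose Y hY1 hY2 hY3 using fun v => exists_lub (gh13_S Z D v) (hne v) _ (hbdd v)
  have hYin : ∀ v i, Y v * δ ^ (-v i) ∈ I i := by
    intro v i
    refine hY3 v {x | x * δ ^ (-v i) ∈ I i} ?_ ?_
    · intro x hx y hy
      change (x ⊔ y) * δ ^ (-v i) ∈ I i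
      rw [sup_zpow]
      exact hsup i _ hx _ hy
    · rintro x ⟨n, c, hn, rfl⟩
      change gh13_P Z n * δ ^ c * δ ^ (-v i) ∈ I i
      rw [mul_assoc, ← zpow_add, hmem]
      linarith [hn i]
  have hYout : ∀ v i, Y v * δ ^ (-v i + 1) ∉ I i := by
    intro v i hc
    obtain ⟨n, hn0, hn⟩ := hwall v i
    have h1 : gh13_P Z n * δ ^ (v i) ≤ Y v := hY1 v _ ⟨n, v i, hn, rfl⟩
    have h2 := down i _ hc _ ((mul_zpow_le_iff (-v i + 1)).mpr h1)
    rw [mul_assoc, ← zpow_add, hmem, hn0] at h2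
    linarith
  have hmono : ∀ v w : Fin 3 → ℤ, (∀ j, v j ≤ w j) → Y v ≤ Y w := by
    intro v w hvw
    refine hY2 v _ fun x hx => hY1 w x ?_
    obtain ⟨n, c, hn, rfl⟩ := hx
    exact ⟨n, c, fun j => (hn j).trans (hvw j), rfl⟩
  have he : ∀ (v : Fin 3 → ℤ) (i : Fin 3), (v + e i) i = v i + 1 := by
    intro v i
    unfold e
    simp
  have he' : ∀ (v : Fin 3 → ℤ) (i j : Fin 3), i ≠ j → (v + e j) i = v i := by
    intro v i j hij
    unfold e
    simp [hij]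
  have hlt : ∀ v i, Y v < Y (v + e i) := by
    intro v i
    refine lt_of_le_of_ne (hmono _ _ fun j => ?_) fun heq => ?_
    · by_cases hji : j = i
      · subst hji; rw [he]; linarith
      · rw [he' v j i hji]
    · have h1 := hYout (v + e i) i
      rw [he, ← heq] at h1
      apply h1
      have h2 : -(v i + 1) + 1 = -v i := by ring
      rw [h2]
      exact hYin v i
  have hne' : ∀ v i j, i ≠ j → Y (v + e i) ≠ Y (v + e j) := by
    intro v i j hij heq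
    have h1 := hYout (v + e i) i
    rw [he, heq] at h1
    apply h1
    have h2 : -(v i + 1) + 1 = -(v + e j) i := by rw [he' v i j hij]; ring
    rw [h2]
    exact hYin (v + e j) i
  have hdiag : ∀ v, Y (v + 1) = Y v * δ := by
    intro v
    apply le_antisymm
    · refine hY2 (v + 1) _ ?_
      rintro x ⟨n, c, hn, rfl⟩
      have h1 : gh13_P Z n * δ ^ (c - 1) ≤ Y v := by
        refine hY1 v _ ⟨n, c - 1, fun j => ?_, rfl⟩
        have := hn j
        simp only [Pi.add_apply, Pi.one_apply] at this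
        linarith
      have h2 := (mul_zpow_le_iff 1).mpr h1
      rwa [mul_assoc, ← zpow_add, sub_add_cancel, zpow_one] at h2
    · have h1 : Y v ≤ Y (v + 1) * δ ^ (-1 : ℤ) := by
        refine hY2 v _ ?_
        rintro x ⟨n, c, hn, rfl⟩
        rw [le_mul_zpow_iff, neg_neg, mul_assoc, ← zpow_add]
        refine hY1 (v + 1) _ ⟨n, c + 1, fun j => ?_, rfl⟩
        have := hn j
        simp only [Pi.add_apply, Pi.one_apply]
        linarith
      rwa [le_mul_zpow_iff, neg_neg, zpow_one] at h1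
  have hDe : ∀ (v : Fin 3 → ℤ) (j l : Fin 3), (v + D • e j) l = v l + D * (e j) l := by
    intro v j l
    simp
  have hper : ∀ j v, Y (v + D • e j) = Z j * Y v := by
    intro j v
    apply le_antisymm
    · refine hY2 (v + D • e j) _ ?_
      rintro x ⟨n, c, hn, rfl⟩
      rw [← mul_le_mul_iff (Z j)⁻¹, inv_mul_cancel_left]
      refine hY1 v _ ⟨n + Pi.single j (-1), c, fun l => ?_, ?_⟩
      · have h1 := hn l
        rw [hDe] at h1
        unfold e at h1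
        by_cases hlj : l = j
        · subst hlj
          simp only [Pi.add_apply, Pi.single_eq_same] at h1 ⊢
          linarith
        · simp only [Pi.add_apply, ne_eq, hlj, not_false_eq_true, Pi.single_eq_of_ne, mul_zero,
            add_zero] at h1 ⊢
          exact h1
      · rw [add_comm n, gh13_P_add hZ, gh13_P_single, zpow_neg_one, mul_assoc]
    · rw [← mul_le_mul_iff (Z j)⁻¹, inv_mul_cancel_left]
      refine hY2 v _ ?_
      rintro x ⟨n, c, hn, rfl⟩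
      rw [← mul_le_mul_iff (Z j), mul_inv_cancel_left]
      refine hY1 _ _ ⟨n + Pi.single j 1, c, fun l => ?_, ?_⟩
      · have h1 := hn l
        rw [hDe]
        unfold e
        by_cases hlj : l = j
        · subst hlj
          simp only [Pi.add_apply, Pi.single_eq_same]
          linarith
        · simp only [Pi.add_apply, ne_eq, hlj, not_false_eq_true, Pi.single_eq_of_ne, mul_zero,
            add_zero]
          exact h1
      · rw [add_comm n, gh13_P_add hZ, gh13_P_single, zpow_one, mul_assoc]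
  have hlen : ∀ v i, len (Y (v + e i)) = len (Y v) + 1 := by
    intro v i
    obtain ⟨j, k, hij, hik, hjk, hsum⟩ : ∃ j k : Fin 3, i ≠ j ∧ i ≠ k ∧ j ≠ k ∧
        (1 : Fin 3 → ℤ) = e i + e j + e k := by
      fin_cases i
      · exact ⟨1, 2, by decide, by decide, by decide, by funext l; fin_cases l <;> rfl⟩
      · exact ⟨2, 0, by decide, by decide, by decide, by funext l; fin_cases l <;> rfl⟩
      · exact ⟨0, 1, by decide, by decide, by decide, by funext l; fin_cases l <;> rfl⟩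
    have h1 := len_lt (hlt v i)
    have h2 := len_lt (hlt (v + e i) j)
    have h3 := len_lt (hlt (v + e i + e j) k)
    have h4 : v + e i + e j + e k = v + 1 := by rw [hsum]; abel
    rw [h4, hdiag, len_mul, len_δ] at h3
    omega
  exact ⟨Y, ⟨hD, hlt, hlen, hne', hdiag, fun j => ⟨Z j, hper j⟩⟩, hper⟩

end Gar

end Pool.Agent.H88.GH
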