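import Pool.Agent.H88.GH.BusEx

/-!
# Project GH (MP_35eb49), row GH-10: at most three horofunctions
-/

set_option autoImplicit false

namespace Pool.Agent.H88.GH

namespace Gar

variable {G : Type} [Group G] [Gar G]

theorem gh10_mem_zpow {a b : G} {φ : ℤ × ℤ →+ ℤ} {I : Set G} (h : Bus a b φ I) (x : ℤ × ℤ)
    (c : ℤ) : kap a b x * δ ^ c ∈ I ↔ φ x + c ≤ 0 := by
  rw [← h.delta, ← h.shift x (δ ^ (φ x + c)), mul_assoc, ← zpow_add]
  have h1 : φ x + c + -φ x = c := by ring
  rw [h1]

/-- the height of the flat over the cell `v` -/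
noncomputable def gh10_E (z : Fin 4 → G) (N : ℤ) (v : Fin 4 → ℤ) : G :=
  1 ⊔ (z 0 * δ ^ (v 0 - N)) ⊔ (z 1 * δ ^ (v 1 - N)) ⊔ (z 2 * δ ^ (v 2 - N)) ⊔
    (z 3 * δ ^ (v 3 - N))

theorem gh10_mono (z : Fin 4 → G) (N : ℤ) {v w : Fin 4 → ℤ} (h : ∀ i, v i ≤ w i) :
    gh10_E z N v ≤ gh10_E z N w := by
  unfold gh10_E
  refine sup_le_sup (sup_le_sup (sup_le_sup (sup_le_sup le_rfl ?_) ?_) ?_) ?_
  all_goals exact mul_zpow_mono _ (by linarith [h 0, h 1, h 2, h 3])

theorem gh10_le (z : Fin 4 → G) (N : ℤ) (v : Fin 4 → ℤ) (i : Fin 4) :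
    z i * δ ^ (v i - N) ≤ gh10_E z N v := by
  unfold gh10_E
  fin_cases i
  · exact le_sup_right.trans (le_sup_left.trans (le_sup_left.trans le_sup_left))
  · exact le_sup_right.trans (le_sup_left.trans le_sup_left)
  · exact le_sup_right.trans le_sup_left
  · exact le_sup_right

theorem no_four {a b : G} (hab : Commute a b) (φ : Fin 4 → ℤ × ℤ →+ ℤ) (I : Fin 4 → Set G)
    (hI : ∀ i, Bus a b (φ i) (I i)) (p : Fin 4 → ℤ × ℤ)
    (hp : ∀ i, IsT (kap a b (p i)) (φ i (p i))) (hlt : ∀ i j, i ≠ j → φ j (p i) < φ i (p i)) :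
    False := by
  -- the gaps
  obtain ⟨m, hm1, hm2⟩ : ∃ m : Fin 4 → ℤ, (∀ i, m i < φ i (p i)) ∧
      ∀ i j, i ≠ j → φ j (p i) ≤ m i := by
    refine ⟨fun i => φ i (p i) - 1, fun i => by simp, fun i j hij => ?_⟩
    have := hlt i j hij
    simp only
    omega
  set g : Fin 4 → ℤ := fun i => φ i (p i) - m i with hg
  have hgpos : ∀ i, 0 < g i := fun i => by rw [hg]; simp only; linarith [hm1 i]
  -- common multiple of the gaps
  set Γ : ℤ := g 0 * g 1 * g 2 * g 3 with hΓ
  have hΓpos : 0 < Γ := by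
    have h0 := hgpos 0
    have h1 := hgpos 1
    have h2 := hgpos 2
    have h3 := hgpos 3
    positivity
  have hdvd : ∀ i, ∃ q : ℕ, (q : ℤ) * g i = Γ := by
    intro i
    have h1 : g i ∣ Γ := by
      fin_cases i
      · exact ⟨g 1 * g 2 * g 3, by rw [hΓ]; simp only [Fin.zero_eta]; ring⟩
      · exact ⟨g 0 * g 2 * g 3, by rw [hΓ]; simp only [Fin.mk_one]; ring⟩
      · exact ⟨g 0 * g 1 * g 3, by rw [hΓ]; simp only [Fin.reduceFinMk]; ring⟩
      · exact ⟨g 0 * g 1 * g 2, by rw [hΓ]; simp only [Fin.reduceFinMk]; ring⟩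
    obtain ⟨q, hq⟩ := h1
    have hq0 : 0 ≤ q := by
      by_contra hc
      push Not at hc
      have := hgpos i
      nlinarith
    exact ⟨q.toNat, by rw [Int.toNat_of_nonneg hq0, hq]; ring⟩
  choose q hq using hdvd
  choose C hC using hp
  -- constants
  obtain ⟨E, hE⟩ : ∃ E : ℤ, 0 ≤ E ∧ ∀ i, C i ≤ E := by
    refine ⟨|C 0| + |C 1| + |C 2| + |C 3|, by positivity, fun i => ?_⟩
    have h0 := abs_nonneg (C 0)
    have h1 := abs_nonneg (C 1)
    have h2 := abs_nonneg (C 2)
    have h3 := abs_nonneg (C 3)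
    fin_cases i
    · exact (le_abs_self (C 0)).trans (by linarith)
    · exact (le_abs_self (C 1)).trans (by linarith)
    · exact (le_abs_self (C 2)).trans (by linarith)
    · exact (le_abs_self (C 3)).trans (by linarith)
  -- the scale
  set K : ℕ := (3 * E + 1).toNat with hK
  have hKE : (K : ℤ) = 3 * E + 1 := Int.toNat_of_nonneg (by linarith [hE.1])
  set N : ℤ := Γ * K with hN
  have hNE : 3 * E < N := by
    have h1 : (1 : ℤ) ≤ Γ := hΓpos
    have h2 : (0 : ℤ) ≤ K := by positivity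
    nlinarith
  have hNpos : 0 ≤ N := by linarith [hE.1]
  -- the points
  set z : Fin 4 → G := fun i => kap a b ((q i * K) • p i) * δ ^ (-((q i * K : ℕ) * m i)) with hz
  have hmem : ∀ i j (c : ℤ), z i * δ ^ c ∈ I j ↔
      (q i * K : ℕ) * (φ j (p i) - m i) + c ≤ 0 := by
    intro i j c
    rw [hz]
    simp only
    rw [mul_assoc, ← zpow_add, gh10_mem_zpow (hI j), map_nsmul, nsmul_eq_mul]
    have h1 : ((q i * K : ℕ) : ℤ) * φ j (p i) + (-((q i * K : ℕ) * m i) + c) =
        (q i * K : ℕ) * (φ j (p i) - m i) + c := by ring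
    rw [h1]
  have hself : ∀ i (c : ℤ), z i * δ ^ c ∈ I i ↔ N + c ≤ 0 := by
    intro i c
    rw [hmem]
    have h1 : ((q i * K : ℕ) : ℤ) * (φ i (p i) - m i) = N := by
      have h2 := hq i
      rw [hg] at h2
      simp only at h2
      rw [hN, ← h2]
      push_cast
      ring
    rw [h1]
  have hother : ∀ i j (c : ℤ), i ≠ j → c ≤ 0 → z i * δ ^ c ∈ I j := by
    intro i j c hij hc
    rw [hmem]
    have h1 : φ j (p i) - m i ≤ 0 := by linarith [hm2 i j hij]
    have h2 : (0 : ℤ) ≤ (q i * K : ℕ) := by positivity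
    nlinarith
  have hup : ∀ i, z i ≤ δ ^ (N + E) := by
    intro i
    have h1 := (hC i (q i * K)).2
    rw [← gh9_kap_nsmul hab] at h1
    have h2 : d 1 (z i) ≤ N + E := by
      rw [hz]
      simp only
      rw [d_mul_zpow]
      have h3 : ((q i * K : ℕ) : ℤ) * (φ i (p i) - m i) = N := by
        have h2 := hq i
        rw [hg] at h2
        simp only at h2
        rw [hN, ← h2]
        push_cast
        ring
      have h4 := hE.2 i
      rw [mul_sub] at h3
      linarith
    rwa [d_le_iff, one_mul] at h2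
  -- membership of the heights
  have hone : ∀ i (c : ℤ), (1 : G) * δ ^ c ∈ I i ↔ c ≤ 0 := by
    intro i c
    rw [one_mul]
    exact (hI i).delta c
  have hEmem : ∀ (v : Fin 4 → ℤ), (∀ i, 0 ≤ v i) → (∀ i, v i ≤ N) → ∀ i,
      gh10_E z N v * δ ^ (-v i) ∈ I i := by
    intro v hv0 hvN i
    unfold gh10_E
    simp only [sup_zpow]
    have hs := (hI i).sup
    have key : ∀ j, z j * δ ^ (v j - N) * δ ^ (-v i) ∈ I i := by
      intro j
      rw [mul_assoc, ← zpow_add]
      by_cases hji : j = i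
      · subst hji
        rw [hself]
        linarith
      · exact hother j i _ hji (by linarith [hvN j, hv0 i])
    exact hs _ (hs _ (hs _ (hs _ ((hone i _).mpr (by linarith [hv0 i])) _ (key 0)) _ (key 1)) _
      (key 2)) _ (key 3)
  have hEnot : ∀ (v : Fin 4 → ℤ) (i : Fin 4), gh10_E z N v * δ ^ (-v i + 1) ∉ I i := by
    intro v i hc
    have h1 := (hI i).down _ hc (z i * δ ^ (v i - N) * δ ^ (-v i + 1))
      ((mul_zpow_le_iff _).mpr (gh10_le z N v i))
    rw [mul_assoc, ← zpow_add, hself] at h1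
    linarith
  -- growth of the length
  have hstep : ∀ (v : Fin 4 → ℤ) (i : Fin 4), (∀ j, 0 ≤ v j) → (∀ j, v j ≤ N) →
      len (gh10_E z N v) + 1 ≤ len (gh10_E z N (v + Pi.single i 1)) := by
    intro v i hv0 hvN
    have h1 : gh10_E z N v ≤ gh10_E z N (v + Pi.single i 1) := by
      apply gh10_mono
      intro j
      by_cases hij : j = i
      · subst hij; simp
      · simp [hij]
    have h2 : gh10_E z N v ≠ gh10_E z N (v + Pi.single i 1) := by
      intro heq
      have h3 := hEnot (v + Pi.single i 1) i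
      rw [← heq] at h3
      apply h3
      have h4 := hEmem v hv0 hvN i
      have h5 : -(v + (Pi.single i 1 : Fin 4 → ℤ)) i + 1 = -v i := by simp
      rw [h5]
      exact h4
    have := len_lt (lt_of_le_of_ne h1 h2)
    omega
  have hrun : ∀ (i : Fin 4) (v : Fin 4 → ℤ), (∀ j, 0 ≤ v j) → (∀ j, v j ≤ N) → v i = 0 →
      ∀ n : ℕ, (n : ℤ) ≤ N → len (gh10_E z N v) + n ≤ len (gh10_E z N (v + Pi.single i (n : ℤ))) := by
    intro i v hv0 hvN hvi n
    induction n with
    | zero => intro _; simp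
    | succ n ih =>
      intro hn
      push_cast at hn ⊢
      have h1 := ih (by linarith)
      have h2 := hstep (v + Pi.single i (n : ℤ)) i (fun j => ?_) (fun j => ?_)
      · have h3 : v + Pi.single i (n : ℤ) + Pi.single i 1 = v + Pi.single i ((n : ℤ) + 1) := by
          rw [add_assoc, ← Pi.single_add]
        rw [h3] at h2
        linarith
      · by_cases hij : j = i
        · subst hij
          simp only [Pi.add_apply, Pi.single_eq_same]
          have := hv0 j
          positivity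
        · simp only [Pi.add_apply, ne_eq, hij, not_false_eq_true, Pi.single_eq_of_ne, add_zero]
          exact hv0 j
      · by_cases hij : j = i
        · subst hij
          simp only [Pi.add_apply, Pi.single_eq_same, hvi, zero_add]
          linarith
        · simp only [Pi.add_apply, ne_eq, hij, not_false_eq_true, Pi.single_eq_of_ne, add_zero]
          exact hvN j
  have hNn : ((N.toNat : ℕ) : ℤ) = N := Int.toNat_of_nonneg hNpos
  have r0 := hrun 0 ![0, 0, 0, 0] (by intro j; fin_cases j <;> simp)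
    (by intro j; fin_cases j <;> simp [hNpos]) rfl N.toNat hNn.le
  rw [hNn] at r0
  have e0 : (![0, 0, 0, 0] : Fin 4 → ℤ) + Pi.single 0 N = ![N, 0, 0, 0] := by
    funext j; fin_cases j <;> simp
  rw [e0] at r0
  have r1 := hrun 1 ![N, 0, 0, 0] (by intro j; fin_cases j <;> simp [hNpos])
    (by intro j; fin_cases j <;> simp [hNpos]) rfl N.toNat hNn.le
  rw [hNn] at r1
  have e1 : (![N, 0, 0, 0] : Fin 4 → ℤ) + Pi.single 1 N = ![N, N, 0, 0] := by
    funext j; fin_cases j <;> simp
  rw [e1] at r1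
  have r2 := hrun 2 ![N, N, 0, 0] (by intro j; fin_cases j <;> simp [hNpos])
    (by intro j; fin_cases j <;> simp [hNpos]) rfl N.toNat hNn.le
  rw [hNn] at r2
  have e2 : (![N, N, 0, 0] : Fin 4 → ℤ) + Pi.single 2 N = ![N, N, N, 0] := by
    funext j; fin_cases j <;> simp
  rw [e2] at r2
  have r3 := hrun 3 ![N, N, N, 0] (by intro j; fin_cases j <;> simp [hNpos])
    (by intro j; fin_cases j <;> simp [hNpos]) rfl N.toNat hNn.le
  rw [hNn] at r3
  have e3 : (![N, N, N, 0] : Fin 4 → ℤ) + Pi.single 3 N = ![N, N, N, N] := by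
    funext j; fin_cases j <;> simp
  rw [e3] at r3
  have hbot : 0 ≤ len (gh10_E z N ![0, 0, 0, 0]) := by
    have h1 : (1 : G) ≤ gh10_E z N ![0, 0, 0, 0] := by
      unfold gh10_E
      exact le_sup_left.trans (le_sup_left.trans (le_sup_left.trans le_sup_left))
    have := len_le h1
    rwa [len_one] at this
  have htop : len (gh10_E z N ![N, N, N, N]) ≤ 3 * (N + E) := by
    have h1 : gh10_E z N ![N, N, N, N] ≤ δ ^ (N + E) := by
      unfold gh10_E
      have h2 : ∀ i : Fin 4, z i * δ ^ ((![N, N, N, N] : Fin 4 → ℤ) i - N) ≤ δ ^ (N + E) := by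
        intro i
        have h3 : (![N, N, N, N] : Fin 4 → ℤ) i - N = 0 := by fin_cases i <;> simp
        rw [h3, zpow_zero, mul_one]
        exact hup i
      refine sup_le (sup_le (sup_le (sup_le ?_ (h2 0)) (h2 1)) (h2 2)) (h2 3)
      have h4 := mul_zpow_mono (1 : G) (show (0 : ℤ) ≤ N + E by linarith [hE.1])
      rwa [zpow_zero, one_mul, one_mul] at h4
    have := len_le h1
    rw [len_zpow, len_δ] at this
    linarith
  linarith [hE.1]

end Gar

end Pool.Agent.H88.GH
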