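import Pool.Agent.H88.GH.IsTPr
import Pool.Agent.H88.GH.Cone
import Pool.Agent.H88.GH.BusEx
import Pool.Agent.H88.GH.NoFour

/-!
# Project GH (MP_35eb49), row GH-11: the frame of three functionals
-/

set_option autoImplicit false

namespace Pool.Agent.H88.GH

namespace Gar

variable {G : Type} [Group G] [Gar G]

omit [Gar G] in
theorem gh11_kap_neg {a b : G} (hab : Commute a b) (x : ℤ × ℤ) :
    kap a b (-x) = (kap a b x)⁻¹ := by
  rw [eq_inv_iff_mul_eq_one]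
  unfold kap
  have h : Commute (b ^ (-x).2) (a ^ x.1) := (hab.symm.zpow_left _).zpow_right _
  calc a ^ (-x).1 * b ^ (-x).2 * (a ^ x.1 * b ^ x.2)
      = a ^ (-x).1 * (b ^ (-x).2 * a ^ x.1) * b ^ x.2 := by simp only [mul_assoc]
    _ = a ^ (-x).1 * (a ^ x.1 * b ^ (-x).2) * b ^ x.2 := by rw [h.eq]
    _ = (a ^ (-x).1 * a ^ x.1) * (b ^ (-x).2 * b ^ x.2) := by simp only [mul_assoc]
    _ = 1 := by
      rw [Prod.fst_neg, Prod.snd_neg, zpow_neg, zpow_neg, inv_mul_cancel, inv_mul_cancel, mul_one]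

omit [Gar G] in
theorem gh11_comm {a b : G} (hab : Commute a b) (x y : ℤ × ℤ) :
    Commute (kap a b x) (kap a b y) := by
  unfold kap
  have h1 : Commute (a ^ x.1) (a ^ y.1) := (Commute.refl a).zpow_zpow _ _
  have h2 : Commute (a ^ x.1) (b ^ y.2) := hab.zpow_zpow _ _
  have h3 : Commute (b ^ x.2) (a ^ y.1) := hab.symm.zpow_zpow _ _
  have h4 : Commute (b ^ x.2) (b ^ y.2) := (Commute.refl b).zpow_zpow _ _
  exact (h1.mul_right h2).mul_left (h3.mul_right h4)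

/-- at most three functionals -/
theorem gh11_three {a b : G} (hab : Commute a b) (τ : ℤ × ℤ → ℤ)
    (hτ : ∀ x, IsT (kap a b x) (τ x)) (φ : Fin 4 → ℤ × ℤ →+ ℤ) (hφ : ∀ i, IsCone τ (φ i))
    (hinj : ∀ i j, i ≠ j → φ i ≠ φ j) : False := by
  have h1 : ∀ i, ∃ I : Set G, Bus a b (φ i) I := fun i => exists_bus hab τ hτ (φ i) (hφ i)
  choose I hI using h1
  have h2 : ∀ i, ∃ p : ℤ × ℤ, φ i p = τ p ∧
      ∀ ψ : ℤ × ℤ →+ ℤ, (∀ y, ψ y ≤ τ y) → ψ ≠ φ i → ψ p < φ i p := fun i => (hφ i).lt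
  choose p hp hlt using h2
  refine no_four hab φ I hI p (fun i => ?_) (fun i j hij => ?_)
  · rw [hp i]; exact hτ _
  · exact hlt i (φ j) (hφ j).1 (hinj j i hij.symm)

/-- a surjective enumeration of the functionals -/
theorem gh11_enum {a b : G} (hab : Commute a b) (τ : ℤ × ℤ → ℤ)
    (hτ : ∀ x, IsT (kap a b x) (τ x)) (φ0 : ℤ × ℤ →+ ℤ) (h0 : IsCone τ φ0) :
    ∃ f : Fin 3 → ℤ × ℤ →+ ℤ, (∀ i, IsCone τ (f i)) ∧ ∀ φ, IsCone τ φ → ∃ i, f i = φ := by
  by_contra hcon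
  have hcon' : ∀ f : Fin 3 → ℤ × ℤ →+ ℤ, (∀ i, IsCone τ (f i)) →
      ∃ φ, IsCone τ φ ∧ ∀ i, f i ≠ φ := by
    intro f hf
    by_contra hc
    apply hcon
    refine ⟨f, hf, fun φ hφ => ?_⟩
    by_contra hd
    exact hc ⟨φ, hφ, fun i hi => hd ⟨i, hi⟩⟩
  obtain ⟨φ1, h1, n1⟩ := hcon' ![φ0, φ0, φ0] (by intro i; fin_cases i <;> exact h0)
  obtain ⟨φ2, h2, n2⟩ := hcon' ![φ0, φ1, φ1] (by
    intro i; fin_cases i
    · exact h0
    · exact h1
    · exact h1)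
  obtain ⟨φ3, h3, n3⟩ := hcon' ![φ0, φ1, φ2] (by
    intro i; fin_cases i
    · exact h0
    · exact h1
    · exact h2)
  have e01 : φ0 ≠ φ1 := n1 0
  have e02 : φ0 ≠ φ2 := n2 0
  have e12 : φ1 ≠ φ2 := n2 1
  have e03 : φ0 ≠ φ3 := n3 0
  have e13 : φ1 ≠ φ3 := n3 1
  have e23 : φ2 ≠ φ3 := n3 2
  refine gh11_three hab τ hτ ![φ0, φ1, φ2, φ3] ?_ ?_
  · intro i; fin_cases i
    · exact h0
    · exact h1
    · exact h2
    · exact h3
  · intro i j hij
    fin_cases i <;> fin_cases j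
    · exact absurd rfl hij
    · exact e01
    · exact e02
    · exact e03
    · exact e01.symm
    · exact absurd rfl hij
    · exact e12
    · exact e13
    · exact e02.symm
    · exact e12.symm
    · exact absurd rfl hij
    · exact e23
    · exact e03.symm
    · exact e13.symm
    · exact e23.symm
    · exact absurd rfl hij

theorem exists_frame {a b : G} (hab : Commute a b)
    (hind : ∀ (x : ℤ × ℤ) (c : ℤ), kap a b x = δ ^ c → x = 0)
    (τ : ℤ × ℤ → ℤ) (hτ : ∀ x, IsT (kap a b x) (τ x)) :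
    ∃ (φ : Fin 3 → ℤ × ℤ →+ ℤ) (I : Fin 3 → Set G), (∀ i, Bus a b (φ i) (I i)) ∧
      (∀ x, (∀ i j, φ i x = φ j x) → x = 0) ∧ (∀ x, ∃ i, φ i x = τ x) ∧ ∀ i x, φ i x ≤ τ x := by
  have hom : ∀ (n : ℕ) (x : ℤ × ℤ), τ (n • x) = n * τ x := by
    intro n x
    have h1 := (hτ x).pow n
    rw [← gh9_kap_nsmul hab] at h1
    exact (hτ (n • x)).unique h1
  have sub : ∀ x y, τ (x + y) ≤ τ x + τ y := by
    intro x y
    have h1 := hτ (x + y)
    rw [gh9_kap_add hab] at h1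
    exact IsT.mul_le (gh11_comm hab x y) (hτ x) (hτ y) h1
  have hpos : ∀ x : ℤ × ℤ, x ≠ 0 → 0 < τ x + τ (-x) := by
    intro x hx
    have h1 := hτ (-x)
    rw [gh11_kap_neg hab] at h1
    have h2 := IsT.add_nonneg (hτ x) h1
    rcases h2.lt_or_eq with h3 | h3
    · exact h3
    · exfalso
      obtain ⟨m, hm, k, hk⟩ := IsT.periodic (hτ x) h1 h3.symm
      rw [← gh9_kap_nsmul hab] at hk
      have h4 := hind _ _ hk
      rcases smul_eq_zero.mp h4 with h5 | h5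
      · omega
      · exact hx h5
  have hex := exists_cone τ hom sub
  have h10 : ((1 : ℤ), (0 : ℤ)) ≠ (0 : ℤ × ℤ) := by
    intro h
    have := congrArg Prod.fst h
    simp at this
  obtain ⟨φ0, h0, -⟩ := hex _ h10
  obtain ⟨f, hf, hsurj⟩ := gh11_enum hab τ hτ φ0 h0
  have h1 : ∀ i, ∃ I : Set G, Bus a b (f i) I := fun i => exists_bus hab τ hτ (f i) (hf i)
  choose I hI using h1
  refine ⟨f, I, hI, ?_, ?_, fun i x => (hf i).1 x⟩
  · intro x hx
    by_contra hne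
    obtain ⟨φ, hφ, hφx⟩ := hex x hne
    obtain ⟨ψ, hψ, hψx⟩ := hex (-x) (neg_ne_zero.mpr hne)
    obtain ⟨i, rfl⟩ := hsurj φ hφ
    obtain ⟨j, rfl⟩ := hsurj ψ hψ
    rw [map_neg] at hψx
    have h2 := hx i j
    have h3 := hpos x hne
    omega
  · intro x
    by_cases hne : x = 0
    · refine ⟨0, ?_⟩
      have h2 := hom 0 0
      simp only [zero_smul, Nat.cast_zero, zero_mul] at h2
      rw [hne, map_zero, h2]
    · obtain ⟨φ, hφ, hφx⟩ := hex x hne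
      obtain ⟨i, rfl⟩ := hsurj φ hφ
      exact ⟨i, hφx⟩

end Gar

end Pool.Agent.H88.GH
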