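import Pool.Agent.H88.GH.Defs2

/-!
# Project GH (MP_35eb49), row GH-2: translation numbers and minimal displacement sets
-/

set_option autoImplicit false

namespace Pool.Agent.H88.GH

namespace Gar

variable {G : Type} [Group G] [Gar G]

/-- an affine function that is bounded below has a nonnegative slope -/
theorem gh2_slope {a C : ℤ} (h : ∀ n : ℕ, (n : ℤ) * a ≤ C) : a ≤ 0 := by
  by_contra hc
  push Not at hc
  have h1 := h (C.natAbs + 1)
  push_cast at h1
  have h2 : C ≤ |C| := le_abs_self C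
  nlinarith [abs_nonneg C]

theorem IsT.unique {h : G} {s t : ℤ} (h1 : IsT h s) (h2 : IsT h t) : s = t := by
  obtain ⟨C, hC⟩ := h1
  obtain ⟨E, hE⟩ := h2
  apply le_antisymm
  · have := gh2_slope (a := s - t) (C := E) (fun n => by
      have h3 := (hC n).1
      have h4 := (hE n).2
      rw [mul_sub]
      linarith)
    linarith
  · have := gh2_slope (a := t - s) (C := C) (fun n => by
      have h3 := (hC n).2
      have h4 := (hE n).1
      rw [mul_sub]
      linarith)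
    linarith

theorem IsT.pow {h : G} {t : ℤ} (ht : IsT h t) (k : ℕ) : IsT (h ^ k) (k * t) := by
  obtain ⟨C, hC⟩ := ht
  refine ⟨C, fun n => ?_⟩
  have h1 := hC (k * n)
  rw [pow_mul] at h1
  push_cast at h1
  constructor
  · calc (n : ℤ) * (k * t) = k * n * t := by ring
      _ ≤ _ := h1.1
  · calc d 1 ((h ^ k) ^ n) ≤ k * n * t + C := h1.2
      _ = n * (k * t) + C := by ring

theorem IsT.mul_le {g h : G} {s t u : ℤ} (hc : Commute g h) (hg : IsT g s) (hh : IsT h t)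
    (hgh : IsT (g * h) u) : u ≤ s + t := by
  obtain ⟨C1, h1⟩ := hg
  obtain ⟨C2, h2⟩ := hh
  obtain ⟨C3, h3⟩ := hgh
  have := gh2_slope (a := u - (s + t)) (C := C1 + C2) (fun n => by
    have a1 := (h1 n).2
    have a2 := (h2 n).2
    have a3 := (h3 n).1
    rw [hc.mul_pow] at a3
    have a4 := d_one_mul_le (g ^ n) (h ^ n)
    rw [mul_sub, mul_add]
    linarith)
  linarith

theorem gh2_inv (g : G) (n : ℕ) : d (g ^ n) 1 = d 1 (g⁻¹ ^ n) := by
  rw [d_inv_one, inv_pow]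

theorem IsT.add_nonneg {g : G} {s t : ℤ} (hs : IsT g s) (ht : IsT g⁻¹ t) : 0 ≤ s + t := by
  obtain ⟨C1, h1⟩ := hs
  obtain ⟨C2, h2⟩ := ht
  have := gh2_slope (a := -(s + t)) (C := C1 + C2) (fun n => by
    have a1 := (h1 n).2
    have a2 := (h2 n).2
    have a3 := d_add_nonneg 1 (g ^ n)
    rw [gh2_inv] at a3
    rw [mul_neg, mul_add]
    linarith)
  linarith

theorem IsT.periodic {g : G} {s t : ℤ} (hs : IsT g s) (ht : IsT g⁻¹ t) (h : s + t = 0) :
    ∃ m : ℕ, 0 < m ∧ ∃ k : ℤ, g ^ m = δ ^ k := by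
  obtain ⟨C1, h1⟩ := hs
  obtain ⟨C2, h2⟩ := ht
  -- the points `g ^ n * δ ^ (d (g ^ n) 1)` lie in a finite interval
  have hmem : ∀ n : ℕ, g ^ n * δ ^ (d (g ^ n) 1) ∈ Set.Icc (1 : G) (δ ^ (C1 + C2)) := by
    intro n
    constructor
    · exact le_mul_d (g ^ n) 1
    · have a1 := (h1 n).2
      have a2 := (h2 n).2
      rw [← gh2_inv] at a2
      have a3 : d 1 (g ^ n * δ ^ (d (g ^ n) 1)) ≤ C1 + C2 := by
        rw [d_mul_zpow]
        have a4 : (n : ℤ) * s + n * t = 0 := by rw [← mul_add, h, mul_zero]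
        linarith
      rw [d_le_iff, one_mul] at a3
      exact a3
  have hfin := finite_Icc (1 : G) (δ ^ (C1 + C2))
  obtain ⟨m, n, hmn, heq⟩ : ∃ m n : ℕ, m < n ∧
      g ^ m * δ ^ (d (g ^ m) 1) = g ^ n * δ ^ (d (g ^ n) 1) := by
    by_contra hc
    push Not at hc
    have hinj : Function.Injective (fun n : ℕ => g ^ n * δ ^ (d (g ^ n) 1)) := by
      intro m n hmn
      rcases lt_trichotomy m n with h3 | h3 | h3
      · exact absurd hmn (hc m n h3)
      · exact h3
      · exact absurd hmn.symm (hc n m h3)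
    exact (Set.infinite_of_injective_forall_mem hinj hmem) hfin
  refine ⟨n - m, by omega, d (g ^ m) 1 - d (g ^ n) 1, ?_⟩
  have h3 : g ^ n = g ^ m * g ^ (n - m) := by rw [← pow_add]; congr 1; omega
  rw [h3] at heq
  have h4 : g ^ m * (g ^ (n - m) * δ ^ (d (g ^ m * g ^ (n - m)) 1)) = g ^ m * δ ^ (d (g ^ m) 1) := by
    rw [← mul_assoc]; exact heq.symm
  have h5 := mul_left_cancel h4
  rw [← h3] at h5
  rw [zpow_sub, ← h5]
  group

theorem MM_one (g : G) : (1 : G) ∈ MM g := by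
  constructor
  · rw [mul_one]
  · rw [mul_one]

theorem gh2_d_both (x y : G) (k : ℤ) : d (x * δ ^ k) (y * δ ^ k) = d x y := by
  rw [d_mul_zpow, d_zpow_mul]
  ring

theorem MM_zpow {g y : G} (hy : y ∈ MM g) (k : ℤ) : y * δ ^ k ∈ MM g := by
  constructor
  · rw [← mul_assoc, gh2_d_both]
    exact hy.1
  · rw [← mul_assoc, gh2_d_both]
    exact hy.2

theorem MM_comm {g z y : G} (hz : Commute g z) (hy : y ∈ MM g) : z * y ∈ MM g := by
  constructor
  · rw [← mul_assoc, hz.eq, mul_assoc, d_mul_left]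
    exact hy.1
  · rw [← mul_assoc, hz.inv_left.eq, mul_assoc, d_mul_left]
    exact hy.2

theorem MM_inf {g x y : G} (hx : x ∈ MM g) (hy : y ∈ MM g) : x ⊓ y ∈ MM g := by
  constructor
  · rw [d_le_iff, mul_inf', inf_zpow]
    exact inf_le_inf (d_le_iff.mp hx.1) (d_le_iff.mp hy.1)
  · rw [d_le_iff, mul_inf', inf_zpow]
    exact inf_le_inf (d_le_iff.mp hx.2) (d_le_iff.mp hy.2)

theorem MM_sup {g x y : G} (hx : x ∈ MM g) (hy : y ∈ MM g) : x ⊔ y ∈ MM g := by
  constructor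
  · rw [d_le_iff, mul_sup', sup_zpow]
    exact sup_le_sup (d_le_iff.mp hx.1) (d_le_iff.mp hy.1)
  · rw [d_le_iff, mul_sup', sup_zpow]
    exact sup_le_sup (d_le_iff.mp hx.2) (d_le_iff.mp hy.2)

theorem MM_finite (g : G) : {h : G | ∃ y ∈ MM g, h = y⁻¹ * g * y}.Finite := by
  refine Set.Finite.subset (finite_Icc (δ ^ (-d 1 g⁻¹) : G) (δ ^ d 1 g)) ?_
  rintro h ⟨y, hy, rfl⟩
  constructor
  · have h1 := d_le_iff.mp hy.2
    have h2 : y ≤ g * y * δ ^ d 1 g⁻¹ := by
      have := (mul_le_mul_iff g).mpr h1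
      rwa [mul_inv_cancel_left, ← mul_assoc] at this
    rw [le_mul_zpow_iff] at h2
    have h3 := (mul_le_mul_iff y⁻¹).mpr h2
    rwa [inv_mul_cancel_left, ← mul_assoc] at h3
  · have h1 := d_le_iff.mp hy.1
    have h3 := (mul_le_mul_iff y⁻¹).mpr h1
    rwa [inv_mul_cancel_left, ← mul_assoc] at h3

end Gar

end Pool.Agent.H88.GH
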