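import Pool.Agent.H88.GH.Defs2
import Pool.Agent.H88.GH.IsTPr

/-! Project GH, row GH-1: translation numbers exist, with bounded error, and `12 t` is an integer -/

set_option autoImplicit false

namespace Pool.Agent.H88.GH

namespace Gar

open Filter Topology

variable {G : Type} [Group G] [Gar G]

theorem gh1_conj (g y : G) (i : ℕ) : d 1 ((y⁻¹ * g * y) ^ i) = d y (g ^ i * y) := by
  have h : (y⁻¹ * g * y) ^ i = y⁻¹ * g ^ i * y := by
    have := conj_pow (i := i) (a := y⁻¹) (b := g)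
    rwa [inv_inv] at this
  rw [h, ← d_mul_left y, mul_one]
  congr 1
  group

/-- A join of points on the orbit, for a slope `t'` above the growth of the orbit. -/
theorem gh1_lub (g : G) (t' : ℝ) (K : ℤ) (hK : ∀ n : ℕ, d 1 (g ^ n) ≤ ⌊(n : ℝ) * t'⌋ + K) :
    ∃ Y ∈ MM g, ∀ i : ℕ, d Y (g ^ i * Y) ≤ ⌊(i : ℝ) * t'⌋ + 1 := by
  obtain ⟨Y, h1, h2, h3⟩ := exists_lub
    (Set.range (fun n : ℕ => g ^ n * δ ^ (-⌊(n : ℝ) * t'⌋))) (Set.range_nonempty _) (δ ^ K)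
    (by
      rintro _ ⟨n, rfl⟩
      have h : d 1 (g ^ n * δ ^ (-⌊(n : ℝ) * t'⌋)) ≤ K := by
        rw [d_mul_zpow]
        have := hK n
        omega
      rw [d_le_iff, one_mul] at h
      exact h)
  refine ⟨Y, h3 (MM g) (fun x hx y hy => MM_sup hx hy) ?_, fun i => ?_⟩
  · rintro _ ⟨n, rfl⟩
    have h4 : g ^ n * 1 ∈ MM g := MM_comm ((Commute.refl g).pow_right n) (MM_one g)
    rw [mul_one] at h4
    exact MM_zpow h4 _
  · rw [d_le_iff]
    have h5 : Y ≤ (g ^ i)⁻¹ * (Y * δ ^ (⌊(i : ℝ) * t'⌋ + 1)) := by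
      apply h2
      rintro _ ⟨n, rfl⟩
      rw [← mul_le_mul_iff (g ^ i), mul_inv_cancel_left]
      have h6 : g ^ (i + n) * δ ^ (-⌊((i + n : ℕ) : ℝ) * t'⌋) ≤ Y := h1 _ ⟨i + n, rfl⟩
      have h7 : ⌊((i + n : ℕ) : ℝ) * t'⌋ - ⌊(n : ℝ) * t'⌋ ≤ ⌊(i : ℝ) * t'⌋ + 1 := by
        have h8 : ((i + n : ℕ) : ℝ) * t' = (i : ℝ) * t' + (n : ℝ) * t' := by
          push_cast
          ring
        have h9 := Int.le_floor_add_floor ((i : ℝ) * t') ((n : ℝ) * t')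
        rw [h8]
        omega
      have h10 : g ^ i * (g ^ n * δ ^ (-⌊(n : ℝ) * t'⌋)) =
          g ^ (i + n) * δ ^ (-⌊((i + n : ℕ) : ℝ) * t'⌋) *
            δ ^ (⌊((i + n : ℕ) : ℝ) * t'⌋ - ⌊(n : ℝ) * t'⌋) := by
        rw [mul_assoc (g ^ (i + n)), ← zpow_add, pow_add, mul_assoc]
        congr 3
        ring
      rw [h10]
      exact ((mul_zpow_le_iff _).mpr h6).trans (mul_zpow_mono Y h7)
    have h11 := (mul_le_mul_iff (g ^ i)).mpr h5
    rwa [mul_inv_cancel_left] at h11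

theorem gh1_slope (t : ℝ) (N : ℕ) :
    ∃ t' : ℝ, t < t' ∧ ∀ i : ℕ, i ≤ N → ⌊(i : ℝ) * t'⌋ ≤ ⌊(i : ℝ) * t⌋ := by
  have h : ∀ᶠ t' in 𝓝[>] t, ∀ i ∈ Finset.range (N + 1), (i : ℝ) * t' < ⌊(i : ℝ) * t⌋ + 1 := by
    rw [Filter.eventually_all_finset]
    intro i _
    have hc : Tendsto (fun t' : ℝ => (i : ℝ) * t') (𝓝[>] t) (𝓝 ((i : ℝ) * t)) :=
      ((continuous_const.mul continuous_id).tendsto t).mono_left nhdsWithin_le_nhds
    exact hc.eventually_lt_const (Int.lt_floor_add_one _)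
  obtain ⟨t', h1, h2⟩ := (h.and self_mem_nhdsWithin).exists
  refine ⟨t', h2, fun i hi => ?_⟩
  have h3 := h1 i (Finset.mem_range.mpr (by omega))
  have h4 : ⌊(i : ℝ) * t'⌋ < ⌊(i : ℝ) * t⌋ + 1 := by
    rw [Int.floor_lt]
    push_cast
    exact h3
  omega

theorem gh1_point (g : G) (t : ℝ)
    (hup : ∀ t' : ℝ, t < t' → ∀ᶠ n : ℕ in atTop, (d 1 (g ^ n) : ℝ) ≤ n * t') :
    ∃ y ∈ MM g, ∀ i : ℕ, d y (g ^ i * y) ≤ ⌊(i : ℝ) * t⌋ + 1 := by
  by_contra hcon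
  push Not at hcon
  have hF : ∀ h ∈ {h : G | ∃ y ∈ MM g, h = y⁻¹ * g * y}, ∃ i : ℕ,
      ⌊(i : ℝ) * t⌋ + 1 < d 1 (h ^ i) := by
    rintro h ⟨y, hy, rfl⟩
    obtain ⟨i, hi⟩ := hcon y hy
    refine ⟨i, ?_⟩
    rw [gh1_conj]
    exact hi
  choose! i hi using hF
  obtain ⟨N, hN⟩ := ((MM_finite g).image i).bddAbove
  obtain ⟨t', ht', hfl⟩ := gh1_slope t N
  obtain ⟨N0, hN0⟩ := Filter.eventually_atTop.mp (hup t' ht')
  obtain ⟨K, hK⟩ := ((Finset.range N0).image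
    (fun n : ℕ => d 1 (g ^ n) - ⌊(n : ℝ) * t'⌋)).exists_le
  have hK' : ∀ n : ℕ, d 1 (g ^ n) ≤ ⌊(n : ℝ) * t'⌋ + max K 0 := by
    intro n
    rcases lt_or_ge n N0 with hn | hn
    · have := hK _ (Finset.mem_image_of_mem _ (Finset.mem_range.mpr hn))
      have h2 := le_max_left K 0
      omega
    · have h1 : d 1 (g ^ n) ≤ ⌊(n : ℝ) * t'⌋ := by
        rw [Int.le_floor]
        exact hN0 n hn
      have h2 := le_max_right K 0
      omega
  obtain ⟨Y, hY, hYi⟩ := gh1_lub g t' _ hK'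
  have h1 := hi (Y⁻¹ * g * Y) ⟨Y, hY, rfl⟩
  rw [gh1_conj] at h1
  have h2 := hYi (i (Y⁻¹ * g * Y))
  have h3 := hfl (i (Y⁻¹ * g * Y)) (hN ⟨Y⁻¹ * g * Y, ⟨Y, hY, rfl⟩, rfl⟩)
  omega

/-- The bounded error. -/
theorem gh1_error (g : G) (t : ℝ)
    (hup : ∀ t' : ℝ, t < t' → ∀ᶠ n : ℕ in atTop, (d 1 (g ^ n) : ℝ) ≤ n * t') :
    ∃ C : ℤ, ∀ n : ℕ, (d 1 (g ^ n) : ℝ) ≤ n * t + C := by
  obtain ⟨y, _, hy⟩ := gh1_point g t hup
  refine ⟨d 1 y + 1 + d y 1, fun n => ?_⟩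
  have h1 := d_triangle 1 y (g ^ n)
  have h2 := d_triangle y (g ^ n * y) (g ^ n)
  have h3 := d_mul_left (g ^ n) y 1
  rw [mul_one] at h3
  have h4 := hy n
  have h5 : d 1 (g ^ n) ≤ ⌊(n : ℝ) * t⌋ + (d 1 y + 1 + d y 1) := by omega
  have h6 : (d 1 (g ^ n) : ℝ) ≤ (⌊(n : ℝ) * t⌋ : ℝ) + ((d 1 y + 1 + d y 1 : ℤ) : ℝ) := by
    exact_mod_cast h5
  have h7 := Int.floor_le ((n : ℝ) * t)
  linarith

/-- Four different horoball levels below the shift by `δ` are impossible. -/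
theorem gh1_no_four {z : Fin 4 → G} {r : Fin 4 → ℝ} (hr : StrictMono r) (h03 : r 3 < r 0 + 1)
    (J : ℝ → Set G) (down : ∀ s, ∀ x ∈ J s, ∀ y ≤ x, y ∈ J s)
    (hsup : ∀ s, ∀ x ∈ J s, ∀ y ∈ J s, x ⊔ y ∈ J s)
    (delta : ∀ s (k : ℤ) z, z * δ ^ k ∈ J (s + k) ↔ z ∈ J s)
    (hin : ∀ i s, r i < s → z i ∈ J s) (hout : ∀ i s, s < r i → z i ∉ J s) : False := by
  have r01 : r 0 < r 1 := hr (by decide)
  have r12 : r 1 < r 2 := hr (by decide)
  have r23 : r 2 < r 3 := hr (by decide)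
  obtain ⟨s1, hs1, hs1'⟩ := exists_between r01
  obtain ⟨s2, hs2, hs2'⟩ := exists_between r12
  obtain ⟨s3, hs3, hs3'⟩ := exists_between r23
  obtain ⟨s4, hs4, hs4'⟩ := exists_between h03
  have hZ : ∀ s, r 3 < s → z 0 ⊔ z 1 ⊔ z 2 ⊔ z 3 ∈ J s := fun s hs =>
    hsup s _ (hsup s _ (hsup s _ (hin 0 s (by linarith)) _ (hin 1 s (by linarith))) _
      (hin 2 s (by linarith))) _ (hin 3 s hs)
  set Z := z 0 ⊔ z 1 ⊔ z 2 ⊔ z 3 with hZdef
  have hZd : ∀ s, r 3 - 1 < s → Z * δ ^ (-1 : ℤ) ∈ J s := by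
    intro s hs
    have h := (delta (s + 1) (-1) Z).mpr (hZ _ (by linarith))
    have h2 : s + 1 + ((-1 : ℤ) : ℝ) = s := by push_cast; ring
    rwa [h2] at h
  set y0 := z 0 ⊔ Z * δ ^ (-1 : ℤ) with hy0
  set y1 := y0 ⊔ z 1 with hy1
  set y2 := y1 ⊔ z 2 with hy2
  set y3 := y2 ⊔ z 3 with hy3
  have m0 : ∀ s, r 0 < s → y0 ∈ J s := fun s hs =>
    hsup s _ (hin 0 s hs) _ (hZd s (by linarith))
  have m1 : ∀ s, r 1 < s → y1 ∈ J s := fun s hs =>
    hsup s _ (m0 s (by linarith)) _ (hin 1 s hs)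
  have m2 : ∀ s, r 2 < s → y2 ∈ J s := fun s hs =>
    hsup s _ (m1 s (by linarith)) _ (hin 2 s hs)
  have m3 : ∀ s, r 3 < s → y3 ∈ J s := fun s hs =>
    hsup s _ (m2 s (by linarith)) _ (hin 3 s hs)
  have l01 : y0 < y1 := lt_of_le_of_ne le_sup_left (fun h =>
    hout 1 s1 hs1' (down s1 y0 (m0 s1 hs1) _ (by rw [h]; exact le_sup_right)))
  have l12 : y1 < y2 := lt_of_le_of_ne le_sup_left (fun h =>
    hout 2 s2 hs2' (down s2 y1 (m1 s2 hs2) _ (by rw [h]; exact le_sup_right)))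
  have l23 : y2 < y3 := lt_of_le_of_ne le_sup_left (fun h =>
    hout 3 s3 hs3' (down s3 y2 (m2 s3 hs3) _ (by rw [h]; exact le_sup_right)))
  have hZle : Z ≤ y0 * δ := by
    have h1 : Z * δ ^ (-1 : ℤ) ≤ y0 := le_sup_right
    have h2 := (mul_zpow_le_iff 1).mpr h1
    rwa [mul_assoc, ← zpow_add, neg_add_cancel, zpow_zero, mul_one, zpow_one] at h2
  have l3 : y3 ≤ y0 * δ := by
    have a0 : z 0 ≤ Z := le_sup_left.trans (le_sup_left.trans le_sup_left)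
    have a1 : z 1 ≤ Z := (le_sup_right.trans le_sup_left).trans le_sup_left
    have a2 : z 2 ≤ Z := le_sup_right.trans le_sup_left
    have a3 : z 3 ≤ Z := le_sup_right
    have b0 : y0 ≤ y0 * δ := le_mul_δ _
    exact sup_le (sup_le (sup_le b0 (a1.trans hZle)) (a2.trans hZle)) (a3.trans hZle)
  have l34 : y3 < y0 * δ := lt_of_le_of_ne l3 (fun h => by
    have h1 := m3 s4 hs4
    rw [h] at h1
    have h2 : z 0 * δ ^ (1 : ℤ) ∈ J s4 := by
      refine down s4 _ h1 _ ?_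
      rw [zpow_one, mul_δ_le_iff]
      exact le_sup_left
    have h3 : s4 = (s4 - 1) + ((1 : ℤ) : ℝ) := by push_cast; ring
    rw [h3] at h2
    exact hout 0 (s4 - 1) (by linarith) ((delta (s4 - 1) 1 (z 0)).mp h2))
  have e1 := len_lt l01
  have e2 := len_lt l12
  have e3 := len_lt l23
  have e4 := len_lt l34
  rw [len_mul, len_δ] at e4
  omega

/-- The translation number has denominator at most three. -/
theorem gh1_rat (g : G) (t : ℝ) (hlow : ∀ n : ℕ, (n : ℝ) * t ≤ d 1 (g ^ n)) (C : ℤ)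
    (hC : ∀ n : ℕ, (d 1 (g ^ n) : ℝ) ≤ n * t + C) :
    ∃ T : ℤ, 12 * t = T := by
  by_contra hcon
  have hk : ∀ k : ℕ, 0 < k → k ≤ 3 → ∀ m : ℤ, (k : ℝ) * t ≠ m := by
    intro k hk0 hk3 m hm
    apply hcon
    have : k = 1 ∨ k = 2 ∨ k = 3 := by omega
    rcases this with rfl | rfl | rfl
    · exact ⟨12 * m, by push_cast at hm ⊢; linarith⟩
    · exact ⟨6 * m, by push_cast at hm ⊢; linarith⟩
    · exact ⟨4 * m, by push_cast at hm ⊢; linarith⟩
  set J : ℝ → Set G := fun s => {z | ∃ N : ℕ, ∀ n ≥ N, (d 1 (g ^ n * z) : ℝ) < n * t + s} with hJ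
  have down : ∀ s, ∀ x ∈ J s, ∀ y ≤ x, y ∈ J s := by
    rintro s x ⟨N, hN⟩ y hy
    refine ⟨N, fun n hn => ?_⟩
    have h1 : d 1 (g ^ n * y) ≤ d 1 (g ^ n * x) := d_mono 1 ((mul_le_mul_iff _).mpr hy)
    have h2 : (d 1 (g ^ n * y) : ℝ) ≤ d 1 (g ^ n * x) := by exact_mod_cast h1
    exact lt_of_le_of_lt h2 (hN n hn)
  have hsup : ∀ s, ∀ x ∈ J s, ∀ y ∈ J s, x ⊔ y ∈ J s := by
    rintro s x ⟨N, hN⟩ y ⟨N', hN'⟩
    refine ⟨max N N', fun n hn => ?_⟩
    rw [mul_sup', d_sup]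
    push_cast
    exact max_lt (hN n (le_trans (le_max_left _ _) hn)) (hN' n (le_trans (le_max_right _ _) hn))
  have delta : ∀ s (k : ℤ) z, z * δ ^ k ∈ J (s + k) ↔ z ∈ J s := by
    intro s k z
    constructor
    · rintro ⟨N, hN⟩
      refine ⟨N, fun n hn => ?_⟩
      have h := hN n hn
      rw [← mul_assoc, d_mul_zpow] at h
      push_cast at h
      linarith
    · rintro ⟨N, hN⟩
      refine ⟨N, fun n hn => ?_⟩
      have h := hN n hn
      rw [← mul_assoc, d_mul_zpow]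
      push_cast
      linarith
  have shift : ∀ s z, g * z ∈ J (s + t) ↔ z ∈ J s := by
    intro s z
    constructor
    · rintro ⟨N, hN⟩
      refine ⟨N + 1, fun n hn => ?_⟩
      obtain ⟨m, rfl⟩ : ∃ m, n = m + 1 := ⟨n - 1, by omega⟩
      have h := hN m (by omega)
      rw [← mul_assoc, ← pow_succ] at h
      push_cast
      linarith
    · rintro ⟨N, hN⟩
      refine ⟨N, fun n hn => ?_⟩
      have h := hN (n + 1) (by omega)
      rw [← mul_assoc, ← pow_succ]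
      push_cast at h
      linarith
  have shiftn : ∀ (i : ℕ) s z, g ^ i * z ∈ J (s + i * t) ↔ z ∈ J s := by
    intro i
    induction i with
    | zero => intro s z; simp
    | succ i ih =>
      intro s z
      rw [← ih s z, ← shift (s + i * t) (g ^ i * z), pow_succ', mul_assoc]
      have h : s + ((i + 1 : ℕ) : ℝ) * t = s + i * t + t := by push_cast; ring
      rw [h]
  set R : Set ℝ := {s | (1 : G) ∈ J s} with hR
  have hRne : R.Nonempty := by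
    refine ⟨C + 1, 0, fun n _ => ?_⟩
    rw [mul_one]
    have := hC n
    linarith
  have hRb : BddBelow R := by
    refine ⟨0, ?_⟩
    rintro s ⟨N, hN⟩
    have h1 := hN N le_rfl
    rw [mul_one] at h1
    have h2 := hlow N
    linarith
  have hRup : ∀ s, sInf R < s → (1 : G) ∈ J s := by
    intro s hs
    obtain ⟨s', ⟨N, hN⟩, hs'⟩ := exists_lt_of_csInf_lt hRne hs
    refine ⟨N, fun n hn => ?_⟩
    have := hN n hn
    linarith
  have hRlo : ∀ s, s < sInf R → (1 : G) ∉ J s := fun s hs h => notMem_of_lt_csInf hs hRb h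
  set v : Fin 4 → ℝ := fun i => Int.fract ((i : ℕ) * t) with hv
  have hvinj : Function.Injective v := by
    have key : ∀ i j : ℕ, i < j → j < 4 → Int.fract ((i : ℝ) * t) ≠ Int.fract ((j : ℝ) * t) := by
      intro i j hij hj h
      have h1 : ((j - i : ℕ) : ℝ) * t = ((⌊(j : ℝ) * t⌋ - ⌊(i : ℝ) * t⌋ : ℤ) : ℝ) := by
        have h2 := Int.floor_add_fract ((i : ℝ) * t)
        have h3 := Int.floor_add_fract ((j : ℝ) * t)
        rw [Nat.cast_sub hij.le]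
        push_cast
        linarith
      exact hk (j - i) (by omega) (by omega) _ h1
    intro i j h
    rcases lt_trichotomy (i : ℕ) (j : ℕ) with h1 | h1 | h1
    · exact absurd h (key i j h1 j.2)
    · exact Fin.ext h1
    · exact absurd h.symm (key j i h1 i.2)
  have hmono : StrictMono (v ∘ Tuple.sort v) :=
    (Tuple.monotone_sort v).strictMono_of_injective (hvinj.comp (Tuple.sort v).injective)
  have hzin : ∀ (i : Fin 4) (s : ℝ), g ^ (i : ℕ) * δ ^ (-⌊((i : ℕ) : ℝ) * t⌋) ∈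
      J (s + v i) ↔ (1 : G) ∈ J s := by
    intro i s
    rw [← shiftn i s 1, mul_one, ← delta (s + ((i : ℕ) : ℝ) * t) (-⌊((i : ℕ) : ℝ) * t⌋) (g ^ (i : ℕ))]
    have h : s + v i = s + ((i : ℕ) : ℝ) * t + ((-⌊((i : ℕ) : ℝ) * t⌋ : ℤ) : ℝ) := by
      rw [hv]
      have h2 := Int.floor_add_fract (((i : ℕ) : ℝ) * t)
      push_cast
      linarith
    rw [h]
  refine gh1_no_four (z := fun i => g ^ ((Tuple.sort v i : Fin 4) : ℕ) *
    δ ^ (-⌊(((Tuple.sort v i : Fin 4) : ℕ) : ℝ) * t⌋))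
    (r := fun i => sInf R + v (Tuple.sort v i)) ?_ ?_ J down hsup delta ?_ ?_
  · intro i j hij
    have := hmono hij
    simp only [Function.comp_apply] at this
    simp only
    linarith
  · have h1 : v (Tuple.sort v 3) < 1 := Int.fract_lt_one _
    have h2 : 0 ≤ v (Tuple.sort v 0) := Int.fract_nonneg _
    linarith
  · intro i s hs
    have h := (hzin (Tuple.sort v i) (s - v (Tuple.sort v i))).mpr (hRup _ (by linarith))
    rwa [sub_add_cancel] at h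
  · intro i s hs h
    have h1 : s = (s - v (Tuple.sort v i)) + v (Tuple.sort v i) := by ring
    rw [h1] at h
    exact hRlo _ (by linarith) ((hzin (Tuple.sort v i) _).mp h)

theorem exists_isT (g : G) : ∃ t : ℤ, IsT (g ^ 12) t := by
  have hsub : Subadditive (fun n : ℕ => (d 1 (g ^ n) : ℝ)) := by
    intro m n
    change (d 1 (g ^ (m + n)) : ℝ) ≤ d 1 (g ^ m) + d 1 (g ^ n)
    rw [pow_add]
    exact_mod_cast d_one_mul_le (g ^ m) (g ^ n)
  have hneg : ∀ n : ℕ, -(n * (d 1 g⁻¹ : ℝ)) ≤ d 1 (g ^ n) := by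
    intro n
    have h1 : ∀ n : ℕ, d 1 (g⁻¹ ^ n) ≤ n * d 1 g⁻¹ := by
      intro n
      induction n with
      | zero => simp [d_self]
      | succ n ih =>
        rw [pow_succ]
        have := d_one_mul_le (g⁻¹ ^ n) g⁻¹
        push_cast
        linarith
    have h2 := d_one_mul_le (g ^ n) (g⁻¹ ^ n)
    rw [inv_pow, mul_inv_cancel, d_self] at h2
    have h3 := h1 n
    rw [inv_pow] at h3
    have h4 : 0 ≤ d 1 (g ^ n) + n * d 1 g⁻¹ := by linarith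
    have h5 : (0 : ℝ) ≤ d 1 (g ^ n) + n * d 1 g⁻¹ := by exact_mod_cast h4
    linarith
  have hbdd : BddBelow (Set.range fun n : ℕ => (d 1 (g ^ n) : ℝ) / n) := by
    refine ⟨-|(d 1 g⁻¹ : ℝ)|, ?_⟩
    rintro _ ⟨n, rfl⟩
    rcases Nat.eq_zero_or_pos n with rfl | hn
    · simp
    · have hn' : (0 : ℝ) < n := by exact_mod_cast hn
      simp only
      rw [le_div_iff₀ hn']
      have h1 := hneg n
      have h2 := le_abs_self (d 1 g⁻¹ : ℝ)
      nlinarith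
  set t := hsub.lim with ht
  have hlow : ∀ n : ℕ, (n : ℝ) * t ≤ d 1 (g ^ n) := by
    intro n
    rcases Nat.eq_zero_or_pos n with rfl | hn
    · simp [d_self]
    · have h1 := hsub.lim_le_div hbdd hn.ne'
      have hn' : (0 : ℝ) < n := by exact_mod_cast hn
      rw [le_div_iff₀ hn'] at h1
      linarith
  have hup : ∀ t' : ℝ, t < t' → ∀ᶠ n : ℕ in atTop, (d 1 (g ^ n) : ℝ) ≤ n * t' := by
    intro t' ht'
    have h1 := (hsub.tendsto_lim hbdd).eventually_lt_const ht'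
    filter_upwards [h1, Filter.eventually_gt_atTop 0] with n hn hn0
    have hn' : (0 : ℝ) < n := by exact_mod_cast hn0
    rw [div_lt_iff₀ hn'] at hn
    linarith
  obtain ⟨C, hC⟩ := gh1_error g t hup
  obtain ⟨T, hT⟩ := gh1_rat g t hlow C hC
  refine ⟨T, C, fun n => ?_⟩
  rw [← pow_mul]
  have h1 := hlow (12 * n)
  have h2 := hC (12 * n)
  push_cast at h1 h2
  have h3 : (12 * (n : ℝ)) * t = n * T := by
    rw [← hT]
    ring
  rw [h3] at h1 h2
  constructor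
  · exact_mod_cast h1
  · exact_mod_cast h2

end Gar

end Pool.Agent.H88.GH
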