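import Pool.Agent.H88.GH.Defs2

/-!
# Project GH (MP_35eb49), row GH-12: linear algebra for the frame
-/

set_option autoImplicit false

namespace Pool.Agent.H88.GH

namespace Gar

theorem gh12_apply (φ : ℤ × ℤ →+ ℤ) (y : ℤ × ℤ) : φ y = φ (1, 0) * y.1 + φ (0, 1) * y.2 := by
  have h : y = y.1 • ((1, 0) : ℤ × ℤ) + y.2 • ((0, 1) : ℤ × ℤ) := by
    ext <;> simp
  conv_lhs => rw [h]
  rw [map_add, map_zsmul, map_zsmul, smul_eq_mul, smul_eq_mul]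
  ring

theorem exists_lin (φ : Fin 3 → ℤ × ℤ →+ ℤ) (h : ∀ x, (∀ i j, φ i x = φ j x) → x = 0) :
    ∃ (D : ℤ) (x : Fin 3 → ℤ × ℤ) (c : Fin 3 → ℤ), 0 < D ∧ (∀ i, (5 : ℤ) ∣ c i) ∧
      (∀ i j, φ j (x i) + c i = if i = j then D else 0) ∧
      x 0 + x 1 + x 2 = 0 ∧ c 0 + c 1 + c 2 = D ∧
      (∀ y, D • y = φ 0 y • x 0 + φ 1 y • x 1 + φ 2 y • x 2) ∧
      ∀ y, φ 0 y * c 0 + φ 1 y * c 1 + φ 2 y * c 2 = 0 := by
  have h' : ∀ x, φ 0 x = φ 2 x → φ 1 x = φ 2 x → x = 0 := by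
    intro x h0 h1
    apply h
    intro i j
    fin_cases i <;> fin_cases j <;> simp [h0, h1]
  set a0 := φ 0 (1, 0) - φ 2 (1, 0) with ha0
  set b0 := φ 0 (0, 1) - φ 2 (0, 1) with hb0
  set a1 := φ 1 (1, 0) - φ 2 (1, 0) with ha1
  set b1 := φ 1 (0, 1) - φ 2 (0, 1) with hb1
  have e0 : ∀ y : ℤ × ℤ, φ 0 y = φ 2 y + (a0 * y.1 + b0 * y.2) := by
    intro y
    rw [gh12_apply (φ 0), gh12_apply (φ 2), ha0, hb0]
    ring
  have e1 : ∀ y : ℤ × ℤ, φ 1 y = φ 2 y + (a1 * y.1 + b1 * y.2) := by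
    intro y
    rw [gh12_apply (φ 1), gh12_apply (φ 2), ha1, hb1]
    ring
  set Δ := a0 * b1 - a1 * b0 with hΔ
  have hΔ0 : Δ ≠ 0 := by
    intro hz
    have z1 := h' (b0, -a0) (by rw [e0]; ring) (by rw [e1]; simp only; linarith)
    have z2 := h' (b1, -a1) (by rw [e0]; simp only; linarith) (by rw [e1]; ring)
    have w1 : b0 = 0 := congrArg Prod.fst z1
    have w2 : -a0 = 0 := congrArg Prod.snd z1
    have w3 : b1 = 0 := congrArg Prod.fst z2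
    have w4 : -a1 = 0 := congrArg Prod.snd z2
    have z3 := h' (1, 0) (by rw [e0]; simp only; linarith) (by rw [e1]; simp only; linarith)
    have w5 : (1 : ℤ) = 0 := congrArg Prod.fst z3
    exact one_ne_zero w5
  -- sign
  obtain ⟨ε, hε⟩ : ∃ ε : ℤ, 0 < ε * Δ := by
    rcases lt_or_gt_of_ne hΔ0 with h1 | h1
    · exact ⟨-1, by linarith⟩
    · exact ⟨1, by linarith⟩
  set x0 : ℤ × ℤ := (5 * ε * b1, 5 * ε * (-a1)) with hx0
  set x1 : ℤ × ℤ := (5 * ε * (-b0), 5 * ε * a0) with hx1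
  have f00 : φ 0 x0 = φ 2 x0 + 5 * ε * Δ := by rw [e0, hx0, hΔ]; ring
  have f10 : φ 1 x0 = φ 2 x0 := by rw [e1, hx0]; ring
  have f01 : φ 0 x1 = φ 2 x1 := by rw [e0, hx1]; ring
  have f11 : φ 1 x1 = φ 2 x1 + 5 * ε * Δ := by rw [e1, hx1, hΔ]; ring
  have d0 : (5 : ℤ) ∣ φ 2 x0 := by
    rw [gh12_apply (φ 2), hx0]
    exact ⟨φ 2 (1, 0) * (ε * b1) + φ 2 (0, 1) * (ε * (-a1)), by ring⟩
  have d1 : (5 : ℤ) ∣ φ 2 x1 := by
    rw [gh12_apply (φ 2), hx1]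
    exact ⟨φ 2 (1, 0) * (ε * (-b0)) + φ 2 (0, 1) * (ε * a0), by ring⟩
  have key : ∀ i j : Fin 3, φ j (![x0, x1, -x0 - x1] i) +
      ![-φ 2 x0, -φ 2 x1, 5 * (ε * Δ) + φ 2 x0 + φ 2 x1] i =
      if i = j then 5 * (ε * Δ) else 0 := by
    intro i j
    fin_cases i <;> fin_cases j <;> simp [f00, f10, f01, f11, map_sub, map_neg] <;> ring
  have s1 : (![x0, x1, -x0 - x1] : Fin 3 → ℤ × ℤ) 0 + (![x0, x1, -x0 - x1] : Fin 3 → ℤ × ℤ) 1 +
      (![x0, x1, -x0 - x1] : Fin 3 → ℤ × ℤ) 2 = 0 := by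
    simp
  refine ⟨5 * (ε * Δ), ![x0, x1, -x0 - x1],
    ![-φ 2 x0, -φ 2 x1, 5 * (ε * Δ) + φ 2 x0 + φ 2 x1], by linarith, ?_, key, s1, ?_, ?_⟩
  · intro i
    fin_cases i
    · exact (dvd_neg.mpr d0)
    · exact (dvd_neg.mpr d1)
    · exact dvd_add (dvd_add (Dvd.intro _ rfl) d0) d1
  · simp
    ring
  · -- the last two properties
    set X : Fin 3 → ℤ × ℤ := ![x0, x1, -x0 - x1] with hX
    set c : Fin 3 → ℤ := ![-φ 2 x0, -φ 2 x1, 5 * (ε * Δ) + φ 2 x0 + φ 2 x1] with hc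
    have main : ∀ y, ∀ j, φ j (φ 0 y • X 0 + φ 1 y • X 1 + φ 2 y • X 2 - (5 * (ε * Δ)) • y) =
        -(φ 0 y * c 0 + φ 1 y * c 1 + φ 2 y * c 2) := by
      intro y j
      have k0 := key 0 j
      have k1 := key 1 j
      have k2 := key 2 j
      have g0 : φ j (X 0) = (if (0 : Fin 3) = j then 5 * (ε * Δ) else 0) - c 0 := by linarith
      have g1 : φ j (X 1) = (if (1 : Fin 3) = j then 5 * (ε * Δ) else 0) - c 1 := by linarith
      have g2 : φ j (X 2) = (if (2 : Fin 3) = j then 5 * (ε * Δ) else 0) - c 2 := by linarith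
      rw [map_sub, map_add, map_add, map_zsmul, map_zsmul, map_zsmul, map_zsmul, g0, g1, g2]
      simp only [smul_eq_mul]
      fin_cases j <;> simp <;> ring
    have zero : ∀ y, φ 0 y • X 0 + φ 1 y • X 1 + φ 2 y • X 2 - (5 * (ε * Δ)) • y = 0 := by
      intro y
      apply h
      intro i j
      rw [main, main]
    refine ⟨fun y => (sub_eq_zero.mp (zero y)).symm, fun y => ?_⟩
    have h1 := main y 0
    rw [zero, map_zero] at h1
    linarith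

end Gar

end Pool.Agent.H88.GH
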