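import Pool.Agent.H88.GH.Defs2
import Pool.Agent.H88.GH.LinAl
import Pool.Agent.H88.GH.IsTEx
import Pool.Agent.H88.GH.Frame
import Pool.Agent.H88.GH.FlatC

/-!
# Project GH (MP_35eb49), row GH-14: a flat for two independent commuting elements
-/

set_option autoImplicit false

namespace Pool.Agent.H88.GH

namespace Gar

variable {G : Type} [Group G] [Gar G]

/-- the homomorphism `(x, c) ↦ a^x b^y δ^c` -/
def gh14_zz (a b : G) (x : ℤ × ℤ) (c : ℤ) : G := kap a b x * δ ^ c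

theorem gh14_central {c : ℤ} (hc : (5 : ℤ) ∣ c) (x : G) : Commute (δ ^ c) x := by
  obtain ⟨k, rfl⟩ := hc
  exact central_zpow k x

omit [Gar G] in
theorem gh14_kap_add {a b : G} (hab : Commute a b) (x y : ℤ × ℤ) :
    kap a b (x + y) = kap a b x * kap a b y := by
  unfold kap
  rw [Prod.fst_add, Prod.snd_add, zpow_add, zpow_add]
  have h : Commute (b ^ x.2) (a ^ y.1) := (hab.symm.zpow_left x.2).zpow_right y.1
  calc a ^ x.1 * a ^ y.1 * (b ^ x.2 * b ^ y.2)
      = a ^ x.1 * (a ^ y.1 * b ^ x.2) * b ^ y.2 := by simp only [mul_assoc]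
    _ = a ^ x.1 * (b ^ x.2 * a ^ y.1) * b ^ y.2 := by rw [h.eq]
    _ = a ^ x.1 * b ^ x.2 * (a ^ y.1 * b ^ y.2) := by simp only [mul_assoc]

omit [Gar G] in
theorem gh14_kap_zero (a b : G) : kap a b 0 = 1 := by
  unfold kap
  simp

theorem gh14_zz_mul {a b : G} (hab : Commute a b) (x y : ℤ × ℤ) {c : ℤ} (c' : ℤ)
    (hc : (5 : ℤ) ∣ c) :
    gh14_zz a b x c * gh14_zz a b y c' = gh14_zz a b (x + y) (c + c') := by
  unfold gh14_zz
  rw [gh14_kap_add hab, zpow_add]
  have h := gh14_central hc (kap a b y)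
  calc kap a b x * δ ^ c * (kap a b y * δ ^ c')
      = kap a b x * (δ ^ c * kap a b y) * δ ^ c' := by simp only [mul_assoc]
    _ = kap a b x * (kap a b y * δ ^ c) * δ ^ c' := by rw [h.eq]
    _ = kap a b x * kap a b y * (δ ^ c * δ ^ c') := by simp only [mul_assoc]

theorem gh14_zz_zero (a b : G) : gh14_zz a b 0 0 = 1 := by
  unfold gh14_zz
  rw [gh14_kap_zero, zpow_zero, mul_one]

theorem gh14_zz_comm {a b : G} (hab : Commute a b) (x y : ℤ × ℤ) {c c' : ℤ}
    (hc : (5 : ℤ) ∣ c) (hc' : (5 : ℤ) ∣ c') : Commute (gh14_zz a b x c) (gh14_zz a b y c') := by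
  change gh14_zz a b x c * gh14_zz a b y c' = gh14_zz a b y c' * gh14_zz a b x c
  rw [gh14_zz_mul hab x y c' hc, gh14_zz_mul hab y x c hc', add_comm x y, add_comm c c']

theorem gh14_zz_pow {a b : G} (hab : Commute a b) (x : ℤ × ℤ) {c : ℤ} (hc : (5 : ℤ) ∣ c)
    (n : ℕ) : gh14_zz a b x c ^ n = gh14_zz a b ((n : ℤ) • x) (n * c) := by
  induction n with
  | zero =>
    rw [pow_zero, Nat.cast_zero, zero_smul, zero_mul, gh14_zz_zero]
  | succ n ih =>
    rw [pow_succ, ih, gh14_zz_mul hab _ _ c (Dvd.dvd.mul_left hc _), Nat.cast_succ, add_smul,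
      one_smul, add_mul, one_mul]

theorem gh14_zz_inv {a b : G} (hab : Commute a b) (x : ℤ × ℤ) {c : ℤ} (hc : (5 : ℤ) ∣ c) :
    (gh14_zz a b x c)⁻¹ = gh14_zz a b (-x) (-c) := by
  rw [inv_eq_iff_mul_eq_one, gh14_zz_mul hab _ _ _ hc, add_neg_cancel, add_neg_cancel,
    gh14_zz_zero]

theorem gh14_zz_zpow {a b : G} (hab : Commute a b) (x : ℤ × ℤ) {c : ℤ} (hc : (5 : ℤ) ∣ c)
    (n : ℤ) : gh14_zz a b x c ^ n = gh14_zz a b (n • x) (n * c) := by
  obtain ⟨m, rfl | rfl⟩ := n.eq_nat_or_neg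
  · rw [zpow_natCast, gh14_zz_pow hab x hc]
  · rw [zpow_neg, zpow_natCast, gh14_zz_pow hab x hc, gh14_zz_inv hab _ (Dvd.dvd.mul_left hc _),
      neg_smul, neg_mul]

omit [Gar G] in
/-- an integral multiple of a period is a period -/
theorem gh14_shift {Y : (Fin 3 → ℤ) → G} {D : ℤ} {w : Fin 3 → ℤ} {Z : G}
    (h : ∀ v, Y (v + D • w) = Z * Y v) (n : ℤ) (v : Fin 3 → ℤ) :
    Y (v + D • (n • w)) = Z ^ n * Y v := by
  have hpos : ∀ (m : ℕ) (v : Fin 3 → ℤ), Y (v + D • ((m : ℤ) • w)) = Z ^ m * Y v := by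
    intro m
    induction m with
    | zero =>
      intro v
      simp
    | succ m ih =>
      intro v
      have h1 : v + D • (((m + 1 : ℕ) : ℤ) • w) = (v + D • ((m : ℤ) • w)) + D • w := by
        rw [Nat.cast_succ, add_smul, one_smul, smul_add, add_assoc]
      rw [h1, h, ih, ← mul_assoc, ← pow_succ']
  obtain ⟨m, rfl | rfl⟩ := n.eq_nat_or_neg
  · rw [zpow_natCast, hpos]
  · have h1 := hpos m (v + D • ((-(m : ℤ)) • w))
    have h2 : v + D • ((-(m : ℤ)) • w) + D • ((m : ℤ) • w) = v := by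
      rw [neg_smul, smul_neg, neg_add_cancel_right]
    rw [h2] at h1
    rw [zpow_neg, zpow_natCast, h1, inv_mul_cancel_left]

theorem exists_flat {g u : G} (hgu : Commute g u)
    (hind : ∀ a b c : ℤ, g ^ a * u ^ b = δ ^ c → a = 0 ∧ b = 0) :
    ∃ (Y : (Fin 3 → ℤ) → G) (D : ℤ) (k : ℕ) (q : Fin 3 → ℤ), IsFlat Y D ∧ 0 < k ∧
      ∀ v, g ^ k * Y v = Y (v + D • q) := by
  have hab : Commute (g ^ 12) (u ^ 12) := (hgu.pow_left 12).pow_right 12
  have hkap : ∀ x : ℤ × ℤ, kap (g ^ 12) (u ^ 12) x = (g ^ x.1 * u ^ x.2) ^ 12 := by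
    intro x
    have hc : Commute (g ^ x.1) (u ^ x.2) := (hgu.zpow_left x.1).zpow_right x.2
    unfold kap
    rw [hc.mul_pow, ← zpow_natCast g, ← zpow_natCast u, ← zpow_natCast (g ^ x.1),
      ← zpow_natCast (u ^ x.2), ← zpow_mul, ← zpow_mul, ← zpow_mul, ← zpow_mul,
      mul_comm x.1, mul_comm x.2]
  choose τ hτ using fun x : ℤ × ℤ => exists_isT (g ^ x.1 * u ^ x.2)
  have hτ' : ∀ x, IsT (kap (g ^ 12) (u ^ 12) x) (τ x) := fun x => by
    rw [hkap]
    exact hτ x
  have hind' : ∀ (x : ℤ × ℤ) (c : ℤ), kap (g ^ 12) (u ^ 12) x = δ ^ c → x = 0 := by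
    intro x c hx
    unfold kap at hx
    rw [← zpow_natCast g, ← zpow_natCast u, ← zpow_mul, ← zpow_mul] at hx
    obtain ⟨h1, h2⟩ := hind _ _ _ hx
    push_cast at h1 h2
    ext
    · change x.1 = 0
      omega
    · change x.2 = 0
      omega
  obtain ⟨φ, I, hB, hsep, hmax, hle⟩ := exists_frame hab hind' τ hτ'
  obtain ⟨D, x, c, hD, hc5, hphi, hx, hc, hlin, hlin0⟩ := exists_lin φ hsep
  generalize ha : g ^ 12 = a at *
  generalize hb : u ^ 12 = b at *
  have hbound : ∀ (y : ℤ × ℤ) (c' : ℤ), (5 : ℤ) ∣ c' → (∀ i, φ i y + c' ≤ D) →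
      ∃ C : ℤ, ∀ n : ℕ, d 1 (gh14_zz a b y c' ^ n) ≤ D * n + C := by
    intro y c' hc' hy
    obtain ⟨C, hC⟩ := hτ' y
    obtain ⟨i, hi⟩ := hmax y
    refine ⟨C, fun n => ?_⟩
    have hcm : Commute (kap a b y) (δ ^ c') := (gh14_central hc' _).symm
    have h1 : gh14_zz a b y c' ^ n = kap a b y ^ n * δ ^ (c' * n) := by
      unfold gh14_zz
      rw [hcm.mul_pow, zpow_mul, zpow_natCast]
    rw [h1, d_mul_zpow]
    have h2 := (hC n).2
    have h3 := hy i
    rw [hi] at h3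
    have h4 : (0 : ℤ) ≤ n := Int.natCast_nonneg n
    have h5 : (τ y + c') * n ≤ D * n := mul_le_mul_of_nonneg_right h3 h4
    nlinarith
  obtain ⟨Y, hY, hYZ⟩ := flat_of_frame hD (fun i => gh14_zz a b (x i) (c i))
    (fun i j => gh14_zz_comm hab _ _ (hc5 i) (hc5 j))
    (by
      rw [gh14_zz_mul hab _ _ _ (hc5 0), gh14_zz_mul hab _ _ _ (dvd_add (hc5 0) (hc5 1)), hx, hc]
      unfold gh14_zz
      rw [gh14_kap_zero, one_mul])
    I (fun i => (hB i).down) (fun i => (hB i).sup) (fun i => (hB i).delta)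
    (by
      intro i z
      have h1 := hphi i i
      rw [if_pos rfl] at h1
      have h2 : gh14_zz a b (x i) (c i) * z * δ ^ (-D) =
          kap a b (x i) * z * δ ^ (-φ i (x i)) := by
        unfold gh14_zz
        have h3 := (gh14_central (hc5 i) z).eq
        calc kap a b (x i) * δ ^ c i * z * δ ^ (-D)
            = kap a b (x i) * (δ ^ c i * z) * δ ^ (-D) := by simp only [mul_assoc]
          _ = kap a b (x i) * (z * δ ^ c i) * δ ^ (-D) := by rw [h3]
          _ = kap a b (x i) * z * (δ ^ c i * δ ^ (-D)) := by simp only [mul_assoc]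
          _ = kap a b (x i) * z * δ ^ (-φ i (x i)) := by
            rw [← zpow_add]
            congr 2
            omega
      change gh14_zz a b (x i) (c i) * z * δ ^ (-D) ∈ I i ↔ z ∈ I i
      rw [h2]
      exact (hB i).shift (x i) z)
    (by
      intro i j hij z
      have h1 := hphi j i
      rw [if_neg (Ne.symm hij)] at h1
      have h2 : gh14_zz a b (x j) (c j) * z = kap a b (x j) * z * δ ^ (-φ i (x j)) := by
        unfold gh14_zz
        have h3 := (gh14_central (hc5 j) z).eq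
        have h4 : -φ i (x j) = c j := by omega
        rw [h4, mul_assoc, h3, mul_assoc]
      change gh14_zz a b (x j) (c j) * z ∈ I i ↔ z ∈ I i
      rw [h2]
      exact (hB i).shift (x j) z)
    (by
      intro i
      apply hbound (x i) (c i) (hc5 i)
      intro j
      rw [hphi i j]
      split_ifs <;> omega)
    (by
      intro i j hij
      have h1 := hbound (x i + x j) (c i + c j) (dvd_add (hc5 i) (hc5 j)) (by
        intro k
        have h2 := hphi i k
        have h3 := hphi j k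
        rw [map_add]
        by_cases hik : i = k
        · have hjk : j ≠ k := fun h => hij (hik.trans h.symm)
          rw [if_pos hik] at h2
          rw [if_neg hjk] at h3
          omega
        · rw [if_neg hik] at h2
          split_ifs at h3 <;> omega)
      change ∃ C : ℤ, ∀ n : ℕ, d 1 ((gh14_zz a b (x i) (c i) * gh14_zz a b (x j) (c j)) ^ n) ≤
        D * n + C
      rw [gh14_zz_mul hab _ _ _ (hc5 i)]
      exact h1)
  have hYZ' : ∀ j v, Y (v + D • e j) = gh14_zz a b (x j) (c j) * Y v := hYZ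
  refine ⟨Y, D, 12 * D.toNat, fun i => φ i (1, 0), hY, by omega, fun v => ?_⟩
  have hq : (fun i => φ i (1, 0)) =
      φ 0 (1, 0) • e 0 + φ 1 (1, 0) • e 1 + φ 2 (1, 0) • e 2 := by
    funext i
    fin_cases i <;> simp [e]
  have hv : v + D • (fun i => φ i (1, 0)) =
      ((v + D • (φ 2 (1, 0) • e 2)) + D • (φ 1 (1, 0) • e 1)) + D • (φ 0 (1, 0) • e 0) := by
    rw [hq, smul_add, smul_add]
    abel
  rw [hv, gh14_shift (hYZ' 0), gh14_shift (hYZ' 1), gh14_shift (hYZ' 2),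
    gh14_zz_zpow hab _ (hc5 0), gh14_zz_zpow hab _ (hc5 1), gh14_zz_zpow hab _ (hc5 2),
    ← mul_assoc, ← mul_assoc, gh14_zz_mul hab _ _ _ (Dvd.dvd.mul_left (hc5 0) _),
    gh14_zz_mul hab _ _ _ (dvd_add (Dvd.dvd.mul_left (hc5 0) _) (Dvd.dvd.mul_left (hc5 1) _)),
    hlin0, ← hlin]
  congr 1
  unfold gh14_zz kap
  have h1 : (D • ((1 : ℤ), (0 : ℤ))).1 = D := by simp
  have h2 : (D • ((1 : ℤ), (0 : ℤ))).2 = 0 := by simp
  rw [h1, h2, zpow_zero, zpow_zero, mul_one, mul_one, ← ha, pow_mul, ← zpow_natCast (g ^ 12),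
    Int.toNat_of_nonneg hD.le]

end Gar

end Pool.Agent.H88.GH
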