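import Pool.Agent.H88.GH.Defs4

/-! # Project GH (MP_35eb49), row GH-19: the presentation -/

set_option autoImplicit false

namespace Pool.Agent.H88.GH

namespace H3

theorem gh19_m01 : CoxeterMatrix.H₃ 0 1 = 3 := rfl
theorem gh19_m02 : CoxeterMatrix.H₃ 0 2 = 2 := rfl
theorem gh19_m12 : CoxeterMatrix.H₃ 1 2 = 5 := rfl
theorem gh19_m10 : CoxeterMatrix.H₃ 1 0 = 3 := rfl
theorem gh19_m20 : CoxeterMatrix.H₃ 2 0 = 2 := rfl
theorem gh19_m21 : CoxeterMatrix.H₃ 2 1 = 5 := rfl
theorem gh19_m00 : CoxeterMatrix.H₃ 0 0 = 1 := rfl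
theorem gh19_m11 : CoxeterMatrix.H₃ 1 1 = 1 := rfl
theorem gh19_m22 : CoxeterMatrix.H₃ 2 2 = 1 := rfl

theorem gh19_rel (p : Fin 3 × Fin 3) :
    (((CoxeterSystem.alternatingWord p.1 p.2 (CoxeterMatrix.H₃ p.1 p.2)).map s).prod : A) =
      ((CoxeterSystem.alternatingWord p.2 p.1 (CoxeterMatrix.H₃ p.1 p.2)).map s).prod := by
  have h : PresentedGroup.mk RH
      (((CoxeterSystem.alternatingWord p.1 p.2 (CoxeterMatrix.H₃ p.1 p.2)).map
        FreeGroup.of).prod *
      (((CoxeterSystem.alternatingWord p.2 p.1 (CoxeterMatrix.H₃ p.1 p.2)).map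
        FreeGroup.of).prod)⁻¹) = 1 := PresentedGroup.one_of_mem ⟨p, rfl⟩
  rw [map_mul, map_inv, mul_inv_eq_one, map_list_prod, map_list_prod, List.map_map,
    List.map_map] at h
  exact h

theorem rel01 : s 0 * s 1 * s 0 = s 1 * s 0 * s 1 := by
  have h := gh19_rel (0, 1)
  simp only [gh19_m01, CoxeterSystem.alternatingWord, List.concat_eq_append, List.nil_append,
    List.cons_append, List.map_cons, List.map_nil, List.prod_cons, List.prod_nil, mul_one] at h
  rw [mul_assoc, mul_assoc]
  exact h.symm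

theorem rel02 : s 0 * s 2 = s 2 * s 0 := by
  have h := gh19_rel (0, 2)
  simp only [gh19_m02, CoxeterSystem.alternatingWord, List.concat_eq_append, List.nil_append,
    List.cons_append, List.map_cons, List.map_nil, List.prod_cons, List.prod_nil, mul_one] at h
  exact h

theorem rel12 : s 1 * s 2 * s 1 * s 2 * s 1 = s 2 * s 1 * s 2 * s 1 * s 2 := by
  have h := gh19_rel (1, 2)
  simp only [gh19_m12, CoxeterSystem.alternatingWord, List.concat_eq_append, List.nil_append,
    List.cons_append, List.map_cons, List.map_nil, List.prod_cons, List.prod_nil, mul_one] at h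
  simp only [mul_assoc]
  exact h.symm

theorem exists_hom {H : Type} [Group H] (f : Fin 3 → H) (h01 : f 0 * f 1 * f 0 = f 1 * f 0 * f 1)
    (h02 : f 0 * f 2 = f 2 * f 0)
    (h12 : f 1 * f 2 * f 1 * f 2 * f 1 = f 2 * f 1 * f 2 * f 1 * f 2) :
    ∃ φ : A →* H, ∀ i, φ (s i) = f i := by
  simp only [mul_assoc] at h01 h12
  have h : ∀ r ∈ RH, FreeGroup.lift f r = 1 := by
    rintro _ ⟨p, rfl⟩
    simp only [map_mul, map_inv, mul_inv_eq_one, map_list_prod, List.map_map]
    have e : (⇑(FreeGroup.lift f) ∘ FreeGroup.of) = f := by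
      funext i
      simp
    rw [e]
    obtain ⟨i, j⟩ := p
    fin_cases i <;> fin_cases j <;>
      simp only [Fin.zero_eta, Fin.mk_one, Fin.reduceFinMk, gh19_m00, gh19_m01, gh19_m02,
        gh19_m10, gh19_m11, gh19_m12, gh19_m20, gh19_m21, gh19_m22,
        CoxeterSystem.alternatingWord, List.concat_eq_append, List.nil_append,
        List.cons_append, List.map_cons, List.map_nil, List.prod_cons, List.prod_nil, mul_one]
    · exact h01.symm
    · exact h02
    · exact h01
    · exact h12.symm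
    · exact h02.symm
    · exact h12
  exact ⟨PresentedGroup.toGroup h, fun i => PresentedGroup.toGroup.of h⟩

end H3

end Pool.Agent.H88.GH
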