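import Pool.Agent.H88.GH.TabS
import Pool.Agent.H88.GH.Rel

/-!
# Project GH (MP_35eb49), row GH-21: the action on bi-infinite normal words
-/

set_option autoImplicit false

namespace Pool.Agent.H88.GH

namespace H3

/-! ### The table facts -/

theorem gh21_ckD {s t : ℕ} (hs : s < 32) (ht : t < 32) :
    N1 s t < 32 ∧ N2 s t < 32 ∧ M (tauS s) (tauS t) =
      (if M s t = 32 then 32 else tauS (M s t)) := by
  have h := allB_spec (allB_spec ckD_true hs) ht
  simp only [Bool.and_eq_true, Nat.beq_eq, Nat.blt_eq] at h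
  refine ⟨h.1.1.1.1.1, h.1.1.1.1.2, ?_⟩
  rw [h.2]
  by_cases h1 : M s t = 32
  · simp [h1]
  · have h2 : Nat.beq (M s t) 32 = false := by
      rw [← Bool.not_eq_true, Nat.beq_eq]
      exact h1
    rw [h2, if_neg h1]
    rfl

theorem gh21_ckC {s : ℕ} (hs : s < 32) :
    N1 31 s = 31 ∧ N2 31 s = s ∧ N1 s 31 = 31 ∧ N2 s 31 = tauS s ∧ N1 s 0 = s ∧ N2 s 0 = 0 ∧
      N1 0 s = s ∧ N2 0 s = 0 ∧ M 0 s = s ∧ M s 0 = s ∧ tauS s < 32 := by
  have h := allB_spec ckC_true hs
  simp only [Bool.and_eq_true, Nat.beq_eq, Nat.blt_eq] at h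
  obtain ⟨⟨⟨⟨⟨⟨⟨⟨⟨⟨h1, h2⟩, h3⟩, h4⟩, h5⟩, h6⟩, h7⟩, h8⟩, h9⟩, h10⟩, h11⟩ := h
  exact ⟨h1, h2, h3, h4, h5, h6, h7, h8, h9, h10, h11⟩

theorem gh21_ckB {u v : ℕ} (hu : u < 32) (hv : v < 32) (h1 : N1 u v = u) :
    N2 u v = v ∧ ∀ s < 32, N1 (N1 s u) (N1 (N2 s u) v) = N1 s u := by
  have h := allB_spec (allB_spec ckB_true hu) hv
  have h2 : Nat.beq (N1 u v) u = true := by
    rw [Nat.beq_eq]
    exact h1
  rw [h2, Bool.not_true, Bool.false_or, Bool.and_eq_true, Nat.beq_eq] at h
  refine ⟨h.1, fun s hs => ?_⟩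
  have h3 := allB_spec h.2 hs
  rwa [Nat.beq_eq] at h3

theorem gh21_ckA {s t : ℕ} (hs : s < 32) (ht : t < 32) (h1 : M s t ≠ 32) :
    M s t < 32 ∧ ∀ u < 32, N1 (M s t) u = N1 s (N1 t u) ∧
      N2 (M s t) u = M (N2 s (N1 t u)) (N2 t u) := by
  have h := allB_spec (allB_spec ckA_true hs) ht
  have h2 : Nat.beq (M s t) 32 = false := by
    rw [← Bool.not_eq_true, Nat.beq_eq]
    exact h1
  rw [h2, Bool.false_or, Bool.and_eq_true, Nat.blt_eq] at h
  refine ⟨h.1, fun u hu => ?_⟩
  have h3 := allB_spec h.2 hu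
  rw [Bool.and_eq_true, Nat.beq_eq, Nat.beq_eq] at h3
  exact h3

theorem gh21_tau_lt {s : ℕ} (hs : s < 32) (j : ℕ) : tauS^[j] s < 32 := by
  induction j with
  | zero => exact hs
  | succ j ih =>
    rw [Function.iterate_succ_apply']
    exact (gh21_ckC ih).2.2.2.2.2.2.2.2.2.2

def gh21_ck5 : Bool := allB 32 fun s => Nat.beq (tauS (tauS (tauS (tauS (tauS s))))) s

theorem gh21_ck5_true : gh21_ck5 = true := by decide +kernel

theorem gh21_tau5 {s : ℕ} (hs : s < 32) : tauS^[5] s = s := by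
  have h := allB_spec gh21_ck5_true hs
  rwa [Nat.beq_eq] at h

theorem gh21_mod (i : ℤ) : ((i + 1) % 5).toNat = ((i % 5).toNat + 1) % 5 := by omega

theorem gh21_tau_mod {s : ℕ} (hs : s < 32) (i : ℤ) :
    tauS^[((i + 1) % 5).toNat] s = tauS (tauS^[(i % 5).toNat] s) := by
  rw [← Function.iterate_succ_apply' tauS, gh21_mod]
  have h : (i % 5).toNat < 5 := by omega
  by_cases h1 : (i % 5).toNat = 4
  · rw [h1]
    exact (gh21_tau5 hs).symm
  · rw [Nat.mod_eq_of_lt (by omega)]

/-! ### Carries -/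

/-- Bi-infinite normal words, equal to `δ` far on the left. -/
def Str : Type := {f : ℤ → ℕ // (∀ i, f i < 32) ∧ (∀ i, N1 (f i) (f (i + 1)) = f i) ∧
  ∃ k : ℤ, ∀ i ≤ k, f i = 31}

/-- `c` is the sequence of carries when the simple element `s` is multiplied on the left of `f`. -/
structure Carry (s : ℕ) (f c : ℤ → ℕ) : Prop where
  step : ∀ i, c (i + 1) = N2 (c i) (f i)
  init : ∃ k : ℤ, ∀ i ≤ k, c i = tauS^[(i % 5).toNat] s

theorem exists_carry {s : ℕ} (hs : s < 32) (f : Str) : ∃ c, Carry s f.1 c := by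
  obtain ⟨f, hf, -, k, hk⟩ := f
  let g : ℕ → ℕ := fun n => Nat.rec (tauS^[(k % 5).toNat] s) (fun m x => N2 x (f (k + m))) n
  refine ⟨fun i => if i ≤ k then tauS^[(i % 5).toNat] s else g (i - k).toNat, ?_, k, ?_⟩
  · intro i
    rcases lt_trichotomy i k with h | h | h
    · have h1 : i + 1 ≤ k := h
      simp only [if_pos h1, if_pos h.le]
      rw [hk i h.le, gh21_tau_mod hs, (gh21_ckC (gh21_tau_lt hs _)).2.2.2.1]
    · subst h
      have h1 : ¬ (i + 1 ≤ i) := by omega
      have h2 : (i + 1 - i).toNat = 1 := by omega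
      simp only [if_neg h1, if_pos le_rfl, h2]
      show N2 (tauS^[(i % 5).toNat] s) (f (i + (0 : ℕ))) = _
      simp
    · have h1 : ¬ (i + 1 ≤ k) := by omega
      have h2 : (i + 1 - k).toNat = (i - k).toNat + 1 := by omega
      simp only [if_neg h1, if_neg (not_le.mpr h), h2]
      show N2 (g (i - k).toNat) (f (k + ((i - k).toNat : ℕ))) = _
      have h3 : k + (((i - k).toNat : ℕ) : ℤ) = i := by omega
      rw [h3]
  · intro i hi
    simp only [if_pos hi]

/-- Upward induction from minus infinity. -/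
theorem gh21_ind {p : ℤ → Prop} (h0 : ∃ k : ℤ, ∀ i ≤ k, p i) (h1 : ∀ i, p i → p (i + 1))
    (i : ℤ) : p i := by
  obtain ⟨k, hk⟩ := h0
  rcases le_or_gt i k with h | h
  · exact hk i h
  · have h2 : ∀ n : ℕ, p (k + n) := by
      intro n
      induction n with
      | zero => simpa using hk k le_rfl
      | succ n ih =>
        have := h1 _ ih
        push_cast
        rwa [add_assoc] at this
    have h3 := h2 (i - k).toNat
    have h4 : k + (((i - k).toNat : ℕ) : ℤ) = i := by omega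
    rwa [h4] at h3

theorem gh21_lt {s : ℕ} (hs : s < 32) {f c : ℤ → ℕ} (hf : ∀ i, f i < 32) (hc : Carry s f c)
    (i : ℤ) : c i < 32 := by
  refine gh21_ind (p := fun i => c i < 32) ?_ ?_ i
  · obtain ⟨k, hk⟩ := hc.init
    exact ⟨k, fun i hi => by
      show c i < 32
      rw [hk i hi]
      exact gh21_tau_lt hs _⟩
  · intro i h
    show c (i + 1) < 32
    rw [hc.step]
    exact (gh21_ckD h (hf i)).2.1

theorem gh21_unique {s : ℕ} {f c d : ℤ → ℕ} (hc : Carry s f c) (hd : Carry s f d) (i : ℤ) :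
    c i = d i := by
  refine gh21_ind (p := fun i => c i = d i) ?_ ?_ i
  · obtain ⟨k, hk⟩ := hc.init
    obtain ⟨l, hl⟩ := hd.init
    exact ⟨min k l, fun i hi => by
      show c i = d i
      rw [hk i (hi.trans (min_le_left _ _)), hl i (hi.trans (min_le_right _ _))]⟩
  · intro i h
    show c (i + 1) = d (i + 1)
    have h' : c i = d i := h
    rw [hc.step, hd.step, h']

/-- The carry. -/
noncomputable def gh21_c (n : Fin 32) (f : Str) : ℤ → ℕ := (exists_carry n.2 f).choose

theorem gh21_c_spec (n : Fin 32) (f : Str) : Carry n f.1 (gh21_c n f) :=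
  (exists_carry n.2 f).choose_spec

theorem gh21_c_lt (n : Fin 32) (f : Str) (i : ℤ) : gh21_c n f i < 32 :=
  gh21_lt n.2 f.2.1 (gh21_c_spec n f) i

/-- The action of a simple element. -/
noncomputable def gh21_act (n : Fin 32) (f : Str) : Str :=
  ⟨fun i => N1 (gh21_c n f i) (f.1 i), fun i => (gh21_ckD (gh21_c_lt n f i) (f.2.1 i)).1,
    fun i => by
      show N1 (N1 (gh21_c n f i) (f.1 i)) (N1 (gh21_c n f (i + 1)) (f.1 (i + 1))) =
        N1 (gh21_c n f i) (f.1 i)
      rw [(gh21_c_spec n f).step i]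
      exact (gh21_ckB (f.2.1 i) (f.2.1 (i + 1)) (f.2.2.1 i)).2 _ (gh21_c_lt n f i),
    by
      obtain ⟨k, hk⟩ := f.2.2.2
      exact ⟨k, fun i hi => by
        show N1 (gh21_c n f i) (f.1 i) = 31
        rw [hk i hi]
        exact (gh21_ckC (gh21_c_lt n f i)).2.2.1⟩⟩

theorem gh21_act_apply (n : Fin 32) (f : Str) (c : ℤ → ℕ) (hc : Carry n f.1 c) (i : ℤ) :
    (gh21_act n f).1 i = N1 (c i) (f.1 i) := by
  show N1 (gh21_c n f i) (f.1 i) = _
  rw [gh21_unique (gh21_c_spec n f) hc]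

theorem gh21_tau_M {s t m : ℕ} (hs : s < 32) (ht : t < 32) (hm : m < 32) (h : M s t = m)
    (j : ℕ) : M (tauS^[j] s) (tauS^[j] t) = tauS^[j] m := by
  induction j with
  | zero => exact h
  | succ j ih =>
    rw [Function.iterate_succ_apply', Function.iterate_succ_apply',
      Function.iterate_succ_apply', (gh21_ckD (gh21_tau_lt hs j) (gh21_tau_lt ht j)).2.2, ih,
      if_neg]
    have := gh21_tau_lt hm j
    omega

/-- The product of simple elements is compatible with the action. -/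
theorem gh21_mul (s t m : Fin 32) (h : M s t = m) (f : Str) :
    gh21_act m f = gh21_act s (gh21_act t f) := by
  have key : ∀ i, M (gh21_c s (gh21_act t f) i) (gh21_c t f i) < 32 := by
    refine gh21_ind (p := fun i => M (gh21_c s (gh21_act t f) i) (gh21_c t f i) < 32) ?_ ?_
    · obtain ⟨k, hk⟩ := (gh21_c_spec s (gh21_act t f)).init
      obtain ⟨l, hl⟩ := (gh21_c_spec t f).init
      refine ⟨min k l, fun i hi => ?_⟩
      show M (gh21_c s (gh21_act t f) i) (gh21_c t f i) < 32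
      rw [hk i (hi.trans (min_le_left _ _)), hl i (hi.trans (min_le_right _ _)),
        gh21_tau_M s.2 t.2 m.2 h]
      exact gh21_tau_lt m.2 _
    · intro i hi
      have hi' : M (gh21_c s (gh21_act t f) i) (gh21_c t f i) < 32 := hi
      have h1 := (gh21_ckA (gh21_c_lt s (gh21_act t f) i) (gh21_c_lt t f i) (by omega)).2
        (f.1 i) (f.2.1 i)
      show M (gh21_c s (gh21_act t f) (i + 1)) (gh21_c t f (i + 1)) < 32
      rw [(gh21_c_spec s (gh21_act t f)).step, (gh21_c_spec t f).step]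
      have h2 : (gh21_act t f).1 i = N1 (gh21_c t f i) (f.1 i) := rfl
      rw [h2, ← h1.2]
      exact (gh21_ckD hi (f.2.1 i)).2.1
  have hc : Carry m f.1 (fun i => M (gh21_c s (gh21_act t f) i) (gh21_c t f i)) := by
    refine ⟨fun i => ?_, ?_⟩
    · have hi := key i
      have h1 := (gh21_ckA (gh21_c_lt s (gh21_act t f) i) (gh21_c_lt t f i) (by omega)).2
        (f.1 i) (f.2.1 i)
      have h2 : (gh21_act t f).1 i = N1 (gh21_c t f i) (f.1 i) := rfl
      show M (gh21_c s (gh21_act t f) (i + 1)) (gh21_c t f (i + 1)) =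
        N2 (M (gh21_c s (gh21_act t f) i) (gh21_c t f i)) (f.1 i)
      rw [(gh21_c_spec s (gh21_act t f)).step, (gh21_c_spec t f).step, h2, ← h1.2]
    · obtain ⟨k, hk⟩ := (gh21_c_spec s (gh21_act t f)).init
      obtain ⟨l, hl⟩ := (gh21_c_spec t f).init
      refine ⟨min k l, fun i hi => ?_⟩
      show M (gh21_c s (gh21_act t f) i) (gh21_c t f i) = _
      rw [hk i (hi.trans (min_le_left _ _)), hl i (hi.trans (min_le_right _ _)),
        gh21_tau_M s.2 t.2 m.2 h]
  apply Subtype.ext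
  funext i
  rw [gh21_act_apply m f _ hc i]
  have hi := key i
  exact ((gh21_ckA (gh21_c_lt s (gh21_act t f) i) (gh21_c_lt t f i) (by omega)).2
    (f.1 i) (f.2.1 i)).1

/-- The one acts trivially. -/
theorem gh21_zero (f : Str) : gh21_act 0 f = f := by
  have hc : Carry (0 : Fin 32) f.1 (fun _ => 0) := by
    refine ⟨fun i => ((gh21_ckC (f.2.1 i)).2.2.2.2.2.2.2.1).symm, 0, fun i _ => ?_⟩
    have : ∀ j : ℕ, tauS^[j] 0 = 0 := by
      intro j
      induction j with
      | zero => rfl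
      | succ j ih => rw [Function.iterate_succ_apply', ih]; rfl
    exact (this _).symm
  apply Subtype.ext
  funext i
  rw [gh21_act_apply 0 f _ hc i]
  exact (gh21_ckC (f.2.1 i)).2.2.2.2.2.2.1

/-- `δ` acts as the shift. -/
theorem gh21_top (f : Str) (i : ℤ) : (gh21_act 31 f).1 i = f.1 (i - 1) := by
  have hc : Carry (31 : Fin 32) f.1 (fun i => f.1 (i - 1)) := by
    refine ⟨fun i => ?_, ?_⟩
    · show f.1 (i + 1 - 1) = N2 (f.1 (i - 1)) (f.1 i)
      have h := f.2.2.1 (i - 1)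
      rw [sub_add_cancel] at h
      rw [add_sub_cancel_right]
      exact ((gh21_ckB (f.2.1 (i - 1)) (f.2.1 i) h).1).symm
    · obtain ⟨k, hk⟩ := f.2.2.2
      refine ⟨k, fun i hi => ?_⟩
      have : ∀ j : ℕ, tauS^[j] 31 = 31 := by
        intro j
        induction j with
        | zero => rfl
        | succ j ih => rw [Function.iterate_succ_apply', ih]; rfl
      show f.1 (i - 1) = _
      rw [hk (i - 1) (by omega)]
      exact (this _).symm
  rw [gh21_act_apply 31 f _ hc i]
  have h := f.2.2.1 (i - 1)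
  rwa [sub_add_cancel] at h

theorem gh21_top_bij : Function.Bijective (gh21_act 31) := by
  constructor
  · intro f g h
    apply Subtype.ext
    funext i
    have h1 := congrArg (fun x : Str => x.1 (i + 1)) h
    simpa only [gh21_top, add_sub_cancel_right] using h1
  · intro f
    refine ⟨⟨fun i => f.1 (i + 1), fun i => f.2.1 _, fun i => f.2.2.1 _, ?_⟩, ?_⟩
    · obtain ⟨k, hk⟩ := f.2.2.2
      exact ⟨k - 1, fun i hi => hk _ (by omega)⟩
    · apply Subtype.ext
      funext i
      rw [gh21_top]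
      simp only [sub_add_cancel]

def gh21_ckE : Bool := allB 32 fun s =>
  (!(allB 32 fun t => !(Nat.beq (M s t) 31 && Nat.beq (M t (tauS s)) 31)))

theorem gh21_ckE_true : gh21_ckE = true := by decide +kernel

theorem gh21_allB_not {n : ℕ} {p : ℕ → Bool} (h : (!(allB n fun k => !(p k))) = true) :
    ∃ k < n, p k = true := by
  by_contra hc
  push Not at hc
  have : allB n (fun k => !(p k)) = true := by
    have : ∀ m ≤ n, allB m (fun k => !(p k)) = true := by
      intro m
      induction m with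
      | zero => intro _; rfl
      | succ m ih =>
        intro hm
        show ((!(p m)) && allB m (fun k => !(p k))) = true
        rw [ih (by omega), Bool.and_true, Bool.not_eq_true']
        exact Bool.eq_false_iff.mpr (hc m (by omega))
    exact this n le_rfl
  rw [this] at h
  exact Bool.noConfusion h

theorem gh21_compl (s : Fin 32) : ∃ t : Fin 32, M s t = (31 : Fin 32) ∧
    M t (tauS s) = (31 : Fin 32) := by
  obtain ⟨t, ht, h⟩ := gh21_allB_not (allB_spec gh21_ckE_true s.2)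
  rw [Bool.and_eq_true, Nat.beq_eq, Nat.beq_eq] at h
  exact ⟨⟨t, ht⟩, h.1, h.2⟩

/-- Conjugation by `δ` on the simple elements. -/
def gh21_tau (s : Fin 32) : Fin 32 := ⟨tauS s, (gh21_ckC s.2).2.2.2.2.2.2.2.2.2.2⟩

theorem gh21_comm (s : Fin 32) (f : Str) :
    gh21_act s (gh21_act 31 f) = gh21_act 31 (gh21_act (gh21_tau s) f) := by
  obtain ⟨t, h1, h2⟩ := gh21_compl s
  rw [gh21_mul t (gh21_tau s) 31 h2 f, gh21_mul s t 31 h1]

def gh21_ckF : Bool := allB 32 fun s => (!(allB 32 fun t => !(Nat.beq (M t s) 31)))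

theorem gh21_ckF_true : gh21_ckF = true := by decide +kernel

theorem gh21_bij (s : Fin 32) : Function.Bijective (gh21_act s) := by
  constructor
  · obtain ⟨t, ht, h⟩ := gh21_allB_not (allB_spec gh21_ckF_true s.2)
    rw [Nat.beq_eq] at h
    intro f g hfg
    apply gh21_top_bij.1
    rw [gh21_mul ⟨t, ht⟩ s 31 h f, gh21_mul ⟨t, ht⟩ s 31 h g, hfg]
  · obtain ⟨t, h1, -⟩ := gh21_compl s
    intro f
    obtain ⟨g, hg⟩ := gh21_top_bij.2 f
    exact ⟨gh21_act t g, by rw [← gh21_mul s t 31 h1, hg]⟩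

/-- The permutation of a simple element. -/
noncomputable def gh21_p (s : Fin 32) : Equiv.Perm Str := Equiv.ofBijective _ (gh21_bij s)

theorem gh21_p_mul (s t m : Fin 32) (h : M s t = m) : gh21_p s * gh21_p t = gh21_p m := by
  ext f : 1
  exact (gh21_mul s t m h f).symm

theorem gh21_p_comm (s : Fin 32) : gh21_p s * gh21_p 31 = gh21_p 31 * gh21_p (gh21_tau s) := by
  ext f : 1
  exact gh21_comm s f

theorem gh21_p_conj (m : ℕ) (s : Fin 32) :
    (gh21_p 31) ^ (-(m : ℤ)) * gh21_p s * (gh21_p 31) ^ (m : ℤ) = gh21_p (gh21_tau^[m] s) := by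
  induction m with
  | zero => simp
  | succ m ih =>
    rw [Function.iterate_succ_apply']
    have h : (gh21_p 31)⁻¹ * gh21_p (gh21_tau^[m] s) * gh21_p 31 =
        gh21_p (gh21_tau (gh21_tau^[m] s)) := by
      rw [mul_assoc, gh21_p_comm, ← mul_assoc, inv_mul_cancel, one_mul]
    rw [← h, ← ih]
    have e1 : (gh21_p 31) ^ (-((m + 1 : ℕ) : ℤ)) = (gh21_p 31)⁻¹ * (gh21_p 31) ^ (-(m : ℤ)) := by
      rw [← zpow_neg_one, ← zpow_add]
      congr 1
      push_cast
      ring
    have e2 : (gh21_p 31) ^ ((m + 1 : ℕ) : ℤ) = (gh21_p 31) ^ (m : ℤ) * gh21_p 31 := by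
      rw [← zpow_add_one]
      congr 1
    rw [e1, e2]
    simp only [mul_assoc]

theorem gh21_p0 : gh21_p 0 = 1 := by
  ext f : 1
  exact gh21_zero f

/-- The five factorisations of `s 2 * s 1`, abstractly. -/
theorem gh21_braid5 {H : Type} [Group H] {w x0 x1 x2 x3 x4 : H} (h0 : x0 * x1 = w)
    (h1 : x1 * x2 = w) (h2 : x2 * x3 = w) (h3 : x3 * x4 = w) (h4 : x4 * x0 = w) :
    x1 * x0 * x1 * x0 * x1 = x0 * x1 * x0 * x1 * x0 := by
  have a1 : x1 * w = w * x3 := by rw [← h2, ← mul_assoc, h1, h2]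
  have a3 : x3 * w = w * x0 := by rw [← h4, ← mul_assoc, h3, h4]
  calc x1 * x0 * x1 * x0 * x1 = x1 * (x0 * x1) * (x0 * x1) := by simp only [mul_assoc]
    _ = w * x3 * w := by rw [h0, a1]
    _ = w * (w * x0) := by rw [mul_assoc, a3]
    _ = x0 * x1 * x0 * x1 * x0 := by rw [← h0]; simp only [mul_assoc]

/-- (uses GH-19 exists_hom, tables TabS) -/
theorem exists_action : ∃ ρ : A →* Equiv.Perm Str, ∀ n < 32, ∀ (f : Str) (c : ℤ → ℕ),
    Carry n f.1 c → ∀ i, (ρ (val n) f).1 i = N1 (c i) (f.1 i) := by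
  have r01 : gh21_p 1 * gh21_p 6 * gh21_p 1 = gh21_p 6 * gh21_p 1 * gh21_p 6 := by
    have a1 : gh21_p 1 * gh21_p 6 = gh21_p 21 := gh21_p_mul 1 6 21 (by decide +kernel)
    have a2 : gh21_p 6 * gh21_p 2 = gh21_p 21 := gh21_p_mul 6 2 21 (by decide +kernel)
    have a3 : gh21_p 2 * gh21_p 1 = gh21_p 21 := gh21_p_mul 2 1 21 (by decide +kernel)
    rw [a1, ← a2, mul_assoc, a3, ← a1, mul_assoc]
  have r02 : gh21_p 1 * gh21_p 11 = gh21_p 11 * gh21_p 1 := by
    rw [gh21_p_mul 1 11 16 (by decide +kernel), gh21_p_mul 11 1 16 (by decide +kernel)]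
  have r12 : gh21_p 6 * gh21_p 11 * gh21_p 6 * gh21_p 11 * gh21_p 6 =
      gh21_p 11 * gh21_p 6 * gh21_p 11 * gh21_p 6 * gh21_p 11 :=
    gh21_braid5 (w := gh21_p 26) (x2 := gh21_p 12) (x3 := gh21_p 3) (x4 := gh21_p 5)
      (gh21_p_mul 11 6 26 (by decide +kernel)) (gh21_p_mul 6 12 26 (by decide +kernel))
      (gh21_p_mul 12 3 26 (by decide +kernel)) (gh21_p_mul 3 5 26 (by decide +kernel))
      (gh21_p_mul 5 11 26 (by decide +kernel))
  obtain ⟨ρ, hρ⟩ := exists_hom ![gh21_p 1, gh21_p 6, gh21_p 11] r01 r02 r12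
  have e0 : ρ (s 0) = gh21_p 1 := hρ 0
  have e1 : ρ (s 1) = gh21_p 6 := hρ 1
  have e2 : ρ (s 2) = gh21_p 11 := hρ 2
  have ed : ρ dl = gh21_p 31 := by
    rw [dl, map_mul, map_mul, e0, e1, e2, gh21_p_mul 1 11 16 (by decide +kernel),
      gh21_p_mul 16 6 31 (by decide +kernel)]
  have erot : ∀ (m : ℕ) (x : A), ρ (rot m x) =
      (gh21_p 31) ^ (-(m : ℤ)) * ρ x * (gh21_p 31) ^ (m : ℤ) := by
    intro m x
    rw [rot, map_mul, map_mul, map_zpow, map_zpow, ed]
  have e02 : ρ (s 0 * s 2) = gh21_p 16 := by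
    rw [map_mul, e0, e2, gh21_p_mul 1 11 16 (by decide +kernel)]
  have e01 : ρ (s 0 * s 1) = gh21_p 21 := by
    rw [map_mul, e0, e1, gh21_p_mul 1 6 21 (by decide +kernel)]
  have e21 : ρ (s 2 * s 1) = gh21_p 26 := by
    rw [map_mul, e2, e1, gh21_p_mul 11 6 26 (by decide +kernel)]
  have L : ∀ (m : ℕ) (k : Fin 32) (x : A), ρ x = gh21_p k →
      ρ (rot m x) = gh21_p (gh21_tau^[m] k) := by
    intro m k x h
    rw [erot, h, gh21_p_conj]
  have key : ∀ n : Fin 32, ρ (val n) = gh21_p n := by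
    intro n
    fin_cases n
    · exact (map_one ρ).trans gh21_p0.symm
    · exact (L 0 1 (s 0) e0).trans (congrArg gh21_p (by decide +kernel))
    · exact (L 1 1 (s 0) e0).trans (congrArg gh21_p (by decide +kernel))
    · exact (L 2 1 (s 0) e0).trans (congrArg gh21_p (by decide +kernel))
    · exact (L 3 1 (s 0) e0).trans (congrArg gh21_p (by decide +kernel))
    · exact (L 4 1 (s 0) e0).trans (congrArg gh21_p (by decide +kernel))
    · exact (L 0 6 (s 1) e1).trans (congrArg gh21_p (by decide +kernel))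
    · exact (L 1 6 (s 1) e1).trans (congrArg gh21_p (by decide +kernel))
    · exact (L 2 6 (s 1) e1).trans (congrArg gh21_p (by decide +kernel))
    · exact (L 3 6 (s 1) e1).trans (congrArg gh21_p (by decide +kernel))
    · exact (L 4 6 (s 1) e1).trans (congrArg gh21_p (by decide +kernel))
    · exact (L 0 11 (s 2) e2).trans (congrArg gh21_p (by decide +kernel))
    · exact (L 1 11 (s 2) e2).trans (congrArg gh21_p (by decide +kernel))
    · exact (L 2 11 (s 2) e2).trans (congrArg gh21_p (by decide +kernel))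
    · exact (L 3 11 (s 2) e2).trans (congrArg gh21_p (by decide +kernel))
    · exact (L 4 11 (s 2) e2).trans (congrArg gh21_p (by decide +kernel))
    · exact (L 0 16 (s 0 * s 2) e02).trans (congrArg gh21_p (by decide +kernel))
    · exact (L 1 16 (s 0 * s 2) e02).trans (congrArg gh21_p (by decide +kernel))
    · exact (L 2 16 (s 0 * s 2) e02).trans (congrArg gh21_p (by decide +kernel))
    · exact (L 3 16 (s 0 * s 2) e02).trans (congrArg gh21_p (by decide +kernel))
    · exact (L 4 16 (s 0 * s 2) e02).trans (congrArg gh21_p (by decide +kernel))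
    · exact (L 0 21 (s 0 * s 1) e01).trans (congrArg gh21_p (by decide +kernel))
    · exact (L 1 21 (s 0 * s 1) e01).trans (congrArg gh21_p (by decide +kernel))
    · exact (L 2 21 (s 0 * s 1) e01).trans (congrArg gh21_p (by decide +kernel))
    · exact (L 3 21 (s 0 * s 1) e01).trans (congrArg gh21_p (by decide +kernel))
    · exact (L 4 21 (s 0 * s 1) e01).trans (congrArg gh21_p (by decide +kernel))
    · exact (L 0 26 (s 2 * s 1) e21).trans (congrArg gh21_p (by decide +kernel))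
    · exact (L 1 26 (s 2 * s 1) e21).trans (congrArg gh21_p (by decide +kernel))
    · exact (L 2 26 (s 2 * s 1) e21).trans (congrArg gh21_p (by decide +kernel))
    · exact (L 3 26 (s 2 * s 1) e21).trans (congrArg gh21_p (by decide +kernel))
    · exact (L 4 26 (s 2 * s 1) e21).trans (congrArg gh21_p (by decide +kernel))
    · exact ed
  refine ⟨ρ, fun n hn f c hc i => ?_⟩
  have h := key ⟨n, hn⟩
  simp only at h
  rw [h]
  exact gh21_act_apply ⟨n, hn⟩ f c hc i

end H3

end Pool.Agent.H88.GH
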