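import Pool.Agent.H88.GH.RelDual
import Pool.Agent.H88.GH.Stream

/-!
# Project GH (MP_35eb49), row GH-22: heads of positive elements
-/

set_option autoImplicit false

namespace Pool.Agent.H88.GH

namespace H3

/-! ### facts from the tables -/

theorem gh22_ckC {s : ℕ} (hs : s < 32) : N1 31 s = 31 ∧ N2 31 s = s ∧ N1 s 31 = 31 ∧
    N2 s 31 = tauS s ∧ N1 s 0 = s ∧ N2 s 0 = 0 ∧ N1 0 s = s ∧ N2 0 s = 0 ∧ M 0 s = s ∧
    M s 0 = s ∧ tauS s < 32 := by
  have h := ckC_true
  unfold ckC at h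
  have h1 := allB_spec h hs
  simp only [Bool.and_eq_true, Nat.beq_eq, Nat.blt_eq] at h1
  obtain ⟨⟨⟨⟨⟨⟨⟨⟨⟨⟨a1, a2⟩, a3⟩, a4⟩, a5⟩, a6⟩, a7⟩, a8⟩, a9⟩, a10⟩, a11⟩ := h1
  exact ⟨a1, a2, a3, a4, a5, a6, a7, a8, a9, a10, a11⟩

theorem gh22_ckD {s t : ℕ} (hs : s < 32) (ht : t < 32) : N1 s t < 32 ∧ N2 s t < 32 ∧
    NM s t < 32 ∧ M s (NM s t) = N1 s t ∧ M (NM s t) (N2 s t) = t := by
  have h := ckD_true
  unfold ckD at h
  have h1 := allB_spec (allB_spec h hs) ht
  simp only [Bool.and_eq_true, Nat.beq_eq, Nat.blt_eq] at h1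
  tauto

theorem gh22_tau5 : ∀ s < 32, tauS (tauS (tauS (tauS (tauS s)))) = s := by decide +kernel

theorem gh22_tau_lt {s : ℕ} (hs : s < 32) (k : ℕ) : tauS^[k] s < 32 := by
  induction k with
  | zero => exact hs
  | succ k ih =>
    rw [Function.iterate_succ_apply']
    exact (gh22_ckC ih).2.2.2.2.2.2.2.2.2.2

/-- normal form of a product of two simple elements -/
theorem gh22_val_mul {s t : ℕ} (hs : s < 32) (ht : t < 32) :
    val s * val t = val (N1 s t) * val (N2 s t) := by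
  obtain ⟨h1, h2, h3, h4, h5⟩ := gh22_ckD hs ht
  have e1 : val s * val (NM s t) = val (N1 s t) := by
    rw [val_mul hs h3 (by rw [h4]; omega), h4]
  have e2 : val (NM s t) * val (N2 s t) = val t := by
    rw [val_mul h3 h2 (by rw [h5]; omega), h5]
  rw [← e2, ← mul_assoc, e1]

/-! ### carries -/

/-- the carry at `0` of a word which is `δ` on the left of `0` -/
theorem gh22_carry_zero {s : ℕ} (hs : s < 32) {f c : ℤ → ℕ} (hf : ∀ i < 0, f i = 31)
    (hc : Carry s f c) : c 0 = s := by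
  obtain ⟨k, hk⟩ := hc.init
  have key : ∀ n : ℕ, ∀ i : ℤ, i ≤ 0 → i ≤ k + n → c i = tauS^[(i % 5).toNat] s := by
    intro n
    induction n with
    | zero =>
      intro i _ hi
      exact hk i (by simpa using hi)
    | succ n ih =>
      intro i hi0 hi
      rcases le_or_gt i (k + n) with h | h
      · exact ih i hi0 h
      · have hi' : i = (i - 1) + 1 := by ring
        have h1 := ih (i - 1) (by omega) (by push_cast at hi; omega)
        have hlt : c (i - 1) < 32 := by rw [h1]; exact gh22_tau_lt hs _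
        rw [hi', hc.step, hf (i - 1) (by omega), (gh22_ckC hlt).2.2.2.1, h1,
          ← Function.iterate_succ_apply' tauS]
        by_cases h4 : (i - 1) % 5 = 4
        · have e1 : ((i - 1) % 5).toNat.succ = 5 := by omega
          have e2 : (((i - 1) + 1) % 5).toNat = 0 := by omega
          rw [e1, e2]
          exact gh22_tau5 s hs
        · have e1 : ((i - 1) % 5).toNat.succ = (((i - 1) + 1) % 5).toNat := by omega
          rw [e1]
  have h := key (0 - k).toNat 0 le_rfl (by omega)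
  simpa using h

/-- all carries are simple elements -/
theorem gh22_carry_lt {s : ℕ} (hs : s < 32) (f : Str) {c : ℤ → ℕ} (hc : Carry s f.1 c) (i : ℤ) :
    c i < 32 := by
  obtain ⟨k, hk⟩ := hc.init
  have key : ∀ n : ℕ, c (k + n) < 32 := by
    intro n
    induction n with
    | zero =>
      rw [hk _ (by simp)]
      exact gh22_tau_lt hs _
    | succ n ih =>
      have e : k + ((n + 1 : ℕ) : ℤ) = (k + n) + 1 := by push_cast; ring
      rw [e, hc.step]
      exact (gh22_ckD ih (f.2.1 _)).2.1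
  rcases le_or_gt i k with h | h
  · rw [hk _ h]
    exact gh22_tau_lt hs _
  · have e : i = k + ((i - k).toNat : ℤ) := by omega
    rw [e]
    exact key _

/-! ### the words of positive elements -/

/-- the word of `1` -/
def gh22_f0 : Str := ⟨fun i => if i < 0 then 31 else 0, by
  refine ⟨fun i => ?_, fun i => ?_, ⟨-1, fun i hi => if_pos (by omega)⟩⟩
  · dsimp only
    split_ifs <;> omega
  · dsimp only
    split_ifs with h1 h2 h2
    · exact (gh22_ckC (s := 31) (by norm_num)).1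
    · exact (gh22_ckC (s := 0) (by norm_num)).1
    · omega
    · exact (gh22_ckC (s := 0) (by norm_num)).2.2.2.2.1⟩

/-- the product of the letters at `0, …, n - 1` -/
def gh22_P (f : ℤ → ℕ) : ℕ → A
  | 0 => 1
  | n + 1 => gh22_P f n * val (f n)

theorem gh22_push {s : ℕ} (hs : s < 32) (f g : Str) {c : ℤ → ℕ} (hc : Carry s f.1 c)
    (hg : ∀ i, g.1 i = N1 (c i) (f.1 i)) (n : ℕ) :
    val (c 0) * gh22_P f.1 n = gh22_P g.1 n * val (c n) := by
  induction n with
  | zero => simp [gh22_P]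
  | succ n ih =>
    have e : ((n + 1 : ℕ) : ℤ) = (n : ℤ) + 1 := by push_cast; ring
    rw [e, hc.step, gh22_P, gh22_P, ← mul_assoc, ih, mul_assoc, mul_assoc, hg,
      gh22_val_mul (gh22_carry_lt hs f hc n) (f.2.1 n)]

/-- `f` is the word of the positive element `x` -/
structure gh22_W (x : A) (f : Str) : Prop where
  neg : ∀ i < 0, f.1 i = 31
  fin : ∃ K : ℕ, ∀ i : ℤ, (K : ℤ) ≤ i → f.1 i = 0
  prod : ∃ K : ℕ, ∀ n : ℕ, K ≤ n → x = gh22_P f.1 n

theorem gh22_W_one : gh22_W 1 gh22_f0 := by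
  have h0 : ∀ i : ℤ, 0 ≤ i → gh22_f0.1 i = 0 := fun i hi => if_neg (by omega)
  refine ⟨fun i hi => if_pos hi, ⟨0, fun i hi => h0 i (by simpa using hi)⟩, ⟨0, fun n _ => ?_⟩⟩
  induction n with
  | zero => rfl
  | succ n ih =>
    have e : val (gh22_f0.1 n) = 1 := by
      rw [h0 n (by positivity)]
      simp [val]
    rw [gh22_P, ← ih (Nat.zero_le n), e, mul_one]

theorem gh22_W_mul {s : ℕ} (hs : s < 32) {y : A} {f g : Str} (hf : gh22_W y f) {c : ℤ → ℕ}
    (hc : Carry s f.1 c) (hg : ∀ i, g.1 i = N1 (c i) (f.1 i)) : gh22_W (val s * y) g := by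
  have hlt := gh22_carry_lt hs f hc
  obtain ⟨K, hK⟩ := hf.fin
  obtain ⟨K', hK'⟩ := hf.prod
  have hcK : ∀ i : ℤ, (K : ℤ) + 1 ≤ i → c i = 0 := by
    intro i hi
    have e : i = (i - 1) + 1 := by ring
    rw [e, hc.step, hK (i - 1) (by omega)]
    exact (gh22_ckC (hlt _)).2.2.2.2.2.1
  refine ⟨fun i hi => ?_, ⟨K + 1, fun i hi => ?_⟩, ⟨max K' (K + 1), fun n hn => ?_⟩⟩
  · rw [hg, hf.neg i hi]
    exact (gh22_ckC (hlt _)).2.2.1
  · push_cast at hi
    rw [hg, hK i (by omega), hcK i hi]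
    exact (gh22_ckC (s := 0) (by norm_num)).2.2.2.2.1
  · have h1 : c 0 = s := gh22_carry_zero hs hf.neg hc
    have h2 := gh22_push hs f g hc hg n
    have h3 : c n = 0 := hcK n (by
      have := (le_max_right K' (K + 1)).trans hn
      exact_mod_cast this)
    rw [h1, h3, ← hK' n ((le_max_left K' (K + 1)).trans hn)] at h2
    rw [h2]
    simp [val]

/-! ### positivity of the simple elements -/

theorem gh22_atm_mem {n : ℕ} (hn : n < 15) : atm n ∈ Pos :=
  Submonoid.subset_closure ⟨n, hn, rfl⟩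

theorem gh22_rot_mul (m : ℤ) (x y : A) : rot m (x * y) = rot m x * rot m y := by
  unfold rot
  group

theorem gh22_rot_mem {m : ℕ} (hm : m < 5) {j : ℕ} (hj : j < 3) : rot m (bs1 j) ∈ Pos := by
  have h := gh22_atm_mem (n := 5 * j + m) (by omega)
  unfold atm at h
  have e1 : (5 * j + m) % 5 = m := by omega
  have e2 : (5 * j + m) / 5 = j := by omega
  rw [e1, e2] at h
  exact h

theorem gh22_rk_mem {n : ℕ} (hn : n < 15) : rk n ∈ Pos := by
  unfold rk
  have hm : n % 5 < 5 := Nat.mod_lt _ (by norm_num)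
  have hj : n / 5 < 3 := by omega
  interval_cases hq : n / 5
  · change rot ((n % 5 : ℕ) : ℤ) (s 0 * s 2) ∈ Pos
    rw [gh22_rot_mul]
    exact mul_mem (gh22_rot_mem hm (j := 0) (by norm_num)) (gh22_rot_mem hm (j := 2) (by norm_num))
  · change rot ((n % 5 : ℕ) : ℤ) (s 0 * s 1) ∈ Pos
    rw [gh22_rot_mul]
    exact mul_mem (gh22_rot_mem hm (j := 0) (by norm_num)) (gh22_rot_mem hm (j := 1) (by norm_num))
  · change rot ((n % 5 : ℕ) : ℤ) (s 2 * s 1) ∈ Pos
    rw [gh22_rot_mul]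
    exact mul_mem (gh22_rot_mem hm (j := 2) (by norm_num)) (gh22_rot_mem hm (j := 1) (by norm_num))

theorem gh22_s_mem {j : ℕ} (hj : j < 3) : bs1 j ∈ Pos := by
  have h := gh22_rot_mem (m := 0) (by norm_num) hj
  simpa [rot] using h

theorem gh22_val_mem {n : ℕ} (hn : n < 32) : val n ∈ Pos := by
  unfold val
  split_ifs with h1 h2 h3
  · exact one_mem _
  · exact gh22_atm_mem (by omega)
  · exact gh22_rk_mem (by omega)
  · exact mul_mem (mul_mem (gh22_s_mem (j := 0) (by norm_num)) (gh22_s_mem (j := 2) (by norm_num)))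
      (gh22_s_mem (j := 1) (by norm_num))

theorem gh22_atm_eq {n : ℕ} (hn : n < 15) : atm n = val (n + 1) := by
  unfold val
  rw [if_neg (by omega), if_pos (by omega)]
  rfl

/-- the word of a positive element is the translate of the word of `1` -/
theorem gh22_word {ρ : A →* Equiv.Perm Str} (hρ : ∀ n < 32, ∀ (f : Str) (c : ℤ → ℕ),
    Carry n f.1 c → ∀ i, (ρ (val n) f).1 i = N1 (c i) (f.1 i)) {x : A} (hx : x ∈ Pos) :
    gh22_W x (ρ x gh22_f0) := by
  unfold Pos at hx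
  induction hx using Submonoid.closure_induction_left with
  | one =>
    rw [map_one]
    exact gh22_W_one
  | mul_left x hx y hy ih =>
    obtain ⟨n, hn, rfl⟩ := hx
    rw [map_mul, Equiv.Perm.mul_apply, gh22_atm_eq hn]
    obtain ⟨c, hc⟩ := exists_carry (s := n + 1) (by omega) (ρ y gh22_f0)
    exact gh22_W_mul (by omega) ih hc (hρ (n + 1) (by omega) _ c hc)

theorem gh22_P_head (f : Str) (n : ℕ) : ∃ y ∈ Pos, gh22_P f.1 (n + 1) = val (f.1 0) * y := by
  induction n with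
  | zero => exact ⟨1, one_mem _, by simp [gh22_P]⟩
  | succ n ih =>
    obtain ⟨y, hy, h⟩ := ih
    refine ⟨y * val (f.1 ((n + 1 : ℕ) : ℤ)), mul_mem hy (gh22_val_mem (f.2.1 _)), ?_⟩
    rw [gh22_P, h, mul_assoc]

theorem val_inj {m n : ℕ} (hm : m < 32) (hn : n < 32) (h : val m = val n) : m = n := by
  obtain ⟨ρ, hρ⟩ := exists_action
  have key : ∀ m < 32, (ρ (val m) gh22_f0).1 0 = m := by
    intro m hm
    obtain ⟨c, hc⟩ := exists_carry hm gh22_f0
    rw [hρ m hm gh22_f0 c hc 0, gh22_carry_zero hm gh22_W_one.neg hc]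
    exact (gh22_ckC hm).2.2.2.2.1
  rw [← key m hm, ← key n hn, h]

theorem gh22_head_mul {ρ : A →* Equiv.Perm Str} (hρ : ∀ n < 32, ∀ (f : Str) (c : ℤ → ℕ),
    Carry n f.1 c → ∀ i, (ρ (val n) f).1 i = N1 (c i) (f.1 i)) {n : ℕ} (hn : n < 15) {y : A}
    (hy : y ∈ Pos) : ∃ t < 32, M (n + 1) t = (ρ (val (n + 1) * y) gh22_f0).1 0 := by
  have hW := gh22_word hρ hy
  obtain ⟨c, hc⟩ := exists_carry (s := n + 1) (by omega) (ρ y gh22_f0)
  have h := gh22_ckD (s := n + 1) (by omega) ((ρ y gh22_f0).2.1 0)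
  refine ⟨NM (n + 1) ((ρ y gh22_f0).1 0), h.2.2.1, ?_⟩
  have e : (ρ (val (n + 1) * y) gh22_f0).1 0 = N1 (n + 1) ((ρ y gh22_f0).1 0) := by
    rw [map_mul, Equiv.Perm.mul_apply, hρ (n + 1) (by omega) _ c hc 0,
      gh22_carry_zero (by omega) hW.neg hc]
  rw [e]
  exact h.2.2.2.1

/-- The head of a positive element. -/
theorem exists_head {x : A} (hx : x ∈ Pos) : ∃ h < 32, (∃ y ∈ Pos, x = val h * y) ∧
    ∀ n < 15, (atm n)⁻¹ * x ∈ Pos → ∃ t < 32, M (n + 1) t = h := by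
  obtain ⟨ρ, hρ⟩ := exists_action
  refine ⟨(ρ x gh22_f0).1 0, (ρ x gh22_f0).2.1 0, ?_, ?_⟩
  · obtain ⟨K, hK⟩ := (gh22_word hρ hx).prod
    obtain ⟨y, hy, h⟩ := gh22_P_head (ρ x gh22_f0) K
    exact ⟨y, hy, by rw [← h]; exact hK (K + 1) (Nat.le_succ K)⟩
  · intro n hn hmem
    have h := gh22_head_mul hρ hn hmem
    rwa [← gh22_atm_eq hn, mul_inv_cancel_left] at h

end H3

end Pool.Agent.H88.GH
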