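import Pool.Agent.H88.GH.Rel
import Pool.Agent.H88.GH.TabS
import Pool.Agent.H88.GH.TabF

/-! # Project GH (MP_35eb49), row GH-20: the dual relations -/

set_option autoImplicit false
set_option maxRecDepth 100000

namespace Pool.Agent.H88.GH

section words

variable {G : Type} [Group G] {a b c : G}

theorem gh20_ca (h2 : a * c = c * a) (z : G) : c * (a * z) = a * (c * z) := by
  rw [← mul_assoc, ← h2, mul_assoc]

theorem gh20_cia (h2 : a * c = c * a) (z : G) : c⁻¹ * (a * z) = a * (c⁻¹ * z) := by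
  rw [inv_mul_eq_iff_eq_mul, gh20_ca h2, mul_inv_cancel_left]

theorem gh20_aba (h1 : a * b * a = b * a * b) (z : G) :
    a * (b * (a * z)) = b * (a * (b * z)) := by
  rw [← mul_assoc b, ← mul_assoc a, ← mul_assoc a, h1]
  simp only [mul_assoc]

theorem gh20_w1 (h2 : a * c = c * a) : a * (a * c * b) = a * c * b * (b⁻¹ * a * b) := by
  simp only [mul_assoc, mul_inv_cancel_left, gh20_ca h2]

theorem gh20_w2 (h2 : a * c = c * a) : c * (a * c * b) = a * c * b * (b⁻¹ * c * b) := by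
  simp only [mul_assoc, mul_inv_cancel_left, gh20_ca h2]

theorem gh20_w3 (h1 : a * b * a = b * a * b) (h2 : a * c = c * a) :
    a * c * b * a = c * b * c⁻¹ * (a * c * b) := by
  simp only [mul_assoc, gh20_cia h2, inv_mul_cancel_left]
  have h : a * (b * a) = b * (a * b) := by
    rw [← mul_assoc, h1, mul_assoc]
  rw [← h, gh20_ca h2]

theorem gh20_w4 (h1 : a * b * a = b * a * b) :
    b⁻¹ * a * b * (a * c * b) = a * c * b * (b⁻¹ * c⁻¹ * b * c * b) := by
  simp only [mul_assoc, mul_inv_cancel_left]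
  rw [gh20_aba h1, inv_mul_cancel_left]

theorem gh20_w5 (h1 : a * b * a = b * a * b) : b⁻¹ * a * b * a = a * b := by
  simp only [mul_assoc]
  have h : a * (b * a) = b * (a * b) := by
    rw [← mul_assoc, h1, mul_assoc]
  rw [h, inv_mul_cancel_left]

theorem gh20_w6 (h3 : b * c * b * c * b = c * b * c * b * c) :
    b⁻¹ * c⁻¹ * b * c * b * (c * b * c⁻¹) = c * b := by
  have h : b * c * b * c * b * c⁻¹ = c * b * c * b := by
    rw [h3, mul_inv_cancel_right]
  calc b⁻¹ * c⁻¹ * b * c * b * (c * b * c⁻¹) = b⁻¹ * c⁻¹ * (b * c * b * c * b * c⁻¹) := by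
        simp only [mul_assoc]
    _ = b⁻¹ * c⁻¹ * (c * b * c * b) := by rw [h]
    _ = c * b := by simp only [mul_assoc, inv_mul_cancel_left]

end words

namespace H3

theorem gh20_succ (m : ℤ) (x : A) : rot (m + 1) x = dl⁻¹ * rot m x * dl := by
  unfold rot
  rw [zpow_add_one, neg_add, add_comm (-m), zpow_add, zpow_neg_one]
  simp only [mul_assoc]

theorem gh20_pred (m : ℤ) (x : A) : rot (m - 1) x = dl * rot m x * dl⁻¹ := by
  have h := gh20_succ (m - 1) x
  rw [sub_add_cancel] at h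
  rw [h]
  group

theorem gh20_zero (x : A) : rot 0 x = x := by
  unfold rot
  simp

theorem gh20_mul (m : ℤ) (x y : A) : rot m (x * y) = rot m x * rot m y := by
  unfold rot
  rw [zpow_neg]
  group

theorem gh20_add (m k : ℤ) (x : A) : rot m (rot k x) = rot (k + m) x := by
  unfold rot
  rw [zpow_add, neg_add, add_comm (-k), zpow_add]
  simp only [mul_assoc]

theorem gh20_rdl (m : ℤ) : rot m dl = dl := by
  unfold rot
  rw [zpow_neg, mul_assoc, ((Commute.refl dl).zpow_right m).eq, inv_mul_cancel_left]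

theorem gh20_one (x y : A) (h : x * dl = dl * y) : rot 1 x = y := by
  have h1 := gh20_succ 0 x
  rw [zero_add, gh20_zero] at h1
  rw [h1, mul_assoc, h, inv_mul_cancel_left]

theorem gh20_a1 : rot 1 (s 0) = (s 1)⁻¹ * s 0 * s 1 := gh20_one _ _ (gh20_w1 rel02)

theorem gh20_c1 : rot 1 (s 2) = (s 1)⁻¹ * s 2 * s 1 := gh20_one _ _ (gh20_w2 rel02)

theorem gh20_am : rot (-1) (s 0) = s 2 * s 1 * (s 2)⁻¹ := by
  have h1 := gh20_pred 0 (s 0)
  rw [zero_sub, gh20_zero] at h1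
  rw [h1, mul_inv_eq_iff_eq_mul]
  exact gh20_w3 rel01 rel02

theorem gh20_a2 : rot 2 (s 0) = (s 1)⁻¹ * (s 2)⁻¹ * s 1 * s 2 * s 1 := by
  have h1 := gh20_add 1 1 (s 0)
  rw [show (1 : ℤ) + 1 = 2 from rfl] at h1
  rw [← h1, gh20_a1]
  exact gh20_one _ _ (gh20_w4 rel01)

/-- rank two elements of the first kind -/
theorem gh20_p1 (m : ℤ) : rot m (s 2) * rot m (s 0) = rot m (s 0 * s 2) := by
  rw [← gh20_mul, rel02]

theorem gh20_p2 (m : ℤ) : rot m (s 1) * rot (m + 1) (s 0) = rot m (s 0 * s 1) := by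
  rw [add_comm m 1, ← gh20_add m 1, ← gh20_mul, gh20_a1]
  congr 1
  group

theorem gh20_p3 (m : ℤ) : rot (m + 1) (s 0) * rot m (s 0) = rot m (s 0 * s 1) := by
  rw [add_comm m 1, ← gh20_add m 1, ← gh20_mul, gh20_a1, gh20_w5 rel01]

theorem gh20_p4 (m : ℤ) : rot m (s 1) * rot (m + 1) (s 2) = rot m (s 2 * s 1) := by
  rw [add_comm m 1, ← gh20_add m 1, ← gh20_mul, gh20_c1]
  congr 1
  group

theorem gh20_p5 (m : ℤ) : rot (m + 1) (s 2) * rot (m + 2) (s 0) = rot m (s 2 * s 1) := by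
  rw [add_comm m 1, add_comm m 2, ← gh20_add m 1, ← gh20_add m 2, ← gh20_mul, gh20_c1, gh20_a2]
  congr 1
  group

theorem gh20_p6 (m : ℤ) : rot (m + 2) (s 0) * rot (m - 1) (s 0) = rot m (s 2 * s 1) := by
  rw [sub_eq_neg_add m 1, add_comm m 2, ← gh20_add m (-1), ← gh20_add m 2, ← gh20_mul, gh20_am,
    gh20_a2, gh20_w6 rel12]

theorem gh20_p7 (m : ℤ) : rot (m - 1) (s 0) * rot m (s 2) = rot m (s 2 * s 1) := by
  rw [sub_eq_neg_add m 1, ← gh20_add m (-1), ← gh20_mul, gh20_am]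
  congr 1
  group

theorem gh20_d1 (m : ℤ) : rot m (s 0) * rot m (s 2 * s 1) = dl := by
  rw [← gh20_mul, ← mul_assoc]
  exact gh20_rdl m

theorem gh20_swap (m : ℤ) (x y : A) (h : rot m x * y = dl) : y * rot (m + 1) x = dl := by
  rw [gh20_succ, ← h]
  group

theorem gh20_four : rot (-1) (s 0) = rot 4 (s 0) := by
  have h1 := gh20_swap 0 (s 0) _ (gh20_d1 0)
  have h2 := gh20_d1 2
  rw [← gh20_p6 0] at h1
  rw [← gh20_p6 2] at h2
  simp only [zero_add, zero_sub] at h1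
  rw [show (2 : ℤ) + 2 = 4 from rfl, show (2 : ℤ) - 1 = 1 from rfl, ← h1, ← mul_assoc] at h2
  exact (mul_left_cancel (mul_right_cancel h2)).symm

theorem gh20_comm0 : Commute (dl ^ 5) (s 0) := by
  have h := gh20_add 1 (-1) (s 0)
  rw [gh20_four, gh20_add] at h
  rw [show (4 : ℤ) + 1 = 5 from rfl, show (-1 : ℤ) + 1 = 0 from rfl, gh20_zero] at h
  unfold rot at h
  rw [zpow_neg, mul_assoc, inv_mul_eq_iff_eq_mul] at h
  have h2 : (dl ^ (5 : ℤ)) = dl ^ 5 := by norm_cast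
  rw [h2] at h
  exact h.symm

theorem gh20_comm_dl : Commute (dl ^ 5) dl := (Commute.refl dl).pow_left 5

theorem gh20_comm_rot (m : ℤ) : Commute (dl ^ 5) (rot m (s 0)) := by
  unfold rot
  exact ((gh20_comm_dl.zpow_right _).mul_right gh20_comm0).mul_right (gh20_comm_dl.zpow_right _)

theorem gh20_comm2 : Commute (dl ^ 5) (s 2) := by
  have h1 := gh20_p6 0
  rw [← gh20_p7 0] at h1
  simp only [zero_add, zero_sub, gh20_zero] at h1
  have h2 : s 2 = (rot (-1) (s 0))⁻¹ * (rot 2 (s 0) * rot (-1) (s 0)) := by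
    rw [h1, inv_mul_cancel_left]
  rw [h2]
  exact (gh20_comm_rot _).inv_right.mul_right ((gh20_comm_rot _).mul_right (gh20_comm_rot _))

theorem gh20_comm1 : Commute (dl ^ 5) (s 1) := by
  have h : s 1 = (s 0 * s 2)⁻¹ * dl := by
    unfold dl
    rw [inv_mul_cancel_left]
  rw [h]
  exact (gh20_comm0.mul_right gh20_comm2).inv_right.mul_right gh20_comm_dl

theorem dl5_central (x : A) : dl ^ 5 * x = x * dl ^ 5 := by
  have hx : x ∈ Subgroup.closure (Set.range (PresentedGroup.of (rels := RH))) := by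
    rw [PresentedGroup.closure_range_of]
    exact Subgroup.mem_top x
  change Commute (dl ^ 5) x
  induction hx using Subgroup.closure_induction with
  | mem y hy =>
    obtain ⟨i, rfl⟩ := hy
    fin_cases i
    · exact gh20_comm0
    · exact gh20_comm1
    · exact gh20_comm2
  | one => exact Commute.one_right _
  | mul y z _ _ hy hz => exact hy.mul_right hz
  | inv y _ hy => exact hy.inv_right

theorem gh20_five (x : A) : rot 5 x = x := by
  unfold rot
  rw [zpow_neg, mul_assoc, inv_mul_eq_iff_eq_mul]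
  have h2 : (dl ^ (5 : ℤ)) = dl ^ 5 := by norm_cast
  rw [h2]
  exact (dl5_central x).symm

theorem gh20_mod (k : ℕ) (hk : k < 5) (x : A) : rot (((k + 1) % 5 : ℕ) : ℤ) x = rot (k + 1) x := by
  rcases Nat.lt_or_ge k 4 with h | h
  · rw [Nat.mod_eq_of_lt (by omega)]
    norm_cast
  · have h4 : k = 4 := by omega
    subst h4
    rw [show (((4 + 1) % 5 : ℕ) : ℤ) = 0 from rfl, show (((4 : ℕ) : ℤ) + 1) = 5 from rfl,
      gh20_zero, gh20_five]

theorem gh20_tau1 (n : ℕ) : tau n / 5 = n / 5 := by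
  unfold tau
  omega

theorem gh20_tau2 (n : ℕ) : tau n % 5 = (n % 5 + 1) % 5 := by
  unfold tau
  omega

theorem rot_atm {n : ℕ} (hn : n < 15) : dl⁻¹ * atm n * dl = atm (tau n) := by
  unfold atm
  rw [gh20_tau1, gh20_tau2, gh20_mod _ (Nat.mod_lt _ (by norm_num)), gh20_succ]

theorem gh20_rk (n : ℕ) : dl⁻¹ * rk n * dl = rk (tau n) := by
  unfold rk
  rw [gh20_tau1, gh20_tau2, gh20_mod _ (Nat.mod_lt _ (by norm_num)), gh20_succ]

theorem gh20_tauS0 : tauS 0 = 0 := rfl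

theorem gh20_tauS31 : tauS 31 = 31 := rfl

theorem gh20_tauS {n : ℕ} (h0 : n ≠ 0) (h31 : n ≠ 31) :
    tauS n = 5 * ((n - 1) / 5) + ((n - 1) % 5 + 1) % 5 + 1 := by
  unfold tauS
  have h1 : Nat.beq n 0 = false := by
    rw [Bool.eq_false_iff, Ne, Nat.beq_eq]
    exact h0
  have h2 : Nat.beq n 31 = false := by
    rw [Bool.eq_false_iff, Ne, Nat.beq_eq]
    exact h31
  rw [h1, cond_false, h2, cond_false]

theorem val_tau {n : ℕ} (hn : n < 32) : dl⁻¹ * val n * dl = val (tauS n) := by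
  rcases Nat.eq_zero_or_pos n with h0 | h0
  · subst h0
    rw [gh20_tauS0]
    unfold val
    rw [if_pos rfl, mul_one, inv_mul_cancel]
  rcases Nat.lt_or_ge n 16 with h16 | h16
  · have h1 : tauS n = tau (n - 1) + 1 := by
      rw [gh20_tauS (by omega) (by omega)]
      rfl
    have h2 : tau (n - 1) < 15 := by
      unfold tau
      omega
    rw [h1]
    unfold val
    rw [if_neg (by omega), if_pos h16, if_neg (by omega), if_pos (by omega),
      Nat.add_sub_cancel]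
    exact rot_atm (by omega)
  rcases Nat.lt_or_ge n 31 with h31 | h31
  · have h1 : tauS n = tau (n - 16) + 16 := by
      rw [gh20_tauS (by omega) (by omega)]
      unfold tau
      omega
    have h2 : tau (n - 16) < 15 := by
      unfold tau
      omega
    rw [h1]
    unfold val
    rw [if_neg (by omega), if_neg (by omega), if_pos h31, if_neg (by omega), if_neg (by omega),
      if_pos (by omega), Nat.add_sub_cancel]
    exact gh20_rk _
  · have h31' : n = 31 := by omega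
    subst h31'
    rw [gh20_tauS31]
    unfold val
    simp

theorem gh20_b1 : ∀ n < 32, M 1 n = 32 ∨ (n = 0 ∧ M 1 n = 1) ∨ (n = 3 ∧ M 1 n = 29) ∨
    (n = 5 ∧ M 1 n = 25) ∨ (n = 6 ∧ M 1 n = 21) ∨ (n = 11 ∧ M 1 n = 16) ∨
    (n = 12 ∧ M 1 n = 27) ∨ (n = 26 ∧ M 1 n = 31) := by decide +kernel

theorem gh20_b6 : ∀ n < 32, M 6 n = 32 ∨ (n = 0 ∧ M 6 n = 6) ∨ (n = 2 ∧ M 6 n = 21) ∨
    (n = 12 ∧ M 6 n = 26) ∨ (n = 17 ∧ M 6 n = 31) := by decide +kernel

theorem gh20_b11 : ∀ n < 32, M 11 n = 32 ∨ (n = 0 ∧ M 11 n = 11) ∨ (n = 1 ∧ M 11 n = 16) ∨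
    (n = 2 ∧ M 11 n = 30) ∨ (n = 6 ∧ M 11 n = 26) ∨ (n = 21 ∧ M 11 n = 31) := by decide +kernel

theorem gh20_b16 : ∀ n < 32, M 16 n = 32 ∨ (n = 0 ∧ M 16 n = 16) ∨ (n = 6 ∧ M 16 n = 31) := by
  decide +kernel

theorem gh20_b21 : ∀ n < 32, M 21 n = 32 ∨ (n = 0 ∧ M 21 n = 21) ∨ (n = 12 ∧ M 21 n = 31) := by
  decide +kernel

theorem gh20_b26 : ∀ n < 32, M 26 n = 32 ∨ (n = 0 ∧ M 26 n = 26) ∨ (n = 2 ∧ M 26 n = 31) := by
  decide +kernel

theorem gh20_b0 : ∀ n < 32, M 0 n = n ∧ (M 31 n = 32 ∨ (n = 0 ∧ M 31 n = 31)) := by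
  decide +kernel

theorem gh20_eq : ∀ m < 32, ∀ n < 32, M m n < 33 ∧ tauS n < 32 ∧
    M (tauS m) (tauS n) = if M m n = 32 then 32 else tauS (M m n) := by
  decide +kernel

theorem gh20_t5 : ∀ n < 32, tauS (tauS (tauS (tauS (tauS n)))) = n := by decide +kernel

/-- the statement for one pair -/
def gh20_Q (m n : ℕ) : Prop := M m n ≠ 32 → val m * val n = val (M m n)

theorem gh20_step {m n : ℕ} (hm : m < 32) (hn : n < 32) (h : gh20_Q m n) :
    gh20_Q (tauS m) (tauS n) := by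
  intro hne
  obtain ⟨h1, -, h3⟩ := gh20_eq m hm n hn
  have h4 : M m n ≠ 32 := by
    intro h
    rw [h3, if_pos h] at hne
    exact hne rfl
  rw [h3, if_neg h4, ← val_tau hm, ← val_tau hn, ← val_tau (show M m n < 32 by omega), ← h h4]
  group

theorem gh20_all {m0 : ℕ} (hm : m0 < 32) (h : ∀ n < 32, gh20_Q m0 n) :
    ∀ n < 32, gh20_Q (tauS m0) n := by
  intro n hn
  have h1 : ∀ k < 32, tauS k < 32 := fun k hk => (gh20_eq k hk k hk).2.1
  have h2 := gh20_step (m := m0) (n := tauS (tauS (tauS (tauS n)))) hm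
    (h1 _ (h1 _ (h1 _ (h1 _ hn)))) (h _ (h1 _ (h1 _ (h1 _ (h1 _ hn)))))
  rwa [gh20_t5 n hn] at h2

theorem gh20_v0 : val 0 = 1 := rfl

theorem gh20_base1 : ∀ n < 32, gh20_Q 1 n := by
  intro n hn h
  rcases gh20_b1 n hn with h1 | ⟨rfl, h1⟩ | ⟨rfl, h1⟩ | ⟨rfl, h1⟩ | ⟨rfl, h1⟩ | ⟨rfl, h1⟩ |
    ⟨rfl, h1⟩ | ⟨rfl, h1⟩
  · exact absurd h1 h
  · rw [h1, gh20_v0, mul_one]
  · rw [h1]
    have h2 := gh20_p6 3
    rw [show (3 : ℤ) + 2 = 5 from rfl, gh20_five] at h2
    have h3 : val 1 = s 0 := gh20_zero _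
    rw [h3]
    exact h2
  · rw [h1]
    have h2 := gh20_p3 4
    rw [show (4 : ℤ) + 1 = 5 from rfl, gh20_five] at h2
    have h3 : val 1 = s 0 := gh20_zero _
    rw [h3]
    exact h2
  · rw [h1]
    exact (gh20_mul 0 (s 0) (s 1)).symm
  · rw [h1]
    exact (gh20_mul 0 (s 0) (s 2)).symm
  · rw [h1]
    exact gh20_p7 1
  · rw [h1]
    exact gh20_d1 0

theorem gh20_base6 : ∀ n < 32, gh20_Q 6 n := by
  intro n hn h
  rcases gh20_b6 n hn with h1 | ⟨rfl, h1⟩ | ⟨rfl, h1⟩ | ⟨rfl, h1⟩ | ⟨rfl, h1⟩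
  · exact absurd h1 h
  · rw [h1, gh20_v0, mul_one]
  · rw [h1]
    exact gh20_p2 0
  · rw [h1]
    exact gh20_p4 0
  · rw [h1]
    refine gh20_swap 0 (s 0 * s 2) _ ?_
    change rot 0 (s 0 * s 2) * rot 0 (s 1) = dl
    rw [← gh20_mul]
    exact gh20_rdl 0

theorem gh20_base11 : ∀ n < 32, gh20_Q 11 n := by
  intro n hn h
  rcases gh20_b11 n hn with h1 | ⟨rfl, h1⟩ | ⟨rfl, h1⟩ | ⟨rfl, h1⟩ | ⟨rfl, h1⟩ | ⟨rfl, h1⟩
  · exact absurd h1 h
  · rw [h1, gh20_v0, mul_one]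
  · rw [h1]
    exact gh20_p1 0
  · rw [h1]
    have h2 := gh20_p5 4
    rw [show (4 : ℤ) + 1 = 5 from rfl, gh20_five, show (4 : ℤ) + 2 = 1 + 5 from rfl,
      ← gh20_add 5 1, gh20_five] at h2
    have h3 : val 11 = s 2 := gh20_zero _
    rw [h3]
    exact h2
  · rw [h1]
    exact (gh20_mul 0 (s 2) (s 1)).symm
  · rw [h1]
    change rot 0 (s 2) * rot 0 (s 0 * s 1) = dl
    rw [← gh20_mul, ← mul_assoc, ← rel02]
    exact gh20_rdl 0

theorem gh20_base16 : ∀ n < 32, gh20_Q 16 n := by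
  intro n hn h
  rcases gh20_b16 n hn with h1 | ⟨rfl, h1⟩ | ⟨rfl, h1⟩
  · exact absurd h1 h
  · rw [h1, gh20_v0, mul_one]
  · rw [h1]
    change rot 0 (s 0 * s 2) * rot 0 (s 1) = dl
    rw [← gh20_mul]
    exact gh20_rdl 0

theorem gh20_base21 : ∀ n < 32, gh20_Q 21 n := by
  intro n hn h
  rcases gh20_b21 n hn with h1 | ⟨rfl, h1⟩ | ⟨rfl, h1⟩
  · exact absurd h1 h
  · rw [h1, gh20_v0, mul_one]
  · rw [h1]
    refine gh20_swap 0 (s 2) _ ?_
    change rot 0 (s 2) * rot 0 (s 0 * s 1) = dl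
    rw [← gh20_mul, ← mul_assoc, ← rel02]
    exact gh20_rdl 0

theorem gh20_base26 : ∀ n < 32, gh20_Q 26 n := by
  intro n hn h
  rcases gh20_b26 n hn with h1 | ⟨rfl, h1⟩ | ⟨rfl, h1⟩
  · exact absurd h1 h
  · rw [h1, gh20_v0, mul_one]
  · rw [h1]
    exact gh20_swap 0 (s 0) _ (gh20_d1 0)

theorem gh20_orbit (j : ℕ) (hj : 5 * j + 5 < 32) (h : ∀ n < 32, gh20_Q (5 * j + 1) n) :
    ∀ k < 5, ∀ n < 32, gh20_Q (5 * j + 1 + k) n := by
  have key : ∀ k : ℕ, k < 4 → (∀ n < 32, gh20_Q (5 * j + 1 + k) n) →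
      ∀ n < 32, gh20_Q (5 * j + 1 + (k + 1)) n := by
    intro k hk hQ
    have h1 := gh20_all (show 5 * j + 1 + k < 32 by omega) hQ
    have h2 : tauS (5 * j + 1 + k) = 5 * j + 1 + (k + 1) := by
      rw [gh20_tauS (by omega) (by omega)]
      omega
    rwa [h2] at h1
  have h1 := key 0 (by norm_num) h
  have h2 := key 1 (by norm_num) h1
  have h3 := key 2 (by norm_num) h2
  have h4 := key 3 (by norm_num) h3
  intro k hk
  interval_cases k
  · exact h
  · exact h1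
  · exact h2
  · exact h3
  · exact h4

theorem val_mul {m n : ℕ} (hm : m < 32) (hn : n < 32) (h : M m n ≠ 32) :
    val m * val n = val (M m n) := by
  rcases Nat.eq_zero_or_pos m with h0 | h0
  · subst h0
    rw [(gh20_b0 n hn).1, gh20_v0, one_mul]
  rcases Nat.lt_or_ge m 31 with h31 | h31
  · have hQ : ∀ j < 6, ∀ n < 32, gh20_Q (5 * j + 1) n := by
      intro j hj
      interval_cases j
      · exact gh20_base1
      · exact gh20_base6
      · exact gh20_base11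
      · exact gh20_base16
      · exact gh20_base21
      · exact gh20_base26
    have h1 := gh20_orbit ((m - 1) / 5) (by omega) (hQ _ (by omega)) ((m - 1) % 5) (by omega) n hn
    rw [show 5 * ((m - 1) / 5) + 1 + (m - 1) % 5 = m by omega] at h1
    exact h1 h
  · have h31' : m = 31 := by omega
    subst h31'
    rcases (gh20_b0 n hn).2 with h1 | ⟨rfl, h1⟩
    · exact absurd h1 h
    · rw [h1, gh20_v0, mul_one]

end H3

end Pool.Agent.H88.GH
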