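import Pool.Agent.H88.GH.Defs3
import Pool.Agent.H88.GH.Lcm
import Pool.Agent.H88.GH.Rel
import Pool.Agent.H88.GH.RelDual
import Pool.Agent.H88.GH.Head

/-!
# Project GH (MP_35eb49), row GH-24: the dual Garside structure of the Artin group of type `H₃`
-/

set_option autoImplicit false
set_option maxRecDepth 100000

namespace Pool.Agent.H88.GH

namespace H3

open Gar

theorem exists_len : ∃ l : A →* Multiplicative ℤ, ∀ i, l (s i) = Multiplicative.ofAdd 1 :=
  exists_hom (fun _ => Multiplicative.ofAdd 1) rfl rfl rfl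

/-- the length -/
noncomputable def gh24_len (x : A) : ℤ := Multiplicative.toAdd (exists_len.choose x)

theorem gh24_len_mul (x y : A) : gh24_len (x * y) = gh24_len x + gh24_len y := by
  unfold gh24_len
  rw [map_mul, toAdd_mul]

theorem gh24_len_s (i : Fin 3) : gh24_len (s i) = 1 := by
  unfold gh24_len
  rw [exists_len.choose_spec i]
  rfl

theorem gh24_len_one : gh24_len 1 = 0 := by
  have h := gh24_len_mul 1 1
  rw [mul_one] at h
  omega

theorem gh24_len_inv (x : A) : gh24_len x⁻¹ = -gh24_len x := by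
  have h := gh24_len_mul x⁻¹ x
  rw [inv_mul_cancel, gh24_len_one] at h
  omega

theorem gh24_len_conj (x y : A) : gh24_len (y⁻¹ * x * y) = gh24_len x := by
  rw [gh24_len_mul, gh24_len_mul, gh24_len_inv]
  ring

theorem gh24_len_rot (m : ℤ) (x : A) : gh24_len (rot m x) = gh24_len x := by
  unfold rot
  rw [zpow_neg, gh24_len_conj]

theorem gh24_len_bs1 (j : ℕ) : gh24_len (bs1 j) = 1 := by
  unfold bs1
  split
  all_goals exact gh24_len_s _

theorem gh24_len_bs2 (j : ℕ) : gh24_len (bs2 j) = 2 := by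
  unfold bs2
  split
  all_goals rw [gh24_len_mul, gh24_len_s, gh24_len_s]; rfl

theorem gh24_len_atm (n : ℕ) : gh24_len (atm n) = 1 := by
  unfold atm
  rw [gh24_len_rot, gh24_len_bs1]

theorem gh24_len_rk (n : ℕ) : gh24_len (rk n) = 2 := by
  unfold rk
  rw [gh24_len_rot, gh24_len_bs2]

theorem gh24_len_dl : gh24_len dl = 3 := by
  unfold dl
  rw [gh24_len_mul, gh24_len_mul, gh24_len_s, gh24_len_s, gh24_len_s]
  rfl

theorem gh24_val_atm {n : ℕ} (hn : n < 15) : val (n + 1) = atm n := by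
  unfold val
  rw [if_neg (by omega), if_pos (by omega)]
  rfl

theorem gh24_val_rk {n : ℕ} (hn : n < 15) : val (n + 16) = rk n := by
  unfold val
  rw [if_neg (by omega), if_neg (by omega), if_pos (by omega)]
  rfl

theorem gh24_val_dl : val 31 = dl := rfl

theorem gh24_atm_mem {n : ℕ} (hn : n < 15) : atm n ∈ Pos := Submonoid.subset_closure ⟨n, hn, rfl⟩

theorem gh24_induct {p : A → Prop} (h1 : p 1) (h2 : ∀ n < 15, ∀ x ∈ Pos, p x → p (atm n * x))
    {x : A} (hx : x ∈ Pos) : p x := by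
  have key : ∀ x (hx : x ∈ Pos), x ∈ Pos ∧ p x := by
    intro x hx
    induction hx using Submonoid.closure_induction_left with
    | one => exact ⟨one_mem _, h1⟩
    | mul_left a ha y hy ih =>
      obtain ⟨n, hn, rfl⟩ := ha
      exact ⟨mul_mem (gh24_atm_mem hn) ih.1, h2 n hn y ih.1 ih.2⟩
  exact (key x hx).2

theorem gh24_len_nonneg {x : A} (hx : x ∈ Pos) : 0 ≤ gh24_len x := by
  refine gh24_induct (p := fun x => 0 ≤ gh24_len x) (by rw [gh24_len_one]) ?_ hx
  intro n _ x _ h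
  rw [gh24_len_mul, gh24_len_atm]
  omega

theorem gh24_cases {x : A} (hx : x ∈ Pos) : x = 1 ∨ ∃ n < 15, ∃ y ∈ Pos, x = atm n * y := by
  refine gh24_induct (p := fun x => x = 1 ∨ ∃ n < 15, ∃ y ∈ Pos, x = atm n * y) (Or.inl rfl) ?_ hx
  intro n hn x hx _
  exact Or.inr ⟨n, hn, x, hx, rfl⟩

theorem gh24_eq_one {x : A} (hx : x ∈ Pos) (h : gh24_len x = 0) : x = 1 := by
  rcases gh24_cases hx with h1 | ⟨n, hn, y, hy, rfl⟩
  · exact h1
  · rw [gh24_len_mul, gh24_len_atm] at h
    have := gh24_len_nonneg hy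
    omega

theorem gh24_s_mem (i : Fin 3) : s i ∈ Pos := by
  have h0 : s 0 = atm 0 := by
    unfold atm rot bs1
    simp
  have h1 : s 1 = atm 5 := by
    unfold atm rot bs1
    simp
  have h2 : s 2 = atm 10 := by
    unfold atm rot bs1
    simp
  fin_cases i
  · change s 0 ∈ Pos
    rw [h0]; exact gh24_atm_mem (by norm_num)
  · change s 1 ∈ Pos
    rw [h1]; exact gh24_atm_mem (by norm_num)
  · change s 2 ∈ Pos
    rw [h2]; exact gh24_atm_mem (by norm_num)

theorem gh24_dl_mem : dl ∈ Pos := mul_mem (mul_mem (gh24_s_mem 0) (gh24_s_mem 2)) (gh24_s_mem 1)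

theorem gh24_conj {x : A} (hx : x ∈ Pos) : dl⁻¹ * x * dl ∈ Pos := by
  refine gh24_induct (p := fun x => dl⁻¹ * x * dl ∈ Pos) ?_ ?_ hx
  · rw [mul_one, inv_mul_cancel]
    exact one_mem _
  · intro n hn x _ h
    have h1 : dl⁻¹ * (atm n * x) * dl = (dl⁻¹ * atm n * dl) * (dl⁻¹ * x * dl) := by group
    rw [h1, rot_atm hn]
    refine mul_mem (gh24_atm_mem ?_) h
    unfold tau
    omega

theorem gh24_conj_pow {x : A} (hx : x ∈ Pos) (k : ℕ) : (dl ^ k)⁻¹ * x * dl ^ k ∈ Pos := by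
  induction k with
  | zero => simpa using hx
  | succ k ih =>
    have h1 : (dl ^ (k + 1))⁻¹ * x * dl ^ (k + 1) = dl⁻¹ * ((dl ^ k)⁻¹ * x * dl ^ k) * dl := by
      rw [pow_succ, mul_inv_rev]
      simp only [mul_assoc]
    rw [h1]
    exact gh24_conj ih

theorem gh24_conj_iff (x : A) : dl⁻¹ * x * dl ∈ Pos ↔ x ∈ Pos := by
  refine ⟨fun h => ?_, gh24_conj⟩
  have h1 := gh24_conj_pow h 4
  have h2 : (dl ^ 4)⁻¹ * (dl⁻¹ * x * dl) * dl ^ 4 = (dl ^ 5)⁻¹ * (x * dl ^ 5) := by
    group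
  rw [h2, ← dl5_central, inv_mul_cancel_left] at h1
  exact h1

theorem gh24_conj_pow' {x : A} (hx : x ∈ Pos) (k : ℕ) : dl ^ k * x * (dl ^ k)⁻¹ ∈ Pos := by
  induction k with
  | zero => simpa using hx
  | succ k ih =>
    rw [← gh24_conj_iff]
    have h1 : dl⁻¹ * (dl ^ (k + 1) * x * (dl ^ (k + 1))⁻¹) * dl = dl ^ k * x * (dl ^ k)⁻¹ := by
      rw [pow_succ']
      group
    rw [h1]
    exact ih

/-- table facts about complements and joins -/
theorem gh24_tab : (allB 15 fun i => allB 15 fun j =>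
    (allB 32 fun h => (allB 32 fun t => !(Nat.beq (M (i + 1) t) h)) ||
      ((allB 32 fun t => !(Nat.beq (M (j + 1) t) h)) ||
        !(allB 32 fun t => !(Nat.beq (M (cond (Nat.beq i j) (i + 1) (J i j + 16)) t) h)))) &&
    (Nat.beq (J i j) 15 || (Nat.beq (M (i + 1) (F i j + 1)) (J i j + 16) &&
      Nat.beq (J j i) (J i j) && (Nat.blt (J i j) 15 && Nat.blt (F i j) 15 &&
        !(Nat.beq i j))))) = true := by decide +kernel

theorem gh24_comp : (allB 15 fun i => !(allB 15 fun j => !(Nat.beq (M (i + 1) (j + 16)) 31))) =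
    true := by decide +kernel

theorem gh24_not_all {n : ℕ} {p : ℕ → Bool} (h : (!(allB n fun t => !(p t))) = true) :
    ∃ t < n, p t = true := by
  by_contra hc
  push Not at hc
  have h1 : (allB n fun t => !(p t)) = true := by
    clear h
    induction n with
    | zero => rfl
    | succ n ih =>
      change (!(p n) && allB n fun t => !(p t)) = true
      rw [Bool.and_eq_true]
      refine ⟨?_, ih fun t ht => hc t (by omega)⟩
      have := hc n (by omega)
      simpa using this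
  rw [h1] at h
  exact absurd h (by decide)

theorem gh24_all_false {n : ℕ} {p : ℕ → Bool} (h : (allB n fun t => !(p t)) = true) {t : ℕ}
    (ht : t < n) : p t = false := by
  have := allB_spec h ht
  simpa using this

theorem gh24_val_mem {n : ℕ} (hn : n < 32) : val n ∈ Pos := by
  by_cases h0 : n = 0
  · subst h0; exact one_mem _
  by_cases h1 : n < 16
  · obtain ⟨m, rfl⟩ := Nat.exists_eq_succ_of_ne_zero h0
    rw [Nat.succ_eq_add_one, gh24_val_atm (by omega)]
    exact gh24_atm_mem (by omega)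
  by_cases h2 : n < 31
  · obtain ⟨m, rfl⟩ := Nat.exists_eq_add_of_le (not_lt.mp h1)
    rw [add_comm, gh24_val_rk (by omega)]
    unfold rk rot
    have h3 : bs2 (m / 5) ∈ Pos := by
      unfold bs2
      split
      all_goals exact mul_mem (gh24_s_mem _) (gh24_s_mem _)
    have h4 := gh24_conj_pow h3 (m % 5)
    rwa [zpow_neg, zpow_natCast]
  · have : n = 31 := by omega
    subst this
    exact gh24_dl_mem

theorem gh24_atm_compl {n : ℕ} (hn : n < 15) : (atm n)⁻¹ * dl ∈ Pos := by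
  obtain ⟨j, hj, h⟩ := gh24_not_all (allB_spec gh24_comp hn)
  rw [Nat.beq_eq] at h
  have h1 := val_mul (m := n + 1) (n := j + 16) (by omega) (by omega) (by rw [h]; decide)
  rw [h, gh24_val_dl, gh24_val_atm hn] at h1
  rw [← h1, inv_mul_cancel_left]
  exact gh24_val_mem (by omega)

theorem gh24_s_compl (i : Fin 3) : (s i)⁻¹ * dl ∈ Pos := by
  have h0 : s 0 = atm 0 := by
    unfold atm rot bs1
    simp
  have h1 : s 1 = atm 5 := by
    unfold atm rot bs1
    simp
  have h2 : s 2 = atm 10 := by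
    unfold atm rot bs1
    simp
  fin_cases i
  · change (s 0)⁻¹ * dl ∈ Pos
    rw [h0]; exact gh24_atm_compl (by norm_num)
  · change (s 1)⁻¹ * dl ∈ Pos
    rw [h1]; exact gh24_atm_compl (by norm_num)
  · change (s 2)⁻¹ * dl ∈ Pos
    rw [h2]; exact gh24_atm_compl (by norm_num)

theorem gh24_cof (x : A) : (∃ k : ℕ, x⁻¹ * dl ^ k ∈ Pos) ∧ ∃ k : ℕ, x * dl ^ k ∈ Pos := by
  have hx : x ∈ Subgroup.closure (Set.range (PresentedGroup.of (rels := RH))) := by
    rw [PresentedGroup.closure_range_of]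
    exact Subgroup.mem_top x
  induction hx using Subgroup.closure_induction with
  | mem y hy =>
    obtain ⟨i, rfl⟩ := hy
    refine ⟨⟨1, ?_⟩, ⟨0, ?_⟩⟩
    · rw [pow_one]
      exact gh24_s_compl i
    · rw [pow_zero, mul_one]
      exact gh24_s_mem i
  | one => exact ⟨⟨0, by simp⟩, ⟨0, by simp⟩⟩
  | mul y z _ _ hy hz =>
    obtain ⟨⟨k, hk⟩, ⟨k', hk'⟩⟩ := hy
    obtain ⟨⟨l, hl⟩, ⟨l', hl'⟩⟩ := hz
    refine ⟨⟨k + l, ?_⟩, ⟨k' + l', ?_⟩⟩
    · have h1 : (y * z)⁻¹ * dl ^ (k + l) = (z⁻¹ * dl ^ l) * ((dl ^ l)⁻¹ * (y⁻¹ * dl ^ k) * dl ^ l) := by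
        rw [pow_add]; group
      rw [h1]
      exact mul_mem hl (gh24_conj_pow hk l)
    · have h1 : y * z * dl ^ (k' + l') = (y * dl ^ k') * ((dl ^ k')⁻¹ * (z * dl ^ l') * dl ^ k') := by
        rw [add_comm k', pow_add]
        simp only [mul_assoc, mul_inv_cancel_left]
      rw [h1]
      exact mul_mem hk' (gh24_conj_pow hl' k')
  | inv y _ hy =>
    refine ⟨?_, hy.1⟩
    rw [inv_inv]
    exact hy.2

theorem gh24_finite (n : ℕ) : {x | x ∈ Pos ∧ gh24_len x ≤ n}.Finite := by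
  induction n with
  | zero =>
    refine Set.Finite.subset (Set.finite_singleton (1 : A)) ?_
    rintro x ⟨hx, h⟩
    have h1 := gh24_len_nonneg hx
    push_cast at h
    exact gh24_eq_one hx (by omega)
  | succ n ih =>
    have h1 : ((Set.Iio 15).image atm).Finite := (Set.finite_Iio 15).image _
    refine Set.Finite.subset (((h1.prod ih).image fun p : A × A => p.1 * p.2).insert 1) ?_
    rintro x ⟨hx, h⟩
    rcases gh24_cases hx with rfl | ⟨m, hm, y, hy, rfl⟩
    · exact Set.mem_insert _ _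
    · right
      refine ⟨(atm m, y), ⟨⟨m, hm, rfl⟩, hy, ?_⟩, rfl⟩
      rw [gh24_len_mul, gh24_len_atm] at h
      push_cast at h
      simp only
      omega

/-- the index of the join of two atoms -/
def gh24_j (i j : ℕ) : ℕ := cond (Nat.beq i j) (i + 1) (J i j + 16)

theorem gh24_J_le : (allB 15 fun i => allB 15 fun j => Nat.blt (gh24_j i j) 32 &&
    (!(allB 32 fun t => !(Nat.beq (M (i + 1) t) (gh24_j i j))) &&
      !(allB 32 fun t => !(Nat.beq (M (j + 1) t) (gh24_j i j))))) = true := by decide +kernel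

theorem gh24_le_of_M {m t h : ℕ} (hm : m < 32) (ht : t < 32) (hh : h < 32) (hM : M m t = h) :
    (val m)⁻¹ * val h ∈ Pos := by
  rw [← hM, ← val_mul hm ht (by rw [hM]; omega), inv_mul_cancel_left]
  exact gh24_val_mem ht

/-- least common multiples of atoms -/
theorem gh24_lcm {i j : ℕ} (hi : i < 15) (hj : j < 15) :
    (atm i)⁻¹ * val (gh24_j i j) ∈ Pos ∧ (atm j)⁻¹ * val (gh24_j i j) ∈ Pos ∧
      ∀ w ∈ Pos, (atm i)⁻¹ * w ∈ Pos → (atm j)⁻¹ * w ∈ Pos → (val (gh24_j i j))⁻¹ * w ∈ Pos := by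
  have h0 := allB_spec (allB_spec gh24_J_le hi) hj
  rw [Bool.and_eq_true, Bool.and_eq_true, Nat.blt_eq] at h0
  obtain ⟨hlt, h1, h2⟩ := h0
  obtain ⟨t1, ht1, h1⟩ := gh24_not_all h1
  obtain ⟨t2, ht2, h2⟩ := gh24_not_all h2
  rw [Nat.beq_eq] at h1 h2
  refine ⟨?_, ?_, fun w hw hiw hjw => ?_⟩
  · rw [← gh24_val_atm hi]
    exact gh24_le_of_M (by omega) ht1 hlt h1
  · rw [← gh24_val_atm hj]
    exact gh24_le_of_M (by omega) ht2 hlt h2
  · obtain ⟨h, hh, ⟨y, hy, hwy⟩, hdiv⟩ := exists_head hw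
    obtain ⟨a, ha, ha'⟩ := hdiv i hi hiw
    obtain ⟨b, hb, hb'⟩ := hdiv j hj hjw
    have h3 := allB_spec (allB_spec gh24_tab hi) hj
    rw [Bool.and_eq_true] at h3
    have h4 := allB_spec h3.1 hh
    rw [Bool.or_eq_true, Bool.or_eq_true] at h4
    rcases h4 with h4 | h4 | h4
    · have := gh24_all_false h4 ha
      rw [ha', Nat.beq_refl] at this
      exact absurd this (by decide)
    · have := gh24_all_false h4 hb
      rw [hb', Nat.beq_refl] at this
      exact absurd this (by decide)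
    · obtain ⟨u, hu, hu'⟩ := gh24_not_all h4
      rw [Nat.beq_eq] at hu'
      have h5 := gh24_le_of_M (m := gh24_j i j) hlt hu hh hu'
      rw [hwy]
      have := mul_mem h5 hy
      rwa [mul_assoc] at this

theorem gh24_sup (x y : A) : ∃ j, x⁻¹ * j ∈ Pos ∧ y⁻¹ * j ∈ Pos ∧
    ∀ u, x⁻¹ * u ∈ Pos → y⁻¹ * u ∈ Pos → j⁻¹ * u ∈ Pos := by
  refine exists_sup Pos gh24_len gh24_len_mul (fun x hx => gh24_len_nonneg hx)
    {a | ∃ n < 15, a = atm n} ?_ ?_ ?_ ?_ ?_ x y
  · rintro a ⟨n, hn, rfl⟩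
    exact ⟨gh24_atm_mem hn, by rw [gh24_len_atm]; norm_num⟩
  · intro x hx hx1
    rcases gh24_cases hx with h | ⟨n, hn, y, hy, rfl⟩
    · exact absurd h hx1
    · exact ⟨atm n, ⟨n, hn, rfl⟩, y, hy, rfl⟩
  · rintro a ⟨i, hi, rfl⟩ b ⟨j, hj, rfl⟩
    exact ⟨_, gh24_lcm hi hj⟩
  · intro x y
    obtain ⟨k, hk⟩ := (gh24_cof x).2
    obtain ⟨l, hl⟩ := (gh24_cof y).2
    refine ⟨(dl ^ (k + l))⁻¹, ?_, ?_⟩
    · rw [inv_inv]
      have h1 : dl ^ (k + l) * x = dl ^ l * (dl ^ k * (x * dl ^ k) * (dl ^ k)⁻¹) := by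
        rw [add_comm, pow_add]
        group
      rw [h1]
      exact mul_mem (pow_mem gh24_dl_mem l) (gh24_conj_pow' hk k)
    · rw [inv_inv]
      have h1 : dl ^ (k + l) * y = dl ^ k * (dl ^ l * (y * dl ^ l) * (dl ^ l)⁻¹) := by
        rw [pow_add]
        group
      rw [h1]
      exact mul_mem (pow_mem gh24_dl_mem k) (gh24_conj_pow' hl l)
  · intro x y
    obtain ⟨k, hk⟩ := (gh24_cof x).1
    obtain ⟨l, hl⟩ := (gh24_cof y).1
    refine ⟨dl ^ (k + l), ?_, ?_⟩
    · rw [pow_add, ← mul_assoc]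
      exact mul_mem hk (pow_mem gh24_dl_mem l)
    · rw [add_comm, pow_add, ← mul_assoc]
      exact mul_mem hl (pow_mem gh24_dl_mem k)

/-- the dual Garside structure -/
@[reducible] noncomputable def gh24_gar : Gar A where
  P := Pos
  δ := dl
  len := gh24_len
  len_mul := gh24_len_mul
  len_nonneg x hx := gh24_len_nonneg hx
  eq_one x hx h := gh24_eq_one hx h
  len_δ := gh24_len_dl
  δ_mem := gh24_dl_mem
  conj := gh24_conj_iff
  central := dl5_central
  cof x := (gh24_cof x).1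
  fin := by
    refine Set.Finite.subset (gh24_finite 3) ?_
    rintro x ⟨hx, hx'⟩
    refine ⟨hx, ?_⟩
    have h := gh24_len_nonneg hx'
    rw [gh24_len_mul, gh24_len_inv, gh24_len_dl] at h
    push_cast
    omega
  sup := gh24_sup

/-- The dual Garside structure (uses everything about `A`). -/
theorem exists_gar : ∃ g : Gar A, g.P = Pos ∧ g.δ = dl ∧ @HTab A _ g atm := by
  refine ⟨gh24_gar, rfl, rfl, ?_⟩
  let _ := gh24_gar
  have hjoin : ∀ i < 15, ∀ j < 15, atm i ⊔ atm j = val (gh24_j i j) := by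
    intro i hi j hj
    obtain ⟨h1, h2, h3⟩ := gh24_lcm hi hj
    apply le_antisymm
    · exact sup_le h1 h2
    · have h4 : (atm i ⊔ atm j : A) ∈ Pos := by
        have h5 : (1 : A) ≤ atm i := one_le_iff.mpr (gh24_atm_mem hi)
        exact one_le_iff.mp (h5.trans le_sup_left)
      exact h3 _ h4 (le_def.mp le_sup_left) (le_def.mp le_sup_right)
  have htab : ∀ i < 15, ∀ j < 15, J i j ≠ 15 → M (i + 1) (F i j + 1) = J i j + 16 ∧
      J i j < 15 ∧ F i j < 15 ∧ i ≠ j := by
    intro i hi j hj hJ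
    have h3 := allB_spec (allB_spec gh24_tab hi) hj
    rw [Bool.and_eq_true] at h3
    have h4 := h3.2
    simp only [Bool.or_eq_true, Bool.and_eq_true, Nat.beq_eq, Nat.blt_eq, Bool.not_eq_true'] at h4
    rcases h4 with h4 | h4
    · exact absurd h4 hJ
    · refine ⟨h4.1.1, h4.2.1.1, h4.2.1.2, ?_⟩
      intro hij
      have h5 := h4.2.2
      rw [hij, Nat.beq_refl] at h5
      exact absurd h5 (by decide)
  have hjj : ∀ i j, i ≠ j → gh24_j i j = J i j + 16 := by
    intro i j hij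
    unfold gh24_j
    have : Nat.beq i j = false := by
      rw [← Bool.not_eq_true, Nat.beq_eq]
      exact hij
    rw [this]
    rfl
  refine ⟨fun i hi => gh24_atm_mem hi, fun i _ => gh24_len_atm i, ?_, ?_, ?_, ?_, ?_⟩
  · intro i hi j hj hij
    rw [← gh24_val_atm hi, ← gh24_val_atm hj] at hij
    have := val_inj (by omega) (by omega) hij
    omega
  · intro x hx hlen
    change gh24_len x = 1 at hlen
    rcases gh24_cases hx with rfl | ⟨n, hn, y, hy, rfl⟩
    · rw [gh24_len_one] at hlen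
      omega
    · rw [gh24_len_mul, gh24_len_atm] at hlen
      have h1 : y = 1 := gh24_eq_one hy (by omega)
      exact ⟨n, hn, by rw [h1, mul_one]⟩
  · intro i hi j hj hij hlen
    rw [hjoin i hi j hj, hjj i j hij] at hlen ⊢
    by_cases hJ : J i j = 15
    · rw [hJ, show 15 + 16 = 31 from rfl, gh24_val_dl] at hlen
      change gh24_len dl = 2 at hlen
      rw [gh24_len_dl] at hlen
      omega
    · obtain ⟨h1, h2, h3, -⟩ := htab i hi j hj hJ
      refine ⟨hJ, ?_⟩
      rw [← gh24_val_atm hi, ← gh24_val_atm h3, val_mul (by omega) (by omega) (by omega), h1]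
  · intro i hi j hj k hk l hl hJ hJ'
    obtain ⟨-, -, -, h1⟩ := htab i hi j hj hJ
    obtain ⟨-, -, -, h2⟩ := htab k hk l hl (by rw [← hJ']; exact hJ)
    rw [hjoin i hi j hj, hjoin k hk l hl, hjj i j h1, hjj k l h2, hJ']
  · intro i hi
    exact rot_atm hi

end H3

end Pool.Agent.H88.GH
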