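import Pool.Agent.H88.GH.Defs2

/-!
# Project GH (MP_35eb49), row GH-5: greedy words
-/

set_option autoImplicit false

namespace Pool.Agent.H88.GH

namespace Gar

variable {G : Type} [Group G] [Gar G]

theorem gh5_compl {s : G} (h1 : 1 ≤ s) : s⁻¹ * δ ≤ δ := by
  rw [le_def, mul_inv_rev, inv_inv, conj]
  exact one_le_iff.mp h1

/-- the key step for heads -/
theorem gh5_head {s x : G} (h1 : 1 ≤ s) (h2 : s ≤ δ) (hx : 1 ≤ x) :
    (s * x) ⊓ δ = (s * (x ⊓ δ)) ⊓ δ := by
  have hsx : s ≤ s * x := by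
    have := (mul_le_mul_iff s).mpr hx
    rwa [mul_one] at this
  apply le_antisymm
  · refine le_inf ?_ inf_le_right
    have h3 : s ⊔ ((s * x) ⊓ δ) ≤ s * x := sup_le hsx inf_le_left
    have h4 : s ⊔ ((s * x) ⊓ δ) ≤ δ := sup_le h2 inf_le_right
    have h5 : s⁻¹ * (s ⊔ ((s * x) ⊓ δ)) ≤ x := by
      rw [← mul_le_mul_iff s, mul_inv_cancel_left]; exact h3
    have h6 : s⁻¹ * (s ⊔ ((s * x) ⊓ δ)) ≤ δ :=
      ((mul_le_mul_iff s⁻¹).mpr h4).trans (gh5_compl h1)
    have h7 : s ⊔ ((s * x) ⊓ δ) ≤ s * (x ⊓ δ) := by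
      rw [← mul_le_mul_iff s⁻¹, inv_mul_cancel_left]
      exact le_inf h5 h6
    exact le_sup_right.trans h7
  · exact inf_le_inf ((mul_le_mul_iff s).mpr inf_le_left) le_rfl

theorem Gr.one_le {s w s' : G} {n : ℕ} (h : Gr s w s' n) : 1 ≤ w := by
  induction h with
  | nil s => exact le_rfl
  | @cons s u w s' n h1 h2 h3 h4 ih =>
    refine h1.le.trans ?_
    have := (mul_le_mul_iff u).mpr ih
    rwa [mul_one] at this

theorem Gr.append {s w s' w' s'' : G} {n m : ℕ} (h : Gr s w s' n) (h' : Gr s' w' s'' m) :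
    Gr s (w * w') s'' (n + m) := by
  induction h with
  | nil s => rwa [one_mul, zero_add]
  | @cons s u w s' n h1 h2 h3 h4 ih =>
    rw [mul_assoc, Nat.add_right_comm]
    exact Gr.cons h1 h2 h3 (ih h')

theorem Gr.pow {s w : G} {n : ℕ} (h : Gr s w s n) (k : ℕ) : Gr s (w ^ k) s (k * n) := by
  induction k with
  | zero =>
    rw [pow_zero, zero_mul]
    exact Gr.nil s
  | succ k ih =>
    rw [pow_succ', Nat.succ_mul, add_comm]
    exact h.append ih

theorem gh5_after {s w s' : G} {n : ℕ} (h : Gr s w s' n) (h1 : 1 ≤ s) (h2 : s ≤ δ) :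
    (s * w) ⊓ δ = s := by
  induction h with
  | nil s => rw [mul_one]; exact inf_eq_left.mpr h2
  | @cons s u w s' n a1 a2 a3 a4 ih =>
    have h3 := ih a1.le a2.le
    rw [gh5_head h1 h2 ((Gr.cons a1 a2 a3 a4).one_le), h3, a3]

/-- A prefix of a greedy word is a meet with a power of `δ`. -/
theorem Gr.pre {s w s' w' s'' : G} {n m : ℕ} (h : Gr s w s' n) (h' : Gr s' w' s'' m) :
    (w * w') ⊓ δ ^ n = w := by
  induction h with
  | nil s =>
    rw [one_mul, pow_zero]
    exact inf_eq_right.mpr h'.one_le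
  | @cons s u w s' n h1 h2 h3 h4 ih =>
    have h5 : (u * (w * w')) ⊓ δ = u := gh5_after (h4.append h') h1.le h2.le
    have h6 := ih h'
    rw [mul_assoc]
    apply le_antisymm
    · have h7 : (u * (w * w')) ⊓ δ ^ (n + 1) ≤ u * δ ^ n := by
        have h8 : ((u * (w * w')) ⊓ δ) * δ ^ (n : ℤ) = u * δ ^ (n : ℤ) := by rw [h5]
        rw [inf_zpow, zpow_natCast, ← pow_succ'] at h8
        rw [← h8]
        exact inf_le_inf (le_mul_pow _ n) le_rfl
      have h9 : (u * (w * w')) ⊓ δ ^ (n + 1) ≤ u * ((w * w') ⊓ δ ^ n) := by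
        rw [mul_inf']
        exact le_inf inf_le_left h7
      rwa [h6] at h9
    · refine le_inf ((mul_le_mul_iff u).mpr ?_) ?_
      · have := (mul_le_mul_iff w).mpr h'.one_le
        rwa [mul_one] at this
      · have h7 : w ≤ δ ^ n := by
          rw [← h6]
          exact inf_le_right
        refine ((mul_le_mul_iff u).mpr h7).trans ?_
        rw [pow_succ', ← zpow_natCast, mul_zpow_le_iff]
        exact h2.le

theorem gh5_first {s w s' : G} {n : ℕ} (h : Gr s w s' n) (hn : 0 < n) :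
    ∃ u : G, 1 < u ∧ u < δ ∧ u ≤ w ∧ w ⊓ δ = u := by
  cases h with
  | nil => exact absurd hn (lt_irrefl 0)
  | @cons s u w s' n h1 h2 h3 h4 =>
    refine ⟨u, h1, h2, ?_, gh5_after h4 h1.le h2.le⟩
    have := (mul_le_mul_iff u).mpr h4.one_le
    rwa [mul_one] at this

theorem Gr.ne_zpow {s w s' : G} {n : ℕ} (h : Gr s w s' n) (hn : 0 < n) (k : ℤ) :
    w ≠ δ ^ k := by
  intro hk
  obtain ⟨u, h1, h2, h3, h4⟩ := gh5_first h hn
  have h5 : 0 < len w := by
    have := len_lt (h1.trans_le h3)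
    rwa [len_one] at this
  rw [hk, len_zpow, len_δ] at h5
  have h6 : 1 ≤ k := by omega
  have h7 : (δ : G) ≤ w := by
    have := mul_zpow_mono (1 : G) h6
    rwa [one_mul, one_mul, zpow_one, ← hk] at this
  rw [inf_eq_right.mpr h7] at h4
  exact h2.ne h4.symm

theorem Gr.d_one {s w s' : G} {n : ℕ} (h : Gr s w s' n) : d w 1 = 0 := by
  have h0 : d w 1 ≤ 0 := by
    rw [d_le_iff, zpow_zero, mul_one]
    exact h.one_le
  rcases Nat.eq_zero_or_pos n with hn | hn
  · subst hn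
    cases h
    exact d_self 1
  · apply le_antisymm h0
    by_contra hc
    push Not at hc
    have h1 : d w 1 ≤ -1 := by omega
    rw [d_le_iff, le_mul_zpow_iff, neg_neg, one_mul, zpow_one] at h1
    obtain ⟨u, -, h2, -, h4⟩ := gh5_first h hn
    rw [inf_eq_right.mpr h1] at h4
    exact h2.ne h4.symm

section ray

variable {g : G} {y : ℕ → G}

theorem gh5_one_le (h : Ray g y) (i : ℕ) : 1 ≤ y i := by
  have h1 := h.pre 0 i (Nat.zero_le i)
  rw [pow_zero, h.zero] at h1
  rw [← h1]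
  exact inf_le_left

theorem gh5_le_pow (h : Ray g y) (i : ℕ) : y i ≤ δ ^ i := by
  rw [← h.pre i i le_rfl]
  exact inf_le_right

theorem gh5_mono (h : Ray g y) {i j : ℕ} (hij : i ≤ j) : y i ≤ y j := by
  rw [← h.pre i j hij]
  exact inf_le_left

theorem gh5_dd (h : Ray g y) (i : ℕ) : dd 1 (y i) ≤ i := by
  unfold dd
  have h1 : d 1 (y i) ≤ i := by
    rw [d_le_iff, one_mul, zpow_natCast]
    exact gh5_le_pow h i
  have h2 : d (y i) 1 ≤ 0 := by
    rw [d_le_iff, zpow_zero, mul_one]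
    exact gh5_one_le h i
  linarith

theorem gh5_far (h : Ray g y) (i : ℕ) : (i : ℤ) ≤ dd 1 (y i) := by
  have := h.far i 0
  rwa [zpow_zero, one_mul] at this

theorem gh5_next (h : Ray g y) (i : ℕ) : y i * δ = (y (i + 1) * δ) ⊓ δ ^ (i + 1) := by
  have h1 := h.pre i (i + 1) (Nat.le_succ i)
  have h2 : y i * δ ^ (1 : ℤ) = (y (i + 1) ⊓ δ ^ i) * δ ^ (1 : ℤ) := by rw [h1]
  rwa [inf_zpow, zpow_one, ← pow_succ] at h2

theorem gh5_st_le (h : Ray g y) (i : ℕ) : y (i + 1) ≤ y i * δ := by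
  rw [gh5_next h i]
  exact le_inf (le_mul_δ _) (gh5_le_pow h (i + 1))

theorem gh5_one_lt (h : Ray g y) (i : ℕ) : 1 < st y i := by
  have h1 : (1 : G) ≤ st y i := by
    unfold st
    rw [← mul_le_mul_iff (y i), mul_one, mul_inv_cancel_left]
    exact gh5_mono h (Nat.le_succ i)
  refine lt_of_le_of_ne h1 fun hc => ?_
  have h2 : y (i + 1) = y i := by
    unfold st at hc
    rw [eq_inv_mul_iff_mul_eq, mul_one] at hc
    exact hc.symm
  have h3 := gh5_far h (i + 1)
  have h4 := gh5_dd h i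
  rw [h2] at h3
  push_cast at h3
  linarith

theorem gh5_lt (h : Ray g y) (i : ℕ) : st y i < δ := by
  have h1 : st y i ≤ δ := by
    unfold st
    rw [← mul_le_mul_iff (y i), mul_inv_cancel_left]
    exact gh5_st_le h i
  refine lt_of_le_of_ne h1 fun hc => ?_
  have h2 : y (i + 1) = y i * δ := by
    unfold st at hc
    rw [inv_mul_eq_iff_eq_mul] at hc
    exact hc
  have h3 := gh5_far h (i + 1)
  have h4 := gh5_dd h i
  have h5 : dd 1 (y i * δ) = dd 1 (y i) := by
    unfold dd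
    have a1 := d_mul_zpow 1 (y i) 1
    have a2 := d_zpow_mul (y i) 1 1
    rw [zpow_one] at a1 a2
    rw [a1, a2]
    ring
  rw [h2, h5] at h3
  push_cast at h3
  linarith

theorem gh5_greedy (h : Ray g y) (i : ℕ) : (st y i * st y (i + 1)) ⊓ δ = st y i := by
  have h1 : st y i * st y (i + 1) = (y i)⁻¹ * y (i + 2) := by
    unfold st
    group
  have h2 : y (i + 2) ⊓ (y i * δ) = y (i + 1) := by
    apply le_antisymm
    · rw [← h.pre (i + 1) (i + 2) (Nat.le_succ _)]
      refine inf_le_inf le_rfl ?_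
      rw [gh5_next h i]
      exact inf_le_right
    · exact le_inf (gh5_mono h (Nat.le_succ _)) (gh5_st_le h i)
  have h3 := congrArg (fun z => (y i)⁻¹ * z) h2
  simp only [mul_inf', inv_mul_cancel_left] at h3
  rw [h1, h3]
  rfl

/-- The pieces of a ray are greedy words. -/
theorem Ray.gr {g : G} {y : ℕ → G} (h : Ray g y) {i j : ℕ} (hij : i ≤ j) :
    Gr (st y i) ((y (i + 1))⁻¹ * y (j + 1)) (st y j) (j - i) := by
  obtain ⟨n, rfl⟩ := Nat.exists_eq_add_of_le hij
  rw [Nat.add_sub_cancel_left]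
  clear hij
  induction n generalizing i with
  | zero =>
    rw [add_zero, inv_mul_cancel]
    exact Gr.nil _
  | succ n ih =>
    have h1 : (y (i + 1))⁻¹ * y (i + (n + 1) + 1) =
        st y (i + 1) * ((y (i + 1 + 1))⁻¹ * y (i + 1 + n + 1)) := by
      unfold st
      have : i + (n + 1) + 1 = i + 1 + n + 1 := by omega
      rw [this]
      group
    have h2 : i + (n + 1) = i + 1 + n := by omega
    rw [h1, h2]
    exact Gr.cons (gh5_one_lt h _) (gh5_lt h _) (gh5_greedy h i) ih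

end ray

end Gar

end Pool.Agent.H88.GH
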