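import Pool.Agent.H88.GH.Defs3
import Pool.Agent.H88.GH.Defs4
import Pool.Agent.H88.GH.Rel
import Pool.Agent.H88.GH.RelDual

/-!
# Project GH (MP_35eb49), row GH-26: the rank two parabolic subgroups below `δ a⁻¹`

For every atom `a` the atoms `b` with `b * a` simple lie in a proper parabolic subgroup `L a`, and
`L` is compatible with the conjugation by `δ`.
-/

set_option autoImplicit false

namespace Pool.Agent.H88.GH

namespace H3

/-- The types of the three parabolic subgroups. -/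
def gh26_X (j : ℕ) : Set (Fin 3) := if j = 0 then {1, 2} else if j = 1 then {0, 2} else {0, 1}

/-- The conjugating elements. -/
def gh26_y (j : ℕ) : A := if j = 0 then s 0 else if j = 1 then 1 else s 2

/-- The parabolic subgroup of the atom `a`. -/
def gh26_L (a : ℕ) : Subgroup A :=
  (Subgroup.closure (PresentedGroup.of '' gh26_X (a / 5))).map
    (MulAut.conj (dl ^ (-((a % 5 : ℕ) : ℤ)) * gh26_y (a / 5))).toMonoidHom

theorem gh26_map_map (K : Subgroup A) (x y : A) :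
    (K.map (MulAut.conj y).toMonoidHom).map (MulAut.conj x).toMonoidHom =
      K.map (MulAut.conj (x * y)).toMonoidHom := by
  rw [Subgroup.map_map]
  congr 1
  refine MonoidHom.ext fun z => ?_
  simp [mul_assoc]

theorem gh26_mem {K : Subgroup A} {x z : A} :
    x * z * x⁻¹ ∈ K.map (MulAut.conj x).toMonoidHom ↔ z ∈ K := by
  rw [Subgroup.mem_map]
  constructor
  · rintro ⟨w, hw, h⟩
    have h1 : x * w * x⁻¹ = x * z * x⁻¹ := h
    have h2 : w = z := mul_left_cancel (mul_right_cancel h1)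
    rwa [← h2]
  · intro h
    exact ⟨z, h, rfl⟩

theorem gh26_central (K : Subgroup A) (y : A) :
    K.map (MulAut.conj (dl ^ (-(5 : ℤ)) * y)).toMonoidHom =
      K.map (MulAut.conj y).toMonoidHom := by
  congr 1
  refine MonoidHom.ext fun z => ?_
  have h1 : dl ^ (5 : ℤ) * (y * z * y⁻¹) = (y * z * y⁻¹) * dl ^ (5 : ℤ) := by
    have h := dl5_central (y * z * y⁻¹)
    exact_mod_cast h
  have h2 : dl ^ (-(5 : ℤ)) * y * z * (dl ^ (-(5 : ℤ)) * y)⁻¹ = y * z * y⁻¹ := by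
    have h3 : dl ^ (-(5 : ℤ)) * y * z * (dl ^ (-(5 : ℤ)) * y)⁻¹ =
        dl ^ (-(5 : ℤ)) * ((y * z * y⁻¹) * dl ^ (5 : ℤ)) := by
      group
    rw [h3, ← h1]
    group
  exact h2

theorem gh26_tau (a : ℕ) :
    gh26_L (tau a) = (gh26_L a).map (MulAut.conj (dl⁻¹ : A)).toMonoidHom := by
  rw [gh26_L, gh26_L, gh26_map_map, tau]
  have h1 : (5 * (a / 5) + (a % 5 + 1) % 5) / 5 = a / 5 := by omega
  have h2 : (5 * (a / 5) + (a % 5 + 1) % 5) % 5 = (a % 5 + 1) % 5 := by omega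
  rw [h1, h2]
  rcases Nat.lt_or_ge (a % 5) 4 with h3 | h3
  · have h4 : (a % 5 + 1) % 5 = a % 5 + 1 := by omega
    rw [h4]
    congr 3
    push_cast
    group
  · have h4 : a % 5 = 4 := by omega
    rw [h4]
    have h5 : dl⁻¹ * (dl ^ (-((4 : ℕ) : ℤ)) * gh26_y (a / 5)) =
        dl ^ (-(5 : ℤ)) * gh26_y (a / 5) := by
      group
    rw [h5, gh26_central]
    simp

theorem gh26_atm0 : atm 0 = s 0 := by simp [atm, rot, bs1]

theorem gh26_atm5 : atm 5 = s 1 := by simp [atm, rot, bs1]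

theorem gh26_atm10 : atm 10 = s 2 := by simp [atm, rot, bs1]

theorem gh26_atm1 : atm 1 = s 0 * s 1 * (s 0)⁻¹ := by
  have h1 : atm 1 = (s 1)⁻¹ * s 0 * s 1 := by
    have h : atm 1 = dl⁻¹ * s 0 * dl := by simp [atm, rot, bs1]
    rw [h, dl]
    have h2 : (s 0 * s 2 * s 1)⁻¹ * s 0 * (s 0 * s 2 * s 1) =
        (s 1)⁻¹ * ((s 2)⁻¹ * (s 0 * s 2)) * s 1 := by group
    rw [h2, rel02]
    group
  rw [h1, eq_mul_inv_iff_mul_eq]
  have h3 : (s 1)⁻¹ * s 0 * s 1 * s 0 = (s 1)⁻¹ * (s 0 * s 1 * s 0) := by group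
  rw [h3, rel01]
  group

theorem gh26_atm4 : atm 4 = s 2 * s 1 * (s 2)⁻¹ := by
  have h1 : atm 4 = dl * s 0 * dl⁻¹ := by
    have h : atm 4 = dl ^ (-(4 : ℤ)) * s 0 * dl ^ (4 : ℤ) := by simp [atm, rot, bs1]
    have h2 : dl ^ (5 : ℤ) * s 0 = s 0 * dl ^ (5 : ℤ) := by exact_mod_cast dl5_central (s 0)
    have h3 : dl * s 0 * dl⁻¹ = dl ^ (-(4 : ℤ)) * (dl ^ (5 : ℤ) * s 0) * dl⁻¹ := by group
    rw [h, h3, h2]
    group
  have h2 : s 1 * s 0 * (s 1)⁻¹ = (s 0)⁻¹ * s 1 * s 0 := by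
    have h3 : s 1 * s 0 * (s 1)⁻¹ = (s 0)⁻¹ * (s 0 * s 1 * s 0) * (s 1)⁻¹ := by group
    rw [h3, rel01]
    group
  rw [h1, dl]
  have h3 : s 0 * s 2 * s 1 * s 0 * (s 0 * s 2 * s 1)⁻¹ =
      s 0 * s 2 * (s 1 * s 0 * (s 1)⁻¹) * (s 0 * s 2)⁻¹ := by group
  rw [h3, h2, rel02]
  group

/-- the product of two consecutive atoms -/
theorem gh26_prod {x y x' y' : ℕ} (hx : x < 15) (hy : y < 15) (hx' : x' < 15) (hy' : y' < 15)
    (h : M (x + 1) (y + 1) ≠ 32) (h' : M (x' + 1) (y' + 1) = M (x + 1) (y + 1)) :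
    atm x * atm y = atm x' * atm y' := by
  have hv : ∀ n < 15, val (n + 1) = atm n := by
    intro n hn
    rw [val, if_neg (by omega), if_pos (by omega), Nat.add_sub_cancel]
  rw [← hv x hx, ← hv y hy, ← hv x' hx', ← hv y' hy', val_mul (by omega) (by omega) h,
    val_mul (by omega) (by omega) (by rw [h']; exact h), h']

theorem gh26_next {K : Subgroup A} {x y z : ℕ} (hx : x < 15) (hy : y < 15) (hz : z < 15)
    (h : M (x + 1) (y + 1) ≠ 32) (h' : M (y + 1) (z + 1) = M (x + 1) (y + 1))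
    (h1 : atm x ∈ K) (h2 : atm y ∈ K) : atm z ∈ K := by
  have h3 := gh26_prod hx hy hy hz h h'
  have h4 : atm z = (atm y)⁻¹ * (atm x * atm y) := by rw [h3]; group
  rw [h4]
  exact K.mul_mem (K.inv_mem h2) (K.mul_mem h1 h2)

theorem gh26_tab0 : ∀ b < 15, F b 0 = 0 → b = 1 ∨ b = 3 ∨ b = 9 ∨ b = 10 ∨ b = 14 := by
  decide +kernel

theorem gh26_tab5 : ∀ b < 15, F b 5 = 5 → b = 0 ∨ b = 10 := by
  decide +kernel

theorem gh26_tab10 : ∀ b < 15, F b 10 = 10 → b = 0 ∨ b = 4 ∨ b = 9 := by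
  decide +kernel

theorem gh26_rot : ∀ a < 15, ∀ b < 15, F b (tau a) = tau a →
    F (tau (tau (tau (tau b)))) a = a := by
  decide +kernel

theorem gh26_tau5 : ∀ b < 15, tau (tau (tau (tau (tau b)))) = b := by
  decide +kernel

theorem gh26_tau_lt : ∀ b < 15, tau b < 15 := by
  decide +kernel

theorem gh26_base0 : ∀ b < 15, F b 0 = 0 → atm b ∈ gh26_L 0 := by
  have hL : gh26_L 0 = (Subgroup.closure (PresentedGroup.of '' ({1, 2} : Set (Fin 3)))).map
      (MulAut.conj (s 0)).toMonoidHom := by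
    simp [gh26_L, gh26_X, gh26_y]
  have h10 : atm 10 ∈ gh26_L 0 := by
    have h : atm 10 = s 0 * s 2 * (s 0)⁻¹ := by
      rw [gh26_atm10, rel02]
      group
    rw [hL, h, gh26_mem]
    exact Subgroup.subset_closure ⟨2, by simp, rfl⟩
  have h1 : atm 1 ∈ gh26_L 0 := by
    rw [hL, gh26_atm1, gh26_mem]
    exact Subgroup.subset_closure ⟨1, by simp, rfl⟩
  have h3 : atm 3 ∈ gh26_L 0 := gh26_next (x := 10) (y := 1) (by decide) (by decide) (by decide)
    (by decide +kernel) (by decide +kernel) h10 h1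
  have h14 : atm 14 ∈ gh26_L 0 := gh26_next (x := 1) (y := 3) (by decide) (by decide) (by decide)
    (by decide +kernel) (by decide +kernel) h1 h3
  have h9 : atm 9 ∈ gh26_L 0 := gh26_next (x := 3) (y := 14) (by decide) (by decide) (by decide)
    (by decide +kernel) (by decide +kernel) h3 h14
  intro b hb h
  rcases gh26_tab0 b hb h with h | h | h | h | h <;> rw [h] <;> assumption

theorem gh26_base5 : ∀ b < 15, F b 5 = 5 → atm b ∈ gh26_L 5 := by
  have hL : gh26_L 5 = (Subgroup.closure (PresentedGroup.of '' ({0, 2} : Set (Fin 3)))).map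
      (MulAut.conj (1 : A)).toMonoidHom := by
    simp [gh26_L, gh26_X, gh26_y]
  intro b hb h
  rw [hL]
  rcases gh26_tab5 b hb h with h | h
  · have h1 : atm b = 1 * s 0 * 1⁻¹ := by rw [h, gh26_atm0]; group
    rw [h1, gh26_mem]
    exact Subgroup.subset_closure ⟨0, by simp, rfl⟩
  · have h1 : atm b = 1 * s 2 * 1⁻¹ := by rw [h, gh26_atm10]; group
    rw [h1, gh26_mem]
    exact Subgroup.subset_closure ⟨2, by simp, rfl⟩

theorem gh26_base10 : ∀ b < 15, F b 10 = 10 → atm b ∈ gh26_L 10 := by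
  have hL : gh26_L 10 = (Subgroup.closure (PresentedGroup.of '' ({0, 1} : Set (Fin 3)))).map
      (MulAut.conj (s 2)).toMonoidHom := by
    simp [gh26_L, gh26_X, gh26_y]
  have h0 : atm 0 ∈ gh26_L 10 := by
    have h : atm 0 = s 2 * s 0 * (s 2)⁻¹ := by
      rw [gh26_atm0, ← rel02]
      group
    rw [hL, h, gh26_mem]
    exact Subgroup.subset_closure ⟨0, by simp, rfl⟩
  have h4 : atm 4 ∈ gh26_L 10 := by
    rw [hL, gh26_atm4, gh26_mem]
    exact Subgroup.subset_closure ⟨1, by simp, rfl⟩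
  have h9 : atm 9 ∈ gh26_L 10 := gh26_next (x := 0) (y := 4) (by decide) (by decide) (by decide)
    (by decide +kernel) (by decide +kernel) h0 h4
  intro b hb h
  rcases gh26_tab10 b hb h with h | h | h <;> rw [h] <;> assumption

/-- the membership is invariant under the rotation -/
theorem gh26_step {a : ℕ} (ha : a < 15) (h : ∀ b < 15, F b a = a → atm b ∈ gh26_L a) :
    ∀ b < 15, F b (tau a) = tau a → atm b ∈ gh26_L (tau a) := by
  intro b hb hF
  set b0 := tau (tau (tau (tau b))) with hb0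
  have hb0' : b0 < 15 :=
    gh26_tau_lt _ (gh26_tau_lt _ (gh26_tau_lt _ (gh26_tau_lt _ hb)))
  have h1 := h b0 hb0' (gh26_rot a ha b hb hF)
  have h2 : atm b = dl⁻¹ * atm b0 * (dl⁻¹)⁻¹ := by
    rw [inv_inv, rot_atm hb0', hb0, gh26_tau5 b hb]
  rw [gh26_tau a, h2, gh26_mem]
  exact h1

theorem gh26_all {j : ℕ} (hj : j < 3)
    (h : ∀ b < 15, F b (5 * j) = 5 * j → atm b ∈ gh26_L (5 * j)) (m : ℕ) (hm : m < 5) :
    ∀ b < 15, F b (5 * j + m) = 5 * j + m → atm b ∈ gh26_L (5 * j + m) := by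
  induction m with
  | zero => exact h
  | succ m ih =>
    have h1 : tau (5 * j + m) = 5 * j + (m + 1) := by
      rw [tau]
      omega
    have h2 := gh26_step (a := 5 * j + m) (by omega) (ih (by omega))
    rw [h1] at h2
    exact h2

theorem exists_par : ∃ L : ℕ → Subgroup A,
    (∀ a < 15, ∃ (X : Set (Fin 3)) (y : A), X ≠ Set.univ ∧ X.Nonempty ∧
      L a = (Subgroup.closure (PresentedGroup.of '' X)).map (MulAut.conj y).toMonoidHom) ∧
    (∀ a < 15, ∀ b < 15, F b a = a → atm b ∈ L a) ∧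
    ∀ a < 15, L (tau a) = (L a).map (MulAut.conj (dl⁻¹ : A)).toMonoidHom := by
  refine ⟨gh26_L, fun a ha => ⟨gh26_X (a / 5), dl ^ (-((a % 5 : ℕ) : ℤ)) * gh26_y (a / 5),
    ?_, ?_, rfl⟩, fun a ha => ?_, fun a _ => gh26_tau a⟩
  · unfold gh26_X
    split_ifs
    · intro h
      have h1 : (0 : Fin 3) ∈ ({1, 2} : Set (Fin 3)) := by rw [h]; exact Set.mem_univ _
      simp at h1
    · intro h
      have h1 : (1 : Fin 3) ∈ ({0, 2} : Set (Fin 3)) := by rw [h]; exact Set.mem_univ _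
      simp at h1
    · intro h
      have h1 : (2 : Fin 3) ∈ ({0, 1} : Set (Fin 3)) := by rw [h]; exact Set.mem_univ _
      simp at h1
  · unfold gh26_X
    split_ifs
    · exact ⟨1, by simp⟩
    · exact ⟨0, by simp⟩
    · exact ⟨0, by simp⟩
  · have h1 : a = 5 * (a / 5) + a % 5 := (Nat.div_add_mod a 5).symm
    have h2 : a / 5 < 3 := by omega
    rw [h1]
    refine gh26_all h2 ?_ (a % 5) (Nat.mod_lt _ (by norm_num))
    generalize a / 5 = j at h2
    interval_cases j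
    · exact gh26_base0
    · exact gh26_base5
    · exact gh26_base10

end H3

end Pool.Agent.H88.GH
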