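import Pool.Agent.H88.GH.Rel

/-! # Project GH (MP_35eb49), row GH-25: proper parabolic subgroups -/

set_option autoImplicit false

namespace Pool.Agent.H88.GH

namespace H3

open scoped Pointwise

theorem gh25_key {n : ℕ} (f : Fin 3 → Equiv.Perm (Fin n))
    (h01 : f 0 * f 1 * f 0 = f 1 * f 0 * f 1) (h02 : f 0 * f 2 = f 2 * f 0)
    (h12 : f 1 * f 2 * f 1 * f 2 * f 1 = f 2 * f 1 * f 2 * f 1 * f 2)
    (S : Finset (Fin n)) (i : Fin 3) (hS : ∀ j, j ≠ i → f j • S = S) (hi : f i • S ≠ S)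
    {X : Set (Fin 3)} (hX : i ∉ X) :
    Subgroup.closure (PresentedGroup.of '' X : Set A) ≠ ⊤ := by
  obtain ⟨φ, hφ⟩ := exists_hom f h01 h02 h12
  intro h
  have h1 : Subgroup.closure (PresentedGroup.of '' X : Set A) ≤
      (MulAction.stabilizer (Equiv.Perm (Fin n)) S).comap φ := by
    rw [Subgroup.closure_le]
    rintro _ ⟨j, hj, rfl⟩
    rw [SetLike.mem_coe, Subgroup.mem_comap, MulAction.mem_stabilizer_iff]
    have e : φ (PresentedGroup.of j) = f j := hφ j
    rw [e]
    exact hS j (fun e => hX (e ▸ hj))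
  have h2 : s i ∈ (MulAction.stabilizer (Equiv.Perm (Fin n)) S).comap φ :=
    h1 (h ▸ Subgroup.mem_top _)
  rw [Subgroup.mem_comap, MulAction.mem_stabilizer_iff, hφ] at h2
  exact hi h2

/-- The involutions in the alternating group of degree five. -/
def gh25_f5 : Fin 3 → Equiv.Perm (Fin 5) :=
  ![Equiv.swap 1 2 * Equiv.swap 3 4, Equiv.swap 0 1 * Equiv.swap 3 4,
    Equiv.swap 1 3 * Equiv.swap 2 4]

/-- The involutions of the transitive action on six points. -/
def gh25_f6 : Fin 3 → Equiv.Perm (Fin 6) :=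
  ![Equiv.swap 2 3 * Equiv.swap 4 5, Equiv.swap 0 2 * Equiv.swap 1 4,
    Equiv.swap 0 1 * Equiv.swap 4 5]

theorem closure_ne_top {X : Set (Fin 3)} (hX : X ≠ Set.univ) :
    Subgroup.closure (PresentedGroup.of '' X : Set A) ≠ ⊤ := by
  obtain ⟨i, hi⟩ := (Set.ne_univ_iff_exists_notMem X).1 hX
  fin_cases i
  · exact gh25_key gh25_f6 (by decide) (by decide) (by decide) {3} 0 (by decide) (by decide) hi
  · exact gh25_key gh25_f5 (by decide) (by decide) (by decide) {0} 1 (by decide) (by decide) hi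
  · exact gh25_key gh25_f5 (by decide) (by decide) (by decide) {3, 4} 2 (by decide) (by decide) hi

theorem closure_ne_bot {X : Set (Fin 3)} (hX : X.Nonempty) :
    Subgroup.closure (PresentedGroup.of '' X : Set A) ≠ ⊥ := by
  obtain ⟨i, hi⟩ := hX
  obtain ⟨φ, hφ⟩ := exists_hom gh25_f5 (by decide) (by decide) (by decide)
  intro h
  have h1 : s i ∈ Subgroup.closure (PresentedGroup.of '' X : Set A) :=
    Subgroup.subset_closure ⟨i, hi, rfl⟩
  rw [h, Subgroup.mem_bot] at h1
  have h2 := hφ i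
  rw [h1, map_one] at h2
  have h3 : ∀ j, (1 : Equiv.Perm (Fin 5)) ≠ gh25_f5 j := by decide
  exact h3 i h2

end H3

end Pool.Agent.H88.GH
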