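import Pool.Agent.H88.GH.Defs3

/-!
# Project GH (MP_35eb49), row GH-17: from flats of a Garside structure to flats of tiles
-/

set_option autoImplicit false

namespace Pool.Agent.H88.GH

open Gar

theorem gh17_ck : (allB 15 fun a => allB 15 fun b =>
    Nat.beq (J a b) 15 || Nat.blt (F a b) 15) = true := by decide +kernel

theorem gh17_F {a b : ℕ} (ha : a < 15) (hb : b < 15) (h : J a b ≠ 15) : F a b < 15 := by
  have h1 := allB_spec (allB_spec gh17_ck ha) hb
  rw [Bool.or_eq_true] at h1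
  rcases h1 with h1 | h1
  · exact absurd (Nat.beq_eq.mp h1) h
  · exact Nat.blt_eq.mp h1

theorem gh17_neB {x y : ℕ} (h : x ≠ y) : neB x y = true := by
  unfold neB
  cases hb : Nat.beq x y with
  | true => exact absurd (Nat.beq_eq.mp hb) h
  | false => rfl

theorem gh17_tau {a : ℕ} (ha : a < 15) : tau a < 15 := by
  unfold tau
  omega

section extraction

variable {G : Type} [Group G] [Gar G] {Y : (Fin 3 → ℤ) → G} {D : ℤ} {atm : ℕ → G}

/-- the joins of neighbours in a flat -/
theorem gh17_sup (hY : IsFlat Y D) (v : Fin 3 → ℤ) {i j : Fin 3} (hij : i ≠ j) :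
    Y (v + e i) ⊔ Y (v + e j) = Y (v + e i + e j) := by
  have h1 : Y (v + e i) ≤ Y (v + e i + e j) := (hY.lt _ _).le
  have h2 : Y (v + e j) ≤ Y (v + e i + e j) := by
    have h3 : v + e i + e j = v + e j + e i := by abel
    rw [h3]
    exact (hY.lt _ _).le
  have h3 : Y (v + e i) ⊔ Y (v + e j) ≤ Y (v + e i + e j) := sup_le h1 h2
  apply eq_of_le h3
  have h4 : Gar.len (Y (v + e i + e j)) = Gar.len (Y v) + 2 := by
    rw [hY.len, hY.len]
    omega
  by_contra hc
  have h5 : Gar.len (Y (v + e i) ⊔ Y (v + e j)) ≤ Gar.len (Y v) + 1 := by omega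
  have h6 := eq_of_le (le_sup_left : Y (v + e i) ≤ Y (v + e i) ⊔ Y (v + e j))
    (by rw [hY.len v i]; exact h5)
  have h7 := eq_of_le (le_sup_right : Y (v + e j) ≤ Y (v + e i) ⊔ Y (v + e j))
    (by rw [hY.len v j]; exact h5)
  exact hY.ne v i j hij (h6.trans h7.symm)

/-! GH-17 TileX.lean -/

theorem tflat_of_flat (h : HTab atm) (hY : IsFlat Y D) :
    ∃ T, TFlat T D ∧ ∀ v i, Y (v + e i) = Y v * atm (T v i) := by
  have hex : ∀ (v : Fin 3 → ℤ) (i : Fin 3), ∃ a < 15, Y (v + e i) = Y v * atm a := by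
    intro v i
    have h1 : (Y v)⁻¹ * Y (v + e i) ∈ (P : Submonoid G) := (hY.lt v i).le
    have h2 : Gar.len ((Y v)⁻¹ * Y (v + e i)) = 1 := by
      rw [Gar.len_mul, Gar.len_inv, hY.len]
      omega
    obtain ⟨a, ha, hp⟩ := h.all _ h1 h2
    refine ⟨a, ha, ?_⟩
    rw [← hp, mul_inv_cancel_left]
  choose T hT1 hT2 using hex
  -- uniqueness of the index
  have huniq : ∀ (v : Fin 3 → ℤ) (i : Fin 3) (a : ℕ), a < 15 → Y (v + e i) = Y v * atm a →
      T v i = a := by
    intro v i a ha hp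
    rw [hT2 v i] at hp
    exact h.inj _ (hT1 v i) _ ha (mul_left_cancel hp)
  -- joins of two atoms
  have hjoin : ∀ (v : Fin 3 → ℤ) (i j : Fin 3), i ≠ j →
      Y v * (atm (T v i) ⊔ atm (T v j)) = Y (v + e i + e j) := by
    intro v i j hij
    rw [mul_sup', ← hT2, ← hT2]
    exact gh17_sup hY v hij
  have hne : ∀ (v : Fin 3 → ℤ) (i j : Fin 3), i ≠ j → T v i ≠ T v j := by
    intro v i j hij heq
    apply hY.ne v i j hij
    rw [hT2 v i, hT2 v j, heq]
  have hJ : ∀ (v : Fin 3 → ℤ) (i j : Fin 3), i ≠ j → J (T v i) (T v j) ≠ 15 ∧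
      atm (T v i) ⊔ atm (T v j) = atm (T v i) * atm (F (T v i) (T v j)) := by
    intro v i j hij
    apply h.join _ (hT1 v i) _ (hT1 v j) (hne v i j hij)
    have h1 := congrArg Gar.len (hjoin v i j hij)
    rw [Gar.len_mul, hY.len, hY.len] at h1
    omega
  refine ⟨T, ⟨hY.pos, hT1, ?_, ?_, ?_, ?_⟩, hT2⟩
  · intro v i j k hij hjk hik
    have key : ∀ a b c : Fin 3, a ≠ b → b ≠ c → a ≠ c →
        J (T v a) (T v b) ≠ J (T v b) (T v c) := by
      intro a b c hab hbc hac heq
      have h1 := h.joinJ _ (hT1 v a) _ (hT1 v b) _ (hT1 v b) _ (hT1 v c) (hJ v a b hab).1 heq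
      have h2 := hjoin v a b hab
      rw [h1, hjoin v b c hbc] at h2
      apply hY.ne (v + e b) a c hac
      rw [h2]
      congr 1
      abel
    have key2 : J (T v i) (T v j) ≠ J (T v i) (T v k) := by
      intro heq
      have h1 := h.joinJ _ (hT1 v i) _ (hT1 v j) _ (hT1 v i) _ (hT1 v k) (hJ v i j hij).1 heq
      have h2 := hjoin v i j hij
      rw [h1, hjoin v i k hik] at h2
      exact hY.ne (v + e i) j k hjk h2.symm
    have key3 : J (T v j) (T v k) ≠ J (T v i) (T v k) := by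
      intro heq
      have h1 := h.joinJ _ (hT1 v j) _ (hT1 v k) _ (hT1 v i) _ (hT1 v k) (hJ v j k hjk).1 heq
      have h2 := hjoin v j k hjk
      rw [h1, hjoin v i k hik] at h2
      apply hY.ne (v + e k) i j hij
      have e1 : v + e k + e i = v + e i + e k := by abel
      have e2 : v + e k + e j = v + e j + e k := by abel
      rw [e1, e2]
      exact h2
    unfold tile
    rw [gh17_neB (hJ v i j hij).1, gh17_neB (hJ v j k hjk).1, gh17_neB (hJ v i k hik).1,
      gh17_neB (key i j k hij hjk hik), gh17_neB key3, gh17_neB key2]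
    rfl
  · intro v i j hij
    have h1 := hJ v i j hij
    apply huniq _ _ _ (gh17_F (hT1 v i) (hT1 v j) h1.1)
    rw [← hjoin v i j hij, h1.2, ← mul_assoc, ← hT2]
  · intro v i
    apply huniq _ _ _ (gh17_tau (hT1 v i))
    have e1 : v + 1 + e i = v + e i + 1 := by abel
    rw [e1, hY.diag, hY.diag, hT2, ← h.tau _ (hT1 v i)]
    group
  · intro v j
    funext i
    obtain ⟨Z, hZ⟩ := hY.per j
    apply huniq _ _ _ (hT1 v i)
    have e1 : v + D • e j + e i = v + e i + D • e j := by abel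
    rw [e1, hZ, hZ, hT2, mul_assoc]

end extraction

end Pool.Agent.H88.GH
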