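import Pool.Agent.H88.GH.Defs3

/-!
# Project GH (MP_35eb49), row GH-18: uniform sources and sinks give constant data
-/

set_option autoImplicit false

namespace Pool.Agent.H88.GH

open Gar

section extraction

variable {G : Type} [Group G] [Gar G] {Y : (Fin 3 → ℤ) → G} {D : ℤ} {atm : ℕ → G}

/-- A function on `ℤ³` that is invariant under `1` and two of the three unit vectors is
constant. -/
theorem gh18_const {α : Type} {φ : (Fin 3 → ℤ) → α} {i : Fin 3}
    (h1 : ∀ v, φ (v + 1) = φ v) (h2 : ∀ v j, j ≠ i → φ (v + e j) = φ v) (v w : Fin 3 → ℤ) :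
    φ v = φ w := by
  have hone : ∀ v : Fin 3 → ℤ, v + 1 = v + e 0 + e 1 + e 2 := by
    intro v
    funext l
    fin_cases l <;> simp [e]
  have h3 : ∀ (v : Fin 3 → ℤ) (j : Fin 3), φ (v + e j) = φ v := by
    intro v j
    by_cases hj : j = i
    · subst hj
      have h4 := h1 v
      rw [hone] at h4
      fin_cases j
      · rw [h2 _ 2 (by decide), h2 _ 1 (by decide)] at h4
        exact h4
      · rw [h2 _ 2 (by decide), show v + e 0 + e 1 = v + e 1 + e 0 by abel,
          h2 _ 0 (by decide)] at h4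
        exact h4
      · rw [show v + e 0 + e 1 + e 2 = v + e 2 + e 0 + e 1 by abel, h2 _ 1 (by decide),
          h2 _ 0 (by decide)] at h4
        exact h4
    · exact h2 v j hj
  have h5 : ∀ (v : Fin 3 → ℤ) (j : Fin 3) (n : ℤ), φ (v + n • e j) = φ v := by
    intro v j n
    induction n using Int.induction_on with
    | zero => simp
    | succ n ih =>
      rw [add_smul, one_smul, ← add_assoc, h3, ih]
    | pred n ih =>
      rw [← ih, ← h3 (v + (-(n : ℤ) - 1) • e j) j, add_assoc, sub_smul, one_smul, sub_add_cancel]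
  have h6 : ∀ v : Fin 3 → ℤ, φ v = φ 0 := by
    intro v
    have h7 : v = 0 + v 0 • e 0 + v 1 • e 1 + v 2 • e 2 := by
      funext l
      fin_cases l <;> simp [e]
    rw [h7, h5, h5, h5]
  rw [h6 v, h6 w]

theorem gh18_len (h : HTab atm) (hY : IsFlat Y D) {T : (Fin 3 → ℤ) → Fin 3 → ℕ}
    (hT : TFlat T D) (hYT : ∀ v i, Y (v + e i) = Y v * atm (T v i)) (v : Fin 3 → ℤ)
    {i j : Fin 3} (hij : i ≠ j) : Gar.len (atm (T v i) ⊔ atm (T v j)) = 2 := by
  have hne : atm (T v i) ≠ atm (T v j) := by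
    intro hh
    apply hY.ne v i j hij
    rw [hYT, hYT, hh]
  have hle1 : atm (T v i) ≤ (Y v)⁻¹ * Y (v + e i + e j) := by
    have h1 := (hY.lt (v + e i) j).le
    rw [← mul_le_mul_iff (Y v)⁻¹, hYT v i, inv_mul_cancel_left] at h1
    exact h1
  have hle2 : atm (T v j) ≤ (Y v)⁻¹ * Y (v + e i + e j) := by
    have h1 := (hY.lt (v + e j) i).le
    rw [← mul_le_mul_iff (Y v)⁻¹, hYT v j, inv_mul_cancel_left,
      show v + e j + e i = v + e i + e j by abel] at h1
    exact h1
  have h2 := len_le (sup_le hle1 hle2)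
  rw [len_mul, len_inv, hY.len, hY.len] at h2
  have h3 : atm (T v i) < atm (T v i) ⊔ atm (T v j) := by
    refine lt_of_le_of_ne le_sup_left fun hh => hne ?_
    have h4 : atm (T v j) ≤ atm (T v i) := by
      rw [hh]
      exact le_sup_right
    exact (eq_of_le h4 (by rw [h.len _ (hT.lt v i), h.len _ (hT.lt v j)])).symm
  have h5 := len_lt h3
  rw [h.len _ (hT.lt v i)] at h5
  omega

theorem gh18_swap (h : HTab atm) (hY : IsFlat Y D) {T : (Fin 3 → ℤ) → Fin 3 → ℕ}
    (hT : TFlat T D) (hYT : ∀ v i, Y (v + e i) = Y v * atm (T v i)) (v : Fin 3 → ℤ)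
    {i j : Fin 3} (hij : i ≠ j) :
    atm (T v i) * atm (F (T v i) (T v j)) = atm (T v j) * atm (F (T v j) (T v i)) := by
  have hne : T v i ≠ T v j := by
    intro hh
    apply hY.ne v i j hij
    rw [hYT, hYT, hh]
  have h1 := (h.join _ (hT.lt v i) _ (hT.lt v j) hne (gh18_len h hY hT hYT v hij)).2
  have h2 := (h.join _ (hT.lt v j) _ (hT.lt v i) hne.symm (gh18_len h hY hT hYT v hij.symm)).2
  rw [← h1, ← h2, sup_comm]

theorem src_const (h : HTab atm) (hY : IsFlat Y D) {T : (Fin 3 → ℤ) → Fin 3 → ℕ}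
    (hT : TFlat T D) (hYT : ∀ v i, Y (v + e i) = Y v * atm (T v i)) {i : Fin 3}
    (hs : ∀ v, Src (T v) i) (v w : Fin 3 → ℤ) :
    Y v * atm (T v i) * (Y v)⁻¹ = Y w * atm (T w i) * (Y w)⁻¹ := by
  refine gh18_const (φ := fun v => Y v * atm (T v i) * (Y v)⁻¹) (i := i) ?_ ?_ v w
  · intro v
    show Y (v + 1) * atm (T (v + 1) i) * (Y (v + 1))⁻¹ = Y v * atm (T v i) * (Y v)⁻¹
    rw [hY.diag, hT.diag, ← h.tau _ (hT.lt v i)]
    group
  · intro v j hj
    show Y (v + e j) * atm (T (v + e j) i) * (Y (v + e j))⁻¹ = Y v * atm (T v i) * (Y v)⁻¹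
    have h1 := gh18_swap h hY hT hYT v hj
    rw [hs v j hj] at h1
    rw [hYT v j, hT.rule v j i hj, mul_assoc (Y v), h1]
    group

theorem snk_const (h : HTab atm) (hY : IsFlat Y D) {T : (Fin 3 → ℤ) → Fin 3 → ℕ}
    (hT : TFlat T D) (hYT : ∀ v i, Y (v + e i) = Y v * atm (T v i)) {i : Fin 3}
    (L : ℕ → Subgroup G) (hL1 : ∀ a < 15, ∀ b < 15, F b a = a → atm b ∈ L a)
    (hL2 : ∀ a < 15, L (tau a) = (L a).map (MulAut.conj (δ⁻¹ : G)).toMonoidHom)
    (hs : ∀ v, Snk (T v) i) (v w : Fin 3 → ℤ) :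
    (L (T v i)).map (MulAut.conj (Y v)).toMonoidHom =
      (L (T w i)).map (MulAut.conj (Y w)).toMonoidHom := by
  have hmap : ∀ (x y : G) (K : Subgroup G), K.map (MulAut.conj (x * y)).toMonoidHom =
      (K.map (MulAut.conj y).toMonoidHom).map (MulAut.conj x).toMonoidHom := by
    intro x y K
    rw [Subgroup.map_map]
    congr 1
    ext z
    simp [mul_assoc]
  refine gh18_const (φ := fun v => (L (T v i)).map (MulAut.conj (Y v)).toMonoidHom)
    (i := i) ?_ ?_ v w
  · intro v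
    show (L (T (v + 1) i)).map (MulAut.conj (Y (v + 1))).toMonoidHom =
      (L (T v i)).map (MulAut.conj (Y v)).toMonoidHom
    rw [hY.diag, hT.diag, hL2 _ (hT.lt v i), ← hmap]
    congr 3
    group
  · intro v j hj
    show (L (T (v + e j) i)).map (MulAut.conj (Y (v + e j))).toMonoidHom =
      (L (T v i)).map (MulAut.conj (Y v)).toMonoidHom
    have hmem : atm (T v j) ∈ L (T v i) := hL1 _ (hT.lt v i) _ (hT.lt v j) (hs v j hj)
    have hK : (L (T v i)).map (MulAut.conj (atm (T v j))).toMonoidHom = L (T v i) :=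
      Subgroup.conj_smul_eq_self_of_mem hmem
    rw [hYT v j, hT.rule v j i hj, hs v j hj, hmap, hK]

end extraction

end Pool.Agent.H88.GH
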