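import Pool.Agent.H88.GH.RankTwo
import Pool.Agent.H88.GH.FlatEx
import Pool.Agent.H88.GH.Classify
import Pool.Agent.H88.GH.TileX
import Pool.Agent.H88.GH.Unif
import Pool.Agent.H88.GH.GarH
import Pool.Agent.H88.GH.Proper
import Pool.Agent.H88.GH.ParL

/-!
# Project GH (MP_35eb49), row GH-27: algebraic pseudo-Anosov elements of `A(H₃)`
-/

set_option autoImplicit false

namespace Pool.Agent.H88.GH

open Gar

/-- flats of tiles are periodic -/
theorem gh27_per {T : (Fin 3 → ℤ) → Fin 3 → ℕ} {D : ℤ} (hT : TFlat T D) (q : Fin 3 → ℤ)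
    (v : Fin 3 → ℤ) : T (v + D • q) = T v := by
  have h1 : ∀ (j : Fin 3) (n : ℕ) (v : Fin 3 → ℤ), T (v + ((n : ℤ) * D) • e j) = T v :=
    fun j n v => gh16_pow hT v j n
  have h2 : ∀ (j : Fin 3) (m : ℤ) (v : Fin 3 → ℤ), T (v + (m * D) • e j) = T v := by
    intro j m v
    obtain ⟨n, rfl | rfl⟩ := m.eq_nat_or_neg
    · exact h1 j n v
    · have h3 := h1 j n (v + (-(n : ℤ) * D) • e j)
      rw [← h3]
      congr 1
      rw [neg_mul, neg_smul]
      abel
  have h3 : v + D • q = v + (q 0 * D) • e 0 + (q 1 * D) • e 1 + (q 2 * D) • e 2 := by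
    funext l
    unfold e
    fin_cases l <;> simp [mul_comm]
  rw [h3, h2, h2, h2]

section

variable {G : Type} [Group G] [Gar G]

/-- a flat yields an atom whose conjugate is centralized, or a conjugate of one of the subgroups
`L a` that is normalized by a power of `g` -/
theorem gh27_flat {g : G} {Y : (Fin 3 → ℤ) → G} {D : ℤ} {atm : ℕ → G} (h : HTab atm)
    (hY : IsFlat Y D) {k : ℕ} {q : Fin 3 → ℤ} (hg : ∀ v, g ^ k * Y v = Y (v + D • q))
    (L : ℕ → Subgroup G) (hL1 : ∀ a < 15, ∀ b < 15, F b a = a → atm b ∈ L a)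
    (hL2 : ∀ a < 15, L (tau a) = (L a).map (MulAut.conj (δ⁻¹ : G)).toMonoidHom) :
    ∃ a < 15, ∃ y : G, (g ^ k * (y * atm a * y⁻¹) * (g ^ k)⁻¹ = y * atm a * y⁻¹) ∨
      ((L a).map (MulAut.conj y).toMonoidHom).map (MulAut.conj (g ^ k)).toMonoidHom =
        (L a).map (MulAut.conj y).toMonoidHom := by
  obtain ⟨T, hT, hYT⟩ := tflat_of_flat h hY
  obtain ⟨i, hs | hs⟩ := classify hT
  · refine ⟨T 0 i, hT.lt 0 i, Y 0, Or.inl ?_⟩
    have h1 := src_const h hY hT hYT hs 0 (0 + D • q)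
    rw [gh27_per hT, ← hg] at h1
    calc g ^ k * (Y 0 * atm (T 0 i) * (Y 0)⁻¹) * (g ^ k)⁻¹
        = g ^ k * Y 0 * atm (T 0 i) * (g ^ k * Y 0)⁻¹ := by group
      _ = _ := h1.symm
  · refine ⟨T 0 i, hT.lt 0 i, Y 0, Or.inr ?_⟩
    have h1 := snk_const h hY hT hYT L hL1 hL2 hs 0 (0 + D • q)
    rw [gh27_per hT, ← hg] at h1
    have h2 : ((L (T 0 i)).map (MulAut.conj (Y 0)).toMonoidHom).map
        (MulAut.conj (g ^ k)).toMonoidHom =
        (L (T 0 i)).map (MulAut.conj (g ^ k * Y 0)).toMonoidHom := by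
      rw [Subgroup.map_map]
      congr 1
      refine MonoidHom.ext fun x => ?_
      rw [map_mul]
      rfl
    exact h2.trans h1.symm

end

namespace H3

/-- conjugates of proper nontrivial subgroups are proper and nontrivial -/
theorem gh27_conj {H : Subgroup A} (y : A) (h : H.map (MulAut.conj y).toMonoidHom = ⊤) :
    H = ⊤ := by
  rw [eq_top_iff]
  intro x _
  have h1 : MulAut.conj y x ∈ H.map (MulAut.conj y).toMonoidHom := by
    rw [h]
    exact Subgroup.mem_top _
  obtain ⟨z, hz, hz'⟩ := h1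
  have h2 : z = x := (MulAut.conj y).injective hz'
  rw [← h2]
  exact hz

theorem gh27_conj' {H : Subgroup A} (y : A) (h : H.map (MulAut.conj y).toMonoidHom = ⊥) :
    H = ⊥ := by
  rw [Subgroup.map_eq_bot_iff_of_injective] at h
  · exact h
  · exact (MulAut.conj y).injective

theorem gh27_closure_single (i : Fin 3) :
    Subgroup.closure (PresentedGroup.of '' ({i} : Set (Fin 3)) : Set A) =
      Subgroup.zpowers (s i) := by
  rw [Set.image_singleton, Subgroup.zpowers_eq_closure]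
  rfl

theorem gh27_single (i : Fin 3) : ({i} : Set (Fin 3)) ≠ Set.univ := by
  intro h
  have h1 : ∀ i : Fin 3, ∃ j, j ≠ i := by decide
  obtain ⟨j, hj⟩ := h1 i
  exact hj (by
    have : j ∈ ({i} : Set (Fin 3)) := by rw [h]; exact Set.mem_univ j
    exact this)

theorem gh27_atm (n : ℕ) : ∃ (i : Fin 3) (y : A), atm n = y * s i * y⁻¹ := by
  have h1 : ∃ i, bs1 (n / 5) = s i := by
    unfold bs1
    split
    exacts [⟨0, rfl⟩, ⟨1, rfl⟩, ⟨2, rfl⟩]
  obtain ⟨i, hi⟩ := h1
  refine ⟨i, dl ^ (-((n % 5 : ℕ) : ℤ)), ?_⟩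
  unfold atm rot
  rw [hi, ← zpow_neg, neg_neg]

theorem main (g : A) (hg : ∀ P : Subgroup A, (∃ (X : Set (Fin 3)) (a : A),
      P = (Subgroup.closure (PresentedGroup.of '' X)).map (MulAut.conj a).toMonoidHom) →
      P ≠ ⊤ → P ≠ ⊥ → ∀ k : ℕ, 0 < k → P.map (MulAut.conj (g ^ k)).toMonoidHom ≠ P) :
    (Subgroup.zpowers g ⊔ Subgroup.center A).relIndex (Subgroup.centralizer {g}) ≠ 0 := by
  intro hi
  obtain ⟨G, hP, hδ, hH⟩ := exists_gar
  -- conjugates of standard parabolic subgroups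
  have hg' : ∀ (X : Set (Fin 3)) (y : A), X ≠ Set.univ → X.Nonempty → ∀ k : ℕ, 0 < k →
      ((Subgroup.closure (PresentedGroup.of '' X)).map (MulAut.conj y).toMonoidHom).map
        (MulAut.conj (g ^ k)).toMonoidHom ≠
      (Subgroup.closure (PresentedGroup.of '' X)).map (MulAut.conj y).toMonoidHom := by
    intro X y hX hX' k hk
    exact hg _ ⟨X, y, rfl⟩ (fun h => closure_ne_top hX (gh27_conj y h))
      (fun h => closure_ne_bot hX' (gh27_conj' y h)) k hk
  -- `g` is not periodic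
  have hper : ∀ m : ℕ, 0 < m → ∀ k : ℤ, g ^ m ≠ (Gar.δ : A) ^ k := by
    intro m hm k h
    refine hg' {0} 1 (gh27_single 0) (Set.singleton_nonempty 0) (m * 5) (by omega) ?_
    have h1 : g ^ (m * 5) ∈ Subgroup.center A := by
      rw [Subgroup.mem_center_iff]
      intro x
      have h2 : g ^ (m * 5) = (Gar.δ : A) ^ (5 * k) := by
        rw [pow_mul, h, ← zpow_natCast, ← zpow_mul]
        congr 1
        push_cast
        ring
      rw [h2]
      exact (central_zpow k x).symm
    have h3 : (MulAut.conj (g ^ (m * 5))).toMonoidHom = MonoidHom.id A := by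
      refine MonoidHom.ext fun x => ?_
      have := (Subgroup.mem_center_iff.mp h1) x
      simp only [MulEquiv.toMonoidHom_eq_coe, MonoidHom.coe_coe, MulAut.conj_apply,
        MonoidHom.id_apply]
      rw [← this, mul_inv_cancel_right]
    rw [h3, Subgroup.map_id]
  obtain ⟨u, hgu, hind⟩ := exists_rank_two g hper hi
  obtain ⟨Y, D, k, q, hY, hk, hgY⟩ := exists_flat hgu hind
  obtain ⟨L, hL, hL1, hL2⟩ := exists_par
  obtain ⟨a, ha, y, h1 | h1⟩ := gh27_flat hH hY hgY L hL1 (by rw [hδ]; exact hL2)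
  · -- a conjugate of a standard generator is centralized
    obtain ⟨i, z, hz⟩ := gh27_atm a
    refine hg' {i} (y * z) (gh27_single i) (Set.singleton_nonempty i) k hk ?_
    rw [gh27_closure_single, MonoidHom.map_zpowers, MonoidHom.map_zpowers]
    congr 1
    have h2 : (MulAut.conj (y * z)).toMonoidHom (s i) = y * atm a * y⁻¹ := by
      rw [hz]
      simp [mul_assoc]
    rw [h2]
    exact h1
  · obtain ⟨X, z, hX, hX', hLa⟩ := hL a ha
    refine hg' X (y * z) hX hX' k hk ?_
    have h2 : (Subgroup.closure (PresentedGroup.of '' X)).map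
        (MulAut.conj (y * z)).toMonoidHom = (L a).map (MulAut.conj y).toMonoidHom := by
      rw [hLa, Subgroup.map_map]
      congr 1
      refine MonoidHom.ext fun x => ?_
      rw [map_mul]
      rfl
    rw [h2]
    exact h1

end H3

end Pool.Agent.H88.GH
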