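import Pool.Agent.H88.GH.IsTPr
import Pool.Agent.H88.GH.Far
import Pool.Agent.H88.GH.Greedy

/-!
# Project GH (MP_35eb49), row GH-6: there is no ray if the centralizer is torsion
-/

set_option autoImplicit false

namespace Pool.Agent.H88.GH

namespace Gar

variable {G : Type} [Group G] [Gar G]

/-- Loops at the state `(h, s)`. -/
structure gh6_Loop (h s w : G) (n : ℕ) (a : ℤ) (b : ℕ) (c : ℤ) : Prop where
  gr : Gr s w s n
  pos : 0 < n
  comm : Commute h w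
  bpos : 0 < b
  rel : h ^ a * w ^ b = δ ^ (5 * c)

section loops

variable {h s w w' : G} {n n' b b' : ℕ} {a a' c c' : ℤ}

theorem gh6_pow (H : gh6_Loop h s w n a b c) (m : ℕ) :
    w ^ (b * m) = h ^ (-(a * m)) * δ ^ (5 * (c * m)) := by
  have h1 : w ^ b = h ^ (-a) * δ ^ (5 * c) := by
    rw [← H.rel, ← mul_assoc, ← zpow_add, neg_add_cancel, zpow_zero, one_mul]
  have hcomm : Commute (h ^ (-a)) (δ ^ (5 * c) : G) := (central_zpow c _).symm
  rw [pow_mul, h1, hcomm.mul_pow, ← zpow_natCast, ← zpow_natCast, ← zpow_mul, ← zpow_mul]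
  congr 2
  · ring
  · ring

theorem gh6_ne (H : gh6_Loop h s w n a b c) : a ≠ 0 := by
  intro h0
  have h1 := gh6_pow H 1
  rw [h0] at h1
  simp only [zero_mul, neg_zero, zpow_zero, one_mul, mul_one] at h1
  exact (H.gr.pow b).ne_zpow (Nat.mul_pos H.bpos H.pos) _ h1

theorem gh6_d (H : gh6_Loop h s w n a b c) (m : ℕ) : d (h ^ (-(a * m))) 1 = 5 * (c * m) := by
  have h1 := (H.gr.pow (b * m)).d_one
  rw [gh6_pow H, d_zpow_mul] at h1
  linarith

theorem gh6_sign (H : gh6_Loop h s w n a b c) (H' : gh6_Loop h s w' n' a' b' c')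
    (ha : 0 < a) (ha' : a' < 0) : False := by
  have h1 := gh6_pow H (-a').toNat
  have h2 := gh6_pow H' a.toNat
  have e1 : (((-a').toNat : ℕ) : ℤ) = -a' := Int.toNat_of_nonneg (by omega)
  have e2 : ((a.toNat : ℕ) : ℤ) = a := Int.toNat_of_nonneg ha.le
  rw [e1] at h1
  rw [e2] at h2
  have h3 : w ^ (b * (-a').toNat) * w' ^ (b' * a.toNat) =
      δ ^ (5 * (c * -a') + 5 * (c' * a)) := by
    rw [h1, h2]
    have h4 : h ^ (-(a * -a')) * δ ^ (5 * (c * -a')) * (h ^ (-(a' * a)) * δ ^ (5 * (c' * a))) =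
        h ^ (-(a * -a')) * (δ ^ (5 * (c * -a')) * h ^ (-(a' * a))) * δ ^ (5 * (c' * a)) := by
      group
    rw [h4, central_zpow, ← mul_assoc, ← zpow_add, mul_assoc, ← zpow_add]
    have h5 : -(a * -a') + -(a' * a) = 0 := by ring
    rw [h5, zpow_zero, one_mul]
  refine ((H.gr.pow (b * (-a').toNat)).append (H'.gr.pow (b' * a.toNat))).ne_zpow ?_ _ h3
  have h6 : 0 < (-a').toNat := by omega
  have h7 := Nat.mul_pos (Nat.mul_pos H.bpos h6) H.pos
  omega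

theorem gh6_same (H : gh6_Loop h s w n a b c) (H' : gh6_Loop h s w' n' a' b' c') :
    w ^ (b * a'.natAbs) = w' ^ (b' * a.natAbs) := by
  have hs : a * (a'.natAbs : ℤ) = a' * (a.natAbs : ℤ) := by
    have h1 := gh6_ne H
    have h2 := gh6_ne H'
    rcases lt_or_gt_of_ne h1 with h3 | h3 <;> rcases lt_or_gt_of_ne h2 with h4 | h4
    · rw [Int.ofNat_natAbs_of_nonpos h3.le, Int.ofNat_natAbs_of_nonpos h4.le]
      ring
    · exact (gh6_sign H' H h4 h3).elim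
    · exact (gh6_sign H H' h3 h4).elim
    · rw [Int.natAbs_of_nonneg h3.le, Int.natAbs_of_nonneg h4.le]
      ring
  have d1 := gh6_d H a'.natAbs
  have d2 := gh6_d H' a.natAbs
  rw [hs, d2] at d1
  rw [gh6_pow H, gh6_pow H', hs, ← d1]

end loops

theorem no_ray {g : G} (y : ℕ → G) (hy : Ray g y)
    (htor : ∀ u : G, Commute g u → ∃ a b c : ℤ, 0 < b ∧ g ^ a * u ^ b = δ ^ c) : False := by
  -- a recurrent state
  obtain ⟨h, s, hinf⟩ : ∃ h s : G, {i : ℕ | (y (i + 1))⁻¹ * g * y (i + 1) = h ∧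
      st y i = s}.Infinite := by
    have hfin : ((({h : G | ∃ y ∈ MM g, h = y⁻¹ * g * y}) ×ˢ
        (Set.Icc (1 : G) δ)) : Set (G × G)).Finite := (MM_finite g).prod (finite_Icc _ _)
    have hF : Finite ((({h : G | ∃ y ∈ MM g, h = y⁻¹ * g * y}) ×ˢ
        (Set.Icc (1 : G) δ)) : Set (G × G)) := hfin
    obtain ⟨σ, hσ⟩ := Finite.exists_infinite_fiber (fun i : ℕ =>
      (⟨((y (i + 1))⁻¹ * g * y (i + 1), st y i), ⟨y (i + 1), hy.mem (i + 1), rfl⟩,
        (gh5_one_lt hy i).le, (gh5_lt hy i).le⟩ :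
        ((({h : G | ∃ y ∈ MM g, h = y⁻¹ * g * y}) ×ˢ (Set.Icc (1 : G) δ)) : Set (G × G))))
    refine ⟨σ.1.1, σ.1.2, ?_⟩
    refine Set.infinite_coe_iff.mp hσ |>.mono ?_
    intro i hi
    have h1 := congrArg Subtype.val hi
    exact ⟨congrArg Prod.fst h1, congrArg Prod.snd h1⟩
  -- loops
  have hloop : ∀ i j : ℕ, i < j → ((y (i + 1))⁻¹ * g * y (i + 1) = h ∧ st y i = s) →
      ((y (j + 1))⁻¹ * g * y (j + 1) = h ∧ st y j = s) →
      ∃ (a : ℤ) (b : ℕ) (c : ℤ), gh6_Loop h s ((y (i + 1))⁻¹ * y (j + 1)) (j - i) a b c := by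
    rintro i j hij ⟨hi1, hi2⟩ ⟨hj1, hj2⟩
    have hcu : Commute g (y (j + 1) * (y (i + 1))⁻¹) := by
      have h1 : g * y (j + 1) = y (j + 1) * h := by rw [← hj1]; group
      have h2 : h * (y (i + 1))⁻¹ = (y (i + 1))⁻¹ * g := by rw [← hi1]; group
      change g * (y (j + 1) * (y (i + 1))⁻¹) = y (j + 1) * (y (i + 1))⁻¹ * g
      rw [← mul_assoc, h1, mul_assoc, h2, mul_assoc]
    obtain ⟨a, b, c, hb, hrel⟩ := htor _ hcu
    refine ⟨a * 5, (b * 5).toNat, c, ?_, by omega, ?_, by omega, ?_⟩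
    · have := hy.gr hij.le
      rwa [hi2, hj2] at this
    · change h * ((y (i + 1))⁻¹ * y (j + 1)) = (y (i + 1))⁻¹ * y (j + 1) * h
      conv_lhs => rw [← hi1]
      conv_rhs => rw [← hj1]
      group
    · rw [← zpow_natCast, Int.toNat_of_nonneg (by omega)]
      have h1 : (g ^ a * (y (j + 1) * (y (i + 1))⁻¹) ^ b) ^ (5 : ℤ) = δ ^ (5 * c) := by
        rw [hrel, ← zpow_mul]
        congr 1
        ring
      have h2 : Commute (g ^ a) ((y (j + 1) * (y (i + 1))⁻¹) ^ b) :=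
        (hcu.zpow_left a).zpow_right b
      rw [h2.mul_zpow, ← zpow_mul, ← zpow_mul] at h1
      have h3 : h ^ (a * 5) = (y (i + 1))⁻¹ * g ^ (a * 5) * y (i + 1) := by
        rw [← hi1]
        have := conj_zpow (i := a * 5) (a := (y (i + 1))⁻¹) (b := g)
        rwa [inv_inv] at this
      have h4 : ((y (i + 1))⁻¹ * y (j + 1)) ^ (b * 5) =
          (y (i + 1))⁻¹ * (y (j + 1) * (y (i + 1))⁻¹) ^ (b * 5) * y (i + 1) := by
        have := conj_zpow (i := b * 5) (a := (y (i + 1))⁻¹) (b := y (j + 1) * (y (i + 1))⁻¹)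
        rw [inv_inv] at this
        rw [← this]
        congr 1
        group
      rw [h3, h4]
      calc (y (i + 1))⁻¹ * g ^ (a * 5) * y (i + 1) *
            ((y (i + 1))⁻¹ * (y (j + 1) * (y (i + 1))⁻¹) ^ (b * 5) * y (i + 1))
          = (y (i + 1))⁻¹ * (g ^ (a * 5) * (y (j + 1) * (y (i + 1))⁻¹) ^ (b * 5)) *
            y (i + 1) := by group
        _ = (y (i + 1))⁻¹ * (δ ^ (5 * c) * y (i + 1)) := by rw [h1, mul_assoc]
        _ = δ ^ (5 * c) := by rw [central_zpow, inv_mul_cancel_left]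
  -- the first loop
  obtain ⟨i0, hi0⟩ := hinf.nonempty
  obtain ⟨i1, hi1, hlt1⟩ := hinf.exists_gt i0
  obtain ⟨a0, b0, c0, L0⟩ := hloop i0 i1 hlt1 hi0 hi1
  obtain ⟨iK, hiK, hltK⟩ := hinf.exists_gt (i0 + b0 * (i1 - i0))
  have hi0K : i0 < iK := by omega
  obtain ⟨a, b, c, LK⟩ := hloop i0 iK hi0K hi0 hiK
  set w0 := (y (i0 + 1))⁻¹ * y (i1 + 1) with hw0
  set W := (y (i0 + 1))⁻¹ * y (iK + 1) with hW
  set n0 := b0 * (i1 - i0) with hn0
  have hn0pos : 0 < n0 := Nat.mul_pos L0.bpos L0.pos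
  have heq : W ^ (b * a0.natAbs) = w0 ^ (b0 * a.natAbs) := gh6_same LK L0
  have ha0 : 0 < a0.natAbs := Int.natAbs_pos.mpr (gh6_ne L0)
  have ha : 0 < a.natAbs := Int.natAbs_pos.mpr (gh6_ne LK)
  -- prefixes
  have p1 : (w0 ^ (b0 * a.natAbs)) ⊓ δ ^ n0 = w0 ^ b0 := by
    have h1 : b0 * a.natAbs = b0 + b0 * (a.natAbs - 1) := by
      obtain ⟨m, hm⟩ := Nat.exists_eq_succ_of_ne_zero ha.ne'
      rw [hm]
      simp only [Nat.succ_eq_add_one, Nat.add_sub_cancel]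
      ring
    rw [h1, pow_add]
    exact (L0.gr.pow b0).pre (L0.gr.pow _)
  have p2 : (W ^ (b * a0.natAbs)) ⊓ δ ^ n0 = (y (i0 + 1))⁻¹ * y (i0 + n0 + 1) := by
    have hB : 0 < b * a0.natAbs := Nat.mul_pos LK.bpos ha0
    obtain ⟨m, hm⟩ := Nat.exists_eq_succ_of_ne_zero hB.ne'
    have g1 := hy.gr (show i0 ≤ i0 + n0 by omega)
    have g2 := hy.gr (show i0 + n0 ≤ iK by omega)
    have g3 := LK.gr.pow m
    rw [hi0.2, Nat.add_sub_cancel_left] at g1
    rw [hiK.2] at g2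
    have h1 : W ^ (b * a0.natAbs) = (y (i0 + 1))⁻¹ * y (i0 + n0 + 1) *
        ((y (i0 + n0 + 1))⁻¹ * y (iK + 1) * W ^ m) := by
      rw [hm, Nat.succ_eq_add_one, pow_succ', hW]
      group
    rw [h1]
    exact g1.pre (g2.append g3)
  rw [heq, p1] at p2
  -- the contradiction
  have h5 := gh6_pow L0 1
  simp only [Nat.cast_one, mul_one] at h5
  rw [p2] at h5
  have h6 : y (i0 + n0 + 1) = g ^ (-a0) * y (i0 + 1) * δ ^ (5 * c0) := by
    have h7 : h ^ (-a0) = (y (i0 + 1))⁻¹ * g ^ (-a0) * y (i0 + 1) := by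
      rw [← hi0.1]
      have := conj_zpow (i := -a0) (a := (y (i0 + 1))⁻¹) (b := g)
      rwa [inv_inv] at this
    rw [h7] at h5
    have h8 := congrArg (fun z => y (i0 + 1) * z) h5
    rw [mul_inv_cancel_left] at h8
    rw [h8]
    group
  have h9 := hy.far (i0 + n0 + 1) a0
  have h10 := gh5_dd hy (i0 + 1)
  rw [h6, ← mul_assoc, ← mul_assoc, dd_zpow, ← zpow_add, add_neg_cancel, zpow_zero, one_mul] at h9
  push_cast at h9 h10
  linarith [hn0pos, (show (0 : ℤ) < n0 by exact_mod_cast hn0pos)]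

end Gar

end Pool.Agent.H88.GH
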