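import Pool.Agent.H88.GH.RayEx
import Pool.Agent.H88.GH.Tail

/-!
# Project GH (MP_35eb49), row GH-7: large centralizers contain a flat
-/

set_option autoImplicit false

namespace Pool.Agent.H88.GH

namespace Gar

variable {G : Type} [Group G] [Gar G]

theorem exists_rank_two (g : G) (hg : ∀ m : ℕ, 0 < m → ∀ k : ℤ, g ^ m ≠ δ ^ k)
    (hi : (Subgroup.zpowers g ⊔ Subgroup.center G).relIndex (Subgroup.centralizer {g}) = 0) :
    ∃ u : G, Commute g u ∧ ∀ a b c : ℤ, g ^ a * u ^ b = δ ^ c → a = 0 ∧ b = 0 := by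
  by_contra hcon
  push Not at hcon
  obtain ⟨y, hy⟩ := exists_ray g (exists_far g hi)
  refine no_ray y hy fun u hu => ?_
  obtain ⟨a, b, c, hrel, hab⟩ := hcon u hu
  have hb : b ≠ 0 := by
    intro hb
    have ha : a ≠ 0 := fun ha => hab ha hb
    rw [hb, zpow_zero, mul_one] at hrel
    rcases lt_or_gt_of_ne ha with h1 | h1
    · refine hg (-a).toNat (by omega) (-c) ?_
      rw [← zpow_natCast, Int.toNat_of_nonneg (by omega), zpow_neg, hrel, zpow_neg]
    · refine hg a.toNat (by omega) c ?_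
      rw [← zpow_natCast, Int.toNat_of_nonneg (by omega), hrel]
  rcases lt_or_gt_of_ne hb with h1 | h1
  · refine ⟨-a, -b, -c, by omega, ?_⟩
    have h2 : Commute (g ^ a) (u ^ b) := (hu.zpow_left a).zpow_right b
    rw [zpow_neg, zpow_neg, zpow_neg, ← hrel, mul_inv_rev, ← mul_inv_rev, ← mul_inv_rev, h2.eq]
  · exact ⟨a, b, c, h1, hrel⟩

end Gar

end Pool.Agent.H88.GH
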